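import Pool.Agent.MP_5168f5_an.H17F.Api
import Pool.Agent.MP_5168f5_an.H17S.CND

/-! Entropy and events. -/

namespace Pool.Agent.MP_5168f5_an.H17F

open H19 H17S Filter

namespace KEA

variable {Ω Ω' α β γ : Type}

theorem cv_eq (P : FP Ω) (φ : Ω → β) {a : Ω} (ha : a ∈ P.S) : cv P φ (φ a) = cnd P φ a := by
  have h1 : pb P (fun ω => φ ω = φ a) = P.pr (Setoid.ker φ) a := P.E_congr fun _ _ => by congr
  unfold cv cE cnd
  rw [dif_pos ⟨a, ha, rfl⟩, dif_pos ha, FP.mk.injEq]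
  refine ⟨?_, by simp only [h1]⟩
  ext b
  simp only [Finset.mem_filter]

theorem exp (P : FP Ω) (φ : Ω → β) (F : β → Ω → ℝ) :
    P.E (fun ω => F (φ ω) ω) = P.E fun ω => (cv P φ (φ ω)).E (F (φ ω)) := by
  rw [CND.exp P φ (fun ω => F (φ ω)) fun a _ b _ e => by simp only [e]]
  exact P.E_congr fun ω hω => by rw [cv_eq P φ hω]

theorem ent1 (P : FP Ω) (φ : Ω → β) (F : β → Ω → α) :
    ch P (fun ω => F (φ ω) ω) φ = P.E fun ω => hh (cv P φ (φ ω)) (F (φ ω)) := by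
  rw [CND.ent P φ (fun ω => F (φ ω)) fun a _ b _ e => by simp only [e]]
  exact P.E_congr fun ω hω => by rw [cv_eq P φ hω]

theorem ent (P : FP Ω) (φ : Ω → β) (F : β → Ω → α) (G : β → Ω → γ) :
    ch P (fun ω => F (φ ω) ω) (fun ω => (G (φ ω) ω, φ ω)) =
      P.E fun ω => ch (cv P φ (φ ω)) (F (φ ω)) (G (φ ω)) := by
  have h1 := ent1 P φ fun v ω => (F v ω, G v ω)
  have h2 := ent1 P φ G
  have h3 := ch_chain (P := P) (fun ω => G (φ ω) ω) (fun ω => F (φ ω) ω) φ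
  have h4 : ch P (fun ω => (G (φ ω) ω, F (φ ω) ω)) φ =
      ch P (fun ω => (F (φ ω) ω, G (φ ω) ω)) φ :=
    le_antisymm (ch_mono fun a _ b _ e => by simp only [Prod.mk.injEq] at e ⊢; tauto)
      (ch_mono fun a _ b _ e => by simp only [Prod.mk.injEq] at e ⊢; tauto)
  have h5 : P.E (fun ω => ch (cv P φ (φ ω)) (F (φ ω)) (G (φ ω))) =
      P.E (fun ω => hh (cv P φ (φ ω)) fun a => (F (φ ω) a, G (φ ω) a)) -
        P.E fun ω => hh (cv P φ (φ ω)) (G (φ ω)) := P.E_sub _ _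
  linarith

theorem E_prop (P : FP Ω) (E : Ω → Prop) (g : Prop → ℝ) :
    P.E (fun ω => g (E ω)) = pb P E * g True + (1 - pb P E) * g False := by
  rw [← pb_not, mul_comm, mul_comm (pb _ _)]
  unfold pb
  rw [← P.E_mul, ← P.E_mul, ← P.E_add]
  refine P.E_congr fun ω _ => ?_
  by_cases h : E ω <;> simp [h]

theorem key (P : FP Ω) (E : Ω → Prop) (F : Ω → α) (G : Ω → β) :
    ch P F (fun ω => (G ω, E ω)) =
      pb P E * ch (cE P E) F G + (1 - pb P E) * ch (cE P fun ω => ¬E ω) F G := by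
  have h1 : cv P E True = cE P E := by unfold cv; simp only [eq_iff_iff, iff_true]
  have h2 : cv P E False = cE P fun ω => ¬E ω := by unfold cv; simp only [eq_iff_iff, iff_false]
  rw [ent P E (fun _ => F) fun _ => G, E_prop P E fun s => ch (cv P E s) F G, h1, h2]

theorem ge (P : FP Ω) (E : Ω → Prop) (F : Ω → α) (G : Ω → β) :
    pb P E * ch (cE P E) F G + (1 - pb P E) * ch (cE P fun ω => ¬E ω) F G ≤ ch P F G := by
  rw [← key]; exact ch_anti (Fn.fst G E)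

theorem le (P : FP Ω) (E : Ω → Prop) (F : Ω → α) (G : Ω → β) :
    ch P F G ≤ lg + pb P E * ch (cE P E) F G + (1 - pb P E) * ch (cE P fun ω => ¬E ω) F G := by
  have h1 := ch_tri' (P := P) F G fun ω => (G ω, E ω)
  have h2 : ch P (fun ω => (G ω, E ω)) G ≤ lg := by
    refine (ch_mono (F' := E) ((Fn.snd E G).pair (Fn.fst E G))).trans (ch_det fun _ _ => ?_)
    exact ⟨Finset.univ, by simp, fun _ _ _ => Finset.mem_univ _⟩
  rw [key] at h1
  linarith

theorem eq (P : FP Ω) (E : Ω → Prop) (F : Ω → α) (G : Ω → β) (h : Fn P E G) :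
    ch P F G = pb P E * ch (cE P E) F G + (1 - pb P E) * ch (cE P fun ω => ¬E ω) F G := by
  rw [← key]
  exact le_antisymm (ch_anti ((Fn.rfl G).pair h)) (ch_anti (Fn.fst G E))

theorem inf (P : FP Ω) (E : Ω → Prop) (F : Ω → α) (G : Ω → β) (K : Ω → γ)
    (h : Fn P E fun ω => (F ω, K ω)) : pb P E * mi (cE P E) F G K ≤ mi P F G K := by
  rw [mi_symm, mi_symm F]
  have h1 := ge P E G K
  have h2 := eq P E G _ h
  have h3 := mul_nonneg (sub_nonneg.2 (pb_le_one P E))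
    (mi_nonneg (P := cE P fun ω => ¬E ω) G F K)
  unfold mi at *
  linarith

theorem law (P : FP Ω) (Q : FP Ω') (f : Ω → α) (g : Ω' → α) (E : α → Prop) (h : Law P f Q g) :
    Law (cE P fun ω => E (f ω)) f (cE Q fun ω => E (g ω)) g := by
  classical
  have h1 := h.pb_eq E
  by_cases k : ∃ ω ∈ P.S, E (f ω)
  · intro F
    refine mul_left_cancel₀ (pb_pos P k).ne' ?_
    rw [E_cE, h1, E_cE]
    exact h fun v => if E v then F v else 0
  · have k' : ¬∃ ω ∈ Q.S, E (g ω) := fun k' => k (ex_of_pb (h1 ▸ pb_pos Q k'))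
    unfold cE
    rwa [dif_neg k, dif_neg k']

theorem sparse (P : FP Ω) (E : Ω → Prop) (F : Ω → α) (G : Ω → β) (B B' : ℝ) (h : Det P F G B)
    (h' : ∀ a ∈ P.S, ∃ T : Finset α, (T.card : ℝ) ≤ B' ∧ ∀ b ∈ P.S, G b = G a → E b → F b ∈ T) :
    ch P F G ≤ lg + pb P E * Real.log B' + (1 - pb P E) * Real.log B := by
  refine (le P E F G).trans (add_le_add (add_le_add le_rfl ?_)
    (mul_le_mul_of_nonneg_left (ch_det (det_cE h _)) (sub_nonneg.2 (pb_le_one P E))))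
  by_cases k : ∃ ω ∈ P.S, E ω
  · refine mul_le_mul_of_nonneg_left (ch_det fun a ha => ?_) (pb_nonneg P E)
    exact (h' a (cE_sub ha)).imp fun T hT =>
      ⟨hT.1, fun b hb e => hT.2 b (cE_sub hb) e ((mem_cE k b).1 hb).2⟩
  · push Not at k
    rw [pb_zero k, zero_mul, zero_mul]

end KEA

theorem rowKE : KE :=
  ⟨KEA.le, KEA.ge, KEA.eq, KEA.inf, KEA.exp, KEA.ent, KEA.ent1, KEA.law, KEA.sparse⟩

end Pool.Agent.MP_5168f5_an.H17F
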