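import Pool.Agent.MP_5168f5_an.H17F.Api

/-! Conditionally independent couplings. -/

namespace Pool.Agent.MP_5168f5_an.H17F

open H19 H17S Filter

namespace KGA

variable {Ω Ω' α β γ δ : Type}

theorem E_bind_fst (P : FP Ω) (K : Ω → FP Ω') (F : Ω → ℝ) :
    (bind P K).E (fun x => F x.1) = P.E F := by
  rw [E_bind]
  exact P.E_congr fun ω _ => (K ω).E_const (F ω)

theorem E_swap (P : FP Ω) (Q : FP Ω') (F : Ω → Ω' → ℝ) :
    P.E (fun a => Q.E fun b => F a b) = Q.E fun b => P.E fun a => F a b := by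
  simp only [FP.E, Finset.mul_sum]
  rw [Finset.sum_comm]
  exact Finset.sum_congr rfl fun _ _ => Finset.sum_congr rfl fun _ _ => by ring

theorem ent_bind (P : FP Ω) (K : Ω → FP Ω') (G : Ω → β) (F : Ω' → α) (hK : Fn P K G) :
    ch (bind P K) (fun x => F x.2) (fun x => G x.1) = P.E fun ω => hh (K ω) F := by
  classical
  have h1 : ∀ x ∈ (bind P K).S, (bind P K).pr (Setoid.ker fun y => (F y.2, G y.1)) x =
      (K x.1).pr (Setoid.ker F) x.2 * P.pr (Setoid.ker G) x.1 := by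
    intro x hx
    rw [mem_bind] at hx
    unfold FP.pr
    rw [E_bind, ← P.E_mul]
    refine P.E_congr fun a ha => ?_
    by_cases h : G a = G x.1
    · rw [if_pos (show Setoid.ker G a x.1 from h), mul_one, hK a ha _ hx.1 h]
      refine (K x.1).E_congr fun b _ => ?_
      simp only [Setoid.ker_def, Prod.mk.injEq, h, and_true]
    · rw [if_neg (show ¬ Setoid.ker G a x.1 from h), mul_zero]
      refine Eq.trans ((K a).E_congr fun b _ => ?_) ((K a).E_const 0)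
      simp only [Setoid.ker_def, Prod.mk.injEq, h, and_false, if_false]
  have h2 : hh (bind P K) (fun x => G x.1) = hh P G :=
    hh_law _ _ fun F => E_bind_fst P K fun ω => F (G ω)
  unfold ch
  rw [h2]
  unfold hh FP.H
  rw [(bind P K).E_congr fun x hx => by rw [h1 x hx], E_bind, ← P.E_sub]
  refine P.E_congr fun ω hω => ?_
  have h3 : (K ω).E (fun b => -Real.log ((K ω).pr (Setoid.ker F) b * P.pr (Setoid.ker G) ω)) =
      (K ω).E fun b => -Real.log ((K ω).pr (Setoid.ker F) b) +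
        -Real.log (P.pr (Setoid.ker G) ω) :=
    (K ω).E_congr fun b hb => by
      rw [Real.log_mul ((K ω).pr_pos _ hb).ne' (P.pr_pos _ hω).ne']; ring
  rw [h3, FP.E_add, FP.E_const]
  ring

variable (P : FP Ω) (Q : FP Ω') (φ : Ω → β) (ψ : Ω' → β)

theorem E_glue (F : Ω × Ω' → ℝ) :
    (glue P Q φ ψ).E F = P.E fun x => (cv Q ψ (φ x)).E fun y => F (x, y) := E_bind _ _ F

theorem mem (v : Ω × Ω') (h : Law P φ Q ψ) :
    v ∈ (glue P Q φ ψ).S ↔ v.1 ∈ P.S ∧ v.2 ∈ Q.S ∧ ψ v.2 = φ v.1 :=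
  (mem_bind _ _ v).trans (and_congr_right fun h1 => mem_cE (h.ex h1) v.2)

theorem fst : Law (glue P Q φ ψ) Prod.fst P id := fun F => E_bind_fst P _ F

theorem snd (ke : KE) (h : Law P φ Q ψ) : Law (glue P Q φ ψ) Prod.snd Q id := fun F =>
  (E_glue P Q φ ψ _).trans ((h fun s => (cv Q ψ s).E F).trans (ke.exp Q ψ fun _ => F).symm)

theorem swap (ke : KE) (h : Law P φ Q ψ) :
    Law (glue P Q φ ψ) id (glue Q P ψ φ) Prod.swap := fun F => by
  rw [E_glue, E_glue, ke.exp P φ fun s x => (cv Q ψ s).E fun y => F (id (x, y)),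
    ke.exp Q ψ fun s y => (cv P φ s).E fun x => F (Prod.swap (y, x))]
  exact (h fun s => (cv P φ s).E fun x => (cv Q ψ s).E fun y => F (x, y)).trans
    (Q.E_congr fun _ _ => E_swap _ _ _)

theorem mk1 (ke : KE) (f : Ω' → α) (G : Ω → δ) (h : Law P φ Q ψ) (k : Fn P φ G) :
    ch (glue P Q φ ψ) (fun v => f v.2) (fun v => G v.1) = ch Q f ψ :=
  (ent_bind P _ G f ((Fn.comp (cv Q ψ) φ).trans k)).trans
    ((h fun s => hh (cv Q ψ s) f).trans (ke.ent1 Q ψ fun _ => f).symm)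

theorem mkv (ke : KE) (f : Ω' → α) (g : Ω' → γ) (G : Ω → δ) (h : Law P φ Q ψ) (k : Fn P φ G) :
    ch (glue P Q φ ψ) (fun v => f v.2) (fun v => (G v.1, g v.2)) = ch Q f fun y => (ψ y, g y) := by
  have h1 := mk1 P Q φ ψ ke (fun y => (g y, f y)) G h k
  have h2 := mk1 P Q φ ψ ke g G h k
  have h3 := ch_chain (P := glue P Q φ ψ) (fun v => g v.2) (fun v => f v.2) fun v => G v.1
  have h4 := ch_chain (P := Q) g f ψ
  have h5 : ch (glue P Q φ ψ) (fun v => f v.2) (fun v => (G v.1, g v.2)) =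
      ch (glue P Q φ ψ) (fun v => f v.2) fun v => (g v.2, G v.1) :=
    le_antisymm (ch_anti ((Fn.snd _ _).pair (Fn.fst _ _))) (ch_anti ((Fn.snd _ _).pair (Fn.fst _ _)))
  have h6 : ch Q f (fun y => (ψ y, g y)) = ch Q f fun y => (g y, ψ y) :=
    le_antisymm (ch_anti ((Fn.snd _ _).pair (Fn.fst _ _))) (ch_anti ((Fn.snd _ _).pair (Fn.fst _ _)))
  linarith

theorem mkv' (ke : KE) (f : Ω → α) (g : Ω → γ) (G : Ω' → δ) (h : Law P φ Q ψ) (k : Fn Q ψ G) :
    ch (glue P Q φ ψ) (fun v => f v.1) (fun v => (G v.2, g v.1)) = ch P f fun x => (φ x, g x) :=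
  ((swap P Q φ ψ ke h).ch_eq (fun v => f v.1) fun v => (G v.2, g v.1)).trans
    (mkv Q P ψ φ ke f g G h.symm k)

theorem cnd (ke : KE) (F : Ω × Ω' → α) : ch (glue P Q φ ψ) F (fun v => φ v.1) =
    P.E fun x => hh (prod (cv P φ (φ x)) (cv Q ψ (φ x))) F := by
  classical
  rw [ke.ent1 (glue P Q φ ψ) (fun v => φ v.1) fun _ => F]
  refine (fst P Q φ ψ fun x => hh (cv (glue P Q φ ψ) (fun v => φ v.1) (φ x)) F).trans
    (P.E_congr fun x hx => hh_law _ _ fun G => ?_)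
  have h1 : pb (glue P Q φ ψ) (fun v => φ v.1 = φ x) = pb P fun a => φ a = φ x :=
    (fst P Q φ ψ).pb_eq fun a => φ a = φ x
  refine mul_left_cancel₀ (pb_pos P (E := fun a => φ a = φ x) ⟨x, hx, rfl⟩).ne' ?_
  have h2 := E_cE (glue P Q φ ψ) (fun v => φ v.1 = φ x) fun v => G (F v)
  have h3 := E_cE P (fun a => φ a = φ x) fun a => (cv Q ψ (φ x)).E fun b => G (F (a, b))
  rw [h1, E_glue] at h2
  refine h2.trans (Eq.trans (P.E_congr fun a _ => ?_) (h3.symm.trans ?_))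
  · by_cases e : φ a = φ x
    · simp only [e, if_true]
    · simp only [e, if_false]; exact FP.E_const _ 0
  · exact congrArg _ (E_bind _ _ fun v => G (F v)).symm

end KGA

theorem rowKG : SKG := fun ke =>
  ⟨KGA.mem, KGA.fst, fun P Q φ ψ => KGA.snd P Q φ ψ ke, fun P Q φ ψ => KGA.swap P Q φ ψ ke,
    fun P Q φ ψ => KGA.mkv P Q φ ψ ke, fun P Q φ ψ => KGA.mkv' P Q φ ψ ke,
    fun P Q φ ψ => KGA.mk1 P Q φ ψ ke, fun P Q φ ψ F _ => KGA.cnd P Q φ ψ ke F⟩

end Pool.Agent.MP_5168f5_an.H17F
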