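import Pool.Agent.MP_5168f5_an.H17F.SqApi

/-! Sequences of probability spaces. -/

namespace Pool.Agent.MP_5168f5_an.H17F

open H19 H17S Filter

namespace KSA

theorem spill (p : ℕ → ℕ → Prop) (h : ∀ k, ∀ᶠ n in UF, p k n) :
    ∃ k : ℕ → ℕ, Big k ∧ ∀ᶠ n in UF, ∀ j ≤ k n, p j n := by
  classical
  have q : ∀ k, ∀ᶠ n in UF, ∀ j ≤ k, p j n := fun k =>
    (eventually_all_finite (Set.finite_Iic k)).2 fun j _ => h j
  refine ⟨fun n => Nat.findGreatest (fun k => ∀ j ≤ k, p j n) n, tendsto_atTop.2 fun b => ?_, ?_⟩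
  · filter_upwards [q b, ev_ge b] with n u v using Nat.le_findGreatest v u
  · filter_upwards [q 0] with n u
    exact Nat.findGreatest_spec (P := fun k => ∀ j ≤ k, p j n) (Nat.zero_le n) u

theorem pb_sum {Ω J : Type} [Fintype J] (P : FP Ω) (E : Ω → Prop) (ι : Ω → J) :
    pb P E = ∑ j, pb P fun ω => E ω ∧ ι ω = j := by
  classical
  unfold pb
  rw [← P.E_sum]
  refine P.E_congr fun ω _ => ?_
  by_cases h : E ω <;> simp [h]

variable {Ω α β : ℕ → Type} (P : ∀ n, FP (Ω n)) (E : ∀ n, Ω n → Prop)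

theorem pig {J : Type} [Finite J] (ι : ∀ n, Ω n → J) (h : Pos P E) :
    ∃ j, Pos P fun n ω => E n ω ∧ ι n ω = j := by
  have := Fintype.ofFinite J
  obtain ⟨κ, a, b⟩ := h
  have c : 0 < κ / (Fintype.card J + 1) := by positivity
  obtain ⟨j, hj⟩ := ev_ex (p := fun j n =>
      κ / (Fintype.card J + 1) ≤ pb (P n) fun ω => E n ω ∧ ι n ω = j) (b.mono fun n u => by
    by_contra k
    push Not at k
    have h1 := Finset.sum_le_sum fun j (_ : j ∈ Finset.univ) => (k j).le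
    rw [← pb_sum, Finset.sum_const, Finset.card_univ, nsmul_eq_mul] at h1
    have h2 : (Fintype.card J + 1 : ℝ) * (κ / (Fintype.card J + 1)) = κ :=
      mul_div_cancel₀ _ (by positivity)
    linarith)
  exact ⟨j, _, c, hj⟩

theorem wsub (G : ∀ n, Ω n → ℝ → Prop) (M : ℕ → ℕ)
    (h : ∀ c : ℝ, 0 < c → c ≤ 1 → Whp P fun n ω => G n ω (Real.exp (c * M n))) :
    ∃ L, Sub M L ∧ Whp P fun n ω => G n ω (L n) := by
  have c0 : ∀ k : ℕ, (0 : ℝ) < 1 / (k + 1) := fun k => by positivity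
  obtain ⟨k, k1, k2⟩ := spill _ fun k => h _ (c0 k)
    (div_le_one_of_le₀ (by linarith [Nat.cast_nonneg (α := ℝ) k]) (by positivity)) _ (c0 k)
  have k3 : ∀ ε : ℝ, 0 < ε → ∀ᶠ n in UF, 1 / (k n + 1 : ℝ) ≤ ε := fun ε hε => by
    filter_upwards [k1.ev (1 / ε)] with n u
    rw [div_le_iff₀ hε] at u
    rw [div_le_iff₀ (by positivity)]
    linarith
  refine ⟨fun n => Real.exp (1 / (k n + 1) * M n),
    ⟨fun n => Real.one_le_exp (by positivity), fun ε hε => (k3 ε hε).mono fun n u => ?_⟩,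
    fun ε hε => ?_⟩
  · exact Real.exp_le_exp.2 (mul_le_mul_of_nonneg_right u (Nat.cast_nonneg _))
  · filter_upwards [k2, k3 ε hε] with n u v using (u _ le_rfl).trans v

theorem event (M : ℕ → ℕ) (p f u v D : ℕ → ℝ) (C κ : ℝ) (hκ : 0 < κ)
    (h : ∀ᶠ n in UF, κ ≤ p n ∧ p n ≤ 1 ∧ 0 ≤ v n ∧ |D n| ≤ C * M n ∧
      p n * u n + (1 - p n) * v n ≤ f n) (hf : Le M f D)
    (hv : (∃ κ' : ℝ, 0 < κ' ∧ ∀ᶠ n in UF, κ' ≤ 1 - p n) → Le M D v) : Le M u D := by
  refine Le.of_mul hκ (h.mono fun n a => a.1) fun ε hε => ?_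
  by_cases k : ∃ κ' : ℝ, 0 < κ' ∧ ∀ᶠ n in UF, κ' ≤ 1 - p n
  · filter_upwards [h, hf _ (half_pos hε), hv k _ (half_pos hε)] with n a b c
    obtain ⟨a1, a2, -, -, a5⟩ := a
    have h1 := mul_le_mul_of_nonneg_left c (sub_nonneg.2 a2)
    have h2 : 0 ≤ p n * (ε / 2 * M n) := mul_nonneg (hκ.le.trans a1) (by positivity)
    linarith
  · have c0 : 0 < ε / 2 / (|C| + 1) := by positivity
    filter_upwards [h, hf _ (half_pos hε), not_ev.1 fun e => k ⟨_, c0, e⟩] with n a b c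
    obtain ⟨-, a2, a3, a4, a5⟩ := a
    have h1 := mul_nonneg (sub_nonneg.2 a2) a3
    have h2 : D n ≤ (|C| + 1) * M n := ((le_abs_self _).trans a4).trans
      (mul_le_mul_of_nonneg_right (by linarith [le_abs_self C]) (Nat.cast_nonneg _))
    have h3 := mul_le_mul_of_nonneg_left h2 (sub_nonneg.2 a2)
    have h4 := mul_le_mul_of_nonneg_right (not_le.1 c).le
      (show 0 ≤ (|C| + 1) * M n by positivity)
    rw [← mul_assoc (ε / 2 / _), div_mul_cancel₀ _ (by positivity)] at h4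
    linarith

variable (F : ∀ n, Ω n → α n) (G : ∀ n, Ω n → β n) (M : ℕ → ℕ)

theorem spw (ke : KE) (B L : ℕ → ℝ) (ε : ℝ) (hM : Big M) (hL : Sub M L) (hε : 0 < ε)
    (hB : Le M (fun n => Real.log (B n)) fun n => ch (P n) (F n) (G n))
    (h : ∀ᶠ n in UF, 0 < B n ∧ Det (P n) (F n) (G n) (L n * B n) ∧ ∀ a ∈ (P n).S,
      ∃ T : Finset (α n), (T.card : ℝ) ≤ L n * B n * Real.exp (-(ε * M n)) ∧
        ∀ b ∈ (P n).S, G n b = G n a → E n b → F n b ∈ T) : Whp P fun n ω => ¬E n ω := by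
  by_contra k
  obtain ⟨κ, a, b⟩ := (not_whp k).mono (F := E) (Eventually.of_forall fun _ _ _ => not_not.1)
  have h1 : Le M (fun n => ch (P n) (F n) (G n)) fun n => Real.log (B n) - κ * ε * M n := by
    refine Le.of_sub ((hM.sm lg).add hL.log) ?_
    filter_upwards [h, b] with n u v
    have h2 := ke.sparse _ (E n) _ _ _ _ u.2.1 u.2.2
    rw [Real.log_mul (mul_pos (hL.pos n) u.1).ne' (Real.exp_pos _).ne', Real.log_exp,
      Real.log_mul (hL.pos n).ne' u.1.ne'] at h2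
    have h3 := mul_le_mul_of_nonneg_right v (show 0 ≤ ε * M n by positivity)
    linarith
  exact (hB.trans h1).false hM (mul_pos a hε) (Eventually.of_forall fun n => by linarith)

theorem fano (ke : KE) (L : ℕ → ℝ) (C : ℝ) (hM : Big M) (hL : Sub M L) (hE : Whp P E)
    (h : ∀ᶠ n in UF, Det (P n) (F n) (G n) (Real.exp (C * M n)) ∧ ∀ a ∈ (P n).S,
      ∃ T : Finset (α n), (T.card : ℝ) ≤ L n ∧
        ∀ b ∈ (P n).S, G n b = G n a → E n b → F n b ∈ T) :
    Sm M fun n => ch (P n) (F n) (G n) := fun ε hε => by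
  filter_upwards [h, ((hM.sm lg).add hL.log) _ (half_pos hε),
    hE (ε / 2 / (|C| + 1)) (by positivity)] with n u v w
  have h2 := ke.sparse _ (E n) _ _ _ _ u.1 u.2
  rw [Real.log_exp, ← pb_not] at h2
  have h3 := mul_le_mul_of_nonneg_right (pb_le_one (P n) (E n)) (Real.log_nonneg (hL.1 n))
  have h4 : C * M n ≤ (|C| + 1) * M n :=
    mul_le_mul_of_nonneg_right (by linarith [le_abs_self C]) (Nat.cast_nonneg _)
  have h5 := mul_le_mul_of_nonneg_left h4 (pb_nonneg (P n) fun ω => ¬E n ω)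
  have h6 := mul_le_mul_of_nonneg_right w (show 0 ≤ (|C| + 1) * M n by positivity)
  rw [← mul_assoc (ε / 2 / _), div_mul_cancel₀ _ (by positivity)] at h6
  linarith

theorem full (ke : KE) (D : ℕ → ℝ) (hM : Big M) (hE : Pos P E)
    (h : Le M D fun n => ch (P n) (F n) (G n))
    (h' : Le M (fun n => ch (cE (P n) fun ω => ¬E n ω) (F n) (G n)) D) :
    Le M D fun n => ch (cE (P n) (E n)) (F n) (G n) := by
  obtain ⟨κ, a, b⟩ := hE
  refine Le.of_mul a b fun ε hε => ?_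
  filter_upwards [(h.add (hM.sm lg)) _ (half_pos hε), h' _ (half_pos hε)] with n u v
  have h1 := ke.le (P n) (E n) (F n) (G n)
  have h2 := mul_le_mul_of_nonneg_left v (sub_nonneg.2 (pb_le_one (P n) (E n)))
  have h3 : 0 ≤ pb (P n) (E n) * (ε / 2 * M n) := mul_nonneg (pb_nonneg _ _) (by positivity)
  linarith

theorem mark (e : ∀ n, Ω n → ℝ) (ε : ℝ) (hM : Big M) (hε : 0 < ε)
    (h : ∀ᶠ n in UF, ∀ ω ∈ (P n).S, 0 ≤ e n ω) (h' : Sm M fun n => (P n).E (e n)) :
    Whp P fun n ω => e n ω ≤ ε * M n := fun η hη => by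
  filter_upwards [h, h' (η * ε) (by positivity), hM.ev 1] with n u v w
  have h1 : ε * M n * pb (P n) (fun ω => ¬e n ω ≤ ε * M n) ≤ (P n).E (e n) := by
    unfold pb
    rw [← FP.E_mul]
    refine FP.E_mono _ fun ω hω => ?_
    split_ifs with k
    · rw [mul_one]; exact (not_le.1 k).le
    · rw [mul_zero]; exact u ω hω
  exact le_of_mul_le_mul_left (a := ε * M n) (by linarith) (by positivity)

end KSA

theorem rowKS : SKS := fun ke =>
  ⟨KSA.spill, KSA.pig, KSA.wsub, KSA.event, fun P E F G M => KSA.spw P E F G M ke,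
    fun P E F G M => KSA.fano P E F G M ke, fun P E F G M => KSA.full P E F G M ke,
    fun P e M => KSA.mark P M e⟩

end Pool.Agent.MP_5168f5_an.H17F
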