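import Pool.Agent.MP_5168f5_an.H17F.SqApi

/-! Sticky Kakeya sets have full dimension: more calculus of sequences and events. -/

namespace Pool.Agent.MP_5168f5_an.H17F

open H19 H17S Filter

section Seq

variable {M M' : ℕ → ℕ} {f g f₁ g₁ f₂ g₂ f₃ g₃ f₄ g₄ f₅ g₅ f₆ g₆ L L' : ℕ → ℝ}

theorem Le.of2 (h₁ : Le M f₁ g₁) (h₂ : Le M f₂ g₂)
    (h : ∀ᶠ n in UF, f n - g n ≤ (f₁ n - g₁ n) + (f₂ n - g₂ n)) : Le M f g :=
  (h₁.add h₂).of_sub (h.mono fun n hn => by linarith)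

theorem Le.of3 (h₁ : Le M f₁ g₁) (h₂ : Le M f₂ g₂) (h₃ : Le M f₃ g₃)
    (h : ∀ᶠ n in UF, f n - g n ≤ (f₁ n - g₁ n) + (f₂ n - g₂ n) + (f₃ n - g₃ n)) : Le M f g :=
  (h₁.add h₂).of2 h₃ (h.mono fun n hn => by linarith)

theorem Le.of4 (h₁ : Le M f₁ g₁) (h₂ : Le M f₂ g₂) (h₃ : Le M f₃ g₃) (h₄ : Le M f₄ g₄)
    (h : ∀ᶠ n in UF, f n - g n ≤
      (f₁ n - g₁ n) + (f₂ n - g₂ n) + (f₃ n - g₃ n) + (f₄ n - g₄ n)) : Le M f g :=
  (h₁.add h₂).of3 h₃ h₄ (h.mono fun n hn => by linarith)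

theorem Le.of5 (h₁ : Le M f₁ g₁) (h₂ : Le M f₂ g₂) (h₃ : Le M f₃ g₃) (h₄ : Le M f₄ g₄)
    (h₅ : Le M f₅ g₅) (h : ∀ᶠ n in UF, f n - g n ≤
      (f₁ n - g₁ n) + (f₂ n - g₂ n) + (f₃ n - g₃ n) + (f₄ n - g₄ n) + (f₅ n - g₅ n)) :
    Le M f g :=
  (h₁.add h₂).of4 h₃ h₄ h₅ (h.mono fun n hn => by linarith)

theorem Le.of6 (h₁ : Le M f₁ g₁) (h₂ : Le M f₂ g₂) (h₃ : Le M f₃ g₃) (h₄ : Le M f₄ g₄)
    (h₅ : Le M f₅ g₅) (h₆ : Le M f₆ g₆) (h : ∀ᶠ n in UF, f n - g n ≤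
      (f₁ n - g₁ n) + (f₂ n - g₂ n) + (f₃ n - g₃ n) + (f₄ n - g₄ n) + (f₅ n - g₅ n) +
        (f₆ n - g₆ n)) : Le M f g :=
  (h₁.add h₂).of5 h₃ h₄ h₅ h₆ (h.mono fun n hn => by linarith)

theorem Le.congr (h : Le M f₁ g₁) (hf : ∀ᶠ n in UF, f n = f₁ n) (hg : ∀ᶠ n in UF, g n = g₁ n) :
    Le M f g := h.of_sub ((hf.and hg).mono fun n hn => by rw [hn.1, hn.2])

theorem Le.sum {J : Type} (T : Finset J) {F G : J → ℕ → ℝ} (h : ∀ j ∈ T, Le M (F j) (G j)) :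
    Le M (fun n => ∑ j ∈ T, F j n) fun n => ∑ j ∈ T, G j n := by
  classical
  induction T using Finset.induction_on with
  | empty => simpa using Le.rfl
  | insert j T hj ih =>
    simp only [Finset.sum_insert hj]
    exact (h j (Finset.mem_insert_self j T)).add
      (ih fun i hi => h i (Finset.mem_insert_of_mem hi))

/-- Multiplication by a bounded nonnegative sequence. -/
theorem Le.bmul (h : Le M f g) {p : ℕ → ℝ} {C : ℝ} (hp : ∀ᶠ n in UF, 0 ≤ p n ∧ p n ≤ C) :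
    Le M (fun n => p n * f n) fun n => p n * g n := fun ε hε => by
  filter_upwards [h (ε / (|C| + 1)) (by positivity), hp] with n a b
  have h1 : p n * f n ≤ p n * (g n + ε / (|C| + 1) * M n) := mul_le_mul_of_nonneg_left a b.1
  have h0 : p n ≤ |C| + 1 := by linarith [le_abs_self C]
  have h2 : p n * (ε / (|C| + 1)) ≤ ε := by
    rw [← mul_div_assoc, div_le_iff₀ (by positivity)]; nlinarith
  have h3 : p n * (ε / (|C| + 1)) * M n ≤ ε * M n := mul_le_mul_of_nonneg_right h2 (by positivity)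
  nlinarith

theorem Sm.sum {J : Type} (T : Finset J) {F : J → ℕ → ℝ} (h : ∀ j ∈ T, Sm M (F j)) :
    Sm M fun n => ∑ j ∈ T, F j n :=
  (Le.sum T (G := fun _ _ => 0) h).of_sub (Eventually.of_forall fun n => by simp)

theorem Sm.cmul (h : Sm M f) (h0 : ∀ᶠ n in UF, 0 ≤ f n) (C : ℝ) : Sm M fun n => C * f n :=
  (h.smul (abs_nonneg C)).mono (h0.mono fun _ hn => mul_le_mul_of_nonneg_right (le_abs_self C) hn)

/-- It is enough to treat windows that are a fixed fraction of `M`. -/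
theorem Le.win {i : ℕ → ℕ} (hi : ∀ n, i n ≤ M n) (C : ℝ) (h₁ : Frac i M → Le M f g)
    (h₂ : Le M f fun n => g n + C * i n) : Le M f g := by
  rcases frac_or hi with h | h
  · exact h₁ h
  · exact h₂.of2 (h.cmul (Eventually.of_forall fun n => Nat.cast_nonneg _) C)
      (Eventually.of_forall fun n => by linarith)

theorem Le.eps (h : ∀ ε : ℝ, 0 < ε → Le M f fun n => g n + ε * M n) : Le M f g := fun ε hε => by
  filter_upwards [h (ε / 2) (by positivity) (ε / 2) (by positivity)] with n hn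
  linarith

theorem Le.num {a b : ℝ} (hM : Big M) (h : Le M (fun n => a * M n) fun n => b * M n) : a ≤ b := by
  by_contra hn
  push Not at hn
  exact h.false hM (c := a - b) (by linarith) (Eventually.of_forall fun n => by linarith)

theorem Sub.exp (h : Sm M f) (h0 : ∀ n, 0 ≤ f n) : Sub M fun n => Real.exp (f n) :=
  ⟨fun n => Real.one_le_exp (h0 n), fun ε hε => (h ε hε).mono fun n hn =>
    Real.exp_le_exp.2 (by simpa using hn)⟩

theorem Sub.nat (hM : Big M) : Sub M fun n => (M n : ℝ) + 1 := by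
  refine ⟨fun n => by linarith [Nat.cast_nonneg (α := ℝ) (M n)], fun ε hε => ?_⟩
  filter_upwards [hM.ev (2 / ε ^ 2)] with n hn
  rw [div_le_iff₀ (by positivity)] at hn
  have h1 := Real.quadratic_le_exp_of_nonneg (x := ε * M n) (by positivity)
  have h2 : (0 : ℝ) ≤ M n := by positivity
  have h3 : 2 * (M n : ℝ) ≤ M n * ε ^ 2 * M n := mul_le_mul_of_nonneg_right hn h2
  have h4 : 0 ≤ ε * M n := by positivity
  nlinarith

end Seq

section Info

variable {Ω α α' β β' γ γ' : Type} {P : FP Ω} {E E' : Ω → Prop}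

/-- `K'` refines `K`, and `G'`, `K'` are functions of `(G, K)`. -/
theorem mi_right {F : Ω → α} {G : Ω → β} {G' : Ω → β'} {K : Ω → γ} {K' : Ω → γ'}
    (hK : Fn P K K') (hK' : Fn P K' fun ω => (G ω, K ω)) (hG : Fn P G' fun ω => (G ω, K ω)) :
    mi P F G' K' ≤ mi P F G K :=
  sub_le_sub (ch_anti hK) (ch_anti (hG.pair hK'))

/-- `K'` refines `K`, and `F'`, `K'` are functions of `(F, K)`. -/
theorem mi_left {F : Ω → α} {F' : Ω → α'} {G : Ω → β} {K : Ω → γ} {K' : Ω → γ'}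
    (hK : Fn P K K') (hK' : Fn P K' fun ω => (F ω, K ω)) (hF : Fn P F' fun ω => (F ω, K ω)) :
    mi P F' G K' ≤ mi P F G K := by
  rw [mi_symm F', mi_symm F]; exact mi_right hK hK' hF

/-- Forgetting `G` in the condition costs at most the information. -/
theorem ch_le_mi {F : Ω → α} {G : Ω → β} {K : Ω → γ} {K' : Ω → γ'}
    (h : Fn P K' fun ω => (G ω, K ω)) : ch P F K ≤ ch P F K' + mi P F G K := by
  have := ch_anti (P := P) (F := F) h
  unfold mi; linarith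

theorem pb_one (h : ∀ ω ∈ P.S, E ω) : pb P E = 1 := by
  have h1 := pb_zero (P := P) (E := fun ω => ¬E ω) fun ω hω => not_not.2 (h ω hω)
  rw [pb_not] at h1; linarith

theorem FP.ext' {P Q : FP Ω} (h1 : P.S = Q.S) (h2 : P.p = Q.p) : P = Q := by
  cases P; cases Q; cases h1; cases h2; rfl

theorem cE_p (h : ∃ ω ∈ P.S, E ω) : (cE P E).p = fun a => P.p a / pb P E := by
  unfold cE; rw [dif_pos h]

theorem cE_congr (h : ∀ ω ∈ P.S, E ω ↔ E' ω) : cE P E = cE P E' := by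
  by_cases h1 : ∃ ω ∈ P.S, E ω
  · have h2 : ∃ ω ∈ P.S, E' ω := h1.imp fun ω hω => ⟨hω.1, (h ω hω.1).1 hω.2⟩
    refine FP.ext' (Finset.ext fun ω => ?_) ?_
    · rw [mem_cE h1, mem_cE h2]
      exact and_congr_right (h ω)
    · rw [cE_p h1, cE_p h2, pb_congr h]
  · have h2 : ¬∃ ω ∈ P.S, E' ω := fun h3 => h1 (h3.imp fun ω hω => ⟨hω.1, (h ω hω.1).2 hω.2⟩)
    unfold cE
    rw [dif_neg h1, dif_neg h2]

theorem cE_cE (h : ∃ ω ∈ P.S, E ω ∧ E' ω) : cE (cE P E) E' = cE P fun ω => E ω ∧ E' ω := by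
  have h1 : ∃ ω ∈ P.S, E ω := h.imp fun ω hω => ⟨hω.1, hω.2.1⟩
  have h2 : ∃ ω ∈ (cE P E).S, E' ω :=
    h.imp fun ω hω => ⟨(mem_cE h1 ω).2 ⟨hω.1, hω.2.1⟩, hω.2.2⟩
  refine FP.ext' (Finset.ext fun ω => ?_) ?_
  · rw [mem_cE h2, mem_cE h1, mem_cE h, and_assoc]
  · rw [cE_p h2, cE_p h, ← pb_cE P E E']
    funext a
    rw [cE_p h1, div_div]

end Info

section Events

variable {Ω : ℕ → Type} {P : ∀ n, FP (Ω n)} {E E' : ∀ n, Ω n → Prop}

theorem Pos.of_ev (h : ∀ᶠ n in UF, ∀ ω ∈ (P n).S, E n ω) : Pos P E :=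
  ⟨1, one_pos, h.mono fun _ hn => (pb_one hn).ge⟩

theorem Pos.cE (h : Pos P fun n ω => E n ω ∧ E' n ω) : Pos (fun n => cE (P n) (E n)) E' := by
  obtain ⟨κ, hκ, h1⟩ := h
  refine ⟨κ, hκ, h1.mono fun n a => ?_⟩
  obtain ⟨ω, hω, h2⟩ := ex_of_pb (hκ.trans_le a)
  have h3 := pb_cE (P n) (E n) (E' n)
  have h4 := pb_le_one (P n) (E n)
  have h5 := pb_nonneg (H17F.cE (P n) (E n)) (E' n)
  nlinarith

theorem Pos.of_cE (hE : Pos P E) (h : Pos (fun n => H17F.cE (P n) (E n)) E') :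
    Pos P fun n ω => E n ω ∧ E' n ω := by
  obtain ⟨κ, hκ, h1⟩ := hE
  obtain ⟨κ', hκ', h2⟩ := h
  refine ⟨κ * κ', by positivity, ?_⟩
  filter_upwards [h1, h2] with n a b
  rw [← pb_cE]
  exact mul_le_mul a b hκ'.le (pb_nonneg _ _)

end Events

section Cells

variable {Ω β ι : Type} [Fintype ι] {P : FP Ω}

/-- A vector known up to `B / 2^j`, and exactly in the coordinates outside `T`. -/
theorem det_flv (T : Finset ι) {x : Ω → ι → ℝ} {G : Ω → β} {j : ℕ} {B : ℝ} (hB : 1 ≤ B)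
    (h : ∀ a ∈ P.S, ∀ b ∈ P.S, G a = G b → ∀ i, |x a i - x b i| ≤ B / 2 ^ j ∧
      (i ∉ T → fl1 j (x a i) = fl1 j (x b i))) :
    Det P (fun ω => flv j (x ω)) G ((5 * B) ^ T.card) := by
  classical
  intro a ha
  refine ⟨Fintype.piFinset fun i => if i ∈ T then
    Finset.Icc (fl1 j (x a i) - ⌈B⌉₊) (fl1 j (x a i) + ⌈B⌉₊) else {fl1 j (x a i)}, ?_,
    fun b hb e => Fintype.mem_piFinset.2 fun i => ?_⟩
  · rw [Fintype.card_piFinset]
    have h1 : ∀ i, (if i ∈ T then Finset.Icc (fl1 j (x a i) - ⌈B⌉₊) (fl1 j (x a i) + ⌈B⌉₊)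
        else {fl1 j (x a i)}).card = if i ∈ T then 2 * ⌈B⌉₊ + 1 else 1 := by
      intro i
      split_ifs
      · rw [Int.card_Icc]; omega
      · simp
    simp only [h1]
    rw [Finset.prod_ite_mem, Finset.univ_inter, Finset.prod_const]
    push_cast
    have h2 := (Nat.ceil_lt_add_one (by linarith : (0 : ℝ) ≤ B)).le
    exact pow_le_pow_left₀ (by positivity) (by linarith) _
  · obtain ⟨h1, h2⟩ := h b hb a ha e i
    by_cases hi : i ∈ T
    · rw [if_pos hi]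
      refine fl1_mem_Icc (h1.trans ?_)
      rw [div_eq_mul_inv]
      exact mul_le_mul_of_nonneg_right (Nat.le_ceil B) (by positivity)
    · rw [if_neg hi]
      exact Finset.mem_singleton.2 (h2 hi)

theorem ch_flv (T : Finset ι) {x : Ω → ι → ℝ} {G : Ω → β} {j : ℕ} {B : ℝ} (hB : 1 ≤ B)
    (h : ∀ a ∈ P.S, ∀ b ∈ P.S, G a = G b → ∀ i, |x a i - x b i| ≤ B / 2 ^ j ∧
      (i ∉ T → fl1 j (x a i) = fl1 j (x b i))) :
    ch P (fun ω => flv j (x ω)) G ≤ T.card * Real.log (5 * B) := by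
  have := ch_det (det_flv T hB h)
  rwa [Real.log_pow] at this

theorem abs_mulVec_le {κ : Type} {A : Matrix κ ι ℝ} {v : ι → ℝ} {L B : ℝ}
    (hA : ∀ i j, |A i j| ≤ L) (hv : ∀ j, |v j| ≤ B) (i : κ) :
    |A.mulVec v i| ≤ Fintype.card ι * L * B := by
  unfold Matrix.mulVec dotProduct
  refine (Finset.abs_sum_le_sum_abs _ _).trans ?_
  refine (Finset.sum_le_card_nsmul _ _ (L * B) fun j _ => ?_).trans (le_of_eq ?_)
  · rw [abs_mul]
    exact mul_le_mul (hA i j) (hv j) (abs_nonneg _) ((abs_nonneg _).trans (hA i j))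
  · simp [mul_assoc]

end Cells

section SeqCells

variable {Ω β : ℕ → Type} {ι : Type} [Fintype ι] {P : ∀ n, FP (Ω n)} {M j k : ℕ → ℕ} {L : ℕ → ℝ}
  {G : ∀ n, Ω n → β n}

/-- A vector known up to `L / 2^j` (exactly outside `T`), read at the finer resolution `k`. -/
theorem le_flv (T : Finset ι) {x : ∀ n, Ω n → ι → ℝ} (hM : Big M) (hL : Sub M L)
    (hjk : ∀ n, j n ≤ k n) (h : ∀ᶠ n in UF, ∀ a ∈ (P n).S, ∀ b ∈ (P n).S, G n a = G n b → ∀ i,
      |x n a i - x n b i| ≤ L n / 2 ^ j n ∧ (i ∉ T → fl1 (k n) (x n a i) = fl1 (k n) (x n b i))) :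
    Le M (fun n => ch (P n) (fun ω => flv (k n) (x n ω)) (G n)) fun n =>
      T.card * (k n - j n : ℝ) * lg := by
  refine Le.of_sub ((Sub.log (hL.const_mul hM (C := 5) (by norm_num))).smul (c := T.card)
    (by positivity)) (h.mono fun n hn => ?_)
  have h0 := hL.pos n
  have h1 : (1 : ℝ) ≤ L n * 2 ^ (k n - j n) :=
    one_le_mul_of_one_le_of_one_le (hL.1 n) (one_le_pow₀ (by norm_num))
  have h2 := ch_flv (P := P n) T (x := x n) (G := G n) (j := k n) h1 fun a ha b hb e i => by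
    refine ⟨(hn a ha b hb e i).1.trans (le_of_eq ?_), (hn a ha b hb e i).2⟩
    obtain ⟨d, hd⟩ := Nat.exists_eq_add_of_le (hjk n)
    rw [hd, Nat.add_sub_cancel_left, pow_add]; field_simp
  rw [← mul_assoc, Real.log_mul (by positivity) (by positivity), log_two_pow,
    Nat.cast_sub (hjk n)] at h2
  linarith

theorem le_fl1 {x : ∀ n, Ω n → ℝ} (hM : Big M) (hL : Sub M L) (hjk : ∀ n, j n ≤ k n)
    (h : ∀ᶠ n in UF, ∀ a ∈ (P n).S, ∀ b ∈ (P n).S, G n a = G n b →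
      |x n a - x n b| ≤ L n / 2 ^ j n) :
    Le M (fun n => ch (P n) (fun ω => fl1 (k n) (x n ω)) (G n)) fun n => (k n - j n : ℝ) * lg := by
  refine (le_flv (ι := Unit) Finset.univ (x := fun n ω _ => x n ω) hM hL hjk
    (h.mono fun _ hn a ha b hb e i =>
      ⟨hn a ha b hb e, fun hi => absurd (Finset.mem_univ i) hi⟩)).of_sub
    (Eventually.of_forall fun n => ?_)
  have : ch (P n) (fun ω => fl1 (k n) (x n ω)) (G n) ≤
      ch (P n) (fun ω => flv (k n) fun _ : Unit => x n ω) (G n) :=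
    ch_mono fun a _ b _ e => congrFun (congrArg Prod.fst e) ()
  simp only [Finset.card_univ, Fintype.card_unit, Nat.cast_one, one_mul]
  linarith

end SeqCells

end Pool.Agent.MP_5168f5_an.H17F
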