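import Pool.Agent.MP_5168f5_an.H17F.Spec

/-! Sticky Kakeya sets have full dimension: elementary facts (finite spaces). -/

namespace Pool.Agent.MP_5168f5_an.H17F

open H19 H17S Filter

section Kit

variable {Ω Ω' Ω'' α β γ δ : Type} {P : FP Ω} {Q : FP Ω'}

theorem pb_mono {E F : Ω → Prop} (h : ∀ ω ∈ P.S, E ω → F ω) : pb P E ≤ pb P F := by
  classical
  refine P.E_mono fun ω hω => ?_
  by_cases h1 : E ω
  · simp [h1, h ω hω h1]
  · simp only [h1, if_false]; split_ifs <;> norm_num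

theorem pb_congr {E F : Ω → Prop} (h : ∀ ω ∈ P.S, E ω ↔ F ω) : pb P E = pb P F :=
  le_antisymm (pb_mono fun ω hω => (h ω hω).1) (pb_mono fun ω hω => (h ω hω).2)

theorem pb_nonneg (P : FP Ω) (E : Ω → Prop) : 0 ≤ pb P E :=
  P.E_nonneg fun ω _ => by split_ifs <;> norm_num

theorem pb_split (P : FP Ω) (E F : Ω → Prop) :
    pb P E = pb P (fun ω => E ω ∧ F ω) + pb P fun ω => E ω ∧ ¬F ω := by
  unfold pb
  rw [← FP.E_add]
  exact P.E_congr fun ω _ => by by_cases h : E ω <;> by_cases h' : F ω <;> simp [h, h']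

theorem pb_true (P : FP Ω) : pb P (fun _ => True) = 1 := by
  unfold pb; simp [FP.E_const]

theorem pb_not (P : FP Ω) (E : Ω → Prop) : pb P (fun ω => ¬E ω) = 1 - pb P E := by
  have := pb_split P (fun _ => True) E
  rw [pb_true] at this
  simp only [true_and] at this
  linarith

theorem pb_le_one (P : FP Ω) (E : Ω → Prop) : pb P E ≤ 1 := by
  have := pb_nonneg P fun ω => ¬E ω
  rw [pb_not] at this; linarith

theorem pb_zero {E : Ω → Prop} (h : ∀ ω ∈ P.S, ¬E ω) : pb P E = 0 := by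
  have h1 : pb P (fun ω => ¬E ω) = pb P fun _ => True := pb_congr fun ω hω => by simp [h ω hω]
  rw [pb_not, pb_true] at h1; linarith

theorem pb_or (P : FP Ω) (E F : Ω → Prop) : pb P (fun ω => E ω ∨ F ω) ≤ pb P E + pb P F := by
  rw [pb_split P _ E]
  exact add_le_add (pb_mono fun _ _ h => h.2) (pb_mono fun _ _ h => h.1.resolve_left h.2)

theorem ex_of_pb {E : Ω → Prop} (h : 0 < pb P E) : ∃ ω ∈ P.S, E ω := by
  by_contra h1
  push Not at h1
  exact h.ne' (pb_zero h1)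

theorem mem_cE {E : Ω → Prop} (h : ∃ ω ∈ P.S, E ω) (a : Ω) :
    a ∈ (cE P E).S ↔ a ∈ P.S ∧ E a := by
  classical
  unfold cE; rw [dif_pos h]; exact Finset.mem_filter

theorem cE_sub {E : Ω → Prop} {a : Ω} (ha : a ∈ (cE P E).S) : a ∈ P.S := by
  by_cases h : ∃ ω ∈ P.S, E ω
  · exact ((mem_cE h a).1 ha).1
  · unfold cE at ha; rwa [dif_neg h] at ha

open Classical in
theorem E_cE (P : FP Ω) (E : Ω → Prop) (F : Ω → ℝ) :
    pb P E * (cE P E).E F = P.E fun ω => if E ω then F ω else 0 := by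
  by_cases h : ∃ ω ∈ P.S, E ω
  · have hp := (pb_pos P h).ne'
    unfold cE; rw [dif_pos h]
    simp only [FP.E]
    rw [Finset.mul_sum, Finset.sum_filter]
    refine Finset.sum_congr rfl fun a _ => ?_
    by_cases h1 : E a
    · simp only [h1, if_true]; field_simp
    · simp [h1]
  · push Not at h
    rw [pb_zero h, zero_mul]
    exact (P.E_const 0).symm.trans (P.E_congr fun a ha => by simp [h a ha])

theorem pb_cE (P : FP Ω) (E F : Ω → Prop) :
    pb P E * pb (cE P E) F = pb P fun ω => E ω ∧ F ω := by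
  unfold pb
  refine (E_cE P E _).trans (P.E_congr fun ω _ => ?_)
  by_cases h : E ω <;> by_cases h' : F ω <;> simp [h, h']

theorem cE_true (P : FP Ω) : cE P (fun _ => True) = P := by
  have h1 := pb_true P
  unfold cE
  split_ifs with h
  · cases P; simp [h1]
  · rfl

theorem fn_cE {F : Ω → α} {G : Ω → β} (h : Fn P F G) (E : Ω → Prop) : Fn (cE P E) F G :=
  fun a ha b hb e => h a (cE_sub ha) b (cE_sub hb) e

theorem det_cE {F : Ω → α} {G : Ω → β} {B : ℝ} (h : Det P F G B) (E : Ω → Prop) :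
    Det (cE P E) F G B := fun a ha =>
  (h a (cE_sub ha)).imp fun _ hT => ⟨hT.1, fun b hb e => hT.2 b (cE_sub hb) e⟩

theorem ch_ext {F F' : Ω → α} {G G' : Ω → β} (h : ∀ ω ∈ P.S, F ω = F' ω)
    (h' : ∀ ω ∈ P.S, G ω = G' ω) : ch P F G = ch P F' G' := by
  refine ch_congr (fun a ha b hb e => ?_) (fun a ha b hb e => ?_) (fun a ha b hb e => ?_)
    fun a ha b hb e => ?_
  · rw [h a ha, h b hb]; exact congrArg Prod.fst e
  · rw [← h a ha, ← h b hb]; exact congrArg Prod.fst e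
  · rw [h' a ha, h' b hb]; exact e
  · rw [← h' a ha, ← h' b hb]; exact e

theorem Law.rfl (f : Ω → α) : Law P f P f := fun _ => _root_.rfl

theorem Law.symm {f : Ω → α} {g : Ω' → α} (h : Law P f Q g) : Law Q g P f := fun F => (h F).symm

theorem Law.trans {R : FP Ω''} {f : Ω → α} {g : Ω' → α} {k : Ω'' → α} (h : Law P f Q g)
    (h' : Law Q g R k) : Law P f R k := fun F => (h F).trans (h' F)

theorem Law.comp {f : Ω → α} {g : Ω' → α} (h : Law P f Q g) (u : α → β) :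
    Law P (fun x => u (f x)) Q fun y => u (g y) := fun F => h fun v => F (u v)

theorem Law.ext {f f' : Ω → α} {g : Ω' → α} (h : Law P f Q g) (e : ∀ x ∈ P.S, f' x = f x) :
    Law P f' Q g := fun F => (P.E_congr fun x hx => by rw [e x hx]).trans (h F)

theorem Law.pb_eq {f : Ω → α} {g : Ω' → α} (h : Law P f Q g) (E : α → Prop) :
    pb P (fun x => E (f x)) = pb Q fun y => E (g y) := by
  classical
  exact h fun v => if E v then 1 else 0

theorem Law.ex {f : Ω → α} {g : Ω' → α} (h : Law P f Q g) {x : Ω} (hx : x ∈ P.S) :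
    ∃ y ∈ Q.S, g y = f x :=
  ex_of_pb (by rw [← h.pb_eq fun v => v = f x]; exact pb_pos P ⟨x, hx, _root_.rfl⟩)

theorem Law.mem {f : Ω → Ω'} (h : Law P f Q id) {x : Ω} (hx : x ∈ P.S) : f x ∈ Q.S := by
  obtain ⟨y, hy, e⟩ := h.ex hx
  rw [← e]; exact hy

theorem Law.ch_eq {f : Ω → α} {g : Ω' → α} (h : Law P f Q g) (F : α → β) (G : α → γ) :
    ch P (fun x => F (f x)) (fun x => G (f x)) = ch Q (fun y => F (g y)) fun y => G (g y) :=
  ch_law f g h F G

theorem Law.ch_id {f : Ω → Ω'} (h : Law P f Q id) (F : Ω' → β) (G : Ω' → γ) :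
    ch P (fun x => F (f x)) (fun x => G (f x)) = ch Q F G := h.ch_eq F G

theorem Law.mi_id {f : Ω → Ω'} (h : Law P f Q id) (F : Ω' → α) (G : Ω' → β) (K : Ω' → γ) :
    mi P (fun x => F (f x)) (fun x => G (f x)) (fun x => K (f x)) = mi Q F G K := by
  unfold mi
  rw [h.ch_id F K, h.ch_id F fun y => (G y, K y)]

theorem Law.fn {f : Ω → Ω'} (h : Law P f Q id) {F : Ω' → β} {G : Ω' → γ} (k : Fn Q F G) :
    Fn P (fun x => F (f x)) fun x => G (f x) := fun _ ha _ hb e => k _ (h.mem ha) _ (h.mem hb) e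

theorem mi_nonneg (F : Ω → α) (G : Ω → β) (K : Ω → γ) : 0 ≤ mi P F G K :=
  sub_nonneg.2 (ch_anti (Fn.snd G K))

theorem mi_symm (F : Ω → α) (G : Ω → β) (K : Ω → γ) : mi P F G K = mi P G F K := ch_symm F G K

theorem mi_le (F : Ω → α) (G : Ω → β) (K : Ω → γ) : mi P F G K ≤ ch P F K :=
  sub_le_self _ (ch_nonneg _ _)

/-- Data processing in the second variable. -/
theorem mi_mono {F : Ω → α} {G : Ω → β} {G' : Ω → δ} {K : Ω → γ}
    (h : Fn P G fun ω => (G' ω, K ω)) : mi P F G K ≤ mi P F G' K :=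
  sub_le_sub_left (ch_anti (h.pair (Fn.snd G' K))) _

/-- Data processing in the first variable. -/
theorem mi_mono' {F : Ω → α} {F' : Ω → δ} {G : Ω → β} {K : Ω → γ}
    (h : Fn P F fun ω => (F' ω, K ω)) : mi P F G K ≤ mi P F' G K := by
  rw [mi_symm, mi_symm F']; exact mi_mono h

theorem mi_chain (F : Ω → α) (G : Ω → β) (G' : Ω → δ) (K : Ω → γ) :
    mi P F (fun ω => (G ω, G' ω)) K = mi P F G K + mi P F G' fun ω => (G ω, K ω) := by
  unfold mi
  have : ch P F (fun ω => ((G ω, G' ω), K ω)) = ch P F fun ω => (G' ω, G ω, K ω) :=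
    le_antisymm (ch_anti fun a _ b _ e => by simp only [Prod.mk.injEq] at e ⊢; tauto)
      (ch_anti fun a _ b _ e => by simp only [Prod.mk.injEq] at e ⊢; tauto)
  rw [this]; ring

/-- Replace `G` by a variable that almost determines it. -/
theorem mi_near (F : Ω → α) (G : Ω → β) (G' : Ω → δ) (K : Ω → γ) :
    mi P F G K ≤ mi P F G' K + ch P G fun ω => (G' ω, K ω) := by
  have h1 : mi P F G K ≤ mi P F (fun ω => (G' ω, G ω)) K := mi_mono ((Fn.snd G' G).left K)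
  rw [mi_chain, mi_symm F G fun ω => (G' ω, K ω)] at h1
  exact h1.trans (add_le_add le_rfl (mi_le _ _ _))

/-- Conditioning on more data that is a function of `G` does not increase the information. -/
theorem mi_cond {F : Ω → α} {G : Ω → β} {K : Ω → γ} {K' : Ω → δ} (h : Fn P K K')
    (h' : Fn P K' fun ω => (G ω, K ω)) : mi P F G K' ≤ mi P F G K := by
  unfold mi
  have h1 : ch P F K' ≤ ch P F K := ch_anti h
  have h2 : ch P F (fun ω => (G ω, K ω)) ≤ ch P F fun ω => (G ω, K' ω) :=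
    ch_anti ((Fn.fst G K).pair h')
  linarith

/-- Extra conditioning costs at most the entropy of the extra variable. -/
theorem ch_drop (F : Ω → α) (W : Ω → β) (G : Ω → γ) :
    ch P F G ≤ ch P F (fun ω => (W ω, G ω)) + ch P W G := by
  have := ch_tri (P := P) F W G; linarith

end Kit

/-! ### Cells -/

section Cells

variable {Ω β ι : Type} {P : FP Ω}

theorem fl_eq_flv {N : ℕ} (j : ℕ) (x : V N) : fl j x = flv j x := rfl

theorem flv_eq_of_le {j k : ℕ} (hjk : j ≤ k) {x y : ι → ℝ} (h : flv k x = flv k y) :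
    flv j x = flv j y := funext fun i => fl1_eq_of_le hjk (congrFun h i)

theorem norm_sub_lt_of_flv_eq [Fintype ι] {j : ℕ} {x y : ι → ℝ} (h : flv j x = flv j y) :
    ‖x - y‖ < ((2 : ℝ) ^ j)⁻¹ :=
  (pi_norm_lt_iff (by positivity)).2 fun i => abs_sub_lt_of_fl1_eq (congrFun h i)

theorem abs_fl1_sub (j : ℕ) (x : ℝ) : |(fl1 j x : ℝ) - 2 ^ j * x| ≤ 1 := by
  have h1 := Int.floor_le ((2 : ℝ) ^ j * x)
  have h2 := Int.lt_floor_add_one ((2 : ℝ) ^ j * x)
  unfold fl1; rw [abs_le]; constructor <;> linarith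

/-- The cells near a point. -/
theorem cells_near [Fintype ι] (j : ℕ) (y : ι → ℝ) {L : ℝ} (hL : 0 ≤ L) :
    ∃ T : Finset (ι → ℤ), (T.card : ℝ) ≤ (2 * L + 3) ^ Fintype.card ι ∧
      ∀ x : ι → ℝ, ‖x - y‖ ≤ L / 2 ^ j → flv j x ∈ T := by
  classical
  refine ⟨Fintype.piFinset fun i => Finset.Icc (flv j y i - ⌈L⌉₊) (flv j y i + ⌈L⌉₊), ?_,
    fun x hx => Fintype.mem_piFinset.2 fun i => fl1_mem_Icc ?_⟩
  · have h1 : ∀ i, (Finset.Icc (flv j y i - ⌈L⌉₊) (flv j y i + ⌈L⌉₊)).card = 2 * ⌈L⌉₊ + 1 := by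
      intro i; rw [Int.card_Icc]; omega
    rw [Fintype.card_piFinset]
    simp only [h1, Finset.prod_const, Finset.card_univ]
    push_cast
    have := Nat.ceil_lt_add_one hL
    exact pow_le_pow_left₀ (by positivity) (by linarith) _
  · refine ((norm_le_pi_norm (x - y) i).trans hx).trans ?_
    rw [div_eq_mul_inv]
    exact mul_le_mul_of_nonneg_right (Nat.le_ceil L) (by positivity)

theorem det_near [Fintype ι] {x : Ω → ι → ℝ} {G : Ω → β} {j : ℕ} {L : ℝ} (hL : 0 ≤ L)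
    (h : ∀ a ∈ P.S, ∀ b ∈ P.S, G a = G b → ‖x a - x b‖ ≤ L / 2 ^ j) :
    Det P (fun ω => flv j (x ω)) G ((2 * L + 3) ^ Fintype.card ι) := fun a ha =>
  (cells_near j (x a) hL).imp fun _ hT => ⟨hT.1, fun b hb e => hT.2 _ (h b hb a ha e)⟩

theorem ch_near [Fintype ι] {x : Ω → ι → ℝ} {G : Ω → β} {j : ℕ} {L : ℝ} (hL : 0 ≤ L)
    (h : ∀ a ∈ P.S, ∀ b ∈ P.S, G a = G b → ‖x a - x b‖ ≤ L / 2 ^ j) :
    ch P (fun ω => flv j (x ω)) G ≤ Fintype.card ι * Real.log (2 * L + 3) := by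
  rw [← Real.log_pow]; exact ch_det (det_near hL h)

theorem det_near1 {x : Ω → ℝ} {G : Ω → β} {j : ℕ} {L : ℝ} (hL : 0 ≤ L)
    (h : ∀ a ∈ P.S, ∀ b ∈ P.S, G a = G b → |x a - x b| ≤ L / 2 ^ j) :
    Det P (fun ω => fl1 j (x ω)) G (2 * L + 3) := by
  refine fun a ha => (det_fl1_near (j := fun _ => j) (n := ⌈L⌉₊) (fun _ _ _ _ _ => rfl)
    (fun a ha b hb e => (h a ha b hb e).trans ?_) a ha).imp fun T hT => ⟨hT.1.trans ?_, hT.2⟩
  · rw [div_eq_mul_inv]
    exact mul_le_mul_of_nonneg_right (Nat.le_ceil L) (by positivity)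
  · have := Nat.ceil_lt_add_one hL; linarith

theorem ch_near1 {x : Ω → ℝ} {G : Ω → β} {j : ℕ} {L : ℝ} (hL : 0 ≤ L)
    (h : ∀ a ∈ P.S, ∀ b ∈ P.S, G a = G b → |x a - x b| ≤ L / 2 ^ j) :
    ch P (fun ω => fl1 j (x ω)) G ≤ Real.log (2 * L + 3) := ch_det (det_near1 hL h)

theorem flv_cz (u : ι → ℤ) : flv 0 (cz u) = u := by
  funext i; simp [flv, fl1, cz]

theorem cz_sub (u v : ι → ℤ) : cz (u - v) = cz u - cz v := by funext i; simp [cz]

theorem cz_add (u v : ι → ℤ) : cz (u + v) = cz u + cz v := by funext i; simp [cz]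

theorem cz_neg (u : ι → ℤ) : cz (-u) = -cz u := by funext i; simp [cz]

theorem norm_cz_flv [Fintype ι] (j : ℕ) (x : ι → ℝ) : ‖cz (flv j x) - (2 : ℝ) ^ j • x‖ ≤ 1 :=
  (pi_norm_le_iff_of_nonneg zero_le_one).2 fun i => abs_fl1_sub j (x i)

theorem ch_near_int [Fintype ι] {u : Ω → ι → ℤ} {G : Ω → β} {L : ℝ} (hL : 0 ≤ L)
    (h : ∀ a ∈ P.S, ∀ b ∈ P.S, G a = G b → ‖cz (u a) - cz (u b)‖ ≤ L) :
    ch P u G ≤ Fintype.card ι * Real.log (2 * L + 3) := by
  have := ch_near (P := P) (x := fun ω => cz (u ω)) (G := G) (j := 0) hL (by simpa using h)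
  simpa only [flv_cz] using this

theorem norm_mulVec_le {κ : Type} [Fintype ι] [Fintype κ] {A : Matrix κ ι ℝ} {L : ℝ} (hL : 0 ≤ L)
    (h : ∀ i j, |A i j| ≤ L) (y : ι → ℝ) : ‖A.mulVec y‖ ≤ Fintype.card ι * L * ‖y‖ := by
  refine (pi_norm_le_iff_of_nonneg (by positivity)).2 fun i => ?_
  refine (Finset.abs_sum_le_sum_abs _ _).trans ?_
  refine (Finset.sum_le_card_nsmul _ _ (L * ‖y‖) fun j _ => ?_).trans ?_
  · rw [abs_mul]; exact mul_le_mul (h i j) (norm_le_pi_norm y j) (abs_nonneg _) hL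
  · simp [mul_assoc]

variable [Fintype ι] [DecidableEq ι] {S : Finset ι} {L L' : ℝ} {A A' : Matrix ι ι ℝ}

theorem Prj.mono (h : Prj S L A) (hL : L ≤ L') : Prj S L' A :=
  ⟨h.1, h.2.1, fun i j => (h.2.2 i j).trans hL⟩

theorem Prj.mul (h : Prj S L A) (h' : Prj S L' A') : A * A' = A' := by
  ext i j
  rw [Matrix.mul_apply, Finset.sum_eq_single i]
  · by_cases hi : i ∈ S
    · simp [h'.1 i hi]
    · simp [h.2.1 i hi]
  · intro k _ hk
    by_cases hk' : k ∈ S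
    · simp [h'.1 k hk']
    · simp [h.2.1 k hk', hk.symm]
  · simp

theorem Prj.mulVec_mem (h : Prj S L A) (y : ι → ℝ) {i : ι} (hi : i ∈ S) : A.mulVec y i = 0 := by
  simp [Matrix.mulVec, dotProduct, h.1 i hi]

/-- The difference of two projections only sees the coordinates in `S`. -/
theorem Prj.sub_col (h : Prj S L A) (h' : Prj S L' A') {j : ι} (hj : j ∉ S) (i : ι) :
    A' i j - A i j = 0 := by rw [h.2.1 j hj, h'.2.1 j hj, sub_self]

theorem Prj.one_sub_col (h : Prj S L A) {j : ι} (hj : j ∉ S) (i : ι) : (1 - A) i j = 0 := by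
  rw [Matrix.sub_apply, h.2.1 j hj, Matrix.one_apply, sub_self]

theorem Prj.abs_one_sub (h : Prj S L A) (i j : ι) : |(1 - A) i j| ≤ L + 1 := by
  rw [Matrix.sub_apply, Matrix.one_apply]
  have := abs_le.1 (h.2.2 i j)
  rw [abs_le]; split_ifs <;> constructor <;> linarith [this.1, this.2]

theorem prj_one : Prj (∅ : Finset ι) 1 (1 : Matrix ι ι ℝ) :=
  ⟨by simp, fun j _ i => Matrix.one_apply, fun i j => by
    rw [Matrix.one_apply]; split_ifs <;> simp⟩

theorem prj_zero : Prj (Finset.univ : Finset ι) 1 (0 : Matrix ι ι ℝ) := ⟨by simp, by simp, by simp⟩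

end Cells

namespace Sy

variable {N : ℕ} {x : Sy N} {S : Finset (Fin N)} {L : ℝ}

theorem Alg.cond (h : x.Alg S L) (E : x.Ω → Prop) : (x.cond E).Alg S L :=
  ⟨fun ω hω => h.box ω (cE_sub hω), fn_cE h.fz E, fn_cE h.fP E, fun ω hω => h.pP ω (cE_sub hω)⟩

theorem AlgK.cond {SK : Finset (I2 N)} (h : x.AlgK SK L) (E : x.Ω → Prop) :
    (x.cond E).AlgK SK L := ⟨fn_cE h.fK E, fun ω hω => h.pK ω (cE_sub hω)⟩

theorem pt_box (h : x.toCfg.Box) {ω : x.Ω} (hω : ω ∈ x.P.S) (i : Fin N) :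
    0 ≤ x.toCfg.pt ω i ∧ x.toCfg.pt ω i < 2 := by
  obtain ⟨h1, h2, h3, h4⟩ := h ω hω
  have e : x.toCfg.pt ω i = x.a ω i + x.z ω * x.e ω i := rfl
  rw [e]
  constructor <;> nlinarith [(h1 i).1, (h1 i).2, (h2 i).1, (h2 i).2]

theorem norm_pt (h : x.toCfg.Box) {ω : x.Ω} (hω : ω ∈ x.P.S) : ‖x.toCfg.pt ω‖ ≤ 2 :=
  (pi_norm_le_iff_of_nonneg zero_le_two).2 fun i => by
    rw [Real.norm_eq_abs, abs_of_nonneg (pt_box h hω i).1]; exact (pt_box h hω i).2.le

theorem norm_l (h : x.toCfg.Box) {ω : x.Ω} (hω : ω ∈ x.P.S) : ‖x.l ω‖ ≤ 1 := by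
  obtain ⟨h1, h2, -⟩ := h ω hω
  refine (pi_norm_le_iff_of_nonneg zero_le_one).2 fun i => ?_
  rcases i with i | i
  · exact (norm_le_pi_norm _ i).trans (norm_le_one_of_box h1)
  · exact (norm_le_pi_norm _ i).trans (norm_le_one_of_box h2)

theorem near_l {j : ℕ} {a b : x.Ω} (e : x.toCfg.X j a = x.toCfg.X j b) :
    ‖x.l a - x.l b‖ ≤ 1 / 2 ^ j := by
  rw [one_div]
  refine (pi_norm_le_iff_of_nonneg (by positivity)).2 fun i => ?_
  rcases i with i | i
  · exact (abs_sub_lt_of_fl1_eq (congrFun (congrArg Prod.fst e) i)).le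
  · exact (abs_sub_lt_of_fl1_eq (congrFun (congrArg Prod.snd e) i)).le

theorem near_pt (h : x.toCfg.Box) {j : ℕ} {a b : x.Ω} (ha : a ∈ x.P.S)
    (e : x.toCfg.X j a = x.toCfg.X j b) (ez : x.z a = x.z b) :
    ‖x.toCfg.pt a - x.toCfg.pt b‖ ≤ 2 / 2 ^ j := by
  obtain ⟨-, -, h3, h4⟩ := h a ha
  have h1 := (norm_sub_lt_of_fl_eq (congrArg Prod.fst e)).le
  have h2 := (norm_sub_lt_of_fl_eq (congrArg Prod.snd e)).le
  have e1 : x.toCfg.pt a - x.toCfg.pt b = (x.a a - x.a b) + x.z a • (x.e a - x.e b) := by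
    unfold Cfg.pt; rw [← ez]; module
  rw [e1]
  refine (norm_add_le _ _).trans ?_
  rw [norm_smul, Real.norm_eq_abs, abs_of_nonneg h3, div_eq_mul_inv]
  nlinarith [norm_nonneg (x.e a - x.e b)]

theorem Alg.near_π (h : x.Alg S L) (hL : 0 ≤ L) {j : ℕ} {a b : x.Ω} (ha : a ∈ x.P.S)
    (hb : b ∈ x.P.S) (e : x.toCfg.X j a = x.toCfg.X j b) (eg : x.g a = x.g b) :
    ‖x.π a - x.π b‖ ≤ 2 * N * L / 2 ^ j := by
  unfold π
  rw [← h.fP a ha b hb eg, ← Matrix.mulVec_sub]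
  refine (norm_mulVec_le hL (h.pP a ha).2.2 _).trans ?_
  have := mul_le_mul_of_nonneg_left (near_pt h.box ha e (h.fz a ha b hb eg))
    (show 0 ≤ (N : ℝ) * L by positivity)
  simp only [Fintype.card_fin]
  exact this.trans (le_of_eq (by ring))

theorem fn_l_ln (x : Sy N) : Fn x.P x.l x.toCfg.ln := by
  intro a _ b _ e
  simp only [Cfg.ln, Prod.mk.injEq] at e
  simp only [l, e.1, e.2.1]

theorem Alg.fn_pt (h : x.Alg S L) : Fn x.P x.toCfg.pt fun ω => (x.toCfg.ln ω, x.ξ ω) := by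
  intro a ha b hb e
  simp only [Cfg.ln, Prod.mk.injEq] at e
  have := h.fz a ha b hb (Prod.ext e.2 e.1.2.2)
  simp only [Cfg.pt, e.1.1, e.1.2.1, this]

theorem Alg.fn_π (h : x.Alg S L) : Fn x.P x.π fun ω => (x.toCfg.ln ω, x.ξ ω) := by
  intro a ha b hb e
  have h1 := h.fn_pt a ha b hb e
  simp only [Cfg.ln, Prod.mk.injEq] at e
  unfold π
  rw [h1, h.fP a ha b hb (Prod.ext e.2 e.1.2.2)]

end Sy

end Pool.Agent.MP_5168f5_an.H17F
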