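import Pool.Agent.MP_5168f5_an.H17F.Api

/-! Sticky Kakeya sets have full dimension: elementary facts (sequences). -/

namespace Pool.Agent.MP_5168f5_an.H17F

open H19 H17S Filter

instance : UF.NeBot := (hyperfilter ℕ).neBot

theorem not_ev {p : ℕ → Prop} : (¬∀ᶠ n in UF, p n) ↔ ∀ᶠ n in UF, ¬p n :=
  Ultrafilter.eventually_not.symm

theorem ev_or {p q : ℕ → Prop} (h : ∀ᶠ n in UF, p n ∨ q n) :
    (∀ᶠ n in UF, p n) ∨ ∀ᶠ n in UF, q n := Ultrafilter.eventually_or.1 h

theorem ev_em (p : ℕ → Prop) : (∀ᶠ n in UF, p n) ∨ ∀ᶠ n in UF, ¬p n :=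
  ev_or (Eventually.of_forall fun n => em (p n))

theorem ev_ge (k : ℕ) : ∀ᶠ n in UF, k ≤ n :=
  (Nat.hyperfilter_le_atTop (eventually_ge_atTop k) : _)

/-- A sequence with finitely many values is eventually constant. -/
theorem ev_ex {J : Type} [Finite J] {p : J → ℕ → Prop} (h : ∀ᶠ n in UF, ∃ j, p j n) :
    ∃ j, ∀ᶠ n in UF, p j n := by
  by_contra h1
  push Not at h1
  have h2 : ∀ᶠ n in UF, ∀ j, ¬p j n := eventually_all.2 fun j => not_ev.1 fun k =>
    (h1 j).exists.elim fun _ _ => ((h1 j).and_eventually k).exists.elim fun _ e => e.1 e.2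
  obtain ⟨n, ⟨j, a⟩, b⟩ := (h.and h2).exists
  exact b j a

variable {M M' : ℕ → ℕ} {f g f' g' k : ℕ → ℝ}

theorem Le.of_ev (h : ∀ᶠ n in UF, f n ≤ g n) : Le M f g := fun ε hε =>
  h.mono fun n hn => hn.trans (le_add_of_nonneg_right (by positivity))

theorem Le.of_le (h : ∀ n, f n ≤ g n) : Le M f g := Le.of_ev (Eventually.of_forall h)

theorem Le.rfl : Le M f f := Le.of_le fun _ => le_rfl

theorem Le.add (h : Le M f g) (h' : Le M f' g') :
    Le M (fun n => f n + f' n) fun n => g n + g' n := fun ε hε => by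
  filter_upwards [h _ (half_pos hε), h' _ (half_pos hε)] with n a b
  linarith

/-- The general tool: add up the known inequalities with `Le.add`, then compare. -/
theorem Le.of_sub (h : Le M f' g') (e : ∀ᶠ n in UF, f n - g n ≤ f' n - g' n) : Le M f g :=
  fun ε hε => by
  filter_upwards [h ε hε, e] with n a b
  linarith

theorem Le.trans (h : Le M f g) (h' : Le M g k) : Le M f k :=
  (h.add h').of_sub (Eventually.of_forall fun n => by linarith)

theorem Le.smul (h : Le M f g) {c : ℝ} (hc : 0 ≤ c) :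
    Le M (fun n => c * f n) fun n => c * g n := fun ε hε => by
  filter_upwards [h (ε / (c + 1)) (by positivity)] with n a
  have h1 := mul_le_mul_of_nonneg_left a hc
  have h2 : c * (ε / (c + 1)) ≤ ε := by
    rw [← mul_div_assoc, div_le_iff₀ (by positivity)]; nlinarith
  nlinarith [mul_le_mul_of_nonneg_right h2 (Nat.cast_nonneg (α := ℝ) (M n))]

/-- Divide by a factor that is bounded below. -/
theorem Le.of_mul {p : ℕ → ℝ} {κ : ℝ} (hκ : 0 < κ) (hp : ∀ᶠ n in UF, κ ≤ p n)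
    (h : Le M (fun n => p n * f n) fun n => p n * g n) : Le M f g := fun ε hε => by
  filter_upwards [h (ε * κ) (by positivity), hp] with n a b
  have h1 : ε * κ * M n ≤ p n * (ε * M n) := by
    nlinarith [mul_le_mul_of_nonneg_right b (show 0 ≤ ε * M n by positivity)]
  exact le_of_mul_le_mul_left (by nlinarith) (hκ.trans_le b)

theorem Sm.add (h : Sm M f) (h' : Sm M g) : Sm M fun n => f n + g n :=
  (Le.add h h').of_sub (Eventually.of_forall fun n => by linarith)

theorem Sm.smul (h : Sm M f) {c : ℝ} (hc : 0 ≤ c) : Sm M fun n => c * f n :=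
  (Le.smul h hc).of_sub (Eventually.of_forall fun n => by linarith)

theorem Sm.mono (h : Sm M g) (e : ∀ᶠ n in UF, f n ≤ g n) : Sm M f := (Le.of_ev e).trans h

theorem Big.ev (h : Big M) (C : ℝ) : ∀ᶠ n in UF, C ≤ M n :=
  (tendsto_natCast_atTop_atTop.comp h).eventually_ge_atTop C

theorem Big.sm (h : Big M) (C : ℝ) : Sm M fun _ => C := fun ε hε => by
  filter_upwards [h.ev (C / ε)] with n a
  rw [div_le_iff₀ hε] at a; linarith

theorem not_Le (h : ¬Le M f g) : ∃ ε : ℝ, 0 < ε ∧ ∀ᶠ n in UF, g n + ε * M n < f n := by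
  unfold Le at h
  push Not at h
  obtain ⟨ε, h1, h2⟩ := h
  exact ⟨ε, h1, (not_ev.1 fun k => (h2.and_eventually k).exists.elim
    fun _ e => absurd e.2 (not_le.2 e.1)).mono fun n => not_le.1⟩

theorem Le.total (M : ℕ → ℕ) (f g : ℕ → ℝ) : Le M f g ∨ Le M g f :=
  (ev_or (Eventually.of_forall fun n => le_total (f n) (g n))).imp Le.of_ev Le.of_ev

/-- A linear gap contradicts `Le`. -/
theorem Le.false (h : Le M f g) (hM : Big M) {c : ℝ} (hc : 0 < c)
    (e : ∀ᶠ n in UF, g n + c * M n ≤ f n) : False := by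
  obtain ⟨n, a, b, d⟩ := ((h _ (half_pos hc)).and (e.and (hM.ev 1))).exists
  nlinarith

theorem Le.up (h : Le M' f g) (e : ∀ n, M' n ≤ M n) : Le M f g := fun ε hε =>
  (h ε hε).mono fun n a => a.trans (add_le_add le_rfl
    (mul_le_mul_of_nonneg_left (by exact_mod_cast e n) hε.le))

theorem Le.frac (h : Le M f g) (e : Frac M' M) : Le M' f g := fun ε hε => by
  obtain ⟨-, c, hc, e⟩ := e
  filter_upwards [h (ε * c) (by positivity), e] with n a b
  nlinarith

theorem Big.frac (h : Big M) (e : Frac M' M) : Big M' := by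
  obtain ⟨-, c, hc, e⟩ := e
  refine tendsto_atTop.2 fun b => ?_
  filter_upwards [h.ev (b / c), e] with n a d
  rw [div_le_iff₀ hc] at a
  exact_mod_cast (show (b : ℝ) ≤ M' n by linarith)

theorem Frac.rfl : Frac M M := ⟨fun _ => le_rfl, 1, one_pos, Eventually.of_forall fun n => by simp⟩

theorem Frac.trans {M'' : ℕ → ℕ} (h : Frac M'' M') (h' : Frac M' M) : Frac M'' M := by
  obtain ⟨a, c, hc, e⟩ := h
  obtain ⟨a', c', hc', e'⟩ := h'
  refine ⟨fun n => (a n).trans (a' n), c * c', by positivity, ?_⟩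
  filter_upwards [e, e'] with n u v
  nlinarith

theorem frac_or (e : ∀ n, M' n ≤ M n) : Frac M' M ∨ Sm M fun n => M' n := by
  by_cases h : Sm M fun n => M' n
  · exact Or.inr h
  · obtain ⟨ε, a, b⟩ := not_Le h
    exact Or.inl ⟨e, ε, a, b.mono fun n u => by linarith⟩

theorem Big.frac_floor (h : Big M) {c : ℝ} (hc : 0 < c) (h1 : c ≤ 1) :
    Frac (fun n => ⌊c * M n⌋₊) M := by
  refine ⟨fun n => Nat.floor_le_of_le (by nlinarith [Nat.cast_nonneg (α := ℝ) (M n)]),
    c / 2, half_pos hc, ?_⟩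
  filter_upwards [h.ev (2 / c)] with n a
  rw [div_le_iff₀ hc] at a
  have := Nat.lt_floor_add_one (c * M n)
  linarith

theorem Big.frac_div (h : Big M) {K : ℕ} (hK : 0 < K) : Frac (fun n => M n / K) M := by
  have k0 : (0 : ℝ) < K := by exact_mod_cast hK
  refine ⟨fun n => Nat.div_le_self _ _, 1 / (2 * K), by positivity, ?_⟩
  filter_upwards [h.ev (2 * K)] with n a
  have h1 : (M n : ℝ) < K * ((M n / K : ℕ) + 1) := by exact_mod_cast Nat.lt_mul_div_succ (M n) hK
  rw [div_mul_eq_mul_div, div_le_iff₀ (by positivity)]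
  nlinarith

variable {L L' : ℕ → ℝ}

theorem Sub.pos (h : Sub M L) (n : ℕ) : 0 < L n := one_pos.trans_le (h.1 n)

theorem Sub.frac (h : Sub M L) (e : Frac M' M) : Sub M' L := ⟨h.1, fun ε hε => by
  obtain ⟨-, c, hc, e⟩ := e
  filter_upwards [h.2 (ε * c) (by positivity), e] with n a b
  exact a.trans (Real.exp_le_exp.2 (by nlinarith))⟩

theorem Sub.up (h : Sub M' L) (e : ∀ n, M' n ≤ M n) : Sub M L := ⟨h.1, fun ε hε =>
  (h.2 ε hε).mono fun n a => a.trans (Real.exp_le_exp.2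
    (mul_le_mul_of_nonneg_left (by exact_mod_cast e n) hε.le))⟩

theorem Sub.mul (h : Sub M L) (h' : Sub M L') : Sub M fun n => L n * L' n :=
  ⟨fun n => one_le_mul_of_one_le_of_one_le (h.1 n) (h'.1 n), fun ε hε => by
    filter_upwards [h.2 _ (half_pos hε), h'.2 _ (half_pos hε)] with n a b
    refine (mul_le_mul a b (h'.pos n).le (Real.exp_pos _).le).trans (le_of_eq ?_)
    rw [← Real.exp_add]; congr 1; ring⟩

theorem Big.sub (h : Big M) {C : ℝ} (hC : 1 ≤ C) : Sub M fun _ => C := ⟨fun _ => hC, fun ε hε => by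
  filter_upwards [h.sm C ε hε] with n a
  linarith [Real.add_one_le_exp (ε * M n)]⟩

theorem Sub.mono (h : Sub M L) (h1 : ∀ n, 1 ≤ L' n) (e : ∀ᶠ n in UF, L' n ≤ L n) : Sub M L' :=
  ⟨h1, fun ε hε => by filter_upwards [h.2 ε hε, e] with n a b using b.trans a⟩

theorem Sub.pow (h : Sub M L) (k : ℕ) : Sub M fun n => L n ^ k := by
  induction k with
  | zero => exact ⟨fun _ => by simp, fun ε hε => Eventually.of_forall fun n => by
      simpa using Real.one_le_exp (by positivity)⟩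
  | succ k ih => simpa only [pow_succ] using ih.mul h

theorem Sub.const_mul (h : Sub M L) (hM : Big M) {C : ℝ} (hC : 1 ≤ C) :
    Sub M fun n => C * L n := (hM.sub hC).mul h

theorem Sub.add (h : Sub M L) (h' : Sub M L') (hM : Big M) : Sub M fun n => L n + L' n :=
  ((h.mul h').const_mul hM one_le_two).mono (fun n => by linarith [h.1 n, h'.1 n])
    (Eventually.of_forall fun n => by nlinarith [h.1 n, h'.1 n])

theorem Sub.log (h : Sub M L) : Sm M fun n => Real.log (L n) := fun ε hε =>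
  (h.2 ε hε).mono fun n a => by
    rw [zero_add]; exact (Real.log_le_iff_le_exp (h.pos n)).2 a

theorem Sub.log3 (h : Sub M L) (hM : Big M) (C : ℝ) :
    Sm M fun n => C * Real.log (2 * L n + 3) := by
  have h1 := ((h.const_mul hM one_le_two).add (hM.sub (by norm_num : (1 : ℝ) ≤ 3)) hM).log
  refine (h1.smul (abs_nonneg C)).mono (Eventually.of_forall fun n => ?_)
  exact mul_le_mul_of_nonneg_right (le_abs_self C) (Real.log_nonneg (by linarith [h.1 n]))

theorem exp_le_two_pow (m : ℕ) : Real.exp (m / 2) ≤ 2 ^ m := by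
  rw [← Real.exp_log (show (0 : ℝ) < 2 ^ m by positivity), Real.log_pow]
  refine Real.exp_le_exp.2 ?_
  nlinarith [Real.log_two_gt_d9, Nat.cast_nonneg (α := ℝ) m]

theorem two_pow_eq (m : ℕ) : (2 : ℝ) ^ m = Real.exp (m * lg) := by
  rw [← log_two_pow, Real.exp_log (by positivity)]

theorem two_pow_le_exp (m : ℕ) : (2 : ℝ) ^ m ≤ Real.exp m := by
  rw [two_pow_eq]
  exact Real.exp_le_exp.2 (by nlinarith [lg_lt_one, Nat.cast_nonneg (α := ℝ) m])

variable {Ω β : ℕ → Type} {P : ∀ n, FP (Ω n)} {E F : ∀ n, Ω n → Prop}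

/-- A vector that `G` determines up to `L 2^{-j}` has small conditional entropy. -/
theorem Sm.near {ι : Type} [Fintype ι] {x : ∀ n, Ω n → ι → ℝ} {G : ∀ n, Ω n → β n} {j : ℕ → ℕ}
    (hM : Big M) (hL : Sub M L) (h : ∀ᶠ n in UF, ∀ a ∈ (P n).S, ∀ b ∈ (P n).S,
      G n a = G n b → ‖x n a - x n b‖ ≤ L n / 2 ^ j n) :
    Sm M fun n => ch (P n) (fun ω => flv (j n) (x n ω)) (G n) :=
  (hL.log3 hM _).mono (h.mono fun n a => ch_near (hL.pos n).le a)

theorem Sm.near1 {x : ∀ n, Ω n → ℝ} {G : ∀ n, Ω n → β n} {j : ℕ → ℕ}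
    (hM : Big M) (hL : Sub M L) (h : ∀ᶠ n in UF, ∀ a ∈ (P n).S, ∀ b ∈ (P n).S,
      G n a = G n b → |x n a - x n b| ≤ L n / 2 ^ j n) :
    Sm M fun n => ch (P n) (fun ω => fl1 (j n) (x n ω)) (G n) :=
  (hL.log3 hM 1).mono (h.mono fun n a => by rw [one_mul]; exact ch_near1 (hL.pos n).le a)

theorem Sm.near_int {ι : Type} [Fintype ι] {u : ∀ n, Ω n → ι → ℤ} {G : ∀ n, Ω n → β n}
    (hM : Big M) (hL : Sub M L) (h : ∀ᶠ n in UF, ∀ a ∈ (P n).S, ∀ b ∈ (P n).S,
      G n a = G n b → ‖cz (u n a) - cz (u n b)‖ ≤ L n) : Sm M fun n => ch (P n) (u n) (G n) :=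
  (hL.log3 hM _).mono (h.mono fun n a => ch_near_int (hL.pos n).le a)

theorem Whp.mono (h : Whp P E) (e : ∀ᶠ n in UF, ∀ ω ∈ (P n).S, E n ω → F n ω) : Whp P F :=
  fun ε hε => by
  filter_upwards [h ε hε, e] with n a b
  exact (pb_mono fun ω hω k k' => k (b ω hω k')).trans a

theorem Whp.of_ev (e : ∀ᶠ n in UF, ∀ ω ∈ (P n).S, E n ω) : Whp P E := fun _ hε =>
  e.mono fun _ a => (pb_zero fun ω hω k => k (a ω hω)).trans_le hε.le

theorem Whp.and (h : Whp P E) (h' : Whp P F) : Whp P fun n ω => E n ω ∧ F n ω := fun ε hε => by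
  filter_upwards [h _ (half_pos hε), h' _ (half_pos hε)] with n a b
  have h1 := pb_or (P n) (fun ω => ¬E n ω) fun ω => ¬F n ω
  have h2 : pb (P n) (fun ω => ¬(E n ω ∧ F n ω)) ≤ pb (P n) fun ω => ¬E n ω ∨ ¬F n ω :=
    pb_mono fun ω _ => not_and_or.1
  linarith

theorem Pos.mono (h : Pos P E) (e : ∀ᶠ n in UF, ∀ ω ∈ (P n).S, E n ω → F n ω) : Pos P F := by
  obtain ⟨κ, a, b⟩ := h
  exact ⟨κ, a, by filter_upwards [b, e] with n u v using u.trans (pb_mono v)⟩

theorem Pos.and (h : Pos P E) (h' : Whp P F) : Pos P fun n ω => E n ω ∧ F n ω := by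
  obtain ⟨κ, a, b⟩ := h
  refine ⟨κ / 2, half_pos a, ?_⟩
  filter_upwards [b, h' _ (half_pos a)] with n u v
  have h1 := pb_split (P n) (E n) (F n)
  have h2 : pb (P n) (fun ω => E n ω ∧ ¬F n ω) ≤ pb (P n) fun ω => ¬F n ω :=
    pb_mono fun ω _ k => k.2
  linarith

theorem pos_true : Pos P fun _ _ => True :=
  ⟨1, one_pos, Eventually.of_forall fun n => (pb_true (P n)).ge⟩

theorem Whp.pos (h : Whp P E) : Pos P E :=
  (pos_true.and h).mono (Eventually.of_forall fun _ _ _ k => k.2)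

theorem not_whp (h : ¬Whp P E) : Pos P fun n ω => ¬E n ω := by
  unfold Whp at h
  push Not at h
  obtain ⟨ε, h1, h2⟩ := h
  exact ⟨ε, h1, (not_ev.1 fun k => (h2.and_eventually k).exists.elim
    fun _ e => absurd e.2 (not_le.2 e.1)).mono fun n a => (not_le.1 a).le⟩

theorem Pos.ex (h : Pos P E) : ∀ᶠ n in UF, ∃ ω ∈ (P n).S, E n ω := by
  obtain ⟨κ, a, b⟩ := h
  exact b.mono fun n u => ex_of_pb (a.trans_le u)

/-- After conditioning the event holds on the whole support. -/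
theorem Pos.sure (h : Pos P E) :
    ∀ᶠ n in UF, ∀ ω ∈ (cE (P n) (E n)).S, ω ∈ (P n).S ∧ E n ω :=
  h.ex.mono fun _ a ω hω => (mem_cE a ω).1 hω

theorem Pos.not_whp (h : Pos P E) (h' : Whp P fun n ω => ¬E n ω) : False := by
  obtain ⟨n, ω, -, a, b⟩ := (h.and h').ex.exists
  exact b a

theorem Whp.cE (h : Whp P F) (h' : Pos P E) : Whp (fun n => cE (P n) (E n)) F := fun ε hε => by
  obtain ⟨κ, a, b⟩ := h'
  filter_upwards [b, h (κ * ε) (by positivity)] with n u v
  have h1 := pb_cE (P n) (E n) fun ω => ¬F n ω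
  have h2 : pb (P n) (fun ω => E n ω ∧ ¬F n ω) ≤ pb (P n) fun ω => ¬F n ω :=
    pb_mono fun ω _ k => k.2
  have h3 := pb_nonneg (H17F.cE (P n) (E n)) fun ω => ¬F n ω
  exact le_of_mul_le_mul_left (by nlinarith) a

theorem Whp.all {J : Type} [Finite J] {G : J → ∀ n, Ω n → Prop} (h : ∀ j, Whp P (G j)) :
    Whp P fun n ω => ∀ j, G j n ω := by
  classical
  have := Fintype.ofFinite J
  have k : ∀ T : Finset J, Whp P fun n ω => ∀ j ∈ T, G j n ω := by
    intro T
    induction T using Finset.induction_on with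
    | empty => exact Whp.of_ev (Eventually.of_forall fun _ _ _ => by simp)
    | insert j T _ ih => exact ((h j).and ih).mono (Eventually.of_forall fun _ _ _ e => by
        simpa using e)
  exact (k Finset.univ).mono (Eventually.of_forall fun _ _ _ e j => e j (Finset.mem_univ j))

theorem Ex.mono {N : ℕ} {s s' : ℝ} {S : Finset (Fin N)} {SK : Finset (I2 N)} (h : Ex s S SK)
    (e : s' ≤ s) : Ex s' S SK := by
  obtain ⟨x, M, h⟩ := h
  exact ⟨x, M, h.toBas, h.algK, h.grn.trans (Le.of_le fun n => mul_le_mul_of_nonneg_right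
    (mul_le_mul_of_nonneg_right (by linarith) (Nat.cast_nonneg _)) lg_pos.le), h.ker⟩

end Pool.Agent.MP_5168f5_an.H17F
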