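import Pool.Agent.MP_5168f5_an.H17F.SqApi

/-! The minors of the positions of the kernel vanish. -/

namespace Pool.Agent.MP_5168f5_an.H17F

open H19 H17S Filter

namespace BaseA

variable {N : ℕ}

/-- The point modulo the grain as a linear map on lines. -/
def ph (A : Matrix (Fin N) (Fin N) ℝ) (z : ℝ) : Matrix (Fin N) (I2 N) ℝ :=
  fun i => Sum.elim (A i) fun k => z * A i k

theorem ph_mulVec (x : Sy N) (ω : x.Ω) : (ph (x.Pm ω) (x.z ω)).mulVec (x.l ω) = x.π ω := by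
  funext i
  simp only [ph, Sy.l, Sy.π, Cfg.pt, Matrix.mulVec, dotProduct, Fintype.sum_sum_type,
    Sum.elim_inl, Sum.elim_inr, Pi.add_apply, Pi.smul_apply, smul_eq_mul]
  rw [← Finset.sum_add_distrib]
  exact Finset.sum_congr rfl fun k _ => by ring

theorem ph_mul (A : Matrix (Fin N) (Fin N) ℝ) (z : ℝ) (K : Matrix (I2 N) (I2 N) ℝ) :
    ph A z * (1 - K) = A * mY K z := by
  ext i m
  simp only [ph, mY, Matrix.mul_apply, Fintype.sum_sum_type, Sum.elim_inl, Sum.elim_inr]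
  rw [← Finset.sum_add_distrib]
  exact Finset.sum_congr rfl fun k _ => by ring

theorem abs_ph {A : Matrix (Fin N) (Fin N) ℝ} {z L : ℝ} (h : ∀ i j, |A i j| ≤ L) (h0 : 0 ≤ z)
    (h1 : z ≤ 1) (i : Fin N) (m : I2 N) : |ph A z i m| ≤ L := by
  rcases m with k | k
  · exact h i k
  · change |z * A i k| ≤ L
    rw [abs_mul, abs_of_nonneg h0]
    exact (mul_le_of_le_one_left (abs_nonneg _) h1).trans (h i k)

theorem abs_mY {SK : Finset (I2 N)} {K : Matrix (I2 N) (I2 N) ℝ} {z L : ℝ} (h : Prj SK L K)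
    (hL : 1 ≤ L) (h0 : 0 ≤ z) (h1 : z ≤ 1) (i : Fin N) (m : I2 N) : |mY K z i m| ≤ 4 * L := by
  refine (abs_add_le _ _).trans ?_
  rw [abs_mul, abs_of_nonneg h0]
  have a := h.abs_one_sub (Sum.inl i) m
  have b := (mul_le_of_le_one_left (abs_nonneg _) h1).trans (h.abs_one_sub (Sum.inr i) m)
  linarith

end BaseA

open BaseA

theorem rowBase : SBase := by
  intro N s S SK clo d0 d3 mn hx
  obtain ⟨x, M, hS⟩ := hx
  obtain ⟨C, hC, d3⟩ := d3 N
  have hM : Big M := hS.big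
  obtain ⟨L, hL, u1⟩ := hS.alg
  obtain ⟨K, hK, u2⟩ := hS.algK
  obtain ⟨L', hL', hW⟩ := mn x M M (Fin N) (fun n ω => ph ((x n).Pm ω) ((x n).z ω)) L hS
    (fun _ => le_rfl) hL (by
      filter_upwards [u1] with n v
      exact ⟨fun a ha b hb e => congrArg₂ ph (v.fP a ha b hb e) (v.fz a ha b hb e),
        fun ω hω => abs_ph (v.pP ω hω).2.2 (v.box ω hω).2.2.1 (v.box ω hω).2.2.2.le⟩)
    (Sm.near hM hL (by
      refine Eventually.of_forall fun n a _ b _ e => ?_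
      rw [ph_mulVec, ph_mulVec]
      refine (norm_sub_lt_of_fl_eq (congrArg Prod.fst e)).le.trans ?_
      rw [← one_div]
      exact div_le_div_of_nonneg_right (hL.1 n) (by positivity)))
  have hL₃ : Sub M fun n => C * (4 * K n) ^ (N + 1) * L' n :=
    (((hK.const_mul hM (by norm_num)).pow _).const_mul hM hC).mul hL'
  generalize hL₄ : (fun n => C * (4 * K n) ^ (N + 1) * L' n) = L₃ at hL₃
  have hW' : Whp (fun n => (x n).P) fun n ω =>
      Dm (S.card + 1) 0 (L₃ n / 2 ^ M n) ((x n).Km ω) ((x n).z ω) := hW.mono (by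
    filter_upwards [u1, u2, hL'.2 (1 / 2) (by norm_num)] with n v1 v2 v3 ω hω hE ρ γ
    rw [(d0 _ _ _).1, ← hL₄, mul_div_assoc]
    have h2 : (0 : ℝ) < 2 ^ M n := by positivity
    refine d3 S ((x n).Pm ω) _ (4 * K n) (L n) _ ρ γ (by linarith [hK.1 n])
      (div_nonneg (hL'.pos n).le h2.le) ?_ (v1.pP ω hω) fun i m =>
      ⟨abs_mY (v2.pK ω hω) (hK.1 n) (v1.box ω hω).2.2.1 (v1.box ω hω).2.2.2.le i m, ?_⟩
    · rw [div_le_one h2]
      refine v3.trans (le_trans (le_of_eq ?_) (exp_le_two_pow (M n)))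
      congr 1; ring
    · rw [← ph_mul]; exact hE i m)
  have hP := hW'.pos
  refine ⟨_, _, L₃, clo.cond S SK x M _ hS ?_ hP, hL₃, ?_⟩
  · filter_upwards [u1, u2] with n v1 v2 a ha b hb e
    exact congrArg₂ (Dm (S.card + 1) 0 (L₃ n / 2 ^ M n)) (v2.fK a ha b hb e) (v1.fz a ha b hb e)
  · filter_upwards [hP.sure] with n h ω hω
    exact (h ω hω).2

end Pool.Agent.MP_5168f5_an.H17F
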