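import Pool.Agent.MP_5168f5_an.H17F.Sq2

/-! A system is a system at every comparable coarser scale. -/

namespace Pool.Agent.MP_5168f5_an.H17F

open H19 H17S Filter

theorem rowCoarse : SCoarse := by
  intro N s hb ha S SK x M M' h hf
  have b := hb S x M h.toBas
  have a := ha S SK x M h
  obtain ⟨L, hL, e⟩ := h.alg
  obtain ⟨L', hL', e'⟩ := h.algK
  exact
    { big := h.big.frac hf
      alg := ⟨L, hL.frac hf, e⟩
      dir := ((b.dir M' hf.1).trans (Le.of_le fun n => ch_anti (Fn.snd (x n).ξ (x n).θ))).frac hf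
      stk := fun j hj => (h.stk j fun n => (hj n).trans (hf.1 n)).frac hf
      inf := Le.frac h.inf hf
      hgt := ((b.hgt M' hf.1).trans (Le.of_le fun n => ch_anti (x n).toCfg.fn_θ_ln)).frac hf
      algK := ⟨L', hL'.frac hf, e'⟩
      grn := (a.e0 M' hf.1).frac hf
      ker := Le.frac (a.ek M' hf.1) hf }

end Pool.Agent.MP_5168f5_an.H17F
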