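import Pool.Agent.MP_5168f5_an.H17F.Sq2

/-! Conditioning an extremal system on an event. -/

namespace Pool.Agent.MP_5168f5_an.H17F

open H19 H17S Filter

theorem rowCond : SCond := by
  intro ke ks N s hB hL S SK x M E h hE hP
  obtain ⟨κ, hκ, hp⟩ := id hP
  refine ⟨hB S x M E h.toBas hE hP, ?_, ?_, ?_⟩
  · obtain ⟨L, h1, h2⟩ := h.algK
    exact ⟨L, h1, h2.mono fun n a => a.cond _⟩
  · refine ks.event M (fun n => pb (x n).P (E n))
      (fun n => ch (x n).P (fun ω => fl (M n) ((x n).π ω)) (x n).g)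
      (fun n => ch (cE (x n).P (E n)) (fun ω => fl (M n) ((x n).π ω)) (x n).g)
      (fun n => ch (cE (x n).P fun ω => ¬E n ω) (fun ω => fl (M n) ((x n).π ω)) (x n).g)
      (fun n => (N - s - S.card) * M n * lg)
      |(N : ℝ) - s - S.card| κ hκ (hp.mono fun n a => ⟨a, pb_le_one _ _, ch_nonneg _ _, ?_,
        ke.ge _ _ _ _⟩) h.grn ?_
    · rw [abs_mul, abs_mul, Nat.abs_cast, abs_of_nonneg lg_pos.le]
      exact mul_le_of_le_one_right (by positivity) lg_lt_one.le
    · rintro ⟨κ', h1, h2⟩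
      exact hL S (fun n => (x n).cond fun ω => ¬E n ω) M (hB S x M (fun n ω => ¬E n ω) h.toBas
        (hE.mono fun n a u hu v hv e => congrArg Not (a u hu v hv e))
        ⟨κ', h1, h2.mono fun n a => by rwa [pb_not]⟩)
  · refine Le.of_mul hκ hp (h.ker.of_sub (Eventually.of_forall fun n => ?_))
    have h1 := ke.ge (x n).P (E n) (fun ω => flv (M n) ((x n).ψ ω)) fun ω =>
      (fl (M n) ((x n).π ω), (x n).g ω)
    have h2 := mul_nonneg (sub_nonneg.2 (pb_le_one (x n).P (E n))) (ch_nonneg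
      (P := cE (x n).P fun ω => ¬E n ω) (fun ω => flv (M n) ((x n).ψ ω)) fun ω =>
      (fl (M n) ((x n).π ω), (x n).g ω))
    rw [mul_zero, sub_zero, sub_zero]
    exact (le_add_of_nonneg_right h2).trans h1

end Pool.Agent.MP_5168f5_an.H17F
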