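import Pool.Agent.MP_5168f5_an.H17F.Sq2

/-! Conditioning a sticky system on an event of the side information. -/

namespace Pool.Agent.MP_5168f5_an.H17F

open H19 H17S Filter

namespace CondBA

variable {N : ℕ} {β : Type} {x : Sy N} (h : x.toCfg.Box) (E : x.Ω → Prop) (j : ℕ) (G : x.Ω → β)
include h

theorem up_e : ch (cE x.P E) (fun ω => fl j (x.e ω)) G ≤ N * j * lg := by
  have := ch_fl_refine (P := cE x.P E) (x := x.e) (G := G) (j := 0) (i := j)
    fun a ha b hb _ => funext fun i => by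
      have h1 := (h a (cE_sub ha)).2.1 i
      have h2 := (h b (cE_sub hb)).2.1 i
      exact (fl1_zero_of_box h1.1 h1.2).trans (fl1_zero_of_box h2.1 h2.2).symm
  rwa [zero_add] at this

theorem up_z : ch (cE x.P E) (fun ω => fl1 j (x.z ω)) G ≤ j * lg := by
  have := ch_fl1_refine (P := cE x.P E) (x := x.z) (G := G) (j := fun _ => 0) (i := fun _ => j)
    (fun _ _ _ _ _ => rfl) (fun _ _ _ _ _ => rfl) fun a ha b hb _ => by
      have h1 := (h a (cE_sub ha)).2.2
      have h2 := (h b (cE_sub hb)).2.2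
      exact (fl1_zero_of_box h1.1 h1.2).trans (fl1_zero_of_box h2.1 h2.2).symm
  simpa only [zero_add, FP.E_const] using this

end CondBA

open CondBA in
theorem rowCondB : SCondB := by
  intro ke ks N exb S x M E b fE pE
  obtain ⟨L, sL, al⟩ := b.alg
  have A : ∀ E' : ∀ n, (x n).Ω → Prop, Pos (fun n => (x n).P) E' → ∀ j : ℕ → ℕ, (∀ n, j n ≤ M n) →
      Le M (fun n => N * j n * lg) fun n =>
        ch (cE (x n).P (E' n)) (fun ω => fl (j n) ((x n).e ω)) (x n).θ := fun E' p j hj =>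
    (ks.full _ E' _ _ M _ b.big p ((exb S x M b).dir j hj)
      (Le.of_ev (al.mono fun n a => up_e a.box _ _ _))).trans
      (Le.of_le fun n => ch_anti (Fn.snd _ _))
  obtain ⟨κ, κ0, hκ⟩ := id pE
  refine ⟨b.big, ⟨L, sL, al.mono fun n a => a.cond _⟩, A E pE M fun _ => le_rfl, fun j hj => ?_,
    Le.of_mul κ0 hκ (b.inf.of_sub (fE.mono fun n f => ?_)), ks.full _ E _ _ M _ b.big pE b.hgt
      (Le.of_ev (al.mono fun n a => up_z a.box _ _ _))⟩
  · refine ks.event M (fun n => pb (x n).P (E n)) _ _ (fun n => ch (cE (x n).P fun ω => ¬E n ω)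
      ((x n).toCfg.X (j n)) (x n).θ) _ N κ κ0 (hκ.mono fun n k => ⟨k, pb_le_one _ _,
        ch_nonneg _ _, ?_, ke.ge _ _ _ _⟩) (b.stk j hj) fun ⟨κ', a, c⟩ =>
      (A _ ⟨κ', a, c.mono fun n k => k.trans (pb_not _ _).ge⟩ j hj).trans
        (Le.of_le fun n => ch_mono fun _ _ _ _ e => congrArg (·.1.2) e)
    have h1 : (j n : ℝ) ≤ M n := by exact_mod_cast hj n
    have := lg_pos
    rw [abs_of_nonneg (by positivity), mul_assoc]
    refine mul_le_mul_of_nonneg_left ?_ (Nat.cast_nonneg N)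
    nlinarith [lg_lt_one, Nat.cast_nonneg (α := ℝ) (j n)]
  · have := ke.inf (x n).P (E n) (x n).ξ (x n).toCfg.ln (x n).θ f
    rw [mul_zero]
    exact sub_le_sub_right this 0

end Pool.Agent.MP_5168f5_an.H17F
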