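import Pool.Agent.MP_5168f5_an.H17F.Spec

/-! The extreme coefficients of `det (Y + X B)`. -/

namespace Pool.Agent.MP_5168f5_an.H17F

theorem det0 : Det0 := by
  intro k Y B
  unfold dm
  rw [add_comm]
  refine ⟨Polynomial.coeff_det_X_add_C_zero B Y, ?_⟩
  have h := Polynomial.coeff_det_X_add_C_card B Y
  rwa [Fintype.card_fin] at h

end Pool.Agent.MP_5168f5_an.H17F
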