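import Pool.Agent.MP_5168f5_an.H17F.Spec

namespace Pool.Agent.MP_5168f5_an.H17F

namespace Det1A

open Polynomial

theorem co (a b : ℝ) (p : ℝ[X]) (j : ℕ) :
    ((C a + X * C b) * p).coeff j = a * p.coeff j + b * (X * p).coeff j := by
  have : (C a + X * C b) * p = C a * p + C b * (X * p) := by ring
  rw [this, coeff_add, coeff_C_mul, coeff_C_mul]

theorem st {a b a' b' p q p' q' L ε M D : ℝ} (hL : 1 ≤ L) (hε : 0 ≤ ε) (ha' : |a'| ≤ L)
    (hb' : |b'| ≤ L) (da : |a - a'| ≤ ε) (db : |b - b'| ≤ ε) (hp : |p| ≤ M) (hq : |q| ≤ M)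
    (dp : |p - p'| ≤ D) (dq : |q - q'| ≤ D) :
    |a * p + b * q - (a' * p' + b' * q')| ≤ 2 * L * (M * ε + D) := by
  have e : a * p + b * q - (a' * p' + b' * q') =
      ((a - a') * p + a' * (p - p')) + ((b - b') * q + b' * (q - q')) := by ring
  have m : ∀ {x y A B : ℝ}, |x| ≤ A → |y| ≤ B → |x * y| ≤ A * B := fun h h' => by
    rw [abs_mul]; exact mul_le_mul h h' (abs_nonneg _) ((abs_nonneg _).trans h)
  have hM : 0 ≤ M * ε := mul_nonneg ((abs_nonneg _).trans hp) hε
  rw [e]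
  refine (abs_add_le _ _).trans ((add_le_add (abs_add_le _ _) (abs_add_le _ _)).trans ?_)
  nlinarith [m da hp, m ha' dp, m db hq, m hb' dq]

theorem key {ι : Type} (u : Finset ι) (a b a' b' : ι → ℝ) {L ε : ℝ} (hL : 1 ≤ L) (hε : 0 ≤ ε)
    (h : ∀ i, |a i| ≤ L ∧ |b i| ≤ L ∧ |a' i| ≤ L ∧ |b' i| ≤ L ∧ |a i - a' i| ≤ ε ∧
      |b i - b' i| ≤ ε) : ∀ j,
    |(∏ i ∈ u, (C (a i) + X * C (b i))).coeff j| ≤ (2 * L) ^ u.card ∧
    |(∏ i ∈ u, (C (a i) + X * C (b i))).coeff j - (∏ i ∈ u, (C (a' i) + X * C (b' i))).coeff j| ≤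
      u.card * (2 * L) ^ u.card * ε := by
  classical
  induction u using Finset.induction_on with
  | empty =>
    intro j
    simp only [Finset.prod_empty, coeff_one]
    split_ifs <;> simp
  | insert i u hi ih =>
    intro j
    obtain ⟨h1, h2, h3, h4, h5, h6⟩ := h i
    have hM : (0 : ℝ) ≤ (2 * L) ^ u.card := by positivity
    have hx : |(X * ∏ i ∈ u, (C (a i) + X * C (b i))).coeff j| ≤ (2 * L) ^ u.card ∧
        |(X * ∏ i ∈ u, (C (a i) + X * C (b i))).coeff j -
          (X * ∏ i ∈ u, (C (a' i) + X * C (b' i))).coeff j| ≤ u.card * (2 * L) ^ u.card * ε := by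
      rcases j with _ | j
      · simp only [coeff_X_mul_zero, sub_self, abs_zero]
        exact ⟨hM, by positivity⟩
      · simp only [coeff_X_mul]
        exact ih j
    rw [Finset.prod_insert hi, Finset.prod_insert hi, Finset.card_insert_of_notMem hi, co, co]
    constructor
    · refine (abs_add_le _ _).trans ?_
      rw [abs_mul, abs_mul, pow_succ]
      have := mul_le_mul h1 (ih j).1 (abs_nonneg _) (by linarith)
      have := mul_le_mul h2 hx.1 (abs_nonneg _) (by linarith)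
      linarith
    · refine (st hL hε h3 h4 h5 h6 (ih j).1 hx.1 (ih j).2 hx.2).trans (le_of_eq ?_)
      push_cast
      ring

theorem dm_eq {k : ℕ} (Y B : Matrix (Fin k) (Fin k) ℝ) (j : ℕ) : dm Y B j =
    ∑ s : Equiv.Perm (Fin k), ((Equiv.Perm.sign s : ℤ) : ℝ) *
      (∏ i, (C (Y (s i) i) + X * C (B (s i) i))).coeff j := by
  rw [dm, Matrix.det_apply', finsetSum_coeff]
  refine Finset.sum_congr rfl fun s _ => ?_
  rw [← map_intCast (C : ℝ →+* ℝ[X]), coeff_C_mul]
  rfl

end Det1A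

theorem det1 : Det1 := by
  intro k j
  refine ⟨1 + k.factorial * (k * 2 ^ k), le_add_of_nonneg_right (by positivity), ?_⟩
  intro Y B Y' B' L ε hL hε h
  rw [Det1A.dm_eq, Det1A.dm_eq, ← Finset.sum_sub_distrib]
  refine (Finset.abs_sum_le_sum_abs _ _).trans ?_
  refine (Finset.sum_le_card_nsmul _ _ (k * (2 * L) ^ k * ε) fun s _ => ?_).trans ?_
  · have := (Det1A.key Finset.univ (fun i => Y (s i) i) (fun i => B (s i) i) (fun i => Y' (s i) i)
      (fun i => B' (s i) i) hL hε (fun i => h _ _) j).2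
    rw [Finset.card_univ, Fintype.card_fin] at this
    rw [← mul_sub, abs_mul]
    have e : |((Equiv.Perm.sign s : ℤ) : ℝ)| = 1 := by
      rcases Int.units_eq_one_or (Equiv.Perm.sign s) with e | e <;> simp [e]
    rwa [e, one_mul]
  · rw [Finset.card_univ, Fintype.card_perm, Fintype.card_fin, nsmul_eq_mul, mul_pow]
    have : 0 ≤ L ^ k * ε := by positivity
    nlinarith

end Pool.Agent.MP_5168f5_an.H17F
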