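import Pool.Agent.MP_5168f5_an.H17F.Spec

/-! Second order expansion of the coefficients of a determinant. -/

namespace Pool.Agent.MP_5168f5_an.H17F

namespace Det2A

open Polynomial

lemma coeff_prod {ι : Type} (u : Finset ι) (a b : ι → ℝ) (L : ℝ) (hL : 0 ≤ L)
    (h : ∀ i, |a i| ≤ L ∧ |b i| ≤ L) (m : ℕ) :
    |(∏ i ∈ u, (C (a i) + X * C (b i))).coeff m| ≤ (2 * L) ^ u.card := by
  classical
  induction u using Finset.induction_on generalizing m with
  | empty =>
    rw [Finset.prod_empty, coeff_one]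
    split_ifs <;> simp
  | insert i u hi ih =>
    rw [Finset.prod_insert hi, Finset.card_insert_of_notMem hi, add_mul, coeff_add, coeff_C_mul,
      mul_assoc]
    have hp : 0 ≤ (2 * L) ^ u.card := by positivity
    have h1 : |a i * (∏ i ∈ u, (C (a i) + X * C (b i))).coeff m| ≤ L * (2 * L) ^ u.card := by
      rw [abs_mul]
      exact mul_le_mul (h i).1 (ih m) (abs_nonneg _) hL
    have h2 : |(X * (C (b i) * ∏ i ∈ u, (C (a i) + X * C (b i)))).coeff m| ≤
        L * (2 * L) ^ u.card := by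
      cases m with
      | zero =>
        rw [coeff_X_mul_zero, abs_zero]
        positivity
      | succ m =>
        rw [coeff_X_mul, coeff_C_mul, abs_mul]
        exact mul_le_mul (h i).2 (ih m) (abs_nonneg _) hL
    refine (abs_add_le _ _).trans ((add_le_add h1 h2).trans (le_of_eq ?_))
    ring

lemma dm_le {k : ℕ} (Y B : Matrix (Fin k) (Fin k) ℝ) (L : ℝ) (hL : 0 ≤ L)
    (h : ∀ p q, |Y p q| ≤ L ∧ |B p q| ≤ L) (m : ℕ) :
    |dm Y B m| ≤ (k.factorial * 2 ^ k) * L ^ k := by
  rw [dm, Matrix.det_apply', finsetSum_coeff]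
  refine (Finset.abs_sum_le_sum_abs _ _).trans ?_
  refine (Finset.sum_le_card_nsmul _ _ ((2 * L) ^ k) fun σ _ => ?_).trans (le_of_eq ?_)
  · have e : ((((Equiv.Perm.sign σ : ℤˣ) : ℤ)) : ℝ[X]) = C (((Equiv.Perm.sign σ : ℤˣ) : ℤ) : ℝ) :=
      (map_intCast (C : ℝ →+* ℝ[X]) _).symm
    rw [e, coeff_C_mul, abs_mul]
    have e1 : |(((Equiv.Perm.sign σ : ℤˣ) : ℤ) : ℝ)| = 1 := by
      rcases Int.units_eq_one_or (Equiv.Perm.sign σ) with h | h <;> simp [h]
    have h2 := coeff_prod (Finset.univ : Finset (Fin k)) (fun i => Y (σ i) i) (fun i => B (σ i) i)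
      L hL (fun i => h _ _) m
    rw [Finset.card_univ, Fintype.card_fin] at h2
    rw [e1, one_mul]
    simpa only [Matrix.add_apply, Matrix.smul_apply, Matrix.map_apply, smul_eq_mul] using h2
  · rw [Finset.card_univ, Fintype.card_perm, Fintype.card_fin, nsmul_eq_mul, mul_pow]
    ring

lemma dm_shift {k : ℕ} (Y B : Matrix (Fin k) (Fin k) ℝ) (t : ℝ) (j : ℕ) :
    dm (Y + t • B) B j =
      ∑ m ∈ Finset.range (k + 2), ((m + j).choose j : ℝ) * dm Y B (m + j) * t ^ m := by
  have e : ((Y + t • B).map C + (X : ℝ[X]) • B.map C).det =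
      taylor t (Y.map C + (X : ℝ[X]) • B.map C).det := by
    have h1 := (taylorAlgHom t).map_det (Y.map C + (X : ℝ[X]) • B.map C)
    have h2 : (taylorAlgHom t).mapMatrix (Y.map C + (X : ℝ[X]) • B.map C) =
        (Y + t • B).map C + (X : ℝ[X]) • B.map C := by
      refine Matrix.ext fun p q => ?_
      change taylor t (C (Y p q) + X * C (B p q)) = C (Y p q + t * B p q) + X * C (B p q)
      rw [map_add, taylor_mul, taylor_C, taylor_C, taylor_X, map_add, map_mul]
      ring
    rw [h2] at h1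
    exact h1.symm
  have hd : (hasseDeriv j (Y.map C + (X : ℝ[X]) • B.map C).det).natDegree < k + 2 := by
    have h1 := natDegree_det_X_add_C_le B Y
    rw [add_comm, Fintype.card_fin] at h1
    have h2 := natDegree_hasseDeriv_le (Y.map C + (X : ℝ[X]) • B.map C).det j
    omega
  rw [dm, e, taylor_coeff, eval_eq_sum_range' hd]
  simp only [hasseDeriv_coeff, dm]

end Det2A

theorem det2 : Det2 := by
  intro k j
  have hs : (0 : ℝ) ≤ ∑ m ∈ Finset.range k,
      ((m + 1 + 1 + j).choose j : ℝ) * (k.factorial * 2 ^ k) := by positivity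
  refine ⟨1 + ∑ m ∈ Finset.range k, ((m + 1 + 1 + j).choose j : ℝ) * (k.factorial * 2 ^ k),
    by linarith, fun Y B L t hL ht h => ?_⟩
  have hL0 : 0 ≤ L := by linarith
  have e : dm (Y + t • B) B j - dm Y B j - (j + 1) * t * dm Y B (j + 1) =
      ∑ m ∈ Finset.range k,
        ((m + 1 + 1 + j).choose j : ℝ) * dm Y B (m + 1 + 1 + j) * t ^ (m + 1 + 1) := by
    rw [Det2A.dm_shift, Finset.sum_range_succ', Finset.sum_range_succ']
    simp only [zero_add, Nat.choose_self, add_comm 1 j, Nat.choose_succ_self_right]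
    push_cast
    ring
  rw [e]
  refine (Finset.abs_sum_le_sum_abs _ _).trans ?_
  have h2 : ∀ m ∈ Finset.range k,
      |((m + 1 + 1 + j).choose j : ℝ) * dm Y B (m + 1 + 1 + j) * t ^ (m + 1 + 1)| ≤
        ((m + 1 + 1 + j).choose j : ℝ) * (k.factorial * 2 ^ k) * (L ^ k * t ^ 2) := by
    intro m _
    have h3 : |t ^ (m + 1 + 1)| ≤ t ^ 2 := by
      rw [add_assoc, pow_add, abs_mul, abs_pow, abs_of_nonneg (pow_two_nonneg t)]
      exact mul_le_of_le_one_left (pow_two_nonneg t) (pow_le_one₀ (abs_nonneg t) ht)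
    rw [abs_mul, abs_mul, Nat.abs_cast]
    calc _ ≤ ((m + 1 + 1 + j).choose j : ℝ) * ((k.factorial * 2 ^ k) * L ^ k) * t ^ 2 :=
          mul_le_mul (mul_le_mul_of_nonneg_left (Det2A.dm_le Y B L hL0 h _) (Nat.cast_nonneg _))
            h3 (abs_nonneg _) (by positivity)
      _ = _ := by ring
  refine (Finset.sum_le_sum h2).trans ?_
  rw [← Finset.sum_mul, mul_assoc]
  exact mul_le_mul_of_nonneg_right (by linarith) (by positivity)

end Pool.Agent.MP_5168f5_an.H17F
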