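import Pool.Agent.MP_5168f5_an.H17F.Spec

/-! Large minors of a matrix that is almost killed by a projection are small. -/

namespace Pool.Agent.MP_5168f5_an.H17F

namespace Det3A

theorem det_zero {k : ℕ} {ι : Type} [Fintype ι] [DecidableEq ι] (U : Matrix (Fin k) ι ℝ)
    (W : Matrix ι (Fin k) ℝ) (h : Fintype.card ι < k) : (U * W).det = 0 := by
  by_contra hne
  have hu : IsUnit (U * W) :=
    (Matrix.isUnit_iff_isUnit_det _).2 (isUnit_iff_ne_zero.2 hne)
  have h1 := Matrix.rank_of_isUnit _ hu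
  have h2 : (U * W).rank ≤ U.rank := Matrix.rank_mul_le_left U W
  have h3 : U.rank ≤ Fintype.card ι := Matrix.rank_le_card_width U
  rw [Fintype.card_fin] at h1
  omega

theorem low {N : ℕ} (S : Finset (Fin N)) (A : Matrix (Fin N) (Fin N) ℝ)
    (Y : Matrix (Fin N) (I2 N) ℝ) (L₁ : ℝ) (ρ : Fin (S.card + 1) → Fin N)
    (γ : Fin (S.card + 1) → I2 N) (hA : Prj S L₁ A) :
    ((Y - A * Y).submatrix ρ γ).det = 0 := by
  have key : (Y - A * Y).submatrix ρ γ =
      (Matrix.of fun (p : Fin (S.card + 1)) (j : S) => (1 - A) (ρ p) j) *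
        (Matrix.of fun (j : S) (q : Fin (S.card + 1)) => Y j (γ q)) := by
    ext p q
    have h1 : Y - A * Y = (1 - A) * Y := by rw [Matrix.sub_mul, Matrix.one_mul]
    rw [h1, Matrix.submatrix_apply, Matrix.mul_apply, Matrix.mul_apply]
    simp only [Matrix.of_apply]
    rw [Finset.sum_coe_sort S (fun j => (1 - A) (ρ p) j * Y j (γ q))]
    symm
    refine Finset.sum_subset (Finset.subset_univ _) fun j _ hj => ?_
    rw [Matrix.sub_apply, hA.2.1 j hj, Matrix.one_apply, sub_self, zero_mul]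
  rw [key]
  exact det_zero _ _ (by simp)

end Det3A

theorem det3 : SDet3 := by
  intro h0 h1 N
  choose C hC1 hC using fun k => h1 k 0
  have hsum : ∀ k, k ≤ N + 1 → C k ≤ ∑ i ∈ Finset.range (N + 2), C i := fun k hk =>
    Finset.single_le_sum (f := C) (fun i _ => zero_le_one.trans (hC1 i))
      (Finset.mem_range.2 (by omega))
  have h2 : (1 : ℝ) ≤ 2 ^ (N + 1) := one_le_pow₀ one_le_two
  have hs1 : 1 ≤ ∑ i ∈ Finset.range (N + 2), C i := (hC1 0).trans (hsum 0 (by omega))
  refine ⟨2 ^ (N + 1) * ∑ i ∈ Finset.range (N + 2), C i, one_le_mul_of_one_le_of_one_le h2 hs1,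
    ?_⟩
  intro S A Y L L₁ ε ρ γ hL hε hε1 hA hY
  have hk : S.card + 1 ≤ N + 1 := by
    have := Finset.card_le_univ S
    rw [Fintype.card_fin] at this
    omega
  have hL2 : (1 : ℝ) ≤ 2 * L := by linarith
  have h := hC (S.card + 1) (Y.submatrix ρ γ) 0 ((Y - A * Y).submatrix ρ γ) 0 (2 * L) ε hL2 hε
    (fun p q => by
      obtain ⟨ha, hb⟩ := hY (ρ p) (γ q)
      have hz : |(0 : Matrix (Fin (S.card + 1)) (Fin (S.card + 1)) ℝ) p q| ≤ 2 * L := by
        rw [Matrix.zero_apply, abs_zero]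
        linarith
      refine ⟨?_, hz, ?_, hz, ?_, ?_⟩
      · rw [Matrix.submatrix_apply]
        linarith
      · rw [Matrix.submatrix_apply, Matrix.sub_apply]
        have := abs_sub (Y (ρ p) (γ q)) ((A * Y) (ρ p) (γ q))
        linarith
      · rw [Matrix.submatrix_apply, Matrix.submatrix_apply, Matrix.sub_apply, sub_sub_cancel]
        exact hb
      · rw [sub_self, abs_zero]
        exact hε)
  rw [(h0 _ _ _).1, (h0 _ _ _).1, Det3A.low S A Y L₁ ρ γ hA, sub_zero] at h
  refine h.trans (mul_le_mul_of_nonneg_right ?_ hε)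
  have h3 : (2 * L) ^ (S.card + 1) ≤ (2 * L) ^ (N + 1) := pow_le_pow_right₀ hL2 hk
  have h4 : (0 : ℝ) ≤ (2 * L) ^ (S.card + 1) := by positivity
  calc C (S.card + 1) * (2 * L) ^ (S.card + 1)
      ≤ (∑ i ∈ Finset.range (N + 2), C i) * (2 * L) ^ (N + 1) :=
        mul_le_mul (hsum _ hk) h3 h4 (by linarith)
    _ = 2 ^ (N + 1) * (∑ i ∈ Finset.range (N + 2), C i) * L ^ (N + 1) := by
        rw [mul_pow]
        ring

end Pool.Agent.MP_5168f5_an.H17F
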