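import Pool.Agent.MP_5168f5_an.H17F.Spec

/-! Small minors give an approximate row basis with bounded coefficients. -/

namespace Pool.Agent.MP_5168f5_an.H17F

namespace Det4A

variable {α β : Type} {k : ℕ}

theorem schur (B : Matrix α β ℝ) (ρ : Fin k → α) (γ : Fin k → β) (i : α) (m : β)
    (cc : Fin k → ℝ) (h : ∀ q, B i (γ q) = ∑ p, cc p * B (ρ p) (γ q)) :
    (B.submatrix (Fin.cons i ρ : Fin (k + 1) → α) (Fin.cons m γ : Fin (k + 1) → β)).det
      = (B i m - ∑ p, cc p * B (ρ p) m) * (B.submatrix ρ γ).det := by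
  set M := B.submatrix (Fin.cons i ρ : Fin (k + 1) → α) (Fin.cons m γ : Fin (k + 1) → β) with hM
  have h1 := Matrix.det_updateRow_sum M 0 (Fin.cons 1 (fun p => -cc p) : Fin (k + 1) → ℝ)
  rw [Fin.cons_zero, one_smul] at h1
  have hr : ∀ j, (∑ l, (Fin.cons 1 (fun p => -cc p) : Fin (k + 1) → ℝ) l • M l) j
      = B i ((Fin.cons m γ : Fin (k + 1) → β) j)
        - ∑ p, cc p * B (ρ p) ((Fin.cons m γ : Fin (k + 1) → β) j) := by
    intro j
    rw [Finset.sum_apply, Fin.sum_univ_succ]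
    simp [hM, sub_eq_add_neg]
  generalize (∑ l, (Fin.cons 1 (fun p => -cc p) : Fin (k + 1) → ℝ) l • M l) = r at h1 hr
  have hz : ∑ j : Fin k, (-1 : ℝ) ^ ((j.succ : Fin (k + 1)) : ℕ) * (M.updateRow 0 r) 0 j.succ *
      ((M.updateRow 0 r).submatrix Fin.succ j.succ.succAbove).det = 0 := by
    refine Finset.sum_eq_zero fun j _ => ?_
    rw [Matrix.updateRow_self, hr, Fin.cons_succ, ← h j, sub_self, mul_zero, zero_mul]
  rw [← h1, Matrix.det_succ_row_zero, Fin.sum_univ_succ, hz, Matrix.updateRow_self, hr]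
  simp only [Fin.val_zero, pow_zero, one_mul, Fin.cons_zero, add_zero, Fin.succAbove_zero]
  congr 2

theorem upd (B : Matrix α β ℝ) (ρ : Fin k → α) (γ : Fin k → β) (i : α) (p : Fin k)
    (cc : Fin k → ℝ) (h : ∀ q, B i (γ q) = ∑ p, cc p * B (ρ p) (γ q)) :
    (B.submatrix (Function.update ρ p i) γ).det = cc p * (B.submatrix ρ γ).det := by
  have h1 := Matrix.det_updateRow_sum (B.submatrix ρ γ) p cc
  rw [smul_eq_mul] at h1
  rw [← h1]
  congr 1
  ext a q
  by_cases ha : a = p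
  · subst ha
    rw [Matrix.updateRow_self, Finset.sum_apply]
    simp [h q]
  · rw [Matrix.updateRow_ne ha]
    simp [Function.update_of_ne ha]

theorem coef (B : Matrix α β ℝ) (ρ : Fin k → α) (γ : Fin k → β) (i : α)
    (hD : (B.submatrix ρ γ).det ≠ 0) :
    ∃ cc : Fin k → ℝ, ∀ q, B i (γ q) = ∑ p, cc p * B (ρ p) (γ q) := by
  refine ⟨Matrix.vecMul (fun q => B i (γ q)) (B.submatrix ρ γ)⁻¹, fun q => ?_⟩
  have h1 : Matrix.vecMul (Matrix.vecMul (fun q => B i (γ q)) (B.submatrix ρ γ)⁻¹)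
      (B.submatrix ρ γ) = fun q => B i (γ q) := by
    rw [Matrix.vecMul_vecMul, Matrix.nonsing_inv_mul _ (isUnit_iff_ne_zero.2 hD),
      Matrix.vecMul_one]
  exact (congrFun h1 q).symm

theorem mx [Finite α] [Finite β] (w : ℕ) (B : Matrix α β ℝ) (τ : ℝ) :
    ∃ (k : ℕ) (ρ : Fin k → α) (γ : Fin k → β), k ≤ w ∧
      ∀ (k' : ℕ) (ρ' : Fin k' → α) (γ' : Fin k' → β), k' ≤ w →
        |(B.submatrix ρ' γ').det| / τ ^ k' ≤ |(B.submatrix ρ γ).det| / τ ^ k := by
  have : Nonempty (Σ k : Fin (w + 1), (Fin k → α) × (Fin k → β)) :=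
    ⟨⟨0, Fin.elim0, Fin.elim0⟩⟩
  obtain ⟨⟨k, ρ, γ⟩, h⟩ := Finite.exists_max
    (fun x : (Σ k : Fin (w + 1), (Fin k → α) × (Fin k → β)) =>
      |(B.submatrix x.2.1 x.2.2).det| / τ ^ (x.1 : ℕ))
  exact ⟨k, ρ, γ, Nat.lt_succ_iff.1 k.2, fun k' ρ' γ' hk' =>
    h ⟨⟨k', Nat.lt_succ_iff.2 hk'⟩, ρ', γ'⟩⟩

end Det4A

open Det4A in
theorem det4 : Det4 := by
  intro N w B τ hτ hB
  obtain ⟨k, ρ, γ, hk, hmx⟩ := mx w B τ
  have hτk : 0 < τ ^ k := pow_pos hτ k
  have h1 : τ ^ k ≤ |(B.submatrix ρ γ).det| := by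
    have := hmx 0 Fin.elim0 Fin.elim0 (Nat.zero_le w)
    rw [Matrix.det_isEmpty, abs_one, pow_zero, div_one, le_div_iff₀ hτk, one_mul] at this
    exact this
  have hD0 : 0 < |(B.submatrix ρ γ).det| := lt_of_lt_of_le hτk h1
  have hD : (B.submatrix ρ γ).det ≠ 0 := abs_pos.1 hD0
  have hinj : Function.Injective ρ := by
    intro a b hab
    by_contra hne
    refine hD (Matrix.det_zero_of_row_eq hne ?_)
    ext q
    simp [hab]
  choose cc hcc using fun i => coef B ρ γ i hD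
  have hc1 : ∀ i p, |cc i p| ≤ 1 := by
    intro i p
    have := hmx k (Function.update ρ p i) γ hk
    rw [upd B ρ γ i p (cc i) (hcc i), div_le_div_iff_of_pos_right hτk, abs_mul] at this
    exact le_of_mul_le_mul_right (by rwa [one_mul]) hD0
  have hs : ∀ i m, |B i m - ∑ p, cc i p * B (ρ p) m| ≤ τ := by
    intro i m
    have e1 := schur B ρ γ i m (cc i) (hcc i)
    refine le_of_mul_le_mul_right ?_ hD0
    rw [← abs_mul, ← e1]
    rcases lt_or_eq_of_le hk with hlt | heq
    · have := hmx (k + 1) (Fin.cons i ρ) (Fin.cons m γ) hlt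
      rw [div_le_div_iff₀ (pow_pos hτ _) hτk, pow_succ] at this
      refine le_of_mul_le_mul_right ?_ hτk
      linarith
    · subst heq
      refine le_trans (hB _ _) ?_
      rw [pow_succ, mul_comm]
      exact mul_le_mul_of_nonneg_left h1 hτ.le
  refine ⟨Finset.univ.image ρ, fun i j => ∑ p, if ρ p = j then cc i p else 0, ?_, ?_, ?_⟩
  · refine le_trans Finset.card_image_le ?_
    simpa using hk
  · intro i j
    have hz : j ∉ Finset.univ.image ρ → (∑ p, if ρ p = j then cc i p else 0) = 0 := by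
      intro hj
      refine Finset.sum_eq_zero fun p _ => if_neg fun hp => hj ?_
      exact Finset.mem_image.2 ⟨p, Finset.mem_univ p, hp⟩
    refine ⟨?_, hz⟩
    by_cases hj : j ∈ Finset.univ.image ρ
    · obtain ⟨p, -, rfl⟩ := Finset.mem_image.1 hj
      show |∑ p', if ρ p' = ρ p then cc i p' else 0| ≤ 1
      rw [Finset.sum_eq_single p, if_pos rfl]
      · exact hc1 i p
      · intro b _ hb
        exact if_neg fun h => hb (hinj h)
      · intro h
        exact absurd (Finset.mem_univ p) h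
    · show |∑ p, if ρ p = j then cc i p else 0| ≤ 1
      rw [hz hj, abs_zero]
      exact zero_le_one
  · intro i m
    have : (Matrix.of (fun i j => ∑ p, if ρ p = j then cc i p else 0) * B) i m
        = ∑ p, cc i p * B (ρ p) m := by
      rw [Matrix.mul_apply]
      simp only [Matrix.of_apply, Finset.sum_mul]
      rw [Finset.sum_comm]
      refine Finset.sum_congr rfl fun p _ => ?_
      rw [Finset.sum_eq_single (ρ p), if_pos rfl]
      · intro b _ hb
        rw [if_neg (Ne.symm hb), zero_mul]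
      · intro h
        exact absurd (Finset.mem_univ _) h
    have h2 := hs i m
    rw [← this] at h2
    exact h2

end Pool.Agent.MP_5168f5_an.H17F
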