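import Pool.Agent.MP_5168f5_an.H17F.Sq2

namespace Pool.Agent.MP_5168f5_an.H17F

open H19 H17S Filter

namespace DiagA

variable {N : ℕ} {s : ℝ} {S : Finset (Fin N)} {SK : Finset (I2 N)}

theorem stk {x : ℕ → Sy N} {M : ℕ → ℕ} (h : Bas S x M) {ε : ℝ} (hε : 0 < ε) : ∀ᶠ n in UF,
    ∀ j ≤ M n, ch (x n).P ((x n).toCfg.X j) (x n).θ ≤ N * j * lg + ε * M n := by
  have hj : ∀ n, ∃ j ≤ M n, ch (x n).P ((x n).toCfg.X j) (x n).θ ≤ N * j * lg + ε * M n →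
      ∀ j ≤ M n, ch (x n).P ((x n).toCfg.X j) (x n).θ ≤ N * j * lg + ε * M n := by
    intro n
    by_cases k : ∀ j ≤ M n, ch (x n).P ((x n).toCfg.X j) (x n).θ ≤ N * j * lg + ε * M n
    · exact ⟨0, Nat.zero_le _, fun _ => k⟩
    · push Not at k
      obtain ⟨j, a, b⟩ := k
      exact ⟨j, a, fun c => absurd c (not_le.2 b)⟩
  choose j h1 h2 using hj
  exact (h.stk j h1 ε hε).mono h2

/-- One term of a system with error `δ`. -/
structure At (s : ℝ) (S : Finset (Fin N)) (SK : Finset (I2 N)) (k : ℕ) (δ : ℝ) (x : Sy N) (m : ℕ)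
    (L L' : ℝ) : Prop where
  big : k ≤ m
  one : 1 ≤ L
  one' : 1 ≤ L'
  sub : L ≤ Real.exp (δ * m)
  sub' : L' ≤ Real.exp (δ * m)
  alg : x.Alg S L
  algK : x.AlgK SK L'
  dir : N * m * lg ≤ ch x.P (fun ω => fl m (x.e ω)) x.θ + δ * m
  stk : ∀ j ≤ m, ch x.P (x.toCfg.X j) x.θ ≤ N * j * lg + δ * m
  inf : mi x.P x.ξ x.toCfg.ln x.θ ≤ 0 + δ * m
  hgt : m * lg ≤ ch x.P (fun ω => fl1 m (x.z ω)) x.θ + δ * m
  grn : ch x.P (fun ω => fl m (x.π ω)) x.g ≤ (N - s - S.card) * m * lg + δ * m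
  ker : ch x.P (fun ω => flv m (x.ψ ω)) (fun ω => (fl m (x.π ω), x.g ω)) ≤ 0 + δ * m

theorem ex_at (k : ℕ) {δ : ℝ} (hδ : 0 < δ) (h : Ex (s - δ / 2) S SK) :
    ∃ x m L L', At s S SK k δ x m L L' := by
  obtain ⟨x, M, h⟩ := h
  obtain ⟨L, s1, a1⟩ := h.alg
  obtain ⟨L', s2, a2⟩ := h.algK
  have : ∀ᶠ n in UF, At s S SK k δ (x n) (M n) (L n) (L' n) := by
    filter_upwards [h.big.ev k, s1.2 δ hδ, s2.2 δ hδ, a1, a2, h.dir δ hδ, stk h.toBas hδ,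
      h.inf δ hδ, h.hgt δ hδ, h.grn _ (half_pos hδ), h.ker δ hδ] with n b1 b2 b3 b4 b5 b6 b7 b8 b9
      b10 b11
    refine ⟨by exact_mod_cast b1, s1.1 n, s2.1 n, b2, b3, b4, b5, b6, b7, b8, b9, ?_, b11⟩
    have : δ / 2 * M n * lg ≤ δ / 2 * M n := mul_le_of_le_one_right (by positivity) lg_lt_one.le
    linarith
  obtain ⟨n, hn⟩ := this.exists
  exact ⟨_, _, _, _, hn⟩

theorem small {ε : ℝ} (hε : 0 < ε) : ∀ᶠ k in UF, 1 / ((k : ℕ) + 1 : ℝ) ≤ ε := by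
  obtain ⟨m, hm⟩ := exists_nat_one_div_lt hε
  exact (ev_ge m).mono fun k hk => le_trans (Nat.one_div_le_one_div hk) hm.le

theorem le_of {M : ℕ → ℕ} {f g : ℕ → ℝ} (h : ∀ k, f k ≤ g k + 1 / (k + 1 : ℝ) * M k) :
    Le M f g := fun _ hε => (small hε).mono fun k hk => (h k).trans (add_le_add le_rfl
      (mul_le_mul_of_nonneg_right hk (Nat.cast_nonneg _)))

theorem sub_of {M : ℕ → ℕ} {L : ℕ → ℝ} (h1 : ∀ k, 1 ≤ L k)
    (h : ∀ k, L k ≤ Real.exp (1 / (k + 1 : ℝ) * M k)) : Sub M L :=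
  ⟨h1, fun _ hε => (small hε).mono fun k hk => (h k).trans (Real.exp_le_exp.2
    (mul_le_mul_of_nonneg_right hk (Nat.cast_nonneg _)))⟩

end DiagA

open DiagA

theorem rowDiag : Diag := by
  intro N s S SK h
  have p : ∀ k : ℕ, (0 : ℝ) < 1 / (k + 1 : ℝ) := fun k => by positivity
  choose x M L L' H using fun k : ℕ => ex_at k (p k) (h _ (half_pos (p k)))
  exact ⟨x, M, ⟨tendsto_atTop.2 fun b => (ev_ge b).mono fun k hk => hk.trans (H k).big,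
    ⟨L, sub_of (fun k => (H k).one) fun k => (H k).sub, Eventually.of_forall fun k => (H k).alg⟩,
    le_of fun k => (H k).dir, fun j hj => le_of fun k => (H k).stk _ (hj k),
    le_of fun k => (H k).inf, le_of fun k => (H k).hgt⟩,
    ⟨L', sub_of (fun k => (H k).one') fun k => (H k).sub',
      Eventually.of_forall fun k => (H k).algK⟩,
    le_of fun k => (H k).grn, le_of fun k => (H k).ker⟩

end Pool.Agent.MP_5168f5_an.H17F
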