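import Pool.Agent.MP_5168f5_an.H17F.Sq2

/-! The first system. -/

namespace Pool.Agent.MP_5168f5_an.H17F

open H19 H17S Filter

namespace Ex0A

/-- An error `M lg / (n + 1)` is negligible. -/
theorem small {M : ℕ → ℕ} {f g : ℕ → ℝ} (h : ∀ n, f n ≤ g n + 1 / ((n : ℝ) + 1) * M n * lg) :
    Le M f g := by
  intro ε hε
  obtain ⟨k, hk⟩ := exists_nat_one_div_lt hε
  filter_upwards [ev_ge k] with n hn
  have h1 : 1 / ((n : ℝ) + 1) ≤ 1 / ((k : ℝ) + 1) :=
    one_div_le_one_div_of_le (by positivity) (by exact_mod_cast Nat.succ_le_succ hn)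
  have h2 : 1 / ((n : ℝ) + 1) * M n * lg ≤ ε * M n := by
    have h3 : 1 / ((n : ℝ) + 1) * M n * lg ≤ 1 / ((n : ℝ) + 1) * M n :=
      mul_le_of_le_one_right (by positivity) lg_lt_one.le
    exact h3.trans (mul_le_mul_of_nonneg_right (by linarith) (Nat.cast_nonneg _))
  linarith [h n]

/-- A configuration as a system. -/
noncomputable def sy {N : ℕ} (c : Cfg N) : Sy N :=
  { toCfg := c, Ξ := ℝ, ξ := c.z, Pm := fun _ => 1, Km := fun _ => 0 }

end Ex0A

open Ex0A in
theorem rowEx0 : Ex0 := by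
  intro N s hG
  unfold Good at hG
  push Not at hG
  obtain ⟨ε, hε, h⟩ := hG
  choose M hM c ok lt using fun n : ℕ => h (1 / ((n : ℝ) + 1)) (by positivity) n
  have big : Big M := tendsto_atTop.2 fun b => (ev_ge b).mono fun n hn => hn.trans (hM n)
  refine ⟨fun n => sy (c n), M, ⟨big, ⟨fun _ => 1, big.sub le_rfl, Eventually.of_forall fun n =>
    ⟨(ok n).box, Fn.fst _ _, fun _ _ _ _ _ => rfl, fun _ _ => prj_one⟩⟩, small fun n => ?_,
    fun j hj => small fun n => ?_, small fun n => ?_, small fun n => ?_⟩,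
    ⟨fun _ => 1, big.sub le_rfl, Eventually.of_forall fun n =>
      ⟨fun _ _ _ _ _ => rfl, fun _ _ => prj_zero⟩⟩, Le.of_le fun n => ?_, Le.of_le fun n => ?_⟩
  · have := (ok n).dir
    show (N : ℝ) * M n * lg ≤ ch (c n).P (fun ω => fl (M n) ((c n).e ω)) (c n).θ + _
    linarith
  · have := (ok n).stk (j n) (hj n)
    show ch (c n).P ((c n).X (j n)) (c n).θ ≤ _
    linarith
  · have h1 := (ok n).inf
    have h2 : ch (c n).P (c n).z (c n).ln ≤ ch (c n).P (c n).z fun ω => ((c n).ln ω, (c n).θ ω) :=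
      ch_anti ((Fn.rfl _).pair (Fn.comp (fun v : V N × V N × (c n).T => v.2.2) (c n).ln))
    show ch (c n).P (c n).z (c n).θ -
      ch (c n).P (c n).z (fun ω => ((c n).ln ω, (c n).θ ω)) ≤ _
    linarith
  · have := (ok n).hgt
    show (M n : ℝ) * lg ≤ ch (c n).P (fun ω => fl1 (M n) ((c n).z ω)) (c n).θ + _
    linarith
  · have h1 := lt n
    have e : (fun ω => fl (M n) ((sy (c n)).π ω)) = fun ω => fl (M n) ((c n).pt ω) :=
      funext fun ω => congrArg (fl (M n)) (Matrix.one_mulVec _)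
    rw [e]
    have h2 : 0 ≤ ε * M n * lg := mul_nonneg (by positivity) lg_pos.le
    show ch (c n).P (fun ω => fl (M n) ((c n).pt ω)) (fun ω => ((c n).z ω, (c n).θ ω)) ≤ _
    rw [Finset.card_empty, Nat.cast_zero, sub_zero]
    linarith
  · refine (ch_zero fun a _ b _ _ => ?_).le
    have e : ∀ ω, (sy (c n)).ψ ω = 0 := fun ω => Matrix.zero_mulVec _
    rw [e, e]

end Pool.Agent.MP_5168f5_an.H17F
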