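import Pool.Agent.MP_5168f5_an.H17F.Sq2

/-! Consequences of the exact values of the entropies. -/

namespace Pool.Agent.MP_5168f5_an.H17F

open H19 H17S Filter

namespace ExaA'

theorem key {Ω α β β' γ δ : Type} (P : FP Ω) (F : Ω → α) (p : Ω → β) (q : Ω → β') (X : Ω → γ)
    (g : Ω → δ) : ch P F (fun ω => (p ω, g ω)) - ch P F (fun ω => (q ω, g ω)) ≤
      ch P F (fun ω => (X ω, g ω)) + ch P p (fun ω => (X ω, g ω)) +
        (ch P q (fun ω => (p ω, g ω)) - ch P q fun ω => (X ω, g ω)) := by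
  have t1 := ch_tri (P := P) q (fun ω => (F ω, p ω)) fun ω => (X ω, g ω)
  have t2 := ch_subadd (P := P) F p fun ω => (X ω, g ω)
  have t3 : ch P q (fun ω => ((F ω, p ω), X ω, g ω)) ≤ ch P q fun ω => (F ω, p ω, g ω) :=
    ch_anti fun a _ b _ e => by simp only [Prod.mk.injEq] at e ⊢; tauto
  have t4 := ch_symm (P := P) F q fun ω => (p ω, g ω)
  have t5 : ch P F (fun ω => (q ω, p ω, g ω)) ≤ ch P F fun ω => (q ω, g ω) :=
    ch_anti fun a _ b _ e => by simp only [Prod.mk.injEq] at e ⊢; tauto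
  linarith

end ExaA'

theorem rowExa : SExa := by
  intro N s hb hl h1 S SK x M h
  have B := hb S x M h.toBas
  have A := h1 S SK x M h
  have e5 : ∀ (a b : ℕ → ℕ) (α : ℕ → Type) (F : ∀ n, (x n).Ω → α n),
      (∀ n, a n ≤ b n ∧ b n ≤ M n) →
      Sm M (fun n => ch (x n).P (F n) fun ω => ((x n).toCfg.X (a n) ω, (x n).g ω)) →
      Le M (fun n => ch (x n).P (F n) fun ω => (fl (a n) ((x n).π ω), (x n).g ω)) fun n =>
        ch (x n).P (F n) fun ω => (fl (b n) ((x n).π ω), (x n).g ω) := fun a b α F hab hF =>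
    Le.of4 hF (B.px a) (A.e1 a b hab) (A.e2 a b hab) (Eventually.of_forall fun n => by
      linarith [ExaA'.key (x n).P (F n) (fun ω => fl (a n) ((x n).π ω))
        (fun ω => fl (b n) ((x n).π ω)) ((x n).toCfg.X (a n)) (x n).g])
  refine ⟨A, e5, fun a b hab => ?_, fun a ha => ?_⟩
  · have ha : ∀ n, a n ≤ M n := fun n => (hab n).1.trans (hab n).2
    have lo := hl ∅ S x M (fun _ => 0) a (fun _ => Unit) (fun _ _ => ()) (fun _ _ => 1)
      (fun _ _ => True) (fun _ => 1) h.toBas (fun n => ⟨Nat.zero_le _, ha n⟩)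
      (Le.of_le fun n => (mi_le _ _ _).trans (ch_zero fun _ _ _ _ _ => rfl).le) (h.big.sub le_rfl)
      (Eventually.of_forall fun n =>
        ⟨fun _ _ _ _ _ => rfl, fun _ _ _ _ _ => rfl, fun _ _ => prj_one⟩) pos_true
    refine Le.of4 lo (B.yp a) (A.e0 a ha) (e5 a b _ _ hab (B.rx a S))
      (Eventually.of_forall fun n => ?_)
    have t1 := ch_tri (P := (x n).P) (fun ω => fl (a n) ((x n).toCfg.pt ω))
      (fun ω => (fl (a n) ((x n).π ω), (x n).r S (a n) ω)) (x n).g
    have t2 := ch_chain (P := (x n).P) (fun ω => fl (a n) ((x n).π ω)) ((x n).r S (a n)) (x n).g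
    have t3 : ch (x n).P (fun ω => fl (a n) ((x n).toCfg.pt ω))
        (fun ω => ((x n).toCfg.X 0 ω, (), (x n).g ω)) ≤ _ :=
      ch_anti (G := (x n).g) fun _ _ _ _ e => congrArg (fun w => w.2.2) e
    simp only [cE_true, Matrix.one_mulVec, Finset.card_empty, Nat.cast_zero, sub_zero]
    linarith
  · obtain ⟨L, hL, hK⟩ := h.algK
    have h2 := e5 a M _ (fun n ω => flv (a n) ((x n).ψ ω)) (fun n => ⟨ha n, le_rfl⟩)
      (Sm.near h.big (hL.const_mul h.big (C := Fintype.card (I2 N) + 1)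
        (le_add_of_nonneg_left (Nat.cast_nonneg _))) (hK.mono fun n k u hu v hv e => by
        have h0 := hL.pos n
        rw [Sy.ψ, Sy.ψ, ← k.fK u hu v hv (congrArg Prod.snd e), ← Matrix.mulVec_sub]
        refine (norm_mulVec_le h0.le (k.pK u hu).2.2 _).trans ?_
        rw [div_eq_mul_one_div]
        gcongr
        · exact le_add_of_nonneg_right zero_le_one
        · exact Sy.near_l (congrArg Prod.fst e)))
    refine Le.of2 h2 h.ker (Eventually.of_forall fun n => ?_)
    have : ch (x n).P (fun ω => flv (a n) ((x n).ψ ω)) (fun ω => (fl (M n) ((x n).π ω), (x n).g ω))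
        ≤ ch (x n).P (fun ω => flv (M n) ((x n).ψ ω)) _ :=
      ch_mono fun _ _ _ _ e => flv_eq_of_le (ha n) (congrArg Prod.fst e)
    linarith

end Pool.Agent.MP_5168f5_an.H17F
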