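import Pool.Agent.MP_5168f5_an.H17F.Sq2

/-! Sticky Kakeya sets have full dimension: exact entropies of the projection. -/

namespace Pool.Agent.MP_5168f5_an.H17F

open H19 H17S Filter

namespace Exa1Row

variable {N : ℕ} {s : ℝ} {S : Finset (Fin N)} {x : ℕ → Sy N} {M : ℕ → ℕ}

theorem split {Ω β : Type} (P : FP Ω) (p : Ω → V N) (g : Ω → β) {a b : ℕ} (h : a ≤ b) :
    ch P (fun ω => fl a (p ω)) g + ch P (fun ω => fl b (p ω)) (fun ω => (fl a (p ω), g ω)) ≤
      ch P (fun ω => fl b (p ω)) g := by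
  rw [← ch_chain]
  refine ch_mono (Fn.pair ?_ (Fn.fst _ _))
  exact fun u _ v _ e => fl_eq_of_le h (congrArg Prod.fst e)

theorem low (hL : Lb N s S) (h : Bas S x M) (a b : ℕ → ℕ) (hab : ∀ n, a n ≤ b n ∧ b n ≤ M n) :
    Le M (fun n => (N - s - S.card) * (b n - a n) * lg) fun n =>
      ch (x n).P (fun ω => fl (b n) ((x n).π ω)) fun ω => ((x n).toCfg.X (a n) ω, (x n).g ω) := by
  obtain ⟨L, hS, hA⟩ := h.alg
  have k := hL S x M a b (fun _ => Unit) (fun _ _ => ()) (fun n => (x n).Pm) (fun _ _ => True) L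
    h hab (Le.of_le fun n => (mi_le _ _ _).trans (ch_zero fun _ _ _ _ _ => rfl).le) hS
    (hA.mono fun n hn => ⟨hn.fP.right _, fun _ _ _ _ _ => rfl, hn.pP⟩) pos_true
  refine k.trans (Le.of_le fun n => ?_)
  rw [cE_true]
  exact ch_anti ((Fn.fst _ _).pair (((Fn.snd _ _).trans (Fn.snd _ _))))

end Exa1Row

theorem rowExa1 : SExa1 := by
  intro N s hE hL S SK x M h
  have hb := hE S x M h.toBas
  have e2 := Exa1Row.low (hL S) h.toBas
  have e0 : ∀ a : ℕ → ℕ, (∀ n, a n ≤ M n) →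
      Le M (fun n => ch (x n).P (fun ω => fl (a n) ((x n).π ω)) (x n).g) fun n =>
        (N - s - S.card) * a n * lg := by
    intro a ha
    refine h.grn.of3 (e2 a M fun n => ⟨ha n, le_rfl⟩) (hb.px a) (Eventually.of_forall fun n => ?_)
    have h1 := Exa1Row.split (x n).P (x n).π (x n).g (ha n)
    have h2 := ch_tri (P := (x n).P) (fun ω => fl (M n) ((x n).π ω)) (fun ω => fl (a n) ((x n).π ω))
      fun ω => ((x n).toCfg.X (a n) ω, (x n).g ω)
    have h3 : ch (x n).P (fun ω => fl (M n) ((x n).π ω))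
        (fun ω => (fl (a n) ((x n).π ω), ((x n).toCfg.X (a n) ω, (x n).g ω))) ≤
        ch (x n).P (fun ω => fl (M n) ((x n).π ω)) fun ω => (fl (a n) ((x n).π ω), (x n).g ω) :=
      ch_anti ((Fn.fst _ _).pair ((Fn.snd _ _).trans (Fn.snd _ _)))
    linarith
  refine ⟨e0, fun a b hab => ?_, e2⟩
  refine (e0 b fun n => (hab n).2).of2
    (e2 (fun _ => 0) a fun n => ⟨Nat.zero_le _, (hab n).1.trans (hab n).2⟩)
    (Eventually.of_forall fun n => ?_)
  have h1 := Exa1Row.split (x n).P (x n).π (x n).g (hab n).1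
  have h2 : ch (x n).P (fun ω => fl (a n) ((x n).π ω))
      (fun ω => ((x n).toCfg.X 0 ω, (x n).g ω)) ≤
      ch (x n).P (fun ω => fl (a n) ((x n).π ω)) (x n).g := ch_anti (Fn.snd _ _)
  push_cast
  linarith

end Pool.Agent.MP_5168f5_an.H17F
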