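import Pool.Agent.MP_5168f5_an.H17F.Sq2

/-! Sticky Kakeya sets have full dimension: coarse variables and the coarse line. -/

namespace Pool.Agent.MP_5168f5_an.H17F

open H19 H17S Filter

namespace ExbAux

/-- A vector is controlled by its projection and its coordinates in `S`. -/
theorem norm_le {N : ℕ} {S : Finset (Fin N)} {L δ : ℝ} {A : Matrix (Fin N) (Fin N) ℝ}
    (h : Prj S L A) (hL : 0 ≤ L) (hδ : 0 ≤ δ) {v : V N} (h1 : ‖A.mulVec v‖ ≤ δ)
    (h2 : ∀ i ∈ S, |v i| ≤ δ) : ‖v‖ ≤ (1 + N * (L + 1)) * δ := by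
  have e : v = A.mulVec v + (1 - A).mulVec fun i => if i ∈ S then v i else 0 := by
    have : (1 - A).mulVec (fun i => if i ∈ S then v i else 0) = (1 - A).mulVec v := by
      funext i
      unfold Matrix.mulVec dotProduct
      refine Finset.sum_congr rfl fun j _ => ?_
      by_cases hj : j ∈ S
      · simp [hj]
      · simp only [h.one_sub_col hj i, zero_mul]
    rw [this, Matrix.sub_mulVec, Matrix.one_mulVec]; abel
  have h3 : ‖(fun i => if i ∈ S then v i else 0 : V N)‖ ≤ δ :=
    (pi_norm_le_iff_of_nonneg hδ).2 fun i => by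
      by_cases hi : i ∈ S
      · simpa [hi] using h2 i hi
      · simpa [hi] using hδ
  have h4 := norm_mulVec_le (A := 1 - A) (L := L + 1) (by linarith) h.abs_one_sub
    (fun i => if i ∈ S then v i else 0 : V N)
  rw [Fintype.card_fin] at h4
  have h5 := mul_le_mul_of_nonneg_left h3 (show 0 ≤ (N : ℝ) * (L + 1) by positivity)
  have h6 := (congrArg norm e).le.trans (norm_add_le _ _)
  linarith

end ExbAux

theorem rowExb : SExb := by
  intro N S x M h
  obtain ⟨L, hL, ha⟩ := h.alg
  have hM := h.big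
  have hN : (0 : ℝ) ≤ N := Nat.cast_nonneg N
  have hL' : Sub M fun n => (2 * N + 1) * L n := hL.const_mul hM (by linarith)
  have hpt : ∀ a : ℕ → ℕ, Sm M fun n => ch (x n).P (fun ω => fl (a n) ((x n).toCfg.pt ω))
      fun ω => ((x n).toCfg.X (a n) ω, (x n).g ω) := fun a =>
    Sm.near (x := fun n => (x n).toCfg.pt) hM (hM.sub one_le_two) (ha.mono fun n k u hu v hv e =>
      Sy.near_pt k.box hu (congrArg Prod.fst e) (k.fz u hu v hv (congrArg Prod.snd e)))
  refine ⟨fun a => ?_, fun a T => ?_, ?_, fun a => ?_, fun a hj => ?_, fun a hj => ?_⟩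
  · refine Sm.near (x := fun n => (x n).π) hM hL' (ha.mono fun n k u hu v hv e => ?_)
    refine (k.near_π (hL.pos n).le hu hv (congrArg Prod.fst e) (congrArg Prod.snd e)).trans ?_
    exact div_le_div_of_nonneg_right (by nlinarith [hL.pos n]) (by positivity)
  · refine (hpt a).mono (Eventually.of_forall fun n => ch_mono fun u _ v _ e => ?_)
    funext i
    unfold Sy.r
    rw [show fl1 (a n) ((x n).toCfg.pt u i) = fl1 (a n) ((x n).toCfg.pt v i) from
      congrFun (congrArg Prod.fst e) i]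
  · refine Sm.near (x := fun n => (x n).π) (j := fun _ => 0) hM
      (hL'.const_mul hM one_le_two) (ha.mono fun n k u hu v hv e => ?_)
    unfold Sy.π
    rw [← k.fP u hu v hv e, ← Matrix.mulVec_sub, pow_zero, div_one]
    refine (norm_mulVec_le (hL.pos n).le (k.pP u hu).2.2 _).trans ?_
    have h1 := (norm_sub_le _ _).trans (add_le_add (Sy.norm_pt k.box hu) (Sy.norm_pt k.box hv))
    have h2 := mul_le_mul_of_nonneg_left h1 (mul_nonneg hN (hL.pos n).le)
    rw [Fintype.card_fin]
    nlinarith [hL.pos n]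
  · refine Sm.near (x := fun n => (x n).toCfg.pt) hM hL' (ha.mono fun n k u hu v hv e => ?_)
    simp only [Prod.mk.injEq] at e
    obtain ⟨⟨e1, e2⟩, e3⟩ := e
    refine (ExbAux.norm_le (k.pP u hu) (hL.pos n).le (δ := ((2 : ℝ) ^ a n)⁻¹) (by positivity)
      ?_ fun i hi => ?_).trans ?_
    · have := (norm_sub_lt_of_fl_eq e1).le
      unfold Sy.π at this
      rwa [← k.fP u hu v hv e3, ← Matrix.mulVec_sub] at this
    · have := congrFun e2 i
      simp only [Sy.r, hi, if_true] at this
      exact (abs_sub_lt_of_fl1_eq this).le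
    · rw [div_eq_mul_inv]
      exact mul_le_mul_of_nonneg_right (by nlinarith [hL.1 n]) (by positivity)
  · refine h.dir.of2 h.inf (Eventually.of_forall fun n => ?_)
    obtain ⟨d, hd⟩ := Nat.exists_eq_add_of_le (hj n)
    have h1 := ch_tri (P := (x n).P) (fun ω => fl (M n) ((x n).e ω))
      (fun ω => fl (a n) ((x n).e ω)) (x n).θ
    have h2 : ch (x n).P (fun ω => fl (M n) ((x n).e ω))
        (fun ω => (fl (a n) ((x n).e ω), (x n).θ ω)) ≤ N * d * lg := by
      rw [hd]; exact ch_fl_refine (Fn.fst _ _)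
    have h3 := ch_le_mi (P := (x n).P) (F := fun ω => fl (a n) ((x n).e ω)) (G := (x n).ξ)
      (K := (x n).θ) (K' := (x n).g) (Fn.rfl _)
    have h4 : mi (x n).P (fun ω => fl (a n) ((x n).e ω)) (x n).ξ (x n).θ ≤
        mi (x n).P (x n).toCfg.ln (x n).ξ (x n).θ :=
      mi_mono' fun u _ v _ e => congrArg (fun w => fl (a n) w.1.2.1) e
    rw [mi_symm (x n).toCfg.ln] at h4
    have h5 : (M n : ℝ) = a n + d := by exact_mod_cast hd
    rw [h5]; linarith
  · refine h.hgt.of2 h.inf (ha.mono fun n k => ?_)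
    obtain ⟨d, hd⟩ := Nat.exists_eq_add_of_le (hj n)
    have h1 := ch_tri (P := (x n).P) (fun ω => fl1 (M n) ((x n).z ω))
      (fun ω => fl1 (a n) ((x n).z ω)) (x n).θ
    have h2 : ch (x n).P (fun ω => fl1 (M n) ((x n).z ω))
        (fun ω => (fl1 (a n) ((x n).z ω), (x n).θ ω)) ≤ d * lg := by
      rw [hd, ← (x n).P.E_const (d * lg)]
      exact ch_fl1_refine (j := fun _ => a n) (i := fun _ => d) (fun _ _ _ _ _ => rfl)
        (fun _ _ _ _ _ => rfl) (Fn.fst _ _)
    have h3 := ch_le_mi (P := (x n).P) (F := fun ω => fl1 (a n) ((x n).z ω))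
      (G := (x n).toCfg.ln) (K := (x n).θ) (K' := (x n).toCfg.ln) (Fn.fst _ _)
    have h4 : mi (x n).P (fun ω => fl1 (a n) ((x n).z ω)) (x n).toCfg.ln (x n).θ ≤
        mi (x n).P (x n).ξ (x n).toCfg.ln (x n).θ :=
      mi_mono' fun u hu v hv e => congrArg (fl1 (a n)) (k.fz u hu v hv e)
    have h5 : (M n : ℝ) = a n + d := by exact_mod_cast hd
    rw [h5]; linarith

end Pool.Agent.MP_5168f5_an.H17F
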