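import Pool.Agent.MP_5168f5_an.H17F.SqApi

/-! The difference of the fine point and its copy is independent of the fine point. -/

namespace Pool.Agent.MP_5168f5_an.H17F

open H19 H17S Filter

namespace G1A

variable {N : ℕ}

theorem alg_mono {x : Sy N} {S : Finset (Fin N)} {L L' : ℝ} (h : x.Alg S L) (hL : L ≤ L') :
    x.Alg S L' := ⟨h.box, h.fz, h.fP, fun ω hω => (h.pP ω hω).mono hL⟩

theorem norm_cz_sub {a R : ℕ} (hR : R ≤ a) {x y : V N} {c : ℝ}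
    (h : ‖x - y‖ ≤ c / 2 ^ a) : ‖cz (fl R x) - cz (fl R y)‖ ≤ c + 2 := by
  have h1 : ‖cz (fl R x) - (2 : ℝ) ^ R • x‖ ≤ 1 := norm_cz_flv R x
  have h2 : ‖cz (fl R y) - (2 : ℝ) ^ R • y‖ ≤ 1 := norm_cz_flv R y
  have h3 : ‖(2 : ℝ) ^ R • (x - y)‖ ≤ c := by
    rw [norm_smul, Real.norm_eq_abs, abs_of_pos (by positivity)]
    have h4 : (2 : ℝ) ^ R ≤ 2 ^ a := pow_le_pow_right₀ one_le_two hR
    calc (2 : ℝ) ^ R * ‖x - y‖ ≤ 2 ^ a * (c / 2 ^ a) :=
          mul_le_mul h4 h (norm_nonneg _) (by positivity)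
      _ = c := by field_simp
  have e : cz (fl R x) - cz (fl R y) = (cz (fl R x) - (2 : ℝ) ^ R • x) -
      (cz (fl R y) - (2 : ℝ) ^ R • y) + (2 : ℝ) ^ R • (x - y) := by module
  rw [e]
  have h5 := norm_sub_le (cz (fl R x) - (2 : ℝ) ^ R • x) (cz (fl R y) - (2 : ℝ) ^ R • y)
  exact (norm_add_le _ _).trans (by linarith)

theorem bil_sub (R : ℕ) (d w w' : ℤ × Z N) {B c c' : ℝ} (h1 : |(d.1 : ℝ)| ≤ 2 ^ R)
    (h2 : ‖cz d.2‖ ≤ B * 2 ^ R) (h3 : |(w.1 : ℝ) - w'.1| ≤ c) (h4 : ‖cz w.2 - cz w'.2‖ ≤ c') :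
    ‖bil R d w - bil R d w'‖ ≤ c' + c * B := by
  have hp : (0 : ℝ) < 2 ^ R := by positivity
  have e : bil R d w - bil R d w' = ((2 : ℝ) ^ R)⁻¹ •
      ((d.1 : ℝ) • (cz w.2 - cz w'.2) + ((w.1 : ℝ) - w'.1) • cz d.2) := by
    unfold bil; module
  rw [e, norm_smul, Real.norm_eq_abs, abs_of_pos (inv_pos.2 hp), inv_mul_le_iff₀ hp]
  refine (norm_add_le _ _).trans ?_
  rw [norm_smul, norm_smul, Real.norm_eq_abs, Real.norm_eq_abs]
  have h5 := mul_le_mul h1 h4 (norm_nonneg _) hp.le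
  have h6 := mul_le_mul h3 h2 (norm_nonneg _) ((abs_nonneg _).trans h3)
  linarith

/-- The coarse lines determine `ww` up to a bounded error. -/
theorem ww_near {t : Th N} {S : Finset (Fin N)} {L₁ : ℝ} (h : t.toSy.Alg S L₁) (hL : 0 ≤ L₁)
    {a R : ℕ} (hR : R ≤ a) (j : Fin N) {p q : t.Ω} (hp : p ∈ t.P.S) (hq : q ∈ t.P.S)
    (eX : t.toCfg.X a p = t.toCfg.X a q) (eg : t.toSy.g p = t.toSy.g q) :
    |(fl1 R (t.toCfg.pt p j) : ℝ) - fl1 R (t.toCfg.pt q j)| ≤ 4 ∧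
      ‖cz (fl R ((t.Pm p).mulVec (t.e p))) - cz (fl R ((t.Pm q).mulVec (t.e q)))‖ ≤
        N * L₁ + 2 := by
  constructor
  · have h1 := norm_cz_sub hR (Sy.near_pt h.box hp eX (h.fz p hp q hq eg))
    have h2 := (norm_le_pi_norm _ j).trans h1
    have e : (2 : ℝ) + 2 = 4 := by norm_num
    rw [e] at h2
    exact h2
  · refine norm_cz_sub hR ?_
    have e : t.Pm q = t.Pm p := (h.fP p hp q hq eg).symm
    rw [e, ← Matrix.mulVec_sub]
    refine (norm_mulVec_le hL (h.pP p hp).2.2 _).trans ?_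
    have h2 := (norm_sub_lt_of_fl_eq (congrArg Prod.snd eX)).le
    rw [Fintype.card_fin, div_eq_mul_inv]
    exact mul_le_mul_of_nonneg_left h2 (by positivity)

end G1A

open G1A in
theorem rowG1 : SG1 := by
  intro N s hC h1 h2 hK S SK t M a R L j hS
  obtain ⟨C, hC1, hL2⟩ := h2 N
  obtain ⟨La, hLa, ea⟩ := hS.two.one.alg
  obtain ⟨Lb, hLb, eb⟩ := hS.two.two.alg
  have hM := hS.two.one.big
  have hN : (0 : ℝ) ≤ N := Nat.cast_nonneg N
  have k3 : Sm M fun n => ch ((t n).Q S (a n) (R n) j)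
      (fun v => fl (a n + R n) ((t n).toSy.π v.2) - fl (a n + R n) ((t n).toSy.π v.1)) fun v =>
      ((((t n).toCfg.X (a n) v.1, (t n).ξ v.1), (t n).toCfg.X (a n) v.2), (t n).Θ (a n) v.1) := by
    refine Sm.near_int hM ((hS.sub.mul (hLa.mul hLb)).const_mul hM
      (C := 10 * C + 2 * N + 4) (by linarith)) ?_
    filter_upwards [ea, eb, hS.two.alg, hS.lip] with n e1 e2 e3 e4 v hv w hw e
    have l1 := hS.sub.1 n
    have l2 := hLa.1 n
    have l3 := hLb.1 n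
    have l4 : 1 ≤ La n * Lb n := one_le_mul_of_one_le_of_one_le l2 l3
    have e1' := alg_mono e1 (le_mul_of_one_le_right (by linarith) l3)
    have e2' := alg_mono e2 (le_mul_of_one_le_left (by linarith) l2)
    obtain ⟨v1, v2, v3⟩ := (hC.kg.mem _ _ _ _ v (Law.rfl _)).1 hv
    obtain ⟨w1, w2, w3⟩ := (hC.kg.mem _ _ _ _ w (Law.rfl _)).1 hw
    obtain ⟨⟨a1, -, a3, -, a5⟩, -⟩ :=
      hL2 S (t n) (a n) (R n) j (L n) _ v l1 l4 (hS.le n).1 e1' e2' e3 e4 v1 v2 v3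
    obtain ⟨⟨-, -, -, -, b5⟩, -⟩ :=
      hL2 S (t n) (a n) (R n) j (L n) _ w l1 l4 (hS.le n).1 e1' e2' e3 e4 w1 w2 w3
    simp only [Th.φ, Th.Θ, Prod.mk.injEq] at v3 w3 e
    have g1 : (t n).toSy.g v.1 = (t n).toSy.g w.1 := Prod.ext e.1.1.2 e.2.1
    have g2 : (t n).toSy.g v.2 = (t n).toSy.g w.2 :=
      Prod.ext (v3.2.2.1.trans (e.1.1.2.trans w3.2.2.1.symm))
        (v3.2.2.2.1.trans (e.2.1.trans w3.2.2.2.1.symm))
    have ed : (t n).dd (a n) (R n) j w = (t n).dd (a n) (R n) j v := by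
      have z1 : (t n).z v.1 = (t n).z w.1 := e1.fz _ v1 _ w1 g1
      have z2 : (t n).z' v.1 = (t n).z' w.1 := e2.fz _ v1 _ w1 g1
      have p1 : (t n).Pm v.1 = (t n).Pm w.1 := e1.fP _ v1 _ w1 g1
      have p2 : (t n).Pm' v.1 = (t n).Pm' w.1 := e2.fP _ v1 _ w1 g1
      simp only [Th.dd, z1, z2, p1, p2]
    obtain ⟨c1, c2⟩ := ww_near e1' (by linarith) (hS.le n).1 j v1 w1 e.1.1.1 g1
    obtain ⟨c3, c4⟩ := ww_near e1' (by linarith) (hS.le n).1 j v2 w2 e.1.2 g2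
    have d1 := bil_sub (R n) ((t n).dd (a n) (R n) j v) ((t n).ww (R n) j v) ((t n).ww (R n) j w)
      (c := 8) (c' := 2 * (N * (La n * Lb n) + 2)) a1 a3 (by
        simp only [Th.ww]
        push_cast
        rw [abs_le] at c1 c3 ⊢
        constructor <;> linarith [c1.1, c1.2, c3.1, c3.2]) (by
        simp only [Th.ww, cz_sub]
        rw [sub_sub_sub_comm]
        exact (norm_sub_le _ _).trans (by linarith))
    rw [ed] at b5
    rw [cz_sub] at a5 b5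
    rw [cz_sub, cz_sub]
    generalize bil (R n) ((t n).dd (a n) (R n) j v) ((t n).ww (R n) j v) = x1 at a5 d1
    generalize bil (R n) ((t n).dd (a n) (R n) j v) ((t n).ww (R n) j w) = x2 at b5 d1
    generalize cz (fl (a n + R n) ((t n).toSy.π v.1)) = y1 at a5 ⊢
    generalize cz (fl (a n + R n) ((t n).toSy.π v.2)) = y2 at a5 ⊢
    generalize cz (fl (a n + R n) ((t n).toSy.π w.1)) = y3 at b5 ⊢
    generalize cz (fl (a n + R n) ((t n).toSy.π w.2)) = y4 at b5 ⊢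
    have e5 : y2 - y1 - (y4 - y3) = (x1 - (y1 - y2)) - (x2 - (y3 - y4)) - (x1 - x2) := by abel
    rw [e5]
    have d2 := norm_sub_le (x1 - (y1 - y2)) (x2 - (y3 - y4))
    have d3 : La n * Lb n ≤ L n * (La n * Lb n) := le_mul_of_one_le_left (by linarith) l1
    have d4 := mul_le_mul_of_nonneg_left d3 hN
    refine (norm_sub_le _ _).trans ?_
    linarith
  refine (Le.add (Le.add (h1 S SK t M a R L hS).f2 (hK S SK t M a R L j hS)) k3).of_sub
    (Eventually.of_forall fun n => ?_)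
  have m1 := mi_near (P := (t n).Q S (a n) (R n) j)
    (fun v => fl (a n + R n) ((t n).toSy.π v.1))
    (fun v => fl (a n + R n) ((t n).toSy.π v.2) - fl (a n + R n) ((t n).toSy.π v.1))
    (fun v => (((t n).toCfg.X (a n) v.1, (t n).ξ v.1), (t n).toCfg.X (a n) v.2))
    fun v => (t n).Θ (a n) v.1
  rw [mi_chain, mi_symm _ fun v => (t n).toCfg.X (a n) (Prod.snd v)] at m1
  have m2 : mi ((t n).Q S (a n) (R n) j) (fun v => fl (a n + R n) ((t n).toSy.π v.1))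
      (fun v => ((t n).toCfg.X (a n) v.1, (t n).ξ v.1)) (fun v => (t n).Θ (a n) v.1) =
      mi (t n).P (fun ω => fl (a n + R n) ((t n).toSy.π ω))
        (fun ω => ((t n).toCfg.X (a n) ω, (t n).ξ ω)) ((t n).Θ (a n)) :=
    (hC.kg.fst _ _ _ _).mi_id (fun ω => fl (a n + R n) ((t n).toSy.π ω))
      (fun ω => ((t n).toCfg.X (a n) ω, (t n).ξ ω)) ((t n).Θ (a n))
  have m3 : mi ((t n).Q S (a n) (R n) j) (fun v => (t n).toCfg.X (a n) v.2)
      (fun v => fl (a n + R n) ((t n).toSy.π v.1))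
      (fun v => (((t n).toCfg.X (a n) v.1, (t n).ξ v.1), (t n).Θ (a n) v.1)) ≤
      ch ((t n).Q S (a n) (R n) j) (fun v => (t n).toCfg.X (a n) v.2) (fun v =>
        ((t n).toCfg.X (a n) v.1, (t n).Θ (a n) v.1)) -
      ch ((t n).Q S (a n) (R n) j) (fun v => (t n).toCfg.X (a n) v.2) Prod.fst :=
    sub_le_sub (ch_anti fun _ _ _ _ e => by simp only [Prod.mk.injEq] at e ⊢; tauto)
      (ch_anti fun _ _ _ _ e => by simp only [e])
  linarith

end Pool.Agent.MP_5168f5_an.H17F
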