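import Pool.Agent.MP_5168f5_an.H17F.SqApi

/-! The two factors of the bilinear noise are almost independent. -/

namespace Pool.Agent.MP_5168f5_an.H17F

open H19 H17S Filter

namespace G2A

variable {N : ℕ} {t : Th N} {S : Finset (Fin N)} {a R : ℕ} {L : ℝ} {j : Fin N}

/-- The conditioning data. -/
noncomputable def G (t : Th N) (a R : ℕ) (v : t.Ω × t.Ω) :
    ((Z N × Z N) × Z N × Z N) × Z N × t.T × t.Ξ₀ × Z N :=
  ((t.toCfg.X a v.1, t.toCfg.X a v.2), fl (a + R) (t.toSy.π v.1), t.Θ a v.1)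

/-- Two points with the same coarse line and the same context. -/
def Cl (t : Th N) (a : ℕ) (ω ω' : t.Ω) : Prop :=
  ω ∈ t.P.S ∧ ω' ∈ t.P.S ∧ t.toCfg.X a ω = t.toCfg.X a ω' ∧ t.Θ a ω = t.Θ a ω'

theorem cl (kg : KG) {v v' : t.Ω × t.Ω} (hv : v ∈ (t.Q S a R j).S) (hv' : v' ∈ (t.Q S a R j).S)
    (e : G t a R v = G t a R v') : Cl t a v.1 v'.1 ∧ Cl t a v.2 v'.2 := by
  obtain ⟨a1, a2, a3⟩ := (kg.mem _ _ _ _ v (Law.rfl _)).1 hv
  obtain ⟨b1, b2, b3⟩ := (kg.mem _ _ _ _ v' (Law.rfl _)).1 hv'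
  have e1 : t.Θ a v.1 = t.Θ a v'.1 := congrArg (·.2.2) e
  exact ⟨⟨a1, b1, congrArg (·.1.1) e, e1⟩, a2, b2, congrArg (·.1.2) e,
    (congrArg (·.2.2.2) a3).trans (e1.trans (congrArg (·.2.2.2) b3).symm)⟩

theorem cell (h1 : t.toSy.Alg S L) (h2 : t.Alg a) (hR : R ≤ a) (hL : 1 ≤ L) {ω ω' : t.Ω}
    (h : Cl t a ω ω') : |t.toCfg.pt ω j - t.toCfg.pt ω' j| ≤ 2 / 2 ^ R ∧
      ‖(t.Pm ω).mulVec (t.e ω) - (t.Pm ω').mulVec (t.e ω')‖ ≤ (N + 1) * L / 2 ^ R := by
  obtain ⟨x1, x2, x3, x4⟩ := h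
  have g : t.fst.g ω = t.fst.g ω' := Prod.ext (congrArg (·.2.1) x4) (congrArg (·.1) x4)
  have p : (2 : ℝ) ^ R ≤ 2 ^ a := pow_le_pow_right₀ one_le_two hR
  refine ⟨((norm_le_pi_norm (t.toCfg.pt ω - t.toCfg.pt ω') j).trans
    (Sy.near_pt h1.box x1 x3 (h2.fz ω x1 ω' x2 g))).trans (by gcongr), ?_⟩
  rw [← h2.fP ω x1 ω' x2 g, ← Matrix.mulVec_sub]
  refine (norm_mulVec_le (by linarith) (h1.pP ω x1).2.2 _).trans ?_
  rw [Fintype.card_fin, div_eq_mul_inv]
  have := (norm_sub_lt_of_fl_eq (congrArg Prod.snd x3)).le.trans (inv_anti₀ (by positivity) p)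
  gcongr
  linarith

theorem main {L' : ℝ} (kg : KG) (h1 : t.toSy.Alg S L) (h2 : t.snd.Alg S L') :
    mi (t.Q S a R j) (t.dd a R j) (t.ww R j) (fun v => (fl (a + R) (t.toSy.π v.1), t.Θ a v.1)) ≤
      mi t.P t.ξ (t.toCfg.X a) (fun ω => (fl (a + R) (t.toSy.π ω), t.Θ a ω)) +
      (ch (t.Q S a R j) (fun v => t.toCfg.X a v.2) (fun v => (t.toCfg.X a v.1, t.Θ a v.1)) -
        ch (t.Q S a R j) (fun v => t.toCfg.X a v.2) Prod.fst) +
      (ch (t.Q S a R j) (fun v => fl1 R (t.toCfg.pt v.1 j)) (G t a R) +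
        ch (t.Q S a R j) (fun v => fl1 R (t.toCfg.pt v.2 j)) (G t a R) +
        (ch (t.Q S a R j) (fun v => flv R ((t.Pm v.1).mulVec (t.e v.1))) (G t a R) +
          ch (t.Q S a R j) (fun v => flv R ((t.Pm v.2).mulVec (t.e v.2))) (G t a R))) := by
  have l : Law (t.Q S a R j) Prod.fst t.P id := kg.fst _ _ _ _
  refine (mi_mono' (F' := fun v => t.ξ v.1) fun v hv v' hv' e => ?_).trans
    ((mi_near _ _ (fun v => (t.toCfg.X a v.1, t.toCfg.X a v.2)) _).trans (add_le_add ?_ ?_))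
  · have g : t.toSy.g v.1 = t.toSy.g v'.1 := Prod.ext (congrArg (·.1) e) (congrArg (·.2.2.1) e)
    have e1 : t.z v.1 = t.z v'.1 := h1.fz _ (l.mem hv) _ (l.mem hv') g
    have e2 : t.Pm v.1 = t.Pm v'.1 := h1.fP _ (l.mem hv) _ (l.mem hv') g
    have e3 : t.z' v.1 = t.z' v'.1 := h2.fz _ (l.mem hv) _ (l.mem hv') g
    have e4 : t.Pm' v.1 = t.Pm' v'.1 := h2.fP _ (l.mem hv) _ (l.mem hv') g
    simp only [Th.dd, e1, e2, e3, e4]
  · rw [mi_chain, ← l.mi_id, mi_symm _ fun v : t.Ω × t.Ω => t.toCfg.X a v.2]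
    exact add_le_add le_rfl (sub_le_sub
      (ch_anti fun _ _ _ _ e => Prod.ext (congrArg (·.1) e) (congrArg (·.2.2) e))
      (ch_anti fun _ _ _ _ e => by simp only [e]))
  · have k : Fn (t.Q S a R j) (t.ww R j) fun v =>
        ((fl1 R (t.toCfg.pt v.1 j), fl1 R (t.toCfg.pt v.2 j)),
          flv R ((t.Pm v.1).mulVec (t.e v.1)), flv R ((t.Pm v.2).mulVec (t.e v.2))) :=
      Fn.comp (fun u : (ℤ × ℤ) × Z N × Z N => (u.1.2 - u.1.1, u.2.2 - u.2.1)) _
    exact (ch_mono (k.left (G t a R))).trans ((ch_subadd _ _ _).trans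
      (add_le_add (ch_subadd _ _ _) (ch_subadd _ _ _)))

end G2A

open G2A in
theorem rowG2 : SG2 := by
  intro N s C h1 hK S SK t M a R L j st
  obtain ⟨L₁, s1, a1⟩ := st.two.one.alg
  obtain ⟨L₂, s2, a2⟩ := st.two.two.alg
  have big := st.two.one.big
  have two := big.sub one_le_two
  have sb := s1.const_mul big (C := N + 1) (by linarith [Nat.cast_nonneg (α := ℝ) N])
  have c := fun n (x : (t n).toSy.Alg S (L₁ n)) (y : (t n).Alg (a n)) ω ω' =>
    cell (j := j) (ω := ω) (ω' := ω') x y (st.le n).1 (s1.1 n)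
  have c1 := Sm.near1 (P := fun n => (t n).Q S (a n) (R n) j) (G := fun n => G (t n) (a n) (R n))
    (x := fun n v => (t n).toCfg.pt v.1 j) (j := R) big two (by
      filter_upwards [a1, st.two.alg] with n x y v hv v' hv' e
      exact (c n x y _ _ (cl C.kg hv hv' e).1).1)
  have c2 := Sm.near1 (P := fun n => (t n).Q S (a n) (R n) j) (G := fun n => G (t n) (a n) (R n))
    (x := fun n v => (t n).toCfg.pt v.2 j) (j := R) big two (by
      filter_upwards [a1, st.two.alg] with n x y v hv v' hv' e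
      exact (c n x y _ _ (cl C.kg hv hv' e).2).1)
  have d1 := Sm.near (P := fun n => (t n).Q S (a n) (R n) j) (G := fun n => G (t n) (a n) (R n))
    (x := fun n v => ((t n).Pm v.1).mulVec ((t n).e v.1)) (j := R) big sb (by
      filter_upwards [a1, st.two.alg] with n x y v hv v' hv' e
      exact (c n x y _ _ (cl C.kg hv hv' e).1).2)
  have d2 := Sm.near (P := fun n => (t n).Q S (a n) (R n) j) (G := fun n => G (t n) (a n) (R n))
    (x := fun n v => ((t n).Pm v.2).mulVec ((t n).e v.2)) (j := R) big sb (by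
      filter_upwards [a1, st.two.alg] with n x y v hv v' hv' e
      exact (c n x y _ _ (cl C.kg hv hv' e).2).2)
  refine (Le.add (Le.add (h1 S SK t M a R L st).f5 (hK S SK t M a R L j st))
    ((c1.add c2).add (d1.add d2))).of_sub ?_
  filter_upwards [a1, a2] with n x y
  have := main (a := a n) (R := R n) (j := j) C.kg x y
  linarith

end Pool.Agent.MP_5168f5_an.H17F
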