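import Pool.Agent.MP_5168f5_an.H17F.SqApi

/-! The difference of one coordinate of a line and its copy has full entropy. -/

namespace Pool.Agent.MP_5168f5_an.H17F

open H19 H17S Filter

namespace G3A

variable {N : ℕ}

theorem one (x : Sy N) (hb : x.toCfg.Box) (R : ℕ) (i : Fin N) {β : Type} (G : x.Ω → β) :
    ch x.P (fun ω => fl1 R (x.toCfg.pt ω i)) G ≤ (R + 1) * lg := by
  have h : Det x.P (fun ω => fl1 R (x.toCfg.pt ω i)) G ((2 : ℝ) ^ (R + 1)) := by
    refine fun _ _ => ⟨Finset.Ico 0 (2 ^ (R + 1)), ?_, fun b hb' _ => ?_⟩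
    · rw [Int.card_Ico, sub_zero, show ((2 : ℤ) ^ (R + 1)) = ((2 ^ (R + 1) : ℕ) : ℤ) by simp,
        Int.toNat_natCast]
      simp
    · obtain ⟨h1, h2⟩ := Sy.pt_box hb hb' i
      have h3 : (0 : ℝ) < 2 ^ R := by positivity
      simp only [Finset.mem_Ico, fl1, Int.floor_nonneg, Int.floor_lt]
      refine ⟨by positivity, ?_⟩
      push_cast
      rw [pow_succ]
      exact mul_lt_mul_of_pos_left h2 h3
  have := ch_det h
  rwa [log_two_pow, Nat.cast_succ] at this

theorem many (x : Sy N) (hb : x.toCfg.Box) (R : ℕ) (T : Finset (Fin N)) {β : Type}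
    (G : x.Ω → β) : ch x.P (x.r T R) G ≤ T.card * ((R + 1) * lg) := by
  refine (ch_pi_le T (fun i ω => fl1 R (x.toCfg.pt ω i)) 0 G).trans ?_
  simpa using Finset.sum_le_card_nsmul _ _ _ fun i (_ : i ∈ T) => one x hb R i G

theorem split (x : Sy N) (R : ℕ) (S : Finset (Fin N)) (j : Fin N) {β : Type} (G : x.Ω → β) :
    ch x.P (x.r S R) G ≤ ch x.P (x.r (S.erase j) R) G +
      ch x.P (fun ω => fl1 R (x.toCfg.pt ω j)) fun ω => (x.r (S.erase j) R ω, G ω) := by
  rw [← ch_chain]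
  refine ch_mono fun a _ b _ e => ?_
  simp only [Prod.mk.injEq] at e
  funext i
  by_cases h : i = j
  · subst h
    simp only [Sy.r, e.1.2]
  · have := congrFun e.1.1 i
    simpa [Sy.r, h] using this

theorem copy (kg : KG) (t : Th N) (S : Finset (Fin N)) (a R : ℕ) (j : Fin N) :
    ch t.P (fun ω => fl1 R (t.toCfg.pt ω j)) (t.φ S a R j) ≤
      ch (t.Q S a R j) (fun v => (t.ww R j v).1)
        fun v => (fl (a + R) (t.toSy.π v.1), t.Θ a v.1) := by
  rw [← kg.mk1 t.P t.P (t.φ S a R j) (t.φ S a R j) (fun ω => fl1 R (t.toCfg.pt ω j)) id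
    (Law.rfl _) fun _ _ _ _ e => congrArg _ e]
  refine ch_le (fun v _ w _ e => ?_) fun v _ w _ e => ?_
  · simp only [Prod.mk.injEq, Th.ww, id] at e
    have h1 := e.1
    rw [e.2] at h1
    exact sub_left_injective h1
  · have h1 : v.1 = w.1 := e
    simp only [h1]

end G3A

open G3A

theorem rowG3 : SG3 := by
  intro N s hC hL S SK t M a R L j hS hj
  have f3 := (hL S SK t M a R L hS).f3
  obtain ⟨L₁, -, hA⟩ := hS.two.one.alg
  refine (f3.add (hS.two.one.big.sm (S.card * lg))).of_sub ?_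
  filter_upwards [hA] with n hn
  have h1 := split (t n).toSy (R n) S j fun ω =>
    (fl (a n + R n) ((t n).snd.π ω), (t n).ξ ω, (t n).Θ (a n) ω)
  have h2 := many (t n).toSy hn.box (R n) (S.erase j) fun ω =>
    (fl (a n + R n) ((t n).snd.π ω), (t n).ξ ω, (t n).Θ (a n) ω)
  have h3 := copy hC.kg (t n) S (a n) (R n) j
  have h4 : ((S.erase j).card : ℝ) = S.card - 1 := by
    rw [← Finset.card_erase_add_one hj]
    push_cast; ring
  rw [h4] at h2
  have h5 := (h1.trans (add_le_add h2 h3))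
  have := lg_pos
  linarith

end Pool.Agent.MP_5168f5_an.H17F
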