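import Pool.Agent.MP_5168f5_an.H17F.SqApi

/-! A variable that is determined when any one of several independent variables is omitted. -/

namespace Pool.Agent.MP_5168f5_an.H17F

open H19 H17S Filter

namespace IndAux

variable {N : ℕ} {Ω α β : Type} {P : FP Ω}

/-- The coordinates in `U`. -/
def rT (r : Ω → Z N) (U : Finset (Fin N)) (ω : Ω) : Z N := fun i => if i ∈ U then r ω i else 0

theorem eq_iff {r : Ω → Z N} {U : Finset (Fin N)} {a b : Ω} :
    rT r U a = rT r U b ↔ ∀ i ∈ U, r a i = r b i := by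
  refine ⟨fun h i hi => by simpa [rT, hi] using congrFun h i, fun h => funext fun i => ?_⟩
  by_cases hi : i ∈ U
  · simp [rT, hi, h i hi]
  · simp [rT, hi]

theorem upper {r : Ω → Z N} {G : Ω → β} {S U : Finset (Fin N)} {h : ℝ} (hU : U ⊆ S)
    (h2 : ∀ i ∈ S, ch P (fun ω => r ω i) G ≤ h) : ch P (rT r U) G ≤ U.card * h := by
  refine (ch_pi_le (P := P) U (fun i ω => r ω i) 0 G).trans ?_
  rw [← nsmul_eq_mul]
  exact Finset.sum_le_card_nsmul _ _ _ fun i hi => h2 i (hU hi)

theorem lower {r : Ω → Z N} {G : Ω → β} {S U : Finset (Fin N)} {h Λ : ℝ} (hU : U ⊆ S)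
    (h2 : ∀ i ∈ S, ch P (fun ω => r ω i) G ≤ h) (h3 : S.card * h - Λ ≤ ch P (rT r S) G) :
    U.card * h - Λ ≤ ch P (rT r U) G := by
  have e1 : ch P (rT r S) G ≤ ch P (fun ω => (rT r U ω, rT r (S \ U) ω)) G := by
    refine ch_mono fun a _ b _ e => ?_
    simp only [Prod.mk.injEq, eq_iff] at e ⊢
    intro i hi
    by_cases hi' : i ∈ U
    · exact e.1.1 i hi'
    · exact e.1.2 i (Finset.mem_sdiff.2 ⟨hi, hi'⟩)
  have e2 := ch_subadd (P := P) (rT r U) (rT r (S \ U)) G
  have e3 := upper (P := P) (U := S \ U) Finset.sdiff_subset h2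
  have e4 : ((S \ U).card : ℝ) + U.card = S.card := by
    exact_mod_cast Finset.card_sdiff_add_card_eq_card hU
  rw [← e4, add_mul] at h3
  linarith

theorem inter {r : Ω → Z N} {F : Ω → α} {G : Ω → β} {S A B : Finset (Fin N)} {h Λ : ℝ}
    (hA : A ⊆ S) (hB : B ⊆ S) (h2 : ∀ i ∈ S, ch P (fun ω => r ω i) G ≤ h)
    (h3 : S.card * h - Λ ≤ ch P (rT r S) G) :
    ch P F (fun ω => (rT r (A ∩ B) ω, G ω)) ≤
      ch P F (fun ω => (rT r A ω, G ω)) + ch P F (fun ω => (rT r B ω, G ω)) + 2 * Λ := by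
  have e1 := ch_submod (P := P) (A := fun ω => (rT r A ω, F ω)) (B := fun ω => (rT r B ω, F ω))
    (M := fun ω => (rT r (A ∩ B) ω, F ω)) (G := G)
    (fun a _ b _ e => by
      simp only [Prod.mk.injEq, eq_iff] at e ⊢
      exact ⟨fun i hi => e.1.1 i (Finset.mem_inter.1 hi).1, e.1.2⟩)
    (fun a _ b _ e => by
      simp only [Prod.mk.injEq, eq_iff] at e ⊢
      exact ⟨fun i hi => e.1.1 i (Finset.mem_inter.1 hi).2, e.1.2⟩)
  have e2 : ch P (rT r (A ∪ B)) G ≤ ch P (fun ω => ((rT r A ω, F ω), (rT r B ω, F ω))) G := by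
    refine ch_mono fun a _ b _ e => ?_
    simp only [Prod.mk.injEq, eq_iff] at e ⊢
    intro i hi
    rcases Finset.mem_union.1 hi with hi | hi
    · exact e.1.1.1 i hi
    · exact e.1.2.1 i hi
  rw [ch_chain (rT r (A ∩ B)), ch_chain (rT r A) F G, ch_chain (rT r B) F G] at e1
  have e3 := upper (P := P) hA h2
  have e4 := upper (P := P) hB h2
  have e5 := lower (P := P) (Finset.union_subset hA hB) h2 h3
  have e6 := lower (P := P) (Finset.inter_subset_left.trans hA : A ∩ B ⊆ S) h2 h3
  have e7 : ((A ∪ B).card : ℝ) + (A ∩ B).card = A.card + B.card := by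
    exact_mod_cast Finset.card_union_add_card_inter A B
  have e8 : ((A ∪ B).card : ℝ) * h + (A ∩ B).card * h = A.card * h + B.card * h := by
    rw [← add_mul, e7, add_mul]
  linarith

end IndAux

open IndAux in
theorem rowInd : Ind := by
  intro N
  refine ⟨3 * N + 1, by positivity, ?_⟩
  intro Ω α β P F G r S h Λ hN hΛ h1 h2 h3
  change ∀ j, ch P F (fun ω => (rT r (S.erase j) ω, G ω)) ≤ Λ at h1
  change S.card * h - Λ ≤ ch P (rT r S) G at h3
  have key : ∀ T : Finset (Fin N),
      ch P F (fun ω => (rT r (S \ T) ω, G ω)) ≤ (3 * T.card + 1) * Λ := by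
    intro T
    induction T using Finset.induction_on with
    | empty =>
      refine le_trans (ch_anti fun a _ b _ e => ?_) ((h1 ⟨0, hN⟩).trans (by simp))
      simp only [Prod.mk.injEq, eq_iff, Finset.sdiff_empty] at e ⊢
      exact ⟨fun i hi => e.1 i (Finset.mem_of_mem_erase hi), e.2⟩
    | insert j T hj ih =>
      have e : S \ insert j T = (S \ T) ∩ S.erase j := by
        ext i
        simp only [Finset.mem_sdiff, Finset.mem_insert, Finset.mem_inter, Finset.mem_erase]
        tauto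
      have e1 := inter (P := P) (F := F) (A := S \ T) (B := S.erase j) Finset.sdiff_subset
        (Finset.erase_subset _ _) h2 h3
      have e2 := h1 j
      rw [e, Finset.card_insert_of_notMem hj]
      push_cast
      linarith
  have e := key Finset.univ
  rw [Finset.card_univ, Fintype.card_fin] at e
  refine le_trans (ch_anti fun a _ b _ e => ?_) e
  simp only [Prod.mk.injEq, eq_iff]
  exact ⟨fun i hi => absurd (Finset.mem_univ i) (Finset.mem_sdiff.1 hi).2, e⟩

end Pool.Agent.MP_5168f5_an.H17F
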