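import Pool.Agent.MP_5168f5_an.H17F.SqApi

/-! Sticky Kakeya sets have full dimension: the coarse copy is independent of the line given the
coarse line. -/

namespace Pool.Agent.MP_5168f5_an.H17F

open H19 H17S Filter

namespace KeyA

theorem fin (kg : KG) {Ω A B C D T : Type} (P : FP Ω) (X : Ω → A) (ρ : Ω → B) (W : Ω → C)
    (ξ : Ω → D) (Θ : Ω → T) (φ : Ω → B × C × D × T) (hφ : ∀ ω, φ ω = (ρ ω, W ω, ξ ω, Θ ω)) :
    ch (glue P P φ φ) (fun v => X v.2) (fun v => (X v.1, Θ v.1)) ≤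
      ch (glue P P φ φ) (fun v => X v.2) Prod.fst + mi P X (fun ω => (W ω, ξ ω)) Θ +
        2 * ch P ρ fun ω => (X ω, Θ ω) := by
  have h1 : ch (glue P P φ φ) (fun v => X v.2) Prod.fst = ch P X φ :=
    kg.mk1 P P φ φ X id (Law.rfl φ) (Fn.comp φ id)
  have h2 := ch_tri' (P := glue P P φ φ) (fun v => X v.2) (fun v => (X v.1, Θ v.1))
    fun v => (ρ v.1, Θ v.1)
  have h3 : ch (glue P P φ φ) (fun v => (ρ v.1, Θ v.1)) (fun v => (X v.1, Θ v.1)) =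
      ch P (fun ω => (ρ ω, Θ ω)) fun ω => (X ω, Θ ω) :=
    (kg.fst P P φ φ).ch_id (fun ω => (ρ ω, Θ ω)) fun ω => (X ω, Θ ω)
  have h3' : ch P (fun ω => (ρ ω, Θ ω)) (fun ω => (X ω, Θ ω)) ≤ ch P ρ fun ω => (X ω, Θ ω) :=
    ch_mono fun a _ b _ e => by simp only [Prod.mk.injEq] at e ⊢; tauto
  have h4 : ch (glue P P φ φ) (fun v => X v.2) (fun v => (ρ v.1, Θ v.1)) =
      ch P X fun ω => (ρ ω, Θ ω) := by
    rw [← (kg.snd P P φ φ (Law.rfl φ)).ch_id X fun ω => (ρ ω, Θ ω)]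
    refine ch_ext (fun _ _ => rfl) fun v hv => ?_
    have e := ((kg.mem P P φ φ v (Law.rfl φ)).1 hv).2.2
    rw [hφ, hφ] at e
    simp only [Prod.mk.injEq] at e ⊢
    exact ⟨e.1.symm, e.2.2.2.symm⟩
  have h5 : ch P X (fun ω => ((W ω, ξ ω), ρ ω, Θ ω)) ≤ ch P X φ :=
    ch_anti fun a _ b _ e => by rw [hφ, hφ]; simp only [Prod.mk.injEq] at e ⊢; tauto
  have h6 := mi_chain (P := P) (fun ω => (W ω, ξ ω)) ρ X Θ
  have h7 := mi_near (P := P) (fun ω => (W ω, ξ ω)) (fun ω => (ρ ω, X ω)) X Θ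
  have h8 : ch P (fun ω => (ρ ω, X ω)) (fun ω => (X ω, Θ ω)) ≤ ch P ρ fun ω => (X ω, Θ ω) :=
    ch_mono fun a _ b _ e => by simp only [Prod.mk.injEq] at e ⊢; tauto
  have h9 := mi_nonneg (P := P) (fun ω => (W ω, ξ ω)) ρ Θ
  have h10 := mi_symm (P := P) (fun ω => (W ω, ξ ω)) X Θ
  have h11 := mi_symm (P := P) (fun ω => (W ω, ξ ω)) X fun ω => (ρ ω, Θ ω)
  have h12 : mi P X (fun ω => (W ω, ξ ω)) (fun ω => (ρ ω, Θ ω)) =
    ch P X (fun ω => (ρ ω, Θ ω)) - ch P X fun ω => ((W ω, ξ ω), ρ ω, Θ ω) := rfl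
  linarith

end KeyA

theorem rowKey : SKey := by
  intro N s hC hB hL S SK t M a R L j h
  have h1 := (hL S SK t M a R L h).f1
  have h2 := (hC.exb S _ M (hB.fst S SK t M a h.two).toBas).rx R (S.erase j)
  refine (h1.add (h2.smul zero_le_two)).of_sub (Eventually.of_forall fun n => ?_)
  have h3 := KeyA.fin hC.kg (t n).P ((t n).toCfg.X (a n)) ((t n).toSy.r (S.erase j) (R n))
    (fun ω => fl (a n + R n) ((t n).snd.π ω)) (t n).ξ ((t n).Θ (a n)) ((t n).φ S (a n) (R n) j)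
    fun _ => rfl
  have h4 : ch (t n).P ((t n).toSy.r (S.erase j) (R n))
      (fun ω => ((t n).toCfg.X (a n) ω, (t n).Θ (a n) ω)) ≤
      ch (t n).fst.P ((t n).fst.r (S.erase j) (R n))
        fun ω => ((t n).fst.toCfg.X (R n) ω, (t n).fst.g ω) :=
    ch_anti (P := (t n).P) fun x _ y _ e => Prod.ext
      ((t n).toCfg.X_eq_of_le (h.le n).1 (congrArg Prod.fst e))
      (Prod.ext (congrArg (·.2.2.1) e) (congrArg (·.2.1) e))
  unfold Th.Q
  linarith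

end Pool.Agent.MP_5168f5_an.H17F
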