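import Pool.Agent.MP_5168f5_an.H17F.Sq2

/-! Sticky Kakeya sets have full dimension: the lower bound in a window. -/

namespace Pool.Agent.MP_5168f5_an.H17F

open H19 H17S Filter

namespace LbA

theorem fin {N : ℕ} (x : Sy N) (β i : ℕ) {K : Type} (κ : x.Ω → K)
    (Φ : x.Ω → Matrix (Fin N) (Fin N) ℝ) (E : x.Ω → Prop) (fz : Fn x.P x.z x.g)
    (fΦ : Fn x.P Φ fun ω => (κ ω, x.g ω)) :
    ch (x.zsc β κ Φ E).P (fun ω => fl i ((x.zsc β κ Φ E).π ω)) (x.zsc β κ Φ E).g ≤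
      ch (cE x.P E) (fun ω => fl (β + i) ((Φ ω).mulVec (x.toCfg.pt ω)))
        (fun ω => (x.toCfg.X β ω, κ ω, x.g ω)) + 5 * N := by
  have h1 : ch (x.zsc β κ Φ E).P (fun ω => fl i ((x.zsc β κ Φ E).π ω)) (x.zsc β κ Φ E).g ≤
      ch (cE x.P E) (fun ω => fl i ((Φ ω).mulVec ((x.toCfg.zoom β).pt ω)))
        fun ω => ((κ ω, x.ξ ω), x.θ ω, x.toCfg.X β ω) := le_rfl
  have h2 : ch (cE x.P E) (fun ω => fl i ((Φ ω).mulVec ((x.toCfg.zoom β).pt ω)))
      (fun ω => ((κ ω, x.ξ ω), x.θ ω, x.toCfg.X β ω)) =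
      ch (cE x.P E) (fun ω => fl i ((Φ ω).mulVec ((x.toCfg.zoom β).pt ω)))
        fun ω => (x.toCfg.X β ω, κ ω, x.g ω) :=
    le_antisymm (ch_anti fun a _ b _ e => by simp only [Prod.mk.injEq, Sy.g] at e ⊢; tauto)
      (ch_anti fun a _ b _ e => by simp only [Prod.mk.injEq, Sy.g] at e ⊢; tauto)
  have h3 := ch_tri (P := cE x.P E) (fun ω => fl i ((Φ ω).mulVec ((x.toCfg.zoom β).pt ω)))
    (fun ω => fl (β + i) ((Φ ω).mulVec (x.toCfg.pt ω))) fun ω => (x.toCfg.X β ω, κ ω, x.g ω)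
  have h4 : ch (cE x.P E) (fun ω => fl i ((Φ ω).mulVec ((x.toCfg.zoom β).pt ω)))
      (fun ω => (fl (β + i) ((Φ ω).mulVec (x.toCfg.pt ω)), x.toCfg.X β ω, κ ω, x.g ω)) ≤ 5 * N := by
    refine ch_fl_near (n := 1) (by norm_num) fun a ha b hb e => ?_
    simp only [Prod.mk.injEq] at e
    obtain ⟨e1, e2, e3, e4⟩ := e
    have e5 : Φ a = Φ b := fΦ a (cE_sub ha) b (cE_sub hb) (Prod.ext e3 e4)
    have e6 : x.z a = x.z b := fz a (cE_sub ha) b (cE_sub hb) e4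
    have e7 : fl β (x.a a) = fl β (x.a b) := congrArg Prod.fst e2
    have e8 : fl β (x.e a) = fl β (x.e b) := congrArg Prod.snd e2
    have e9 := (norm_sub_lt_of_fl_eq e1).le
    have e10 : (Φ a).mulVec ((x.toCfg.zoom β).pt a) - (Φ b).mulVec ((x.toCfg.zoom β).pt b) =
        (2 : ℝ) ^ β • ((Φ a).mulVec (x.toCfg.pt a) - (Φ b).mulVec (x.toCfg.pt b)) := by
      rw [Cfg.zoom_pt, Cfg.zoom_pt, e5, e6, e7, e8, ← Matrix.mulVec_sub, ← Matrix.mulVec_sub,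
        ← Matrix.mulVec_smul, sub_sub_sub_cancel_right, smul_sub]
    rw [e10, norm_smul, Real.norm_eq_abs, abs_of_pos (by positivity)]
    refine (mul_le_mul_of_nonneg_left e9 (by positivity)).trans (le_of_eq ?_)
    rw [pow_add]; field_simp; simp
  linarith

end LbA

theorem rowLb : SLb := by
  intro N s S' hZ h0 S x M β lam K κ Φ E L hB hw h1 hL h2 hE
  have hi : ∀ n, β n + (lam n - β n) = lam n := fun n => Nat.add_sub_cancel' (hw n).1
  have hi' : ∀ n, lam n - β n ≤ M n := fun n => (Nat.sub_le _ _).trans (hw n).2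
  refine Le.win hi' ((N - s - S'.card) * lg) (fun hF => ?_) (Le.of_le fun n => ?_)
  · have h3 := (h0 _ _ (hZ S S' x M β (fun n => lam n - β n) K κ Φ E L hB
      (fun n => (hi n).le.trans (hw n).2) hF h1 hL h2 hE)).up hi'
    obtain ⟨L', -, hA⟩ := hB.alg
    refine h3.of2 (hB.big.sm (5 * N)) ?_
    filter_upwards [hA, h2] with n a b
    have h4 := LbA.fin (x n) (β n) (lam n - β n) (κ n) (Φ n) (E n) a.fz b.1
    rw [hi n] at h4
    rw [Nat.cast_sub (hw n).1]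
    linarith
  · rw [Nat.cast_sub (hw n).1]
    have := ch_nonneg (P := cE (x n).P (E n))
      (fun ω => fl (lam n) ((Φ n ω).mulVec ((x n).toCfg.pt ω)))
      fun ω => ((x n).toCfg.X (β n) ω, κ n ω, (x n).g ω)
    linarith

end Pool.Agent.MP_5168f5_an.H17F
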