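import Pool.Agent.MP_5168f5_an.H17F.Sq2

/-! The lower bound for the entropy of the point modulo a grain. -/

namespace Pool.Agent.MP_5168f5_an.H17F

open H19 H17S Filter

namespace Lb0Aux

variable {N : ℕ} {S : Finset (Fin N)} {x : ℕ → Sy N} {M : ℕ → ℕ}

theorem r_eq (y : Sy N) (j : ℕ) :
    y.r S j = fun ω => flv j fun i => if i ∈ S then y.toCfg.pt ω i else 0 := by
  funext ω i
  by_cases hi : i ∈ S <;> simp [Sy.r, flv, hi, fl1]

theorem r_le (h : Bas S x M) :
    Le M (fun n => ch (x n).P ((x n).r S (M n)) (x n).g) fun n => S.card * M n * lg := by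
  obtain ⟨L, -, hL⟩ := h.alg
  have h1 := le_flv (P := fun n => (x n).P) (G := fun n => (x n).g) (j := fun _ => 0) (k := M) S
    (x := fun n ω i => if i ∈ S then (x n).toCfg.pt ω i else 0) h.big
    (h.big.sub (C := 2) one_le_two) (fun _ => Nat.zero_le _)
    (hL.mono fun n hn a ha b hb _ i => by
      refine ⟨?_, fun hi => by simp [hi]⟩
      by_cases hi : i ∈ S
      · have e1 := Sy.pt_box hn.box ha i
        have e2 := Sy.pt_box hn.box hb i
        simp only [hi, if_true, pow_zero, div_one, abs_le]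
        constructor <;> linarith [e1.1, e1.2, e2.1, e2.2]
      · simp [hi])
  simpa only [r_eq, Nat.cast_zero, sub_zero] using h1

theorem sys_zero {s : ℝ} (h : Bas S x M)
    (hg : Le M (fun n => ch (x n).P (fun ω => fl (M n) ((x n).π ω)) (x n).g) fun n =>
      (N - s - S.card) * M n * lg) :
    Sys s S Finset.univ (fun n => (x n).setK fun _ => 0) M := by
  obtain ⟨L, hL, hA⟩ := h.alg
  refine ⟨⟨h.big, ⟨L, hL, hA.mono fun n a => ⟨a.box, a.fz, a.fP, a.pP⟩⟩, h.dir, h.stk, h.inf,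
    h.hgt⟩, ⟨fun _ => 1, h.big.sub le_rfl, Eventually.of_forall fun n =>
      ⟨fun _ _ _ _ _ => rfl, fun _ _ => ?_⟩⟩, hg, Le.of_le fun n => (ch_zero ?_).le⟩
  · exact ⟨fun _ _ _ => rfl, fun j hj => absurd (Finset.mem_univ j) hj, fun _ _ => by
      simp [Sy.setK]⟩
  · intro a _ b _ _
    simp [Sy.ψ, Sy.setK]

end Lb0Aux

open Lb0Aux in
theorem rowLb0 : SLb0 := by
  intro N s S
  refine ⟨fun hb hl x M h => ?_, fun hn x M h => ?_⟩
  · refine (hl S x M h).of3 ((hb S x M h).yp M) (r_le h) (Eventually.of_forall fun n => ?_)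
    have e1 := ch_tri (P := (x n).P) (fun ω => fl (M n) ((x n).toCfg.pt ω))
      (fun ω => (fl (M n) ((x n).π ω), (x n).r S (M n) ω)) (x n).g
    have e2 := ch_subadd (P := (x n).P) (fun ω => fl (M n) ((x n).π ω)) ((x n).r S (M n)) (x n).g
    linarith
  · exact (Le.total M _ _).resolve_right fun hg => hn ⟨_, M, sys_zero h hg⟩

end Pool.Agent.MP_5168f5_an.H17F
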