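import Pool.Agent.MP_5168f5_an.H17F.SqApi

/-! Sticky Kakeya sets have full dimension: the grain projection is Lipschitz in the height. -/

namespace Pool.Agent.MP_5168f5_an.H17F

open H19 H17S Filter

namespace LipR

/-- Pigeonhole for finitely many events. -/
theorem pig' (ks : KS) {Ω : ℕ → Type} {P : ∀ n, FP (Ω n)} {J : Type} [Finite J]
    (Q : J → ∀ n, Ω n → Prop) (h : Pos P fun n ω => ∃ j, Q j n ω) : ∃ j, Pos P (Q j) := by
  classical
  obtain ⟨o, ho⟩ := ks.pig P _ (J := Option J)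
    (fun n ω => if k : ∃ j, Q j n ω then some k.choose else none) h
  cases o with
  | none =>
    obtain ⟨n, ω, -, a, b⟩ := ho.ex.exists
    rw [dif_pos a] at b
    exact absurd b (Option.some_ne_none _)
  | some j =>
    refine ⟨j, ho.mono (Eventually.of_forall fun n ω _ e => ?_)⟩
    have b := e.2
    rw [dif_pos e.1] at b
    rw [← Option.some.inj b]
    exact e.1.choose_spec

theorem inv_pow_anti {u v : ℕ} (h : u ≤ v) : ((2 : ℝ) ^ v)⁻¹ ≤ ((2 : ℝ) ^ u)⁻¹ :=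
  inv_anti₀ (by positivity) (pow_le_pow_right₀ one_le_two h)

/-- The event attached to a label. -/
def Ev {N : ℕ} (y : ℝ) (a ga k : ℕ) (i j : Fin N) (A A' : Matrix (Fin N) (Fin N) ℝ) : Prop :=
  y / 2 ^ a < |A' i j - A i j| ∧ ((2 : ℝ) ^ min (k * ga) a)⁻¹ ≤ |A' i j - A i j| ∧
    (∀ p, |A' p j - A p j| ≤ |A' i j - A i j|) ∧
    (min ((k - 1) * ga) (min (k * ga) a) = 0 ∨
      |A' i j - A i j| ≤ ((2 : ℝ) ^ min ((k - 1) * ga) (min (k * ga) a))⁻¹)

theorem exists_ev {N : ℕ} {y : ℝ} (hy : 1 ≤ y) {a ga K : ℕ} (hK : a ≤ K * ga)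
    {A A' : Matrix (Fin N) (Fin N) ℝ} (h : ¬∀ i j, |A' i j - A i j| ≤ y / 2 ^ a) :
    ∃ l : Fin N × Fin N × Fin (K + 1), Ev y a ga l.2.2 l.1 l.2.1 A A' := by
  classical
  push Not at h
  obtain ⟨i₀, j, h0⟩ := h
  obtain ⟨i, -, hi⟩ := Finset.exists_max_image Finset.univ (fun p => |A' p j - A p j|)
    ⟨i₀, Finset.mem_univ _⟩
  have h1 : y / 2 ^ a < |A' i j - A i j| := h0.trans_le (hi _ (Finset.mem_univ _))
  have h2 : ((2 : ℝ) ^ a)⁻¹ ≤ |A' i j - A i j| := by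
    refine le_trans ?_ h1.le
    rw [div_eq_mul_inv]
    exact le_mul_of_one_le_left (by positivity) hy
  have h3 : ((2 : ℝ) ^ (K * ga))⁻¹ ≤ |A' i j - A i j| := (inv_pow_anti hK).trans h2
  have ex : ∃ k, ((2 : ℝ) ^ (k * ga))⁻¹ ≤ |A' i j - A i j| := ⟨K, h3⟩
  refine ⟨(i, j, ⟨Nat.find ex, Nat.lt_succ_of_le (Nat.find_min' ex h3)⟩), h1, ?_,
    fun p => hi p (Finset.mem_univ _), ?_⟩
  · rcases min_choice (Nat.find ex * ga) a with e | e
    · simp only [e]; exact Nat.find_spec ex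
    · simp only [e]; exact h2
  · rcases Nat.eq_zero_or_pos (Nat.find ex) with e | e
    · left; simp [e]
    · right
      exact (not_le.1 (Nat.find_min ex (Nat.sub_lt e one_pos))).le.trans
        (inv_pow_anti (min_le_left _ _))

theorem window (a ga k : ℕ) : min (k * ga) a ≤ min ((k - 1) * ga) (min (k * ga) a) + ga := by
  have h : k * ga ≤ (k - 1) * ga + ga := by
    rcases k with _ | k
    · simp
    · simp [Nat.succ_mul]
  omega

/-- The two entropy bounds compared. -/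
theorem core {N : ℕ} {s ε₀ : ℝ} {S : Finset (Fin N)} (l1 : Lip1 N s) (ng : NG N s S ε₀)
    {SK : Finset (I2 N)} {t : ℕ → Th N} {M a β β' : ℕ → ℕ} {i j : Fin N}
    (two : Two s S SK t M a) (hw : ∀ n, β' n ≤ β n ∧ β n ≤ a n ∧ a n ≤ M n)
    (h : ∀ᶠ n in UF, ∀ ω ∈ (t n).P.S, ((2 : ℝ) ^ β n)⁻¹ ≤ |(t n).Pm' ω i j - (t n).Pm ω i j| ∧
      (∀ k, |(t n).Pm' ω k j - (t n).Pm ω k j| ≤ |(t n).Pm' ω i j - (t n).Pm ω i j|) ∧
      (β' n = 0 ∨ |(t n).Pm' ω i j - (t n).Pm ω i j| ≤ ((2 : ℝ) ^ β' n)⁻¹)) :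
    Le M (fun n => (a n - β n : ℝ) * lg) fun n => (1 - ε₀) * (a n - β' n) * lg := by
  obtain ⟨L₁, -, h1⟩ := two.one.alg
  obtain ⟨L₂, -, h2⟩ := two.two.alg
  have hj : j ∈ S := by
    by_contra hj
    obtain ⟨n, ⟨ω, hω, -⟩, u, v, w⟩ :=
      ((pos_true (P := fun n => (t n).P)).ex.and (h.and (h1.and h2))).exists
    have e : (t n).Pm' ω i j - (t n).Pm ω i j = 0 := (v.pP ω hω).sub_col (w.pP ω hω) hj i
    have k := (u ω hω).1
    rw [e, abs_zero] at k
    exact absurd k (not_le.2 (by positivity))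
  have k1 := l1 S SK t M a β β' i j two hw hj h
  have k2 := ng SK (fun n => (t n).snd) M β' a (fun _ => Unit) (fun _ _ => ()) i
    (fun n ω k => ((t n).Pm' ω k j - (t n).Pm ω k j) / ((t n).Pm' ω i j - (t n).Pm ω i j))
    (fun _ _ => True) two.two (fun n => ⟨(hw n).1.trans (hw n).2.1, (hw n).2.2⟩)
    (Le.of_le fun n => (mi_le _ _ _).trans (ch_zero fun _ _ _ _ _ => rfl).le) ?_ pos_true
  · refine k1.trans ((Le.of_le fun n => ?_).trans k2)
    rw [cE_true]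
    exact ch_anti fun u _ v _ e => by
      simp only [Prod.mk.injEq] at e ⊢
      exact ⟨e.1, e.2.1, trivial, e.2.2⟩
  · filter_upwards [h, h1, h2] with n u v w
    refine ⟨fun p hp q hq e => ?_, fun _ _ _ _ _ => rfl, fun ω hω => ?_⟩
    · have e1 : (t n).Pm p = (t n).Pm q := v.fP p hp q hq (congrArg Prod.snd e)
      have e2 : (t n).Pm' p = (t n).Pm' q := w.fP p hp q hq (congrArg Prod.snd e)
      simp only [e1, e2]
    · obtain ⟨u1, u2, -⟩ := u ω hω
      have hp : 0 < |(t n).Pm' ω i j - (t n).Pm ω i j| := lt_of_lt_of_le (by positivity) u1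
      refine ⟨div_self (abs_pos.1 hp), (pi_norm_le_iff_of_nonneg zero_le_one).2 fun k => ?_⟩
      rw [Real.norm_eq_abs, abs_div]
      exact (div_le_one hp).2 (u2 k)

theorem gap {c m L : ℝ} {M a b : ℕ} (hL : 1 ≤ L) (h : Real.exp (c * M) / 2 ^ a < m)
    (h1 : m ≤ L) (h2 : b = 0 ∨ m ≤ ((2 : ℝ) ^ b)⁻¹) :
    c * M ≤ Real.log L + (a - b : ℝ) * lg := by
  have h3 : m ≤ L * ((2 : ℝ) ^ b)⁻¹ := by
    rcases h2 with e | e
    · simpa [e] using h1
    · exact e.trans (le_mul_of_one_le_left (by positivity) hL)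
  have h4 := h.trans_le h3
  rw [two_pow_eq, two_pow_eq, ← Real.exp_sub, ← Real.exp_neg,
    ← Real.exp_log (one_pos.trans_le hL), ← Real.exp_add, Real.exp_lt_exp] at h4
  linarith

end LipR

open LipR in
theorem rowLip : SLip := by
  intro N s ε₀ S clo tb l1 h0 h1 ng SK t M a two ha
  refine clo.ks.wsub (fun n => (t n).P) (fun n ω y => (t n).Lip (y / 2 ^ a n) ω) M
    fun c hc _ => ?_
  by_contra hW
  have hM : Big M := two.one.big
  obtain ⟨K, hK⟩ := exists_nat_ge (2 / (ε₀ * c))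
  have hec : 0 < ε₀ * c := mul_pos h0 hc
  have k0 : (0 : ℝ) < K := lt_of_lt_of_le (by positivity) hK
  have k1 : 0 < K := by exact_mod_cast k0
  obtain ⟨⟨i, j, k⟩, hE⟩ := pig' clo.ks (J := Fin N × Fin N × Fin (K + 1))
    (fun l n ω => Ev (Real.exp (c * M n)) (a n) (M n / K + 1) l.2.2 l.1 l.2.1 ((t n).Pm ω)
      ((t n).Pm' ω))
    ((not_whp hW).mono (Eventually.of_forall fun n ω _ e =>
      exists_ev (Real.one_le_exp (by positivity))
        ((ha n).trans (Nat.lt_mul_div_succ (M n) k1).le) e))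
  obtain ⟨L₁, s1, a1⟩ := two.one.alg
  obtain ⟨L₂, s2, a2⟩ := two.two.alg
  have two' := tb.cond S SK t M a _ two (by
    filter_upwards [a1, a2] with n v w p hp q hq e
    have e1 : (t n).Pm p = (t n).Pm q := v.fP p hp q hq e
    have e2 : (t n).Pm' p = (t n).Pm' q := w.fP p hp q hq e
    simp only [e1, e2]) hE
  have H := core l1 ng (i := i) (j := j) (β := fun n => min (k * (M n / K + 1)) (a n))
    (β' := fun n => min ((k - 1) * (M n / K + 1)) (min (k * (M n / K + 1)) (a n))) two'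
    (fun n => ⟨min_le_right _ _, min_le_right _ _, ha n⟩)
    (hE.sure.mono fun n u ω hω => (u ω hω).2.2)
  have sL := s1.add s2 hM
  refine ((H.add sL.log).add (hM.sm 1)).false hM (half_pos hec) ?_
  filter_upwards [hE.ex, a1, a2] with n ⟨ω, hω, e⟩ v w
  have b1 := abs_le.1 ((v.pP ω hω).2.2 i j)
  have b2 : |(t n).Pm' ω i j| ≤ L₂ n := (w.pP ω hω).2.2 i j
  have b3 := abs_le.1 b2
  have g1 := gap (sL.1 n) e.1 (abs_le.2 ⟨by linarith [b1.2, b3.1], by linarith [b1.1, b3.2]⟩)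
    e.2.2.2
  have g2 := window (a n) (M n / K + 1) k
  have g3 : ((M n / K : ℕ) : ℝ) ≤ ε₀ * c / 2 * M n := by
    refine Nat.cast_div_le.trans ?_
    rw [div_le_iff₀ hec] at hK
    rw [div_le_iff₀ k0]
    nlinarith [mul_le_mul_of_nonneg_right hK (Nat.cast_nonneg (α := ℝ) (M n))]
  have g4 := Real.log_nonneg (sL.1 n)
  simp only at g1 ⊢
  generalize min ((k - 1) * (M n / K + 1)) (min (k * (M n / K + 1)) (a n)) = u at g1 g2 ⊢
  generalize min (k * (M n / K + 1)) (a n) = r at g2 ⊢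
  have g5 : (r : ℝ) ≤ u + ((M n / K : ℕ) + 1) := by exact_mod_cast g2
  have g6 : (r - u : ℝ) * lg ≤ (M n / K : ℕ) + 1 := by
    nlinarith [lg_pos, lg_lt_one, Nat.cast_nonneg (α := ℝ) (M n / K)]
  nlinarith [mul_le_mul_of_nonneg_left g1 h0.le, mul_le_mul_of_nonneg_right h1 g4]

end Pool.Agent.MP_5168f5_an.H17F
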