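import Pool.Agent.MP_5168f5_an.H17F.SqApi

namespace Pool.Agent.MP_5168f5_an.H17F

open H19 H17S Filter

namespace Lip1A

variable {N : ℕ} {S : Finset (Fin N)} {L : ℝ}

theorem dec {A A' : Matrix (Fin N) (Fin N) ℝ} (hA : Prj S L A) (hA' : Prj S L A') (hL : 0 ≤ L)
    {y1 y2 e1 e2 : V N} {d η : ℝ} (j : Fin N) (hd : |d| ≤ η) (he : ‖e1 - e2‖ ≤ 1)
    (hp : ‖A.mulVec y1 - A.mulVec y2‖ ≤ η) (hr : ∀ k ∈ S.erase j, |y1 k - y2 k| ≤ η) :
    ‖A'.mulVec (y1 + d • e1) - A'.mulVec (y2 + d • e2) -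
      (y1 j - y2 j) • fun k => A' k j - A k j‖ ≤ (1 + 3 * N * L) * η := by
  have hη : 0 ≤ η := (abs_nonneg _).trans hd
  obtain ⟨δ, hδ⟩ : ∃ δ : V N, δ = fun k => if k ∈ S.erase j then y1 k - y2 k else 0 := ⟨_, rfl⟩
  have h1 : ((y1 j - y2 j) • fun k => A' k j - A k j) = (A' - A).mulVec (y1 - y2 - δ) := by
    funext i
    simp only [Matrix.mulVec, dotProduct, Pi.smul_apply, smul_eq_mul]
    rw [Finset.sum_eq_single j]
    · simp [hδ, mul_comm]
    · intro k _ hk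
      by_cases hk' : k ∈ S
      · simp [hδ, hk, hk']
      · rw [Matrix.sub_apply, hA.sub_col hA' hk', zero_mul]
    · simp
  have h2 : ‖δ‖ ≤ η := (pi_norm_le_iff_of_nonneg hη).2 fun k => by
    rw [hδ]
    by_cases hk : k ∈ S.erase j
    · simpa only [hk, if_true, Real.norm_eq_abs] using hr k hk
    · simpa only [hk, if_false, norm_zero] using hη
  have e : A'.mulVec (y1 + d • e1) - A'.mulVec (y2 + d • e2) - (A' - A).mulVec (y1 - y2 - δ) =
      (A.mulVec y1 - A.mulVec y2) + (A' - A).mulVec δ + d • A'.mulVec (e1 - e2) := by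
    simp only [Matrix.mulVec_add, Matrix.mulVec_sub, Matrix.sub_mulVec, Matrix.mulVec_smul]
    module
  have h3 := norm_mulVec_le (A := A' - A) (L := 2 * L) (by positivity) (fun i k => by
    have := abs_sub (A' i k) (A i k)
    rw [Matrix.sub_apply]
    linarith [hA.2.2 i k, hA'.2.2 i k]) δ
  have h4 := norm_mulVec_le hL hA'.2.2 (e1 - e2)
  rw [Fintype.card_fin] at h3 h4
  have hN : 0 ≤ (N : ℝ) * L := by positivity
  have h5 : ‖d • A'.mulVec (e1 - e2)‖ ≤ η * (N * L) := by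
    rw [norm_smul, Real.norm_eq_abs]
    exact mul_le_mul hd (h4.trans (mul_le_of_le_one_right hN he)) (norm_nonneg _) hη
  rw [h1, e]
  refine (norm_add_le _ _).trans ((add_le_add (norm_add_le _ _) h5).trans ?_)
  nlinarith [mul_le_mul_of_nonneg_left h2 hN]

/-- The context. -/
noncomputable def W (x : Sy N) (S : Finset (Fin N)) (j : Fin N) (a : ℕ) (ω : x.Ω) :
    Z N × Z N × x.Ξ × x.T := (x.r (S.erase j) a ω, fl a (x.π ω), x.g ω)

theorem pair {t : Th N} {a : ℕ} (h1 : t.toSy.Alg S L) (h2 : t.snd.Alg S L) (h3 : t.Alg a)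
    (hL : 0 ≤ L) (j : Fin N) {p q : t.Ω} (hp : p ∈ t.P.S) (hq : q ∈ t.P.S)
    (e : W t.toSy S j a p = W t.toSy S j a q) :
    t.Pm q = t.Pm p ∧ t.Pm' q = t.Pm' p ∧ |t.toCfg.pt p j - t.toCfg.pt q j| ≤ 2 ∧
    ‖t.snd.π p - t.snd.π q - (t.toCfg.pt p j - t.toCfg.pt q j) •
      fun k => t.Pm' p k j - t.Pm p k j‖ ≤ (1 + 3 * N * L) * ((2 : ℝ) ^ a)⁻¹ := by
  simp only [W, Prod.mk.injEq] at e
  obtain ⟨er, eπ, eg⟩ := e
  have a1 : t.Pm p = t.Pm q := h1.fP p hp q hq eg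
  have a2 : t.Pm' p = t.Pm' q := h2.fP p hp q hq eg
  have a3 : t.z p = t.z q := h1.fz p hp q hq eg
  have a4 : t.z' p = t.z' q := h2.fz p hp q hq eg
  refine ⟨a1.symm, a2.symm, ?_, ?_⟩
  · have b1 := Sy.pt_box h1.box hp j
    have b2 := Sy.pt_box h1.box hq j
    rw [abs_le]
    constructor <;> linarith [b1.1, b1.2, b2.1, b2.2]
  have f : ∀ ω, t.snd.π ω =
      (t.Pm' ω).mulVec (t.toCfg.pt ω + (t.z' ω - t.z ω) • t.e ω) := fun ω => by
    change (t.Pm' ω).mulVec (t.a ω + t.z' ω • t.e ω) = _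
    congr 1
    unfold Cfg.pt
    module
  rw [f, f, ← a2, ← a3, ← a4]
  refine dec (h1.pP p hp) (h2.pP p hp) hL j (h3.near p hp)
    (norm_sub_lt_one_of_box (h1.box p hp).2.1 (h1.box q hq).2.1).le ?_ fun k hk => ?_
  · have := (norm_sub_lt_of_fl_eq eπ).le
    unfold Sy.π at this
    rwa [← a1] at this
  · have := congrFun er k
    simp only [Sy.r, hk, if_true] at this
    exact (abs_sub_lt_of_fl1_eq this).le

theorem quo {u u' c : V N} {d E : ℝ} {i : Fin N} (h : ‖u - u' - d • c‖ ≤ E) (h0 : c i ≠ 0)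
    (hc : ∀ k, |c k| ≤ |c i|) :
    ‖(u - u i • fun k => c k / c i) - (u' - u' i • fun k => c k / c i)‖ ≤ 2 * E := by
  have e : (u - u i • fun k => c k / c i) - (u' - u' i • fun k => c k / c i) =
      (u - u' - d • c) - (u - u' - d • c) i • fun k => c k / c i := by
    funext k
    simp only [Pi.sub_apply, Pi.smul_apply, smul_eq_mul]
    field_simp
    ring
  have hb : ‖fun k => c k / c i‖ ≤ 1 := (pi_norm_le_iff_of_nonneg zero_le_one).2 fun k => by
    rw [Real.norm_eq_abs, abs_div]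
    exact (div_le_one (abs_pos.2 h0)).2 (hc k)
  rw [e]
  refine (norm_sub_le _ _).trans ?_
  rw [norm_smul]
  have := mul_le_mul ((norm_le_pi_norm _ i).trans h) hb (norm_nonneg _) ((norm_nonneg _).trans h)
  linarith

theorem ch_r (x : Sy N) (h : x.toCfg.Box) (T : Finset (Fin N)) (a : ℕ) {γ : Type} (G : x.Ω → γ) :
    ch x.P (x.r T a) G ≤ T.card * ((a + 1) * lg) := by
  refine (ch_pi_le T (fun k ω => fl1 a (x.toCfg.pt ω k)) 0 G).trans ?_
  refine (Finset.sum_le_card_nsmul _ _ ((a + 1) * lg) fun k _ => ?_).trans (by simp)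
  have : Det x.P (fun ω => fl1 a (x.toCfg.pt ω k)) G (2 ^ (a + 1)) := fun _ _ =>
    ⟨Finset.Ico 0 (2 ^ (a + 1)), by
      rw [Int.card_Ico, sub_zero]
      have : ((2 : ℤ) ^ (a + 1)).toNat = 2 ^ (a + 1) := by
        rw [show (2 : ℤ) ^ (a + 1) = ((2 ^ (a + 1) : ℕ) : ℤ) by push_cast; rfl, Int.toNat_natCast]
      rw [this]; push_cast; exact le_rfl, fun b hb _ => by
      obtain ⟨h0, h1⟩ := Sy.pt_box h hb k
      have p : (0 : ℝ) < 2 ^ a := by positivity
      refine Finset.mem_Ico.2 ⟨Int.floor_nonneg.2 (by positivity), Int.floor_lt.2 ?_⟩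
      push_cast
      rw [pow_succ]
      exact mul_lt_mul_of_pos_left h1 p⟩
  have := ch_det this
  rw [log_two_pow] at this
  exact_mod_cast this

theorem ent (x : Sy N) (h : x.toCfg.Box) {j : Fin N} (hj : j ∈ S) {a b : ℕ} (hb : b ≤ a)
    (F C C' : x.Ω → Z N) :
    ch x.P (x.r S a) (fun ω => (fl a (x.π ω), x.g ω)) ≤ (S.card - 1) * ((a + 1) * lg) + b * lg +
      ch x.P (fun ω => fl1 (a - b) (x.toCfg.pt ω j)) (fun ω => (F ω, W x S j a ω)) +
      ch x.P C (W x S j a) + ch x.P C' (W x S j a) +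
      ch x.P F fun ω => (C ω, C' ω, x.g ω) := by
  have h1 : ch x.P (x.r S a) (fun ω => (fl a (x.π ω), x.g ω)) ≤
      ch x.P (fun ω => (x.r (S.erase j) a ω, fl1 a (x.toCfg.pt ω j)))
        fun ω => (fl a (x.π ω), x.g ω) := ch_mono fun p _ q _ e => by
    simp only [Prod.mk.injEq] at e
    funext k
    by_cases hk : k = j
    · simp only [Sy.r, hk, e.1.2]
    · have := congrFun e.1.1 k
      simpa only [Sy.r, Finset.mem_erase, ne_eq, hk, not_false_eq_true, true_and] using this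
  rw [ch_chain] at h1
  have h2 := ch_r x h (S.erase j) a fun ω => (fl a (x.π ω), x.g ω)
  rw [Finset.card_erase_of_mem hj, Nat.cast_sub (Finset.card_pos.2 ⟨j, hj⟩), Nat.cast_one] at h2
  have h3 := ch_tri (P := x.P) (fun ω => fl1 a (x.toCfg.pt ω j))
    (fun ω => fl1 (a - b) (x.toCfg.pt ω j)) (W x S j a)
  have h4 := ch_fl1_refine (P := x.P) (x := fun ω => x.toCfg.pt ω j)
    (G := fun ω => (fl1 (a - b) (x.toCfg.pt ω j), W x S j a ω)) (j := fun _ => a - b)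
    (i := fun _ => b) (fun _ _ _ _ _ => rfl) (fun _ _ _ _ _ => rfl) (Fn.fst _ _)
  rw [Nat.sub_add_cancel hb, FP.E_const] at h4
  have h5 := ch_tri (P := x.P) (fun ω => fl1 (a - b) (x.toCfg.pt ω j)) F (W x S j a)
  have h6 := ch_tri (P := x.P) F (fun ω => (C ω, C' ω)) (W x S j a)
  have h7 := ch_subadd (P := x.P) C C' (W x S j a)
  have h8 : ch x.P F (fun ω => ((C ω, C' ω), W x S j a ω)) ≤
      ch x.P F fun ω => (C ω, C' ω, x.g ω) := ch_anti fun p _ q _ e => by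
    simp only [W, Prod.mk.injEq] at e ⊢
    tauto
  have e : ch x.P (fun ω => fl1 a (x.toCfg.pt ω j))
      (fun ω => (x.r (S.erase j) a ω, fl a (x.π ω), x.g ω)) =
      ch x.P (fun ω => fl1 a (x.toCfg.pt ω j)) (W x S j a) := rfl
  linarith

theorem alg_mono {x : Sy N} {L' : ℝ} (h : x.Alg S L) (e : L ≤ L') : x.Alg S L' :=
  ⟨h.box, h.fz, h.fP, fun ω hω => (h.pP ω hω).mono e⟩

end Lip1A

open Lip1A

theorem rowLip1 : SLip1 := by
  intro N s clo S SK t M a β β' i j two hab hj hD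
  have hM := two.one.big
  obtain ⟨L1, s1, a1⟩ := two.one.alg
  obtain ⟨L2, s2, a2⟩ := two.two.alg
  have sL := s1.mul s2
  have sΛ := sL.const_mul hM (C := 6 * N + 6) (by linarith [Nat.cast_nonneg (α := ℝ) N])
  have al : ∀ᶠ n in UF, (t n).toSy.Alg S (L1 n * L2 n) ∧ (t n).snd.Alg S (L1 n * L2 n) := by
    filter_upwards [a1, a2] with n u v
    exact ⟨alg_mono u (le_mul_of_one_le_right (s1.pos n).le (s2.1 n)),
      alg_mono v (le_mul_of_one_le_left (s2.pos n).le (s1.1 n))⟩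
  have nL : ∀ n, 0 ≤ (N : ℝ) * (L1 n * L2 n) := fun n => mul_nonneg (Nat.cast_nonneg _) (sL.pos n).le
  have k1 : Sm M fun n => ch (t n).P (fun ω => fl (a n) ((t n).snd.π ω - (t n).snd.π ω i • fun k =>
      ((t n).Pm' ω k j - (t n).Pm ω k j) / ((t n).Pm' ω i j - (t n).Pm ω i j)))
      (W (t n).toSy S j (a n)) := by
    refine Sm.near hM sΛ ?_
    filter_upwards [al, two.alg, hD] with n u v w p hp q hq e
    obtain ⟨e1, e2, -, e4⟩ := pair u.1 u.2 v (sL.pos n).le j hp hq e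
    obtain ⟨d1, d2, -⟩ := w p hp
    rw [e1, e2]
    refine (quo e4 (abs_pos.1 (lt_of_lt_of_le (by positivity) d1)) d2).trans ?_
    rw [div_eq_mul_inv, ← mul_assoc]
    exact mul_le_mul_of_nonneg_right (by linarith [sL.1 n, nL n]) (by positivity)
  have k2 : Sm M fun n => ch (t n).P (fun ω => fl (β' n) ((t n).snd.π ω))
      (W (t n).toSy S j (a n)) := by
    refine Sm.near hM sΛ ?_
    filter_upwards [al, two.alg, hD] with n u v w p hp q hq e
    obtain ⟨-, -, e3, e4⟩ := pair u.1 u.2 v (sL.pos n).le j hp hq e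
    obtain ⟨-, d2, d3⟩ := w p hp
    have p0 : (0 : ℝ) < (2 ^ β' n)⁻¹ := by positivity
    have c1 : |(t n).Pm' p i j - (t n).Pm p i j| ≤ 2 * (L1 n * L2 n) * (2 ^ β' n)⁻¹ := by
      rcases d3 with d3 | d3
      · have := abs_sub ((t n).Pm' p i j) ((t n).Pm p i j)
        have b1 : |(t n).Pm p i j| ≤ L1 n * L2 n := (u.1.pP p hp).2.2 i j
        have b2 : |(t n).Pm' p i j| ≤ L1 n * L2 n := (u.2.pP p hp).2.2 i j
        rw [d3, pow_zero, inv_one]
        linarith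
      · nlinarith [sL.1 n]
    have c2 : ‖((t n).toCfg.pt p j - (t n).toCfg.pt q j) •
        fun k => (t n).Pm' p k j - (t n).Pm p k j‖ ≤ 2 * (2 * (L1 n * L2 n) * (2 ^ β' n)⁻¹) := by
      rw [norm_smul]
      exact mul_le_mul e3 ((pi_norm_le_iff_of_nonneg ((abs_nonneg _).trans c1)).2
        fun k => (d2 k).trans c1) (norm_nonneg _) zero_le_two
    have c3 : ((2 : ℝ) ^ a n)⁻¹ ≤ (2 ^ β' n)⁻¹ :=
      inv_anti₀ (by positivity) (pow_le_pow_right₀ one_le_two ((hab n).1.trans (hab n).2.1))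
    have c4 := norm_le_norm_sub_add ((t n).snd.π p - (t n).snd.π q)
      (((t n).toCfg.pt p j - (t n).toCfg.pt q j) • fun k => (t n).Pm' p k j - (t n).Pm p k j)
    have c5 := mul_le_mul_of_nonneg_left c3 (show 0 ≤ 1 + 3 * N * (L1 n * L2 n) by linarith [nL n])
    rw [div_eq_mul_inv]
    nlinarith [sL.1 n, mul_nonneg (nL n) p0.le]
  have k3 : Sm M fun n => ch (t n).P (fun ω => fl1 (a n - β n) ((t n).toCfg.pt ω j))
      fun ω => (fl (a n) ((t n).snd.π ω), W (t n).toSy S j (a n) ω) := by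
    refine Sm.near1 hM sΛ ?_
    filter_upwards [al, two.alg, hD] with n u v w p hp q hq e
    obtain ⟨-, -, -, e4⟩ := pair u.1 u.2 v (sL.pos n).le j hp hq (congrArg Prod.snd e)
    obtain ⟨d1, -, -⟩ := w p hp
    have c1 := (abs_sub_lt_of_fl1_eq (congrFun (congrArg Prod.fst e) i)).le
    have c2 := (norm_le_pi_norm _ i).trans e4
    simp only [Pi.sub_apply, Pi.smul_apply, smul_eq_mul, Real.norm_eq_abs] at c2
    have c3 := abs_sub ((t n).snd.π p i - (t n).snd.π q i) ((t n).snd.π p i - (t n).snd.π q i -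
      ((t n).toCfg.pt p j - (t n).toCfg.pt q j) * ((t n).Pm' p i j - (t n).Pm p i j))
    rw [sub_sub_cancel, abs_mul] at c3
    have c4 := mul_le_mul_of_nonneg_left d1 (abs_nonneg ((t n).toCfg.pt p j - (t n).toCfg.pt q j))
    have c5 : ((2 : ℝ) ^ a n)⁻¹ = (2 ^ (a n - β n))⁻¹ * (2 ^ β n)⁻¹ := by
      rw [← mul_inv, ← pow_add, Nat.sub_add_cancel (hab n).2.1]
    have p0 : (0 : ℝ) < (2 ^ a n)⁻¹ := by positivity
    refine le_of_mul_le_mul_right ?_ (show (0 : ℝ) < (2 ^ β n)⁻¹ by positivity)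
    rw [div_eq_mul_inv, mul_assoc, ← c5]
    nlinarith [sL.1 n, mul_nonneg (nL n) p0.le]
  have k4 := (clo.exa S SK _ M two.one).e3 a a fun n => ⟨le_rfl, (hab n).2.2⟩
  refine ((((k4.add k1).add k2).add k3).add (hM.sm ((S.card - 1) * lg))).of_sub ?_
  filter_upwards [al] with n u
  have := ent (t n).toSy u.1.box hj (hab n).2.1 (fun ω => fl (a n) ((t n).snd.π ω))
    (fun ω => fl (a n) ((t n).snd.π ω - (t n).snd.π ω i • fun k =>
      ((t n).Pm' ω k j - (t n).Pm ω k j) / ((t n).Pm' ω i j - (t n).Pm ω i j)))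
    fun ω => fl (β' n) ((t n).snd.π ω)
  linarith

end Pool.Agent.MP_5168f5_an.H17F
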