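import Pool.Agent.MP_5168f5_an.H17F.SqApi

/-! Independence in the context of the first height. -/

namespace Pool.Agent.MP_5168f5_an.H17F

open H19 H17S Filter

namespace RLoc1

section
variable {Ω T Ξ Ξ₀ Λ χ α β : Type} {P : FP Ω} {θ : Ω → T} {ξ : Ω → Ξ} {ξ₀ : Ω → Ξ₀} {l : Ω → Λ}
  {X : Ω → χ} {p : Ω → α}

theorem info {K : Ω → β} (h0 : Fn P ξ₀ fun ω => (ξ ω, θ ω)) (hX : Fn P X l)
    (h1 : Fn P (fun ω => (ξ₀ ω, θ ω)) K) (h2 : Fn P K fun ω => (l ω, ξ₀ ω, θ ω)) :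
    mi P ξ X K ≤ mi P ξ l θ := by
  have e1 : mi P ξ X K ≤ mi P ξ l K := mi_mono (hX.left K)
  have e2 := mi_cond (F := ξ) h1 h2
  have e3 : mi P l (fun ω => (ξ₀ ω, ξ ω)) θ ≤ mi P l ξ θ := mi_mono (h0.pair (Fn.fst ξ θ))
  rw [mi_chain, mi_symm l ξ, mi_symm l ξ] at e3
  linarith [mi_nonneg (P := P) l ξ₀ θ]

theorem low (F : Ω → β) (h0 : Fn P ξ₀ fun ω => (ξ ω, θ ω)) :
    ch P F (fun ω => (X ω, ξ ω, θ ω)) ≤ ch P F (fun ω => ((X ω, ξ ω), θ ω, ξ₀ ω, p ω)) +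
      ch P p fun ω => (X ω, ξ ω, θ ω) :=
  (ch_drop F p _).trans (add_le_add (ch_anti fun a ha b hb e => by
    have := h0 a ha b hb
    simp only [Prod.mk.injEq] at e this ⊢
    tauto) le_rfl)

end

theorem core {Ω T Ξ Ξ₀ Λ χ : ℕ → Type} {α : Type} {P : ∀ n, FP (Ω n)} {θ : ∀ n, Ω n → T n}
    {ξ : ∀ n, Ω n → Ξ n} {ξ₀ : ∀ n, Ω n → Ξ₀ n} {l : ∀ n, Ω n → Λ n} {X : ∀ n, Ω n → χ n}
    {p p' A A' r : ∀ n, Ω n → α} {M : ℕ → ℕ} {D D' : ℕ → ℝ}
    (h0 : ∀ᶠ n in UF, Fn (P n) (ξ₀ n) (fun ω => (ξ n ω, θ n ω)) ∧ Fn (P n) (X n) (l n) ∧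
      Fn (P n) (fun ω => (A n ω, θ n ω, ξ₀ n ω, p n ω)) fun ω => (l n ω, ξ₀ n ω))
    (inf : Sm M fun n => mi (P n) (ξ n) (l n) (θ n))
    (mir : Sm M fun n => ch (P n) (p' n) fun ω => (p n ω, ξ n ω, θ n ω))
    (px : Sm M fun n => ch (P n) (p n) fun ω => (X n ω, ξ n ω, θ n ω))
    (rx : Sm M fun n => ch (P n) (r n) fun ω => (X n ω, ξ₀ n ω, θ n ω))
    (a1 : Le M (fun n => ch (P n) (A n) fun ω => (p n ω, ξ₀ n ω, θ n ω)) D)
    (a2 : Le M D fun n => ch (P n) (A n) fun ω => (X n ω, ξ n ω, θ n ω))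
    (b1 : Le M (fun n => ch (P n) (A' n) fun ω => (p' n ω, ξ n ω, θ n ω)) D)
    (b2 : Le M D fun n => ch (P n) (A' n) fun ω => (X n ω, ξ n ω, θ n ω))
    (e3 : Le M D' fun n => ch (P n) (r n) fun ω => (p n ω, ξ₀ n ω, θ n ω)) :
    (Sm M fun n => mi (P n) (X n) (fun ω => (A' n ω, ξ n ω)) fun ω => (θ n ω, ξ₀ n ω, p n ω)) ∧
    (Sm M fun n => mi (P n) (A n) (fun ω => (X n ω, ξ n ω)) fun ω => (θ n ω, ξ₀ n ω, p n ω)) ∧
    (Le M D' fun n => ch (P n) (r n) fun ω => (A' n ω, ξ n ω, θ n ω, ξ₀ n ω, p n ω)) ∧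
    Sm M fun n => mi (P n) (ξ n) (X n) fun ω => (A n ω, θ n ω, ξ₀ n ω, p n ω) := by
  have f1 : Sm M fun n => mi (P n) (X n) (fun ω => (A' n ω, ξ n ω))
      fun ω => (θ n ω, ξ₀ n ω, p n ω) := by
    refine (Le.add (Le.add (inf.add (mir.add px)) b1) b2).of_sub ?_
    filter_upwards [h0] with n ⟨h1, h2, h3⟩
    have k1 : mi (P n) (X n) (fun ω => (A' n ω, ξ n ω)) (fun ω => (θ n ω, ξ₀ n ω, p n ω)) ≤
        mi (P n) (X n) (fun ω => (ξ n ω, A' n ω)) fun ω => (θ n ω, ξ₀ n ω, p n ω) :=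
      mi_mono fun a _ b _ e => by simp only [Prod.mk.injEq] at e ⊢; tauto
    rw [mi_chain (X n) (ξ n), mi_symm (X n) (ξ n), mi_symm (X n) (A' n), mi.eq_1 _ (A' n)] at k1
    have k2 := info (K := fun ω => (θ n ω, ξ₀ n ω, p n ω)) h1 h2
      (fun a _ b _ e => by simp only [Prod.mk.injEq] at e ⊢; tauto) fun a ha b hb e => by
        have := h3 a ha b hb
        simp only [Prod.mk.injEq] at e this ⊢
        tauto
    have k3 := ch_drop (P := P n) (A' n) (p' n) fun ω => (ξ n ω, θ n ω, ξ₀ n ω, p n ω)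
    have k4 : ch (P n) (A' n) (fun ω => (p' n ω, ξ n ω, θ n ω, ξ₀ n ω, p n ω)) ≤
        ch (P n) (A' n) fun ω => (p' n ω, ξ n ω, θ n ω) :=
      ch_anti fun a _ b _ e => by simp only [Prod.mk.injEq] at e ⊢; tauto
    have k5 : ch (P n) (p' n) (fun ω => (ξ n ω, θ n ω, ξ₀ n ω, p n ω)) ≤
        ch (P n) (p' n) fun ω => (p n ω, ξ n ω, θ n ω) :=
      ch_anti fun a _ b _ e => by simp only [Prod.mk.injEq] at e ⊢; tauto
    have k6 := low (X := X n) (p := p n) (A' n) h1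
    have k7 : ch (P n) (A' n) (fun ω => ((X n ω, ξ n ω), θ n ω, ξ₀ n ω, p n ω)) ≤
        ch (P n) (A' n) fun ω => (X n ω, ξ n ω, θ n ω, ξ₀ n ω, p n ω) :=
      ch_anti fun a _ b _ e => by simp only [Prod.mk.injEq] at e ⊢; tauto
    linarith
  refine ⟨f1, (Le.add (Le.add px a1) a2).of_sub ?_, (Le.add (f1.add rx) e3).of_sub ?_,
    inf.mono ?_⟩ <;> filter_upwards [h0] with n ⟨h1, h2, h3⟩
  · have k1 : ch (P n) (A n) (fun ω => (θ n ω, ξ₀ n ω, p n ω)) ≤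
        ch (P n) (A n) fun ω => (p n ω, ξ₀ n ω, θ n ω) :=
      ch_anti fun a _ b _ e => by simp only [Prod.mk.injEq] at e ⊢; tauto
    have k2 := low (X := X n) (p := p n) (A n) h1
    rw [mi]
    linarith
  · have k1 := mi_near (P := P n) (fun ω => (A' n ω, ξ n ω)) (r n) (X n)
      fun ω => (θ n ω, ξ₀ n ω, p n ω)
    rw [mi_symm _ (r n), mi_symm _ (X n), mi.eq_1 _ (r n)] at k1
    have k2 : ch (P n) (r n) (fun ω => (p n ω, ξ₀ n ω, θ n ω)) ≤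
        ch (P n) (r n) fun ω => (θ n ω, ξ₀ n ω, p n ω) :=
      ch_anti fun a _ b _ e => by simp only [Prod.mk.injEq] at e ⊢; tauto
    have k3 : ch (P n) (r n) (fun ω => ((A' n ω, ξ n ω), θ n ω, ξ₀ n ω, p n ω)) ≤
        ch (P n) (r n) fun ω => (A' n ω, ξ n ω, θ n ω, ξ₀ n ω, p n ω) :=
      ch_anti fun a _ b _ e => by simp only [Prod.mk.injEq] at e ⊢; tauto
    have k4 : ch (P n) (r n) (fun ω => (X n ω, θ n ω, ξ₀ n ω, p n ω)) ≤
        ch (P n) (r n) fun ω => (X n ω, ξ₀ n ω, θ n ω) :=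
      ch_anti fun a _ b _ e => by simp only [Prod.mk.injEq] at e ⊢; tauto
    linarith
  · exact info h1 h2 (fun a _ b _ e => by simp only [Prod.mk.injEq] at e ⊢; tauto)
      fun a ha b hb e => h3 a ha b hb (by simp only [Prod.mk.injEq] at e ⊢; tauto)

variable {N : ℕ} {t : Th N} {S : Finset (Fin N)} {a : ℕ} {L L' : ℝ}

theorem close (h : t.Alg a) (h1 : t.toCfg.Box) (h2 : t.snd.Alg S L') (hL : 0 ≤ L) (hL' : 0 ≤ L')
    {ω : t.Ω} (hω : ω ∈ t.P.S) (lip : t.Lip (L / 2 ^ a) ω) :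
    ‖t.snd.π ω - t.toSy.π ω‖ ≤ (2 * N * L + N * L') / 2 ^ a := by
  have e : t.snd.π ω - t.toSy.π ω = (t.Pm' ω - t.Pm ω).mulVec (t.toCfg.pt ω) +
      (t.z' ω - t.z ω) • (t.Pm' ω).mulVec (t.e ω) := by
    change (t.Pm' ω).mulVec (t.a ω + t.z' ω • t.e ω) - (t.Pm ω).mulVec (t.a ω + t.z ω • t.e ω) =
      (t.Pm' ω - t.Pm ω).mulVec (t.a ω + t.z ω • t.e ω) + _
    simp only [Matrix.sub_mulVec, Matrix.mulVec_add, Matrix.mulVec_smul]
    module
  have k1 := norm_mulVec_le (A := t.Pm' ω - t.Pm ω) (by positivity) lip (t.toCfg.pt ω)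
  have k2 := norm_mulVec_le (A := t.Pm' ω) hL' (h2.pP ω hω).2.2 (t.e ω)
  have k3 := Sy.norm_pt (x := t.toSy) h1 hω
  have k4 := norm_le_one_of_box (h1 ω hω).2.1
  rw [Fintype.card_fin] at k1 k2
  rw [e, add_div]
  refine (norm_add_le _ _).trans (add_le_add (k1.trans ?_) ?_)
  · exact (mul_le_mul_of_nonneg_left k3 (by positivity)).trans (le_of_eq (by ring))
  · rw [norm_smul, Real.norm_eq_abs, div_eq_inv_mul]
    exact mul_le_mul (h.near ω hω) (k2.trans (mul_le_of_le_one_right (by positivity) k4))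
      (norm_nonneg _) (by positivity)

theorem near {Ω β : ℕ → Type} {P : ∀ n, FP (Ω n)} {u v : ∀ n, Ω n → V N} {M a : ℕ → ℕ}
    {C : ℕ → ℝ} (hM : Big M) (hC : Sub M C) (G : ∀ n, Ω n → β n)
    (h : ∀ᶠ n in UF, ∀ ω ∈ (P n).S, ‖u n ω - v n ω‖ ≤ C n / 2 ^ a n) :
    Sm M fun n => ch (P n) (fun ω => fl (a n) (u n ω)) fun ω => (fl (a n) (v n ω), G n ω) := by
  refine Sm.near hM (hC.const_mul hM (show (1 : ℝ) ≤ 3 by norm_num)) (h.mono ?_)
  intro n h b hb c hc e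
  have k1 := (norm_sub_lt_of_fl_eq (congrArg Prod.fst e)).le
  have k2 := norm_add₃_le (a := u n b - v n b) (b := v n b - v n c) (c := -(u n c - v n c))
  have k3 : ((2 : ℝ) ^ a n)⁻¹ ≤ C n / 2 ^ a n := by
    rw [← one_div]; exact div_le_div_of_nonneg_right (hC.1 n) (by positivity)
  rw [norm_neg, show u n b - v n b + (v n b - v n c) + -(u n c - v n c) = u n b - u n c by abel]
    at k2
  rw [mul_div_assoc]
  linarith [h b hb, h c hc]

end RLoc1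

open RLoc1 in
theorem rowLoc1 : SLoc1 := by
  intro N s C B S SK t M a R L ⟨two, le, _, sub, lip⟩
  have x0 := B.fst S SK t M a two
  have hM := two.one.big
  obtain ⟨L0, -, g0⟩ := x0.alg
  obtain ⟨L2, s2, g2⟩ := two.two.alg
  have hc : ∀ᶠ n in UF, ∀ ω ∈ (t n).P.S,
      ‖(t n).snd.π ω - (t n).toSy.π ω‖ ≤ (3 * N + 1) * (L n * L2 n) / 2 ^ a n := by
    filter_upwards [two.alg, g0, g2, lip] with n k1 k2 k3 k4 ω hω
    refine (close k1 k2.box k3 (sub.pos n).le (s2.pos n).le hω (k4 ω hω)).trans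
      (div_le_div_of_nonneg_right ?_ (by positivity))
    have := sub.1 n
    have := s2.1 n
    have : (0 : ℝ) ≤ N := N.cast_nonneg
    nlinarith [mul_nonneg this (show 0 ≤ L n * L2 n - L n by nlinarith),
      mul_nonneg this (show 0 ≤ L n * L2 n - L2 n by nlinarith)]
  have hC := (sub.mul s2).const_mul hM (show (1 : ℝ) ≤ 3 * N + 1 by
    linarith [N.cast_nonneg (α := ℝ)])
  have hf : ∀ᶠ n in UF, Fn (t n).P
      (fun ω => (fl (a n + R n) ((t n).toSy.π ω), (t n).Θ (a n) ω))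
      fun ω => ((t n).toCfg.ln ω, (t n).ξ₀ ω) := g0.mono fun n k =>
    ((Fn.comp _ _).trans k.fn_π).pair (((t n).toCfg.fn_θ_ln.left _).pair
      ((Fn.snd _ _).pair ((Fn.comp _ _).trans k.fn_π)))
  have w : ∀ n, a n ≤ a n + R n ∧ a n + R n ≤ M n := fun n => ⟨Nat.le_add_right _ _, (le n).2⟩
  have y0 := C.exa S SK _ M x0
  have y2 := C.exa S SK _ M two.two
  obtain ⟨f1, f2, f3, f5⟩ := core (P := fun n => (t n).P) (θ := fun n => (t n).θ)
    (ξ := fun n => (t n).ξ) (ξ₀ := fun n => (t n).ξ₀) (l := fun n => (t n).toCfg.ln)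
    (X := fun n => (t n).toCfg.X (a n)) (p := fun n ω => fl (a n) ((t n).toSy.π ω))
    (p' := fun n ω => fl (a n) ((t n).snd.π ω))
    (A := fun n ω => fl (a n + R n) ((t n).toSy.π ω))
    (A' := fun n ω => fl (a n + R n) ((t n).snd.π ω)) (r := fun n => (t n).toSy.r S (R n))
    ((two.alg.and hf).mono fun n k => ⟨k.1.f0, (t n).toCfg.fn_X_ln _, k.2⟩) two.one.inf
    (near hM hC _ hc) ((C.exb S _ M two.one.toBas).px a)
    (((C.exb S _ M x0.toBas).rx R S).mono (Eventually.of_forall fun n => ch_anti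
      fun b _ c _ e => Prod.ext ((t n).toCfg.X_eq_of_le (le n).1 (congrArg Prod.fst e))
        (congrArg Prod.snd e :)))
    (y0.e1 a _ w) ((C.exa S SK _ M two.one).e2 a _ w) (y2.e1 a _ w) (y2.e2 a _ w)
    (y0.e3 R a fun n => ⟨(le n).1, (w n).1.trans (w n).2⟩)
  refine ⟨f1, f2, f3, near hM hC _ (hc.mono fun n k ω hω => (norm_sub_rev _ _).trans_le (k ω hω)),
    f5, (Le.add (two.ful _ w) (hM.sm 5)).of_sub ?_⟩
  filter_upwards [two.alg, hf] with n k1 k2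
  have e1 := ch_tri (P := (t n).P) (fun ω => fl1 (a n + R n) ((t n).z' ω))
    (fun ω => fl1 (R n) (2 ^ a n * ((t n).z' ω - (t n).z ω)))
    fun ω => ((t n).toCfg.ln ω, (t n).ξ₀ ω)
  have e2 := ch_anti (F := fun ω => fl1 (R n) (2 ^ a n * ((t n).z' ω - (t n).z ω))) k2
  have e3 := ch_fl1_near (P := (t n).P) (x := (t n).z') (j := fun _ => a n + R n) (n := 1)
    (G := fun ω => (fl1 (R n) (2 ^ a n * ((t n).z' ω - (t n).z ω)), (t n).toCfg.ln ω, (t n).ξ₀ ω))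
    (by norm_num) (fun _ _ _ _ _ => rfl) fun b hb c hc e => by
      simp only [Prod.mk.injEq] at e
      have u := (abs_sub_lt_of_fl1_eq e.1).le
      rw [k1.fz b hb c hc (Prod.ext e.2.2 (congrArg (·.2.2) e.2.1)), ← mul_sub,
        sub_sub_sub_cancel_right, abs_mul, abs_of_pos (by positivity),
        ← le_inv_mul_iff₀ (by positivity)] at u
      rwa [Nat.cast_one, one_mul, pow_add, mul_inv]
  push_cast
  linarith

end Pool.Agent.MP_5168f5_an.H17F
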