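import Pool.Agent.MP_5168f5_an.H17F.SqApi

/-! Sticky Kakeya sets have full dimension: the exact local identity for a line and its copy. -/

namespace Pool.Agent.MP_5168f5_an.H17F

open H19 H17S Filter

namespace Loc2A

theorem prod_near {T u w ζ p α β U W : ℝ} (hT : 1 ≤ T) (h1 : |ζ - T * u| ≤ α)
    (h2 : |p - T * w| ≤ β) (h3 : |u| ≤ U) (h4 : |w| ≤ W) :
    |T⁻¹ * (ζ * p) - T * u * w| ≤ U * β + α * W + α * β := by
  have hT0 : 0 < T := one_pos.trans_le hT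
  have e : T⁻¹ * (ζ * p) - T * u * w =
      u * (p - T * w) + (ζ - T * u) * w + T⁻¹ * ((ζ - T * u) * (p - T * w)) := by
    field_simp; ring
  have a0 := (abs_nonneg _).trans h1
  have k1 : |u * (p - T * w)| ≤ U * β := by
    rw [abs_mul]; exact mul_le_mul h3 h2 (abs_nonneg _) ((abs_nonneg _).trans h3)
  have k2 : |(ζ - T * u) * w| ≤ α * W := by
    rw [abs_mul]; exact mul_le_mul h1 h4 (abs_nonneg _) a0
  have k3 : |T⁻¹ * ((ζ - T * u) * (p - T * w))| ≤ α * β := by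
    rw [abs_mul, abs_mul, abs_of_pos (inv_pos.2 hT0)]
    exact (mul_le_of_le_one_left (by positivity) (inv_le_one_of_one_le₀ hT)).trans
      (mul_le_mul h1 h2 (abs_nonneg _) a0)
  rw [e]
  exact (abs_add_three _ _ _).trans (add_le_add (add_le_add k1 k2) k3)

theorem abs_diff (j : ℕ) (x y : ℝ) :
    |((fl1 j x - fl1 j y : ℤ) : ℝ) - 2 ^ j * (x - y)| ≤ 2 := by
  have h1 := abs_le.1 (abs_fl1_sub j x)
  have h2 := abs_le.1 (abs_fl1_sub j y)
  push_cast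
  rw [abs_le]; constructor <;> linarith [h1.1, h1.2, h2.1, h2.2]

theorem abs_fl1_le (j : ℕ) {x : ℝ} (h : |x| ≤ 1) : |(fl1 j x : ℝ)| ≤ 2 ^ j := by
  have h0 : (0 : ℝ) < 2 ^ j := by positivity
  obtain ⟨h1, h2⟩ := abs_le.1 h
  have h3 : (-(2 : ℤ) ^ j) ≤ fl1 j x := Int.le_floor.2 (by push_cast; nlinarith)
  have h4 : (-(2 : ℝ) ^ j) ≤ fl1 j x := by exact_mod_cast h3
  have h5 : (fl1 j x : ℝ) ≤ 2 ^ j * x := Int.floor_le _
  rw [abs_le]; constructor <;> nlinarith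

theorem abs_fl1_two (j : ℕ) {x y : ℝ} (h : 0 ≤ x ∧ x < 2) (h' : 0 ≤ y ∧ y < 2) :
    |((fl1 j x - fl1 j y : ℤ) : ℝ)| ≤ 2 * 2 ^ j := by
  have h0 : (0 : ℝ) < 2 ^ j := by positivity
  have k : ∀ z : ℝ, 0 ≤ z ∧ z < 2 → (0 : ℝ) ≤ fl1 j z ∧ (fl1 j z : ℝ) ≤ 2 * 2 ^ j := fun z hz => by
    have h3 : (0 : ℤ) ≤ fl1 j z := Int.floor_nonneg.2 (mul_nonneg h0.le hz.1)
    have h5 : (fl1 j z : ℝ) ≤ 2 ^ j * z := Int.floor_le _
    exact ⟨by exact_mod_cast h3, by nlinarith [hz.2]⟩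
  push_cast
  rw [abs_le]; constructor <;> linarith [(k x h).1, (k x h).2, (k y h').1, (k y h').2]

variable {N : ℕ}

theorem abs_mv {A : Matrix (Fin N) (Fin N) ℝ} {L B : ℝ} (hL : 0 ≤ L) (h : ∀ i j, |A i j| ≤ L)
    {y : V N} (hy : ‖y‖ ≤ B) (i : Fin N) : |A.mulVec y i| ≤ N * L * B := by
  have h1 := (norm_le_pi_norm _ i).trans (norm_mulVec_le hL h y)
  rw [Fintype.card_fin] at h1
  exact h1.trans (mul_le_mul_of_nonneg_left hy (by positivity))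

/-- The difference of the projections sees one coordinate, up to an error. -/
theorem col {D : Matrix (Fin N) (Fin N) ℝ} {S : Finset (Fin N)} {ε η : ℝ} (hε : 0 ≤ ε)
    (hη : 0 ≤ η) (h : ∀ i k, |D i k| ≤ ε) (h0 : ∀ k ∉ S, ∀ i, D i k = 0) {y : V N} {j : Fin N}
    (hy : ∀ k ∈ S.erase j, |y k| ≤ η) (i : Fin N) :
    |D.mulVec y i - y j * D i j| ≤ N * ε * η := by
  have e : D.mulVec y i - y j * D i j = D.mulVec (fun k => if k ∈ S.erase j then y k else 0) i := by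
    have e1 : y j * D i j = ∑ k, if k = j then y k * D i k else 0 := by simp
    rw [e1]
    simp only [Matrix.mulVec, dotProduct]
    rw [← Finset.sum_sub_distrib]
    refine Finset.sum_congr rfl fun k _ => ?_
    by_cases h1 : k = j
    · simp [h1, mul_comm]
    · by_cases h2 : k ∈ S
      · simp [h1, h2]
      · simp [h1, h2, h0 k h2]
  rw [e]
  refine abs_mv hε h ((pi_norm_le_iff_of_nonneg hη).2 fun k => ?_) i
  by_cases h1 : k ∈ S.erase j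
  · simp only [h1, if_true]; exact hy k h1
  · simp only [h1, if_false, norm_zero]; exact hη

theorem core {A A' : Matrix (Fin N) (Fin N) ℝ} {S : Finset (Fin N)} {a R : ℕ} {j : Fin N}
    {L L₁ z z' : ℝ} {a₁ a₂ e₁ e₂ : V N} (hL : 1 ≤ L) (hL₁ : 1 ≤ L₁) (hR : R ≤ a)
    (hA : ∀ i k, |A i k| ≤ L₁) (hD : ∀ i k, |A' i k - A i k| ≤ L / 2 ^ a)
    (h0 : ∀ k ∉ S, ∀ i, A' i k - A i k = 0) (hz : |z' - z| ≤ ((2 : ℝ) ^ a)⁻¹)
    (he : ‖e₂ - e₁‖ ≤ 1) (hy : |(a₂ + z • e₂) j - (a₁ + z • e₁) j| ≤ 2)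
    (hr : ∀ k ∈ S.erase j, fl1 R ((a₂ + z • e₂) k) = fl1 R ((a₁ + z • e₁) k))
    (hπ : fl (a + R) (A'.mulVec (a₂ + z' • e₂)) = fl (a + R) (A'.mulVec (a₁ + z' • e₁))) :
    ‖bil R (fl1 R (2 ^ a * (z' - z)), fl R fun i => 2 ^ a * (A' i j - A i j))
        (fl1 R ((a₂ + z • e₂) j) - fl1 R ((a₁ + z • e₁) j),
          fl R (A.mulVec e₂) - fl R (A.mulVec e₁)) -
      cz (fl (a + R) (A.mulVec (a₁ + z • e₁)) - fl (a + R) (A.mulVec (a₂ + z • e₂)))‖ ≤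
      (13 + 3 * N) * L * L₁ := by
  have hT : (1 : ℝ) ≤ 2 ^ R := one_le_pow₀ one_le_two
  have hU : (0 : ℝ) < 2 ^ a := by positivity
  have hTU : (2 : ℝ) ^ R ≤ 2 ^ a := pow_le_pow_right₀ one_le_two hR
  have hN : (0 : ℝ) ≤ N := Nat.cast_nonneg N
  refine (pi_norm_le_iff_of_nonneg (by positivity)).2 fun i => ?_
  have u1 : |2 ^ a * (z' - z)| ≤ 1 := by
    rw [abs_mul, abs_of_pos hU, ← le_div_iff₀' hU, one_div]; exact hz
  have u2 : |2 ^ a * (A' i j - A i j)| ≤ L := by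
    rw [abs_mul, abs_of_pos hU, ← le_div_iff₀' hU]; exact hD i j
  have u3 : |A.mulVec e₂ i - A.mulVec e₁ i| ≤ N * L₁ * 1 := by
    have := abs_mv (by linarith) hA he i
    rwa [Matrix.mulVec_sub] at this
  have k1 := prod_near hT (abs_fl1_sub R (2 ^ a * (z' - z)))
    (abs_diff R (A.mulVec e₂ i) (A.mulVec e₁ i)) u1 u3
  have k2 := prod_near hT (abs_diff R ((a₂ + z • e₂) j) ((a₁ + z • e₁) j))
    (abs_fl1_sub R (2 ^ a * (A' i j - A i j))) hy u2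
  have k3 := abs_diff (a + R) (A.mulVec (a₁ + z • e₁) i) (A.mulVec (a₂ + z • e₂) i)
  have k4 : |2 ^ (a + R) * (A'.mulVec (a₂ + z' • e₂) i - A'.mulVec (a₁ + z' • e₁) i)| ≤ 1 := by
    have h1 : (0 : ℝ) < 2 ^ (a + R) := by positivity
    rw [abs_mul, abs_of_pos h1, ← le_div_iff₀' h1, one_div]
    exact (abs_sub_lt_of_fl1_eq (congrFun hπ i)).le
  have k5 := col (D := A' - A) (y := (a₂ + z • e₂) - (a₁ + z • e₁)) (by positivity)
    (η := ((2 : ℝ) ^ R)⁻¹) (by positivity) hD h0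
    (fun k hk => (abs_sub_lt_of_fl1_eq (hr k hk)).le) i
  have k5' : |2 ^ (a + R) * ((A' - A).mulVec ((a₂ + z • e₂) - (a₁ + z • e₁)) i -
      ((a₂ + z • e₂) - (a₁ + z • e₁)) j * (A' - A) i j)| ≤ N * L := by
    rw [abs_mul, abs_of_pos (by positivity : (0 : ℝ) < 2 ^ (a + R))]
    refine (mul_le_mul_of_nonneg_left k5 (by positivity)).trans (le_of_eq ?_)
    rw [pow_add]; field_simp
  have k6 : |2 ^ (a + R) * ((z' - z) * (A' - A).mulVec (e₂ - e₁) i)| ≤ N * L := by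
    have h1 := abs_mv (A := A' - A) (by positivity) hD he i
    have e : (2 : ℝ) ^ (a + R) * ((z' - z) * (A' - A).mulVec (e₂ - e₁) i) =
        2 ^ a * (z' - z) * (2 ^ R * (A' - A).mulVec (e₂ - e₁) i) := by rw [pow_add]; ring
    rw [e, abs_mul, abs_mul (2 ^ R), abs_of_pos (by positivity : (0 : ℝ) < 2 ^ R)]
    refine (mul_le_of_le_one_left (by positivity) u1).trans
      ((mul_le_mul hTU h1 (abs_nonneg _) hU.le).trans (le_of_eq ?_))
    field_simp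
  have id1 : A'.mulVec (a₂ + z' • e₂) i - A'.mulVec (a₁ + z' • e₁) i =
      A.mulVec (a₂ + z • e₂) i - A.mulVec (a₁ + z • e₁) i +
        (A' - A).mulVec ((a₂ + z • e₂) - (a₁ + z • e₁)) i +
        (z' - z) * (A.mulVec e₂ i - A.mulVec e₁ i) + (z' - z) * (A' - A).mulVec (e₂ - e₁) i := by
    simp only [Matrix.sub_mulVec, Matrix.mulVec_sub, Matrix.mulVec_add, Matrix.mulVec_smul,
      Pi.sub_apply, Pi.add_apply, Pi.smul_apply, smul_eq_mul]
    ring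
  rw [id1] at k4
  have hLL : 1 ≤ L * L₁ := one_le_mul_of_one_le_of_one_le hL hL₁
  have b1 : L ≤ L * L₁ := le_mul_of_one_le_right (by linarith) hL₁
  have b2 : L₁ ≤ L * L₁ := le_mul_of_one_le_left (by linarith) hL
  have b3 := mul_le_mul_of_nonneg_left b1 hN
  have b4 := mul_le_mul_of_nonneg_left b2 hN
  simp only [bil, cz, Pi.sub_apply, Pi.add_apply, Pi.smul_apply, smul_eq_mul, fl_apply,
    Real.norm_eq_abs, Matrix.sub_apply, pow_add] at k1 k2 k3 k4 k5' k6 ⊢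
  rw [abs_le] at k1 k2 k3 k4 k5' k6 ⊢
  constructor <;> linarith [k1.1, k1.2, k2.1, k2.2, k3.1, k3.2, k4.1, k4.2, k5'.1, k5'.2,
    k6.1, k6.2]

end Loc2A

open Loc2A in
theorem rowLoc2 : Loc2 := by
  intro N
  have hN : (0 : ℝ) ≤ N := Nat.cast_nonneg N
  refine ⟨13 + 3 * N, by linarith, ?_⟩
  intro S t a R j L L₁ v hL hL₁ hR h1 h2 h3 hl m1 m2 e
  have hT : (1 : ℝ) ≤ 2 ^ R := one_le_pow₀ one_le_two
  have hU : (0 : ℝ) < 2 ^ a := by positivity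
  simp only [Th.φ, Th.Θ, Prod.mk.injEq] at e
  obtain ⟨e1, e2, e3, e4, -⟩ := e
  have eg : t.toSy.g v.2 = t.toSy.g v.1 := Prod.ext e3 e4
  have ez : t.z v.2 = t.z v.1 := h1.fz _ m2 _ m1 eg
  have ez' : t.z' v.2 = t.z' v.1 := h2.fz _ m2 _ m1 eg
  have eP : t.Pm v.2 = t.Pm v.1 := h1.fP _ m2 _ m1 eg
  have eP' : t.Pm' v.2 = t.Pm' v.1 := h2.fP _ m2 _ m1 eg
  have p1 : Prj S L₁ (t.Pm v.1) := h1.pP _ m1
  have p2 : Prj S L₁ (t.Pm' v.1) := h2.pP _ m1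
  have y1 := Sy.pt_box h1.box m1 j
  have y2 := Sy.pt_box h1.box m2 j
  have he := (norm_sub_lt_one_of_box (h1.box _ m2).2.1 (h1.box _ m1).2.1).le
  have hLL : 1 ≤ L * L₁ := one_le_mul_of_one_le_of_one_le hL hL₁
  have b1 : L ≤ L * L₁ := le_mul_of_one_le_right (by linarith) hL₁
  have b2 : L₁ ≤ L * L₁ := le_mul_of_one_le_left (by linarith) hL
  have b3 : 1 ≤ L * L₁ * 2 ^ R := one_le_mul_of_one_le_of_one_le hLL hT
  have b4 := mul_le_mul_of_nonneg_right b1 (zero_le_one.trans hT)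
  have b5 := mul_le_mul_of_nonneg_left (mul_le_mul_of_nonneg_right b2 (zero_le_one.trans hT)) hN
  have b6 := mul_nonneg hN (zero_le_one.trans b3)
  refine ⟨⟨abs_fl1_le R ?_, abs_fl1_two R y2 y1, ?_, ?_, ?_⟩, fun hj => ?_⟩
  · rw [abs_mul, abs_of_pos hU, ← le_div_iff₀' hU, one_div]; exact h3.near _ m1
  · refine (pi_norm_le_iff_of_nonneg (by positivity)).2 fun i => ?_
    have k1 := abs_le.1 (abs_fl1_sub R (2 ^ a * (t.Pm' v.1 i j - t.Pm v.1 i j)))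
    have u2 : |2 ^ R * (2 ^ a * (t.Pm' v.1 i j - t.Pm v.1 i j))| ≤ 2 ^ R * L := by
      rw [abs_mul, abs_of_pos (one_pos.trans_le hT)]
      refine mul_le_mul_of_nonneg_left ?_ (zero_le_one.trans hT)
      rw [abs_mul, abs_of_pos hU, ← le_div_iff₀' hU]; exact hl _ m1 i j
    change |(fl1 R (2 ^ a * (t.Pm' v.1 i j - t.Pm v.1 i j)) : ℝ)| ≤ _
    rw [abs_le] at u2 ⊢
    constructor <;> linarith [k1.1, k1.2, u2.1, u2.2]
  · refine (pi_norm_le_iff_of_nonneg (by positivity)).2 fun i => ?_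
    have k1 := abs_le.1 (abs_diff R ((t.Pm v.2).mulVec (t.e v.2) i) ((t.Pm v.1).mulVec (t.e v.1) i))
    have u3 : |2 ^ R * ((t.Pm v.2).mulVec (t.e v.2) i - (t.Pm v.1).mulVec (t.e v.1) i)| ≤
        2 ^ R * (N * L₁ * 1) := by
      rw [abs_mul, abs_of_pos (one_pos.trans_le hT), eP]
      refine mul_le_mul_of_nonneg_left ?_ (zero_le_one.trans hT)
      have := abs_mv (by linarith) p1.2.2 he i
      rwa [Matrix.mulVec_sub] at this
    change |((fl1 R ((t.Pm v.2).mulVec (t.e v.2) i) -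
      fl1 R ((t.Pm v.1).mulVec (t.e v.1) i) : ℤ) : ℝ)| ≤ _
    rw [abs_le] at u3 ⊢
    constructor <;> linarith [k1.1, k1.2, u3.1, u3.2]
  · have q2 : t.toCfg.pt v.2 = t.a v.2 + t.z v.1 • t.e v.2 := by rw [← ez]; rfl
    have q1 : t.toCfg.pt v.1 = t.a v.1 + t.z v.1 • t.e v.1 := rfl
    have := core (j := j) (a₁ := t.a v.1) (a₂ := t.a v.2) hL hL₁ hR p1.2.2 (hl _ m1)
      (fun k hk i => p1.sub_col p2 hk i) (h3.near _ m1) he
      (by rw [← q1, ← q2, abs_le]; constructor <;> linarith [y1.1, y1.2, y2.1, y2.2])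
      (fun k hk => by
        have := congrFun e1 k
        simp only [Sy.r, hk, if_true] at this
        rwa [← q1, ← q2])
      (by
        have e5 : t.snd.π v.2 = (t.Pm' v.1).mulVec (t.a v.2 + t.z' v.1 • t.e v.2) := by
          rw [← ez', ← eP']; rfl
        rw [← e5]; exact e2)
    simp only [Th.dd, Th.ww, Sy.π]
    rw [eP, q1, q2]
    exact this
  · funext i
    change fl1 R (2 ^ a * (t.Pm' v.1 i j - t.Pm v.1 i j)) = 0
    rw [p1.sub_col p2 hj i]; simp [fl1]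

end Pool.Agent.MP_5168f5_an.H17F
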