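import Pool.Agent.MP_5168f5_an.H17F.Sq2

/-! The lower bound for the entropy of the point. -/

namespace Pool.Agent.MP_5168f5_an.H17F

open H19 H17S Filter

namespace LowR

variable {N : ℕ}

theorem unif {M : ℕ → ℕ} {p : ℕ → ℕ → Prop}
    (h : ∀ j : ℕ → ℕ, (∀ n, j n ≤ M n) → ∀ᶠ n in UF, p n (j n)) :
    ∀ᶠ n in UF, ∀ j ≤ M n, p n j := by
  have h1 : ∀ n, ∃ j ≤ M n, p n j → ∀ j' ≤ M n, p n j' := fun n => by
    by_cases h2 : ∀ j' ≤ M n, p n j'
    · exact ⟨0, Nat.zero_le _, fun _ => h2⟩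
    · push Not at h2
      obtain ⟨j, a, b⟩ := h2
      exact ⟨j, a, fun c => absurd c b⟩
  choose j hj hp using h1
  exact (h j hj).mono hp

theorem mi_eq (x : Sy N) : ch x.P x.ξ x.θ - ch x.P x.ξ x.toCfg.ln ≤ mi x.P x.ξ x.toCfg.ln x.θ :=
  sub_le_sub_left (ch_anti (Fn.fst _ _)) _

end LowR

open LowR in
theorem rowLow : SLow := by
  intro N s hG S x M hB
  obtain ⟨L, -, hA⟩ := hB.alg
  refine Le.eps fun ε hε => ?_
  obtain ⟨η, hη, M₀, h⟩ := hG ε hε
  have h0 : 0 < η * lg := mul_pos hη lg_pos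
  refine Le.of_sub hB.inf ?_
  filter_upwards [hA, hB.dir _ h0, hB.hgt _ h0, hB.inf _ h0, hB.big.eventually_ge_atTop M₀,
    unif (p := fun n j => ch (x n).P ((x n).toCfg.X j) (x n).θ ≤ N * j * lg + η * lg * M n)
      fun j hj => hB.stk j hj _ h0] with n a b c d e f
  have h1 := mi_eq (x n)
  have h2 := ch_info' (P := (x n).P) (ξ := (x n).ξ) (x n).toCfg.fn_θ_ln a.fz
  have h3 := h (M n) e (x n).toCfg ⟨a.box, by linarith, fun j hj => by linarith [f j hj],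
    by linarith, by linarith⟩
  have h4 := ch_info (P := (x n).P) (ξ := (x n).ξ) (h := (x n).z)
    (G' := fun ω => ((x n).z ω, (x n).θ ω)) (f := fun ω => fl (M n) ((x n).toCfg.pt ω))
    (x n).toCfg.fn_θ_ln a.fz (Fn.rfl _) ((Fn.snd _ _).pair ((x n).toCfg.fn_θ_ln.left _))
    fun u _ v _ k => by
      simp only [Cfg.ln, Prod.mk.injEq] at k
      simp only [Cfg.pt, k.1.1, k.1.2.1, k.2]
  have h5 : ch (x n).P (fun ω => fl (M n) ((x n).toCfg.pt ω))
      (fun ω => ((x n).ξ ω, (x n).z ω, (x n).θ ω)) ≤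
      ch (x n).P (fun ω => fl (M n) ((x n).toCfg.pt ω)) (x n).g :=
    ch_anti fun u _ v _ k => Prod.ext (congrArg (·.1) k) (congrArg (·.2.2) k)
  have h6 : ε * M n * lg ≤ ε * M n := mul_le_of_le_one_right (by positivity) lg_lt_one.le
  linarith

end Pool.Agent.MP_5168f5_an.H17F
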