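import Pool.Agent.MP_5168f5_an.H17F.Sq2

/-! Sticky Kakeya sets have full dimension: the minimal kernel. -/

namespace Pool.Agent.MP_5168f5_an.H17F

open H19 H17S Filter

namespace MNx

variable {ι κ : Type} [Fintype κ] [DecidableEq κ]

/-- The projection whose kernel is cut by the row `i` of `D`. -/
noncomputable def cut (K : Matrix κ κ ℝ) (D : Matrix ι κ ℝ) (i : ι) (j : κ) : Matrix κ κ ℝ :=
  fun k m => K k m + (1 - K) k j * (D i m / D i j)

theorem col_zero [Fintype ι] {T : Finset κ} {L : ℝ} {K : Matrix κ κ ℝ} (h : Prj T L K)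
    (Φ : Matrix ι κ ℝ) (i : ι) {m : κ} (hm : m ∉ T) : (Φ * (1 - K) : Matrix ι κ ℝ) i m = 0 := by
  rw [Matrix.mul_apply]
  exact Finset.sum_eq_zero fun k _ => by rw [h.one_sub_col hm, mul_zero]

theorem cut_prj {T : Finset κ} {L : ℝ} {K : Matrix κ κ ℝ} {D : Matrix ι κ ℝ} {i : ι} {j : κ}
    (h : Prj T L K) (h0 : D i j ≠ 0) (h1 : ∀ m, |D i m| ≤ |D i j|) (h2 : ∀ m ∉ T, D i m = 0) :
    Prj (T.erase j) (2 * L + 1) (cut K D i j) := by
  have hj : j ∈ T := by_contra fun hj => h0 (h2 j hj)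
  refine ⟨fun k hk m => ?_, fun m hm k => ?_, fun k m => ?_⟩
  · obtain ⟨a, b⟩ := Finset.mem_erase.1 hk
    simp [cut, h.1 k b, a]
  · by_cases e : m = j
    · subst e
      simp [cut, div_self h0, Matrix.one_apply]
    · have hm' : m ∉ T := fun a => hm (Finset.mem_erase.2 ⟨e, a⟩)
      simp [cut, h2 m hm', h.2.1 m hm']
  · have a1 := h.2.2 k m
    have a2 := h.abs_one_sub k j
    have a3 : |D i m / D i j| ≤ 1 := by
      rw [abs_div]; exact div_le_one_of_le₀ (h1 m) (abs_nonneg _)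
    have a4 : |(1 - K) k j * (D i m / D i j)| ≤ (L + 1) * 1 := by
      rw [abs_mul]; exact mul_le_mul a2 a3 (abs_nonneg _) ((abs_nonneg _).trans a2)
    exact (abs_add_le _ _).trans (by linarith)

theorem cut_mulVec [Fintype ι] (K : Matrix κ κ ℝ) (Φ : Matrix ι κ ℝ) (i : ι) (j : κ)
    (y : κ → ℝ) (k : κ) : (cut K (Φ * (1 - K)) i j).mulVec y k = K.mulVec y k + (1 - K) k j *
      ((Φ.mulVec y i - Φ.mulVec (K.mulVec y) i) / (Φ * (1 - K) : Matrix ι κ ℝ) i j) := by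
  have e : Φ.mulVec y i - Φ.mulVec (K.mulVec y) i = (Φ * (1 - K)).mulVec y i := by
    rw [Matrix.mul_sub, Matrix.mul_one, Matrix.sub_mulVec, Matrix.mulVec_mulVec]; rfl
  rw [e]
  simp only [Matrix.mulVec, dotProduct, cut, add_mul, Finset.sum_add_distrib, Finset.mul_sum,
    Finset.sum_div]
  congr 1
  exact Finset.sum_congr rfl fun m _ => by ring

theorem sm_cE (ke : KE) {Ω α β : ℕ → Type} {P : ∀ n, FP (Ω n)} {E : ∀ n, Ω n → Prop}
    {F : ∀ n, Ω n → α n} {G : ∀ n, Ω n → β n} {M : ℕ → ℕ} (hE : Pos P E)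
    (h : Sm M fun n => ch (P n) (F n) (G n)) : Sm M fun n => ch (cE (P n) (E n)) (F n) (G n) := by
  obtain ⟨c, hc, hp⟩ := hE
  refine Le.of_mul hc hp (Le.of_sub h (Eventually.of_forall fun n => ?_))
  have a1 := ke.ge (P n) (E n) (F n) (G n)
  have a2 := mul_nonneg (sub_nonneg.2 (pb_le_one (P n) (E n)))
    (ch_nonneg (P := cE (P n) fun ω => ¬E n ω) (F n) (G n))
  linarith

end MNx

open MNx in
theorem rowMN : SMN := by
  intro N s S SK cl hmin x M σ ι _ Φ L hx hσ hL hΦ hs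
  classical
  refine cl.ks.wsub (fun n => (x n).P) (fun n ω y => ∀ i j,
    |(Φ n ω * (1 - (x n).Km ω) : Matrix ι (I2 N) ℝ) i j| ≤ y / 2 ^ σ n) M fun c c0 c1 => ?_
  set D : ∀ n, (x n).Ω → Matrix ι (I2 N) ℝ := fun n ω => Φ n ω * (1 - (x n).Km ω) with hD
  set A : ι × I2 N → ∀ n, (x n).Ω → Prop := fun p n ω =>
    Real.exp (c * M n) / 2 ^ σ n < |D n ω p.1 p.2| ∧ ∀ m, |D n ω p.1 m| ≤ |D n ω p.1 p.2| with hA
  refine (Whp.all (G := fun p n ω => ¬A p n ω) fun p => ?_).mono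
    (Eventually.of_forall fun n ω _ h i j => ?_)
  swap
  · obtain ⟨m, -, hm⟩ := Finset.exists_max_image Finset.univ (fun m => |D n ω i m|)
      ⟨j, Finset.mem_univ j⟩
    refine (hm j (Finset.mem_univ j)).trans (not_lt.1 fun k => h (i, m) ⟨k, fun m' => ?_⟩)
    exact hm m' (Finset.mem_univ m')
  obtain ⟨i, j⟩ := p
  by_contra hn
  have hE : Pos (fun n => (x n).P) (A (i, j)) :=
    (not_whp hn).mono (Eventually.of_forall fun _ _ _ h => not_not.1 h)
  obtain ⟨LK, hLK, hK⟩ := hx.algK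
  have fD : ∀ᶠ n in UF, Fn (x n).P (D n) (x n).g := (hΦ.and hK).mono fun n h u hu v hv e => by
    simp only [hD, h.1.1 u hu v hv e, h.2.fK u hu v hv e]
  have hy := cl.cond S SK x M (A (i, j)) hx (fD.mono fun n h u hu v hv e => by
    simp only [hA, h u hu v hv e]) hE
  have hF := hx.big.frac_floor c0 c1
  have hz := cl.coarse S SK _ M _ hy hF
  have d0 : ∀ n ω, A (i, j) n ω → 0 < |D n ω i j| := fun n ω h =>
    lt_trans (by positivity) h.1
  have pr : ∀ᶠ n in UF, ∀ ω ∈ (cE (x n).P (A (i, j) n)).S,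
      Prj (SK.erase j) (2 * LK n + 1) (cut ((x n).Km ω) (D n ω) i j) := by
    filter_upwards [hE.sure, hK] with n h1 h2 ω hω
    obtain ⟨a, b⟩ := h1 ω hω
    exact cut_prj (h2.pK ω a) (abs_pos.1 (d0 n ω b)) b.2 fun m hm => col_zero (h2.pK ω a) _ i hm
  have hj : j ∈ SK := by
    obtain ⟨n, ⟨ω, a, b⟩, h2⟩ := (hE.ex.and hK).exists
    by_contra hj
    exact abs_pos.1 (d0 n ω b) (col_zero (h2.pK ω a) _ i hj)
  have s2 : Sub M fun n => 2 * LK n + 1 :=
    (hLK.const_mul hx.big (by norm_num)).add (hx.big.sub le_rfl) hx.big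
  have fK : ∀ᶠ n in UF, Fn (cE (x n).P (A (i, j) n)) (fun ω => cut ((x n).Km ω) (D n ω) i j)
      (x n).g := (fD.and hK).mono fun n h => fn_cE (fun u hu v hv e => by
    simp only [h.1 u hu v hv e, h.2.fK u hu v hv e]) _
  -- the new variable is determined by the coarse line
  have t1 : Sm M fun n => ch (cE (x n).P (A (i, j) n))
      (fun ω => flv ⌊c * M n⌋₊ ((cut ((x n).Km ω) (D n ω) i j).mulVec ((x n).l ω))) fun ω =>
      ((x n).toCfg.X ⌊c * M n⌋₊ ω, (x n).g ω) := by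
    refine Sm.near (P := fun n => cE (x n).P (A (i, j) n)) hx.big
      (s2.const_mul hx.big (C := Fintype.card (I2 N) + 1)
        (by linarith [Nat.cast_nonneg (α := ℝ) (Fintype.card (I2 N))])) ?_
    filter_upwards [pr, fK] with n h1 h2 u hu v hv e
    have e1 := h2 u hu v hv (Prod.mk.inj e).2
    simp only at e1
    rw [← e1, ← Matrix.mulVec_sub]
    have a0 := s2.pos n
    refine (norm_mulVec_le a0.le (h1 u hu).2.2 _).trans ?_
    refine (mul_le_mul_of_nonneg_left (Sy.near_l (Prod.mk.inj e).1) (by positivity)).trans ?_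
    rw [mul_one_div]
    gcongr
    linarith
  -- and by the old variable and the image under `Φ`
  have t2 : Sm M fun n => ch (cE (x n).P (A (i, j) n))
      (fun ω => flv ⌊c * M n⌋₊ ((cut ((x n).Km ω) (D n ω) i j).mulVec ((x n).l ω))) fun ω =>
      ((flv (M n) ((x n).ψ ω), flv (σ n) ((Φ n ω).mulVec ((x n).l ω))),
        fl (M n) ((x n).π ω), (x n).g ω) := by
    have s3 : Sub M fun n => (Fintype.card (I2 N) + 1) * L n := hL.const_mul hx.big
      (by linarith [Nat.cast_nonneg (α := ℝ) (Fintype.card (I2 N))])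
    refine Sm.near (P := fun n => cE (x n).P (A (i, j) n)) hx.big
      ((hx.big.sub le_rfl).add (s2.mul ((hx.big.sub le_rfl).add s3 hx.big)) hx.big) ?_
    filter_upwards [hE.sure, hΦ, hK] with n h1 h2 h3 u hu v hv e
    simp only [Prod.mk.injEq] at e
    obtain ⟨⟨e1, e2⟩, -, e3⟩ := e
    obtain ⟨u1, u2⟩ := h1 u hu
    have k1 := h2.1 u u1 v (h1 v hv).1 e3
    have k2 := h3.fK u u1 v (h1 v hv).1 e3
    have a0 := s2.pos n
    have a0' := s3.pos n
    have aL := hL.pos n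
    refine (pi_norm_le_iff_of_nonneg (by positivity)).2 fun k => ?_
    have n1 := (norm_sub_lt_of_flv_eq e1).le
    have n2 := (norm_sub_lt_of_flv_eq e2).le
    have p1 : ((2 : ℝ) ^ M n)⁻¹ ≤ ((2 : ℝ) ^ σ n)⁻¹ :=
      inv_anti₀ (by positivity) (pow_le_pow_right₀ (by norm_num) (hσ n))
    have p2 : ((2 : ℝ) ^ M n)⁻¹ ≤ ((2 : ℝ) ^ ⌊c * M n⌋₊)⁻¹ :=
      inv_anti₀ (by positivity) (pow_le_pow_right₀ (by norm_num) (hF.1 n))
    have p3 : (2 : ℝ) ^ ⌊c * M n⌋₊ ≤ Real.exp (c * M n) :=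
      (two_pow_le_exp _).trans (Real.exp_le_exp.2 (Nat.floor_le (by positivity)))
    have b1 : |(x n).ψ u k - (x n).ψ v k| ≤ ((2 : ℝ) ^ ⌊c * M n⌋₊)⁻¹ :=
      ((norm_le_pi_norm ((x n).ψ u - (x n).ψ v) k).trans n1).trans p2
    have b2 : |(Φ n u).mulVec ((x n).l u) i - (Φ n u).mulVec ((x n).l v) i| ≤
        ((2 : ℝ) ^ σ n)⁻¹ := by
      have := (norm_le_pi_norm ((Φ n u).mulVec ((x n).l u) - (Φ n v).mulVec ((x n).l v)) i).trans n2
      rwa [← k1] at this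
    have b3 : |(Φ n u).mulVec ((x n).ψ u) i - (Φ n u).mulVec ((x n).ψ v) i| ≤
        (Fintype.card (I2 N) + 1) * L n * ((2 : ℝ) ^ σ n)⁻¹ := by
      have := (norm_le_pi_norm ((Φ n u).mulVec ((x n).ψ u - (x n).ψ v)) i).trans
        (norm_mulVec_le aL.le (h2.2 u u1) _)
      rw [Matrix.mulVec_sub] at this
      refine le_trans this ?_
      exact mul_le_mul (by nlinarith) (n1.trans p1) (norm_nonneg _) a0'.le
    have b4 := (h3.pK u u1).abs_one_sub k j
    have b5 : ((2 : ℝ) ^ σ n)⁻¹ ≤ ((2 : ℝ) ^ ⌊c * M n⌋₊)⁻¹ * |D n u i j| := by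
      rw [← div_eq_inv_mul, le_div_iff₀ (by positivity), ← div_eq_inv_mul]
      exact (div_le_div_of_nonneg_right p3 (by positivity)).trans u2.1.le
    have e4 : D n v = D n u := by simp only [hD, k1, k2]
    have e5 : (x n).ψ v = ((x n).Km u).mulVec ((x n).l v) := by rw [k2]; rfl
    rw [Pi.sub_apply, Real.norm_eq_abs, e4, ← k2]
    simp only [hD]
    rw [cut_mulVec, cut_mulVec, ← e5]
    change |(x n).ψ u k + _ * ((_ - (Φ n u).mulVec ((x n).ψ u) i) / D n u i j) -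
      ((x n).ψ v k + _ * (_ / D n u i j))| ≤ _
    set w := (1 - (x n).Km u) k j
    set r := (Φ n u).mulVec ((x n).l u) i - (Φ n u).mulVec ((x n).l v) i -
      ((Φ n u).mulVec ((x n).ψ u) i - (Φ n u).mulVec ((x n).ψ v) i) with hr
    have b6 : |r| ≤ (1 + (Fintype.card (I2 N) + 1) * L n) * ((2 : ℝ) ^ σ n)⁻¹ :=
      (abs_sub _ _).trans (by linarith)
    have b7 : |r / D n u i j| ≤
        (1 + (Fintype.card (I2 N) + 1) * L n) * ((2 : ℝ) ^ ⌊c * M n⌋₊)⁻¹ := by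
      rw [abs_div, div_le_iff₀ (d0 n u u2), mul_assoc]
      exact b6.trans (mul_le_mul_of_nonneg_left b5 (by positivity))
    have b8 : |w * (r / D n u i j)| ≤ (2 * LK n + 1) *
        ((1 + (Fintype.card (I2 N) + 1) * L n) * ((2 : ℝ) ^ ⌊c * M n⌋₊)⁻¹) := by
      rw [abs_mul]
      exact mul_le_mul (b4.trans (by linarith [hLK.pos n])) b7 (abs_nonneg _) a0.le
    have b9 := abs_add_le ((x n).ψ u k - (x n).ψ v k) (w * (r / D n u i j))
    refine le_trans (le_of_eq (congrArg _ (by rw [hr]; ring))) (b9.trans ?_)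
    rw [div_eq_mul_inv (1 + _)]
    linarith
  have t3 := (cl.exa S SK _ M hy).e5 (fun n => ⌊c * M n⌋₊) M _ _ (fun n => ⟨hF.1 n, le_rfl⟩) t1
  have t4 := sm_cE cl.ke hE hs
  have t5 : Sm M fun n => ch (cE (x n).P (A (i, j) n))
      (fun ω => flv ⌊c * M n⌋₊ ((cut ((x n).Km ω) (D n ω) i j).mulVec ((x n).l ω))) fun ω =>
      (fl ⌊c * M n⌋₊ ((x n).π ω), (x n).g ω) := by
    refine Le.of4 t3 t2 hy.ker t4 (Eventually.of_forall fun n => ?_)
    have a1 := ch_tri (P := cE (x n).P (A (i, j) n))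
      (fun ω => flv ⌊c * M n⌋₊ ((cut ((x n).Km ω) (D n ω) i j).mulVec ((x n).l ω)))
      (fun ω => (flv (M n) ((x n).ψ ω), flv (σ n) ((Φ n ω).mulVec ((x n).l ω))))
      fun ω => (fl (M n) ((x n).π ω), (x n).g ω)
    have a2 := ch_subadd (P := cE (x n).P (A (i, j) n)) (fun ω => flv (M n) ((x n).ψ ω))
      (fun ω => flv (σ n) ((Φ n ω).mulVec ((x n).l ω))) fun ω => (fl (M n) ((x n).π ω), (x n).g ω)
    change _ ≤ _ - ch (cE (x n).P (A (i, j) n)) _ (fun ω => (fl (M n) ((x n).π ω), (x n).g ω)) +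
      _ + (ch (cE (x n).P (A (i, j) n)) (fun ω => flv (M n) ((x n).ψ ω))
        (fun ω => (fl (M n) ((x n).π ω), (x n).g ω)) - 0) + _
    change _ ≤ ch (cE (x n).P (A (i, j) n)) _ (fun ω => (fl ⌊c * M n⌋₊ ((x n).π ω), (x n).g ω))
      - _ + _ + _ + _
    linarith
  obtain ⟨L₁, hL₁, hA₁⟩ := hz.alg
  exact hmin j hj ⟨fun n => ((x n).cond (A (i, j) n)).setK fun ω => cut ((x n).Km ω) (D n ω) i j,
    _, ⟨⟨hz.big, ⟨L₁, hL₁, hA₁.mono fun n h => ⟨h.box, h.fz, h.fP, h.pP⟩⟩, hz.dir, hz.stk, hz.inf,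
      hz.hgt⟩, ⟨_, s2.frac hF, (fK.and pr).mono fun n h => ⟨h.1, h.2⟩⟩, hz.grn, Le.frac t5 hF⟩⟩

end Pool.Agent.MP_5168f5_an.H17F
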