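import Pool.Agent.MP_5168f5_an.H17F.Sq2

/-! Sticky Kakeya sets have full dimension: no further grain. -/

namespace Pool.Agent.MP_5168f5_an.H17F

open H19 H17S Filter

namespace NGx

variable {N : ℕ}

/-- The projection along the old grain and the direction `b`. -/
def pj (S : Finset (Fin N)) (i : Fin N) (b : V N) (A : Matrix (Fin N) (Fin N) ℝ) :
    Matrix (Fin N) (Fin N) ℝ := fun k j => A k j - (if k ∈ S then 0 else b k) * A i j

theorem pj_prj {S : Finset (Fin N)} {i : Fin N} {b : V N} {A : Matrix (Fin N) (Fin N) ℝ} {L : ℝ}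
    (hi : i ∉ S) (h : Prj S L A) (h1 : b i = 1) (h2 : ‖b‖ ≤ 1) :
    Prj (insert i S) (2 * L) (pj S i b A) := by
  refine ⟨fun k hk j => ?_, fun j hj k => ?_, fun k j => ?_⟩
  · rcases Finset.mem_insert.1 hk with rfl | hk
    · simp [pj, hi, h1]
    · simp [pj, hk, h.1 k hk j]
  · rw [Finset.mem_insert, not_or] at hj
    simp [pj, h.2.1 j hj.2, Ne.symm hj.1]
  · have a1 := h.2.2 k j
    have a2 := h.2.2 i j
    have a3 : |if k ∈ S then (0 : ℝ) else b k| ≤ 1 := by
      split_ifs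
      · simp
      · exact (norm_le_pi_norm b k).trans h2
    have a4 : |(if k ∈ S then (0 : ℝ) else b k) * A i j| ≤ 1 * L := by
      rw [abs_mul]; exact mul_le_mul a3 a2 (abs_nonneg _) zero_le_one
    exact (abs_sub _ _).trans (by linarith)

theorem pj_mulVec (S : Finset (Fin N)) (i : Fin N) (b : V N) (A : Matrix (Fin N) (Fin N) ℝ)
    (y : V N) (k : Fin N) : (pj S i b A).mulVec y k =
      A.mulVec y k - (if k ∈ S then 0 else b k) * A.mulVec y i := by
  simp only [Matrix.mulVec, dotProduct, pj, sub_mul, Finset.sum_sub_distrib, Finset.mul_sum,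
    mul_assoc]

/-- On any event the coarse point is determined by the coarse line. -/
theorem px {S : Finset (Fin N)} {x : ℕ → Sy N} {M : ℕ → ℕ} (h : Bas S x M) (β : ℕ → ℕ)
    (E : ∀ n, (x n).Ω → Prop) {K : ℕ → Type} (κ : ∀ n, (x n).Ω → K n) :
    Sm M fun n => ch (cE (x n).P (E n)) (fun ω => fl (β n) ((x n).π ω)) fun ω =>
      ((x n).toCfg.X (β n) ω, κ n ω, (x n).g ω) := by
  obtain ⟨L, hL, hA⟩ := h.alg
  refine Sm.near (P := fun n => cE (x n).P (E n)) h.big
    (hL.const_mul h.big (C := 2 * N + 1) (by linarith [Nat.cast_nonneg (α := ℝ) N])) ?_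
  filter_upwards [hA] with n hn a ha b hb e
  simp only [Prod.mk.injEq] at e
  refine (hn.near_π (hL.pos n).le (cE_sub ha) (cE_sub hb) e.1 e.2.2).trans ?_
  have := hL.pos n
  gcongr
  linarith

end NGx

open NGx in
theorem rowNG : SNG := by
  intro N s ε₀ S cl hε hb SK x M β lam K κ i b E hx hw hκ hf hE
  obtain ⟨L, hL, hA⟩ := hx.alg
  have hd : ∀ n, (0 : ℝ) ≤ lam n - β n := fun n => sub_nonneg.2 (by exact_mod_cast (hw n).1)
  by_cases hi : i ∈ S
  · refine Le.of_ev (hA.mono fun n hn => ?_)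
    rw [ch_zero]
    · exact mul_nonneg (mul_nonneg (by linarith) (hd n)) lg_pos.le
    · intro u hu v hv e
      have e1 := congrArg Prod.fst e
      have z1 : (x n).π u i = 0 := (hn.pP u (cE_sub hu)).mulVec_mem _ hi
      have z2 : (x n).π v i = 0 := (hn.pP v (cE_sub hv)).mulVec_mem _ hi
      simpa only [z1, z2, zero_smul, sub_zero] using e1
  -- the lower bound on the complementary event
  have low : ∀ E' : ∀ n, (x n).Ω → Prop,
      (∀ᶠ n in UF, Fn (x n).P (E' n) fun ω => (κ n ω, (x n).g ω)) → Pos (fun n => (x n).P) E' →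
      Le M (fun n => (N - s - S.card) * (lam n - β n) * lg) fun n =>
        ch (cE (x n).P (E' n)) (fun ω => fl (lam n) ((x n).π ω)) fun ω =>
          (fl (β n) ((x n).π ω), κ n ω, (x n).g ω) := by
    intro E' h1 h2
    have l1 := cl.lb S S x M β lam K κ (fun n => (x n).Pm) E' L hx.toBas hw hκ hL
      ((hA.and h1).mono fun n hn => ⟨hn.1.fP.right _, hn.2, hn.1.pP⟩) h2
    refine l1.of2 (px hx.toBas β E' κ) (Eventually.of_forall fun n => ?_)
    have a1 := ch_tri (P := cE (x n).P (E' n)) (fun ω => fl (lam n) ((x n).π ω))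
      (fun ω => fl (β n) ((x n).π ω)) fun ω => ((x n).toCfg.X (β n) ω, κ n ω, (x n).g ω)
    have a2 : ch (cE (x n).P (E' n)) (fun ω => fl (lam n) ((x n).π ω)) (fun ω =>
        (fl (β n) ((x n).π ω), (x n).toCfg.X (β n) ω, κ n ω, (x n).g ω)) ≤
        ch (cE (x n).P (E' n)) (fun ω => fl (lam n) ((x n).π ω)) fun ω =>
          (fl (β n) ((x n).π ω), κ n ω, (x n).g ω) :=
      ch_anti fun u _ v _ e => by simp only [Prod.mk.injEq] at e ⊢; tauto
    change _ ≤ _ - ch _ (fun ω => fl (lam n) ((x n).π ω)) _ + _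
    linarith
  -- the upper bound on the event
  have up : Le M (fun n => ch (cE (x n).P (E n)) (fun ω => fl (lam n) ((x n).π ω)) fun ω =>
      (fl (β n) ((x n).π ω), κ n ω, (x n).g ω))
      fun n => (N - s - S.card) * (lam n - β n) * lg := by
    obtain ⟨c, hc, hp⟩ := hE
    refine cl.ks.event M (fun n => pb (x n).P (E n))
      (fun n => ch (x n).P (fun ω => fl (lam n) ((x n).π ω)) fun ω =>
        (fl (β n) ((x n).π ω), κ n ω, (x n).g ω)) _
      (fun n => ch (cE (x n).P fun ω => ¬E n ω) (fun ω => fl (lam n) ((x n).π ω)) fun ω =>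
        (fl (β n) ((x n).π ω), κ n ω, (x n).g ω)) _ |(N : ℝ) - s - S.card| c hc
      (hp.mono fun n hn => ⟨hn, pb_le_one _ _, ch_nonneg _ _, ?_, cl.ke.ge _ _ _ _⟩) ?_ ?_
    · have a1 : (lam n : ℝ) - β n ≤ M n := by
        have : (lam n : ℝ) ≤ M n := by exact_mod_cast (hw n).2
        linarith [Nat.cast_nonneg (α := ℝ) (β n)]
      rw [mul_assoc, abs_mul, abs_of_nonneg (mul_nonneg (hd n) lg_pos.le)]
      refine mul_le_mul_of_nonneg_left ?_ (abs_nonneg _)
      nlinarith [lg_lt_one, lg_pos, hd n]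
    · refine ((cl.exa S SK x M hx).e1 β lam hw).of_sub (Eventually.of_forall fun n => ?_)
      refine sub_le_sub_right (ch_anti fun u _ v _ e => ?_) _
      simp only [Prod.mk.injEq] at e ⊢; tauto
    · rintro ⟨c', hc', hq⟩
      refine low (fun n ω => ¬E n ω) (hf.mono fun n hn u hu v hv e => ?_)
        ⟨c', hc', hq.mono fun n hn => by rwa [pb_not]⟩
      exact congrArg Not (hn.2.1 u hu v hv e)
  -- the lower bound for the larger grain
  have l2 := hb i hi S x M β lam K κ (fun n ω => pj S i (b n ω) ((x n).Pm ω)) E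
    (fun n => 2 * L n) hx.toBas hw hκ (hL.const_mul hx.big (by norm_num))
    ((hA.and hf).mono fun n hn => ⟨fun u hu v hv e => by
      have e1 := hn.2.1 u hu v hv e
      have e2 := hn.1.fP u hu v hv (congrArg Prod.snd e)
      simp only [e1, e2], hn.2.2.1, fun ω hω =>
        pj_prj hi (hn.1.pP ω hω) (hn.2.2.2 ω hω).1 (hn.2.2.2 ω hω).2⟩) hE
  have l3 : Sm M fun n => ch (cE (x n).P (E n))
      (fun ω => fl (lam n) ((pj S i (b n ω) ((x n).Pm ω)).mulVec ((x n).toCfg.pt ω))) fun ω =>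
      (fl (lam n) ((x n).π ω), fl (β n) ((x n).π ω), κ n ω, (x n).g ω) := by
    refine Sm.near (P := fun n => cE (x n).P (E n)) hx.big (hx.big.sub (C := 2) (by norm_num)) ?_
    filter_upwards [hf] with n hn u hu v hv e
    simp only [Prod.mk.injEq] at e
    have e1 := hn.1 u (cE_sub hu) v (cE_sub hv) (Prod.ext e.2.2.1 e.2.2.2)
    have e2 := norm_sub_lt_of_fl_eq e.1
    refine (pi_norm_le_iff_of_nonneg (by positivity)).2 fun k => ?_
    rw [Pi.sub_apply, pj_mulVec, pj_mulVec, ← e1, Real.norm_eq_abs]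
    have a1 : |(x n).π u k - (x n).π v k| ≤ ((2 : ℝ) ^ lam n)⁻¹ :=
      (norm_le_pi_norm ((x n).π u - (x n).π v) k).trans e2.le
    have a2 : |(x n).π u i - (x n).π v i| ≤ ((2 : ℝ) ^ lam n)⁻¹ :=
      (norm_le_pi_norm ((x n).π u - (x n).π v) i).trans e2.le
    have a3 : |if k ∈ S then (0 : ℝ) else b n u k| ≤ 1 := by
      split_ifs
      · simp
      · exact (norm_le_pi_norm (b n u) k).trans (hn.2.2 u (cE_sub hu)).2
    have a4 : |(if k ∈ S then (0 : ℝ) else b n u k) * ((x n).π u i - (x n).π v i)| ≤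
        1 * ((2 : ℝ) ^ lam n)⁻¹ := by
      rw [abs_mul]; exact mul_le_mul a3 a2 (abs_nonneg _) zero_le_one
    have a5 := abs_sub ((x n).π u k - (x n).π v k)
      ((if k ∈ S then (0 : ℝ) else b n u k) * ((x n).π u i - (x n).π v i))
    change |(x n).π u k - _ * (x n).π u i - ((x n).π v k - _ * (x n).π v i)| ≤ _
    rw [div_eq_mul_inv]
    refine le_trans (le_of_eq (congrArg _ (by ring))) (a5.trans (by linarith))
  refine up.of4 l2 l3 (px hx.toBas β E κ) (hA.mono fun n hn => ?_)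
  set Q := cE (x n).P (E n)
  set q := fun ω => fl (lam n) ((pj S i (b n ω) ((x n).Pm ω)).mulVec ((x n).toCfg.pt ω))
  set p := fun ω => fl (lam n) ((x n).π ω)
  set G := fun ω => (fl (β n) ((x n).π ω), κ n ω, (x n).g ω)
  have a1 : ch Q p (fun ω => (fl (lam n) ((x n).π ω - (x n).π ω i • b n ω), G ω)) ≤
      ch Q p fun ω => (q ω, G ω) := by
    refine ch_anti fun u hu v hv e => Prod.ext (funext fun k => ?_) (Prod.mk.inj e).2
    have e1 := congrFun (Prod.mk.inj e).1 k
    change fl1 _ _ = fl1 _ _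
    rw [pj_mulVec, pj_mulVec]
    by_cases hk : k ∈ S
    · rw [(hn.pP u (cE_sub hu)).mulVec_mem _ hk, (hn.pP v (cE_sub hv)).mulVec_mem _ hk]
      simp [hk]
    · simp only [hk, if_false]
      rw [mul_comm (b n u k), mul_comm (b n v k)]
      exact e1
  have a2 := ch_symm (P := Q) p q G
  have a3 := ch_tri (P := Q) q (fun ω => fl (β n) ((x n).π ω))
    fun ω => ((x n).toCfg.X (β n) ω, κ n ω, (x n).g ω)
  have a4 : ch Q q (fun ω => (fl (β n) ((x n).π ω), (x n).toCfg.X (β n) ω, κ n ω, (x n).g ω)) ≤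
      ch Q q G := ch_anti fun u _ v _ e => by simp only [G, Prod.mk.injEq] at e ⊢; tauto
  rw [Finset.card_insert_of_notMem hi]
  push_cast
  linarith

end Pool.Agent.MP_5168f5_an.H17F
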