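import Pool.Agent.MP_5168f5_an.H17F.Sq2

/-! Sticky Kakeya sets have full dimension: pulling back. -/

namespace Pool.Agent.MP_5168f5_an.H17F

open H19 H17S Filter

theorem rowPull : SPull := by
  intro N s S SK x M Ω' Q f hx h
  obtain ⟨L, hL, hA⟩ := hx.alg
  obtain ⟨L', hL', hK⟩ := hx.algK
  refine ⟨⟨hx.big, ⟨L, hL, hA.mono fun n a => ⟨fun v hv => a.box _ ((h n).mem hv), (h n).fn a.fz,
    (h n).fn a.fP, fun v hv => a.pP _ ((h n).mem hv)⟩⟩, ?_, fun j hj => ?_, ?_, ?_⟩,
    ⟨L', hL', hK.mono fun n a => ⟨(h n).fn a.fK, fun v hv => a.pK _ ((h n).mem hv)⟩⟩, ?_, ?_⟩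
  · exact hx.dir.congr (Eventually.of_forall fun _ => rfl) (Eventually.of_forall fun n =>
      (h n).ch_id (fun ω => fl (M n) ((x n).e ω)) (x n).θ)
  · exact (hx.stk j hj).congr (Eventually.of_forall fun n =>
      (h n).ch_id ((x n).toCfg.X (j n)) (x n).θ) (Eventually.of_forall fun _ => rfl)
  · exact Le.congr hx.inf (Eventually.of_forall fun n =>
      (h n).mi_id (x n).ξ (x n).toCfg.ln (x n).θ) (Eventually.of_forall fun _ => rfl)
  · exact hx.hgt.congr (Eventually.of_forall fun _ => rfl) (Eventually.of_forall fun n =>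
      (h n).ch_id (fun ω => fl1 (M n) ((x n).z ω)) (x n).θ)
  · exact hx.grn.congr (Eventually.of_forall fun n =>
      (h n).ch_id (fun ω => fl (M n) ((x n).π ω)) (x n).g) (Eventually.of_forall fun _ => rfl)
  · exact Le.congr hx.ker (Eventually.of_forall fun n =>
      (h n).ch_id (fun ω => flv (M n) ((x n).ψ ω)) fun ω => (fl (M n) ((x n).π ω), (x n).g ω))
      (Eventually.of_forall fun _ => rfl)

end Pool.Agent.MP_5168f5_an.H17F
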