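import Pool.Agent.MP_5168f5_an.H17F.SqApi

/-! Sticky Kakeya sets have full dimension: the first point is determined beyond the scale. -/

namespace Pool.Agent.MP_5168f5_an.H17F

open H19 H17S Filter

namespace St1Aux

variable {N : ℕ}

theorem alg_mono {x : Sy N} {S : Finset (Fin N)} {L L' : ℝ} (h : x.Alg S L) (e : L ≤ L') :
    x.Alg S L' := ⟨h.box, h.fz, h.fP, fun ω hω => (h.pP ω hω).mono e⟩

theorem det_mono {Ω α β : Type} {P : FP Ω} {F : Ω → α} {G : Ω → β} {B B' : ℝ}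
    (h : Det P F G B) (e : B ≤ B') : Det P F G B' := fun a ha =>
  (h a ha).imp fun _ hT => ⟨hT.1.trans e, hT.2⟩

theorem range {a R : ℕ} {x y : V N} (h : fl a x = fl a y) :
    ‖cz (fl (a + R) x - fl (a + R) y)‖ ≤ 2 ^ R := by
  refine (pi_norm_le_iff_of_nonneg (by positivity)).2 fun i => ?_
  have h1 := Finset.mem_Ico.1 (fl1_mem_Ico (i := R) (congrFun h i : fl1 a (x i) = fl1 a (y i)))
  have h2 := Finset.mem_Ico.1 (fl1_mem_Ico (i := R) (rfl : fl1 a (y i) = fl1 a (y i)))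
  have h3 : |fl1 (a + R) (x i) - fl1 (a + R) (y i)| ≤ 2 ^ R := by
    rw [abs_le]; constructor <;> linarith [h1.1, h1.2, h2.1, h2.2]
  have e : cz (fl (a + R) x - fl (a + R) y) i =
      ((fl1 (a + R) (x i) - fl1 (a + R) (y i) : ℤ) : ℝ) := rfl
  rw [e, Real.norm_eq_abs]
  exact_mod_cast h3

theorem close {a R k : ℕ} {x y : V N} (hk : k ≤ R)
    (h : ‖cz (fl (a + R) x - fl (a + R) y)‖ ≤ 2 ^ R / 2 ^ k) : ‖x - y‖ ≤ 3 / 2 ^ (a + k) := by
  have h1 := norm_cz_flv (a + R) x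
  have h2 := norm_cz_flv (a + R) y
  have e : (2 : ℝ) ^ (a + R) • (x - y) = cz (fl (a + R) x - fl (a + R) y) -
      (cz (flv (a + R) x) - (2 : ℝ) ^ (a + R) • x) +
      (cz (flv (a + R) y) - (2 : ℝ) ^ (a + R) • y) := by
    rw [cz_sub, fl_eq_flv, fl_eq_flv, smul_sub]; abel
  have h3 : (2 : ℝ) ^ (a + R) * ‖x - y‖ ≤ 2 ^ R / 2 ^ k + 2 := by
    have h4 := congrArg norm e
    rw [norm_smul, Real.norm_eq_abs, abs_of_pos (by positivity)] at h4
    rw [h4]
    refine (norm_add_le _ _).trans ?_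
    have h5 := norm_sub_le (cz (fl (a + R) x - fl (a + R) y))
      (cz (flv (a + R) x) - (2 : ℝ) ^ (a + R) • x)
    linarith
  obtain ⟨m, rfl⟩ := Nat.exists_eq_add_of_le hk
  have h6 : (1 : ℝ) ≤ 2 ^ m := one_le_pow₀ one_le_two
  have e2 : (2 : ℝ) ^ (k + m) / 2 ^ k = 2 ^ m := by
    rw [pow_add]; field_simp
  have e3 : (2 : ℝ) ^ (a + (k + m)) = 2 ^ (a + k) * 2 ^ m := by
    rw [← add_assoc, pow_add]
  rw [e2, e3] at h3
  rw [le_div_iff₀ (by positivity)]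
  have h7 : (0 : ℝ) < 2 ^ m := by positivity
  refine le_of_mul_le_mul_right ?_ h7
  nlinarith

theorem count {k M : ℕ} (hk : k ≤ M) (hM : (1 : ℝ) ≤ M) (N : ℕ) :
    (2 * (2 : ℝ) ^ k + 3) ^ N ≤ Real.exp (5 * N * M) := by
  have h1 : (1 : ℝ) ≤ 2 ^ k := one_le_pow₀ one_le_two
  have h2 := two_pow_le_exp k
  have h3 : (k : ℝ) ≤ M := by exact_mod_cast hk
  have h4 : (5 : ℝ) ≤ Real.exp 4 := by linarith [Real.add_one_le_exp 4]
  have h5 : 2 * (2 : ℝ) ^ k + 3 ≤ Real.exp (5 * M) := by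
    have h6 : Real.exp 4 * Real.exp k ≤ Real.exp (5 * M) := by
      rw [← Real.exp_add]; exact Real.exp_le_exp.2 (by linarith)
    nlinarith
  refine (pow_le_pow_left₀ (by positivity) h5 N).trans (le_of_eq ?_)
  rw [← Real.exp_nat_mul]; congr 1; ring

end St1Aux

open St1Aux in
theorem rowSt1 : SSt1 := by
  intro N s ε₀ S hC hNC hL1 hL2 g1 g2 g3 h0 h1 hT
  obtain ⟨c0, hc0, hN⟩ := hNC N ε₀ h0 h1
  obtain ⟨C, hC1, hl2⟩ := hL2 N
  refine ⟨min c0 1, lt_min hc0 one_pos, min_le_right _ _, ?_⟩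
  intro SK t M a R L j hS
  have kg := hC.kg
  have bigM : Big M := hS.two.one.big
  have bigR : Big R := bigM.frac hS.frac
  obtain ⟨L1, s1, a1⟩ := hS.two.one.alg
  obtain ⟨L2, s2, a2⟩ := hS.two.two.alg
  have mem : ∀ n (v : (t n).Ω × (t n).Ω), v ∈ ((t n).Q S (a n) (R n) j).S →
      v.1 ∈ (t n).P.S ∧ v.2 ∈ (t n).P.S ∧
        (t n).φ S (a n) (R n) j v.2 = (t n).φ S (a n) (R n) j v.1 := fun n v hv =>
    (kg.mem _ _ _ _ v (Law.rfl _)).1 hv
  have lf : ∀ n, Law ((t n).Q S (a n) (R n) j) Prod.fst (t n).P id := fun n => kg.fst _ _ _ _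
  have ls : ∀ n, Law ((t n).Q S (a n) (R n) j) Prod.snd (t n).P id := fun n =>
    kg.snd _ _ _ _ (Law.rfl _)
  have loc0 := fun n (b : (t n).toSy.Alg S (L1 n) ∧ (t n).snd.Alg S (L2 n) ∧ (t n).Alg (a n) ∧
      ∀ ω ∈ (t n).P.S, (t n).Lip (L n / 2 ^ a n) ω) (v : (t n).Ω × (t n).Ω)
      (hv : v ∈ ((t n).Q S (a n) (R n) j).S) =>
    hl2 S (t n) (a n) (R n) j (L n) (L1 n * L2 n) v (hS.sub.1 n) ((s1.mul s2).1 n)
      (hS.le n).1 (alg_mono b.1 (le_mul_of_one_le_right (s1.pos n).le (s2.1 n)))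
      (alg_mono b.2.1 (le_mul_of_one_le_left (s2.pos n).le (s1.1 n))) b.2.2.1 b.2.2.2
      (mem n v hv).1 (mem n v hv).2.1 (mem n v hv).2.2
  have loc := (a1.and (a2.and (hS.two.alg.and hS.lip))).mono loc0
  have W := hN (fun n => (t n).Ω) (fun n => (t n).Ω × (t n).Ω)
    (fun n => (t n).T × (t n).Ξ₀ × Z N) (fun n => (t n).P) (fun n => (t n).Θ (a n))
    (fun n ω => fl (a n + R n) ((t n).toSy.π ω)) (fun n => (t n).Q S (a n) (R n) j)
    (fun n v => (t n).Θ (a n) v.1) (fun n v => fl (a n + R n) ((t n).toSy.π v.1))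
    (fun n v => fl (a n + R n) ((t n).toSy.π v.2)) (fun n => (t n).dd (a n) (R n) j)
    (fun n => (t n).ww (R n) j) R (fun n => C * L n * (L1 n * L2 n)) bigR
    (((hS.sub.const_mul bigM hC1).mul (s1.mul s2)).frac hS.frac) (hT SK t M a R L hS)
    (fun n => ⟨(lf n).comp fun ω => ((t n).Θ (a n) ω, fl (a n + R n) ((t n).toSy.π ω)),
      ((ls n).comp fun ω => ((t n).Θ (a n) ω, fl (a n + R n) ((t n).toSy.π ω))).ext
        fun v hv => Prod.ext (congrArg (·.2.2.2) (mem n v hv).2.2).symm rfl⟩)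
    (loc.mono fun n b => ⟨fun ω _ ω' _ e => range (congrArg (·.2.2) e), fun v hv => (b v hv).1⟩)
    (Le.frac (g1 S SK t M a R L j hS) hS.frac) (Le.frac (g2 S SK t M a R L j hS) hS.frac)
    (((hL1 S SK t M a R L hS).f6.frac hS.frac).trans (Le.of_le fun n => ((lf n).ch_id
      (fun ω => fl1 (R n) (2 ^ a n * ((t n).z' ω - (t n).z ω)))
      fun ω => (fl (a n + R n) ((t n).toSy.π ω), (t n).Θ (a n) ω)).ge))
    (by
      by_cases hj : j ∈ S
      · exact Or.inl ((g3 S SK t M a R L j hS hj).frac hS.frac)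
      · exact Or.inr (loc.mono fun n b v hv => (b v hv).2 hj))
  have kR : ∀ n, ⌊min c0 1 * R n⌋₊ ≤ R n := fun n => Nat.floor_le_of_le
    (mul_le_of_le_one_left (Nat.cast_nonneg _) (min_le_right _ _))
  have kc : ∀ n, (2 : ℝ) ^ ⌊min c0 1 * R n⌋₊ ≤ Real.exp (c0 * R n) := fun n =>
    (two_pow_le_exp _).trans (Real.exp_le_exp.2 ((Nat.floor_le (mul_nonneg
      (lt_min hc0 one_pos).le (Nat.cast_nonneg _))).trans
        (mul_le_mul_of_nonneg_right (min_le_left _ _) (Nat.cast_nonneg _))))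
  have F := hC.ks.fano (fun n => (t n).Q S (a n) (R n) j) _
    (fun n v => flv (a n + ⌊min c0 1 * R n⌋₊) ((t n).toSy.π v.2)) (fun n => Prod.fst) M
    (fun _ => (2 * 3 + 3) ^ N) (5 * N) bigM (bigM.sub (one_le_pow₀ (by norm_num))) W (by
      filter_upwards [bigM.ev 1] with n hM
      refine ⟨det_mono (det_near (L := 2 ^ ⌊min c0 1 * R n⌋₊) (by positivity)
        fun u hu v hv e => ?_) ?_, fun u _ => ?_⟩
      · have e1 : (t n).φ S (a n) (R n) j u.2 = (t n).φ S (a n) (R n) j v.2 := by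
          rw [(mem n u hu).2.2, (mem n v hv).2.2, e]
        refine (norm_sub_lt_of_fl_eq (congrArg (·.2.2.2.2.2) e1)).le.trans (le_of_eq ?_)
        rw [pow_add]; field_simp
      · rw [Fintype.card_fin]
        exact count ((kR n).trans (by have := (hS.le n).2; omega)) hM N
      · obtain ⟨T, h2, h3⟩ := cells_near (a n + ⌊min c0 1 * R n⌋₊) ((t n).toSy.π u.1)
          (show (0 : ℝ) ≤ 3 by norm_num)
        refine ⟨T, by simpa only [Fintype.card_fin] using h2, fun v _ e hE => h3 _ ?_⟩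
        rw [← e]
        refine close (kR n) (hE.trans ?_)
        rw [Real.exp_neg, ← div_eq_mul_inv]
        exact div_le_div_of_nonneg_left (by positivity) (by positivity) (kc n))
  refine F.mono (Eventually.of_forall fun n => le_of_eq ?_)
  exact (kg.mk1 (t n).P (t n).P _ _ (fun ω => fl (a n + ⌊min c0 1 * R n⌋₊) ((t n).toSy.π ω)) id
    (Law.rfl _) fun _ _ _ _ e => congrArg _ e).symm

end Pool.Agent.MP_5168f5_an.H17F
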