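import Pool.Agent.MP_5168f5_an.H17F.Ev

/-! One more Taylor coefficient of the minors vanishes. -/

namespace Pool.Agent.MP_5168f5_an.H17F

open H19 H17S Filter Ev

namespace StepA

theorem dm_mono {N k j : ℕ} {ε ε' : ℝ} {K : Matrix (I2 N) (I2 N) ℝ} {z : ℝ}
    (h : Dm k j ε K z) (h' : ε ≤ ε') : Dm k j ε' K z := fun ρ γ => (h ρ γ).trans h'

theorem num {L L' L₂ D τ : ℝ} {M a m : ℕ} (hL : 1 ≤ L) (hL' : 1 ≤ L') (hL₂ : 1 ≤ L₂)
    (hD : 1 ≤ D) (hM : 2 * a ≤ M) (hm : m ≤ a) (h1 : |τ| ≤ ((2 : ℝ) ^ a)⁻¹)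
    (h2 : 1 ≤ L₂ * 2 ^ a * |τ|) :
    (2 * (L / 2 ^ M) + D * (L' / 2 ^ (a + m) + τ ^ 2)) / |τ| ≤ 4 * L * L' * D * L₂ / 2 ^ m := by
  have hτ : 0 < |τ| := by
    by_contra h
    have : |τ| = 0 := le_antisymm (not_lt.1 h) (abs_nonneg _)
    rw [this] at h2
    linarith
  have hq : (0 : ℝ) < 2 ^ (a + m) := by positivity
  have e1 : (2 : ℝ) ^ (a + m) ≤ 2 ^ M := pow_le_pow_right₀ (by norm_num) (by omega)
  have e2 : (2 : ℝ) ^ (a + m) ≤ 2 ^ a * 2 ^ a := by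
    rw [← pow_add]; exact pow_le_pow_right₀ (by norm_num) (by omega)
  have f1 : L / 2 ^ M ≤ L / 2 ^ (a + m) := div_le_div_of_nonneg_left (by linarith) hq e1
  have f2 : τ ^ 2 ≤ 1 / 2 ^ (a + m) := by
    have : τ ^ 2 ≤ ((2 : ℝ) ^ a)⁻¹ * ((2 : ℝ) ^ a)⁻¹ := by
      rw [← sq_abs, pow_two]
      exact mul_le_mul h1 h1 hτ.le (by positivity)
    refine this.trans ?_
    rw [← mul_inv, ← one_div]
    exact div_le_div_of_nonneg_left zero_le_one hq e2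
  have g1 : 2 * L + D * (L' + 1) ≤ 4 * L * L' * D := by
    have a1 : L ≤ L * L' * D := by
      rw [mul_assoc]
      exact le_mul_of_one_le_right (by linarith) (one_le_mul_of_one_le_of_one_le hL' hD)
    have a2 : L' * D ≤ L * L' * D := by
      rw [mul_assoc]
      exact le_mul_of_one_le_left (by positivity) hL
    have a3 : D ≤ L' * D := le_mul_of_one_le_left (by linarith) hL'
    nlinarith
  have g2 : 2 * (L / 2 ^ M) + D * (L' / 2 ^ (a + m) + τ ^ 2) ≤ 4 * L * L' * D / 2 ^ (a + m) := by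
    refine le_trans ?_ (div_le_div_of_nonneg_right g1 hq.le)
    have : D * τ ^ 2 ≤ D * (1 / 2 ^ (a + m)) := mul_le_mul_of_nonneg_left f2 (by linarith)
    have e : (2 * L + D * (L' + 1)) / 2 ^ (a + m) =
        2 * (L / 2 ^ (a + m)) + D * (L' / 2 ^ (a + m)) + D * (1 / 2 ^ (a + m)) := by ring
    rw [e]
    nlinarith
  rw [div_le_iff₀ hτ]
  refine g2.trans ?_
  have e : 4 * L * L' * D * L₂ / 2 ^ m * |τ| =
      4 * L * L' * D / 2 ^ (a + m) * (L₂ * 2 ^ a * |τ|) := by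
    rw [pow_add]; field_simp
  rw [e]
  exact le_mul_of_one_le_right (by positivity) h2

end StepA

open StepA

theorem step : SStep := by
  intro N s c S SK j clo hTwo hB hTay hc hc1 hLip hK hx
  obtain ⟨x, M, L, hS, hL, hD⟩ := hx
  obtain ⟨C, hC, hT⟩ := hTay N (S.card + 1) j
  have hM : Big M := hS.big
  have ha : ∀ n, M n / 2 ≤ M n := fun n => Nat.div_le_self _ _
  have h2 := hTwo S SK x M (fun n => M n / 2) hS ha
  obtain ⟨L₁, hL₁, hW₁⟩ := hLip SK _ M _ h2 ha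
  have hP₁ := whp_pos hW₁
  have h3 := hB.cond S SK _ M _ _ h2 (by
    obtain ⟨_, _, u1⟩ := h2.one.alg
    obtain ⟨_, _, u2⟩ := h2.two.alg
    filter_upwards [u1, u2] with n v1 v2 ω hω ω' hω' hg
    have e1 := v1.fP ω hω ω' hω' hg
    have e2 := v2.fP ω hω ω' hω' hg
    exact congrArg₂ (fun A B : Matrix (Fin N) (Fin N) ℝ =>
      ∀ i j, |B i j - A i j| ≤ L₁ n / 2 ^ (M n / 2)) e1 e2) hP₁
  have hm₁ := pos_mem hP₁
  have hSt : St s S SK _ M (fun n => M n / 2) (fun n => M n / 2) L₁ :=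
    ⟨h3, fun n => ⟨le_rfl, by omega⟩, frac_half hM, hL₁, by
      filter_upwards [hm₁] with n h ω hω
      exact (h ω hω).2⟩
  obtain ⟨L', hL', hW'⟩ := hK _ M _ _ L₁ hSt
  obtain ⟨L₂, hL₂, hW₂⟩ := hB.sep S SK _ M _ h3 fun n => by omega
  obtain ⟨K₁, hK₁, u1⟩ := h3.one.algK
  obtain ⟨K₂, hK₂, u2⟩ := h3.two.algK
  obtain ⟨_, _, u3⟩ := h3.one.alg
  obtain ⟨_, _, u4⟩ := h3.two.alg
  have hF : Frac (fun n => ⌊c * (M n / 2 : ℕ)⌋₊) M := frac_floor hM (frac_half hM) hc hc1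
  have hL₃ : Sub M fun n => 4 * L n * L' n * (C * (K₁ n * K₂ n) ^ (S.card + 1)) * L₂ n :=
    sub_mul (sub_mul (sub_mul (sub_mul (sub_const hM (by norm_num)) hL) hL')
      (sub_mul (sub_const hM hC) (sub_pow (sub_mul hK₁ hK₂) _))) hL₂
  generalize hL₄ : (fun n => 4 * L n * L' n * (C * (K₁ n * K₂ n) ^ (S.card + 1)) * L₂ n) = L₃
    at hL₃
  have hW := whp_mono (F := fun n ω => Dm (S.card + 1) (j + 1) (L₃ n / 2 ^ ⌊c * (M n / 2 : ℕ)⌋₊)
      ((x n).Km ω.1) ((x n).z ω.1)) (whp_and hW' hW₂) (by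
    filter_upwards [hD, hm₁, u1, u2, u3, u4, h3.alg] with n d m₁ v1 v2 v3 v4 v5 ω hω hE
    obtain ⟨hE1, hE2⟩ := hE
    have hg := (clo.kg.mem _ _ _ _ ω fun _ => rfl).1 (m₁ ω hω).1
    have b1 := (v3.box ω hω).2.2
    have b2 := (v4.box ω hω).2.2
    have k1 := (v1.pK ω hω).2.2
    have k2 := (v2.pK ω hω).2.2
    have hn := v5.near ω hω
    have hKK : 1 ≤ K₁ n * K₂ n := one_le_mul_of_one_le_of_one_le (hK₁.1 n) (hK₂.1 n)
    have hne : (x n).z ω.2 ≠ (x n).z ω.1 := by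
      intro h
      have h' : (1 : ℝ) ≤ L₂ n * 2 ^ (M n / 2) * |(x n).z ω.2 - (x n).z ω.1| := hE2
      rw [h, sub_self, abs_zero, mul_zero] at h'
      linarith
    have := hT ((x n).Km ω.1) ((x n).Km ω.2) ((x n).z ω.1) ((x n).z ω.2) (K₁ n * K₂ n)
      (L n / 2 ^ M n) (L' n / 2 ^ (M n / 2 + ⌊c * (M n / 2 : ℕ)⌋₊)) hKK
      (div_nonneg (zero_le_one.trans (hL'.1 n)) (by positivity)) b1.1 b1.2.le b2.1 b2.2.le
      (fun p q => ⟨(k1 p q).trans (le_mul_of_one_le_right (zero_le_one.trans (hK₁.1 n)) (hK₂.1 n)),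
        (k2 p q).trans (le_mul_of_one_le_left (zero_le_one.trans (hK₂.1 n)) (hK₁.1 n)),
        hE1 p q⟩) hne (d _ hg.1) (d _ hg.2.1)
    refine dm_mono this ?_
    rw [← hL₄]
    exact num (hL.1 n) (hL'.1 n) (hL₂.1 n)
      (one_le_mul_of_one_le_of_one_le hC (one_le_pow₀ hKK)) (by omega) (floor_le hc1 _) hn hE2)
  have hP := whp_pos hW
  have h4 := clo.cond S SK _ M _ h3.one (by
    filter_upwards [u1, u3] with n v1 v3 ω hω ω' hω' hg
    have e1 := v1.fK ω hω ω' hω' hg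
    have e2 := v3.fz ω hω ω' hω' hg
    exact congrArg₂ (Dm (S.card + 1) (j + 1) (L₃ n / 2 ^ ⌊c * (M n / 2 : ℕ)⌋₊)) e1 e2) hP
  refine ⟨_, _, L₃, clo.coarse S SK _ M _ h4 hF, sub_frac hL₃ hF, ?_⟩
  filter_upwards [pos_mem hP] with n h ω hω
  exact (h ω hω).2

end Pool.Agent.MP_5168f5_an.H17F
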