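import Pool.Agent.MP_5168f5_an.H17F.Spec

/-! One Taylor step for a single pair of kernels. -/

namespace Pool.Agent.MP_5168f5_an.H17F

open H19 H17S Filter

namespace TayA

variable {N : ℕ}

theorem one_sub_le (K : Matrix (I2 N) (I2 N) ℝ) {L : ℝ} (hL : 1 ≤ L) (h : ∀ p q, |K p q| ≤ L)
    (p q : I2 N) : |(1 - K) p q| ≤ 2 * L := by
  have h1 : |(1 : Matrix (I2 N) (I2 N) ℝ) p q| ≤ 1 := by
    rw [Matrix.one_apply]
    split_ifs <;> simp
  have h2 := h p q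
  rw [Matrix.sub_apply]
  have h3 := abs_sub ((1 : Matrix (I2 N) (I2 N) ℝ) p q) (K p q)
  linarith

theorem mB_le (K : Matrix (I2 N) (I2 N) ℝ) {L : ℝ} (hL : 1 ≤ L) (h : ∀ p q, |K p q| ≤ L)
    (i : Fin N) (m : I2 N) : |mB K i m| ≤ 4 * L := by
  have h1 := one_sub_le K hL h (Sum.inr i) m
  unfold mB
  linarith

theorem mY_le (K : Matrix (I2 N) (I2 N) ℝ) {L z : ℝ} (hL : 1 ≤ L) (h : ∀ p q, |K p q| ≤ L)
    (h0 : 0 ≤ z) (h1 : z ≤ 1) (i : Fin N) (m : I2 N) : |mY K z i m| ≤ 4 * L := by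
  have h2 := one_sub_le K hL h (Sum.inr i) m
  have h3 := one_sub_le K hL h (Sum.inl i) m
  unfold mY
  have h4 := abs_add_le ((1 - K) (Sum.inl i) m) (z * (1 - K) (Sum.inr i) m)
  have h5 : |z * (1 - K) (Sum.inr i) m| ≤ 2 * L := by
    rw [abs_mul, abs_of_nonneg h0]
    calc z * |(1 - K) (Sum.inr i) m| ≤ 1 * |(1 - K) (Sum.inr i) m| :=
          mul_le_mul_of_nonneg_right h1 (abs_nonneg _)
      _ ≤ 2 * L := by linarith
  linarith

theorem one_sub_diff (K K' : Matrix (I2 N) (I2 N) ℝ) {δ : ℝ} (h : ∀ p q, |K p q - K' p q| ≤ δ)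
    (p q : I2 N) : |(1 - K) p q - (1 - K') p q| ≤ δ := by
  have e : (1 - K) p q - (1 - K') p q = -(K p q - K' p q) := by
    rw [Matrix.sub_apply, Matrix.sub_apply]; ring
  rw [e, abs_neg]
  exact h p q

theorem mB_diff (K K' : Matrix (I2 N) (I2 N) ℝ) {δ : ℝ} (hδ : 0 ≤ δ)
    (h : ∀ p q, |K p q - K' p q| ≤ δ) (i : Fin N) (m : I2 N) :
    |mB K i m - mB K' i m| ≤ 2 * δ := by
  have h1 := one_sub_diff K K' h (Sum.inr i) m
  unfold mB
  linarith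

theorem mY_diff (K K' : Matrix (I2 N) (I2 N) ℝ) {δ z : ℝ}
    (h : ∀ p q, |K p q - K' p q| ≤ δ) (h0 : 0 ≤ z) (h1 : z ≤ 1) (i : Fin N) (m : I2 N) :
    |mY K z i m - mY K' z i m| ≤ 2 * δ := by
  have h2 := one_sub_diff K K' h (Sum.inr i) m
  have h3 := one_sub_diff K K' h (Sum.inl i) m
  have e : mY K z i m - mY K' z i m = ((1 - K) (Sum.inl i) m - (1 - K') (Sum.inl i) m) +
      z * ((1 - K) (Sum.inr i) m - (1 - K') (Sum.inr i) m) := by
    unfold mY; ring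
  rw [e]
  have h4 := abs_add_le ((1 - K) (Sum.inl i) m - (1 - K') (Sum.inl i) m)
    (z * ((1 - K) (Sum.inr i) m - (1 - K') (Sum.inr i) m))
  have h5 : |z * ((1 - K) (Sum.inr i) m - (1 - K') (Sum.inr i) m)| ≤ δ := by
    rw [abs_mul, abs_of_nonneg h0]
    calc z * |(1 - K) (Sum.inr i) m - (1 - K') (Sum.inr i) m|
        ≤ 1 * |(1 - K) (Sum.inr i) m - (1 - K') (Sum.inr i) m| :=
          mul_le_mul_of_nonneg_right h1 (abs_nonneg _)
      _ ≤ δ := by linarith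
  linarith

theorem shift {k : ℕ} (K : Matrix (I2 N) (I2 N) ℝ) (z z' : ℝ) (ρ : Fin k → Fin N)
    (γ : Fin k → I2 N) :
    (mY K z).submatrix ρ γ + (z' - z) • (mB K).submatrix ρ γ = (mY K z').submatrix ρ γ := by
  ext p q
  simp only [Matrix.add_apply, Matrix.smul_apply, Matrix.submatrix_apply, mY, mB, smul_eq_mul]
  ring

end TayA

open TayA in
theorem tay : STay := by
  intro d1 d2 N k j
  obtain ⟨C1, hC1, h1⟩ := d1 k j
  obtain ⟨C2, hC2, h2⟩ := d2 k j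
  have h4 : (1 : ℝ) ≤ 4 ^ k := one_le_pow₀ (by norm_num)
  refine ⟨4 ^ k * (2 * C1 + C2), by nlinarith, ?_⟩
  intro K K' z z' L ε δ hL hδ hz0 hz1 hz0' hz1' hK hne hD hD' ρ γ
  have hK1 : ∀ p q, |K p q| ≤ L := fun p q => (hK p q).1
  have hK2 : ∀ p q, |K' p q| ≤ L := fun p q => (hK p q).2.1
  have hK3 : ∀ p q, |K p q - K' p q| ≤ δ := fun p q => (hK p q).2.2
  have hL4 : 1 ≤ 4 * L := by linarith
  have ht : |z' - z| ≤ 1 := abs_le.2 ⟨by linarith, by linarith⟩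
  have ht0 : 0 < |z' - z| := abs_pos.2 (sub_ne_zero.2 hne)
  have a2 := h2 ((mY K z).submatrix ρ γ) ((mB K).submatrix ρ γ) (4 * L) (z' - z) hL4 ht
    (fun p q => ⟨mY_le K hL hK1 hz0 hz1 _ _, mB_le K hL hK1 _ _⟩)
  rw [shift] at a2
  have a1 := h1 ((mY K z').submatrix ρ γ) ((mB K).submatrix ρ γ) ((mY K' z').submatrix ρ γ)
    ((mB K').submatrix ρ γ) (4 * L) (2 * δ) hL4 (by linarith)
    (fun p q => ⟨mY_le K hL hK1 hz0' hz1' _ _, mB_le K hL hK1 _ _, mY_le K' hL hK2 hz0' hz1' _ _,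
      mB_le K' hL hK2 _ _, mY_diff K K' hK3 hz0' hz1' _ _, mB_diff K K' hδ hK3 _ _⟩)
  have b1 := hD ρ γ
  have b2 := hD' ρ γ
  generalize dm ((mY K z').submatrix ρ γ) ((mB K).submatrix ρ γ) j = u at a1 a2
  generalize dm ((mY K z).submatrix ρ γ) ((mB K).submatrix ρ γ) j = v at a2 b1
  generalize dm ((mY K' z').submatrix ρ γ) ((mB K').submatrix ρ γ) j = w at a1 b2
  generalize dm ((mY K z).submatrix ρ γ) ((mB K).submatrix ρ γ) (j + 1) = d at a2 ⊢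
  generalize z' - z = t at *
  rw [le_div_iff₀ ht0]
  have hj : (0 : ℝ) ≤ j := Nat.cast_nonneg j
  have c1 : |d| * |t| ≤ |(j + 1) * t * d| := by
    rw [abs_mul, abs_mul, abs_of_nonneg (by linarith : (0 : ℝ) ≤ j + 1)]
    have := mul_nonneg (abs_nonneg t) (abs_nonneg d)
    nlinarith
  have c2 : |(j + 1) * t * d| ≤ 2 * ε + C1 * (4 * L) ^ k * (2 * δ) + C2 * (4 * L) ^ k * t ^ 2 := by
    have e1 := abs_le.1 a1
    have e2 := abs_le.1 a2
    have e3 := abs_le.1 b1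
    have e4 := abs_le.1 b2
    exact abs_le.2 ⟨by linarith [e1.1, e1.2, e2.1, e2.2, e3.1, e3.2, e4.1, e4.2],
      by linarith [e1.1, e1.2, e2.1, e2.2, e3.1, e3.2, e4.1, e4.2]⟩
  have hP : 0 ≤ (4 * L) ^ k := pow_nonneg (by linarith) k
  have e : 4 ^ k * (2 * C1 + C2) * L ^ k = (2 * C1 + C2) * (4 * L) ^ k := by
    rw [mul_pow]; ring
  rw [e]
  generalize (4 * L) ^ k = P at *
  have f1 : 0 ≤ C2 * P * δ := mul_nonneg (mul_nonneg (by linarith) hP) hδ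
  have f2 : 0 ≤ C1 * P * t ^ 2 := mul_nonneg (mul_nonneg (by linarith) hP) (sq_nonneg t)
  nlinarith

end Pool.Agent.MP_5168f5_an.H17F
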