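import Pool.Agent.MP_5168f5_an.H17F.SqApi

/-! Transfer of the absence of grains to a window. -/

namespace Pool.Agent.MP_5168f5_an.H17F

open H19 H17S Filter

namespace TransR

variable {N : ℕ}

theorem co_fl (a : ℕ) {j R : ℕ} (h : j ≤ R) (x : V N) : co R j (fl (a + R) x) = fl (a + j) x := by
  funext i
  obtain ⟨k, rfl⟩ := Nat.exists_eq_add_of_le h
  have e1 : fl (a + j) x i = fl1 (a + (j + k)) (x i) / 2 ^ (a + (j + k) - (a + j)) :=
    fl1_nest (by omega) (x i)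
  have e2 : a + (j + k) - (a + j) = k := by omega
  have e3 : (2 : ℝ) ^ j * (((2 : ℝ) ^ (j + k))⁻¹ * (fl1 (a + (j + k)) (x i) : ℝ)) =
      (fl1 (a + (j + k)) (x i) : ℝ) / ((2 ^ k : ℕ) : ℝ) := by
    push_cast
    rw [pow_add]
    field_simp
  rw [e1, e2]
  change ⌊(2 : ℝ) ^ j * (((2 : ℝ) ^ (j + k))⁻¹ * (fl1 (a + (j + k)) (x i) : ℝ))⌋ = _
  rw [e3, Int.floor_div_natCast, Int.floor_intCast]
  push_cast
  rfl

theorem near (a : ℕ) {j R : ℕ} (h : j ≤ R) (i : Fin N) (x b : V N) (hb : ‖b‖ ≤ 1) :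
    ‖((2 : ℝ) ^ R)⁻¹ • (cz (fl (a + R) x) - (fl (a + R) x i : ℝ) • b) -
      (2 : ℝ) ^ a • (x - x i • b)‖ ≤ 2 * ((2 : ℝ) ^ j)⁻¹ := by
  have h1 : ‖cz (fl (a + R) x) - (2 : ℝ) ^ (a + R) • x‖ ≤ 1 := norm_cz_flv (a + R) x
  have h2 : |(fl (a + R) x i : ℝ) - 2 ^ (a + R) * x i| ≤ 1 := abs_fl1_sub (a + R) (x i)
  have e0 : (2 : ℝ) ^ a = ((2 : ℝ) ^ R)⁻¹ * 2 ^ (a + R) := by rw [pow_add]; field_simp
  have e : ((2 : ℝ) ^ R)⁻¹ • (cz (fl (a + R) x) - (fl (a + R) x i : ℝ) • b) -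
      (2 : ℝ) ^ a • (x - x i • b) = ((2 : ℝ) ^ R)⁻¹ • ((cz (fl (a + R) x) - (2 : ℝ) ^ (a + R) • x) -
        ((fl (a + R) x i : ℝ) - 2 ^ (a + R) * x i) • b) := by
    rw [e0]
    module
  have h3 : ((2 : ℝ) ^ R)⁻¹ ≤ ((2 : ℝ) ^ j)⁻¹ :=
    inv_anti₀ (by positivity) (pow_le_pow_right₀ one_le_two h)
  rw [e, norm_smul, Real.norm_eq_abs, abs_of_pos (by positivity), mul_comm]
  refine mul_le_mul ((norm_sub_le _ _).trans ?_) h3 (by positivity) zero_le_two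
  rw [norm_smul, Real.norm_eq_abs]
  nlinarith [abs_nonneg ((fl (a + R) x i : ℝ) - 2 ^ (a + R) * x i), norm_nonneg b]

theorem ch_cq {Ω β : Type} {P : FP Ω} (a : ℕ) {j R : ℕ} (h : j ≤ R) (i : Fin N) (x b : Ω → V N)
    (hb : ∀ ω ∈ P.S, ‖b ω‖ ≤ 1) (G : Ω → β) :
    ch P (fun ω => fl (a + j) (x ω - x ω i • b ω))
      (fun ω => (cq R j i (b ω) (fl (a + R) (x ω)), G ω)) ≤ 5 * N := by
  refine ch_fl_near (n := 5) (by norm_num) fun u hu v hv e => ?_
  have h1 := near a h i (x u) (b u) (hb u hu)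
  have h2 := near a h i (x v) (b v) (hb v hv)
  have h3 := (norm_sub_lt_of_fl_eq (congrArg Prod.fst e)).le
  have h4 : ‖(2 : ℝ) ^ a • (x u - x u i • b u) - (2 : ℝ) ^ a • (x v - x v i • b v)‖ ≤
      5 * ((2 : ℝ) ^ j)⁻¹ := by
    rw [norm_sub_rev] at h1
    have h5 := norm_sub_le_norm_sub_add_norm_sub ((2 : ℝ) ^ a • (x u - x u i • b u))
      (((2 : ℝ) ^ R)⁻¹ • (cz (fl (a + R) (x u)) - (fl (a + R) (x u) i : ℝ) • b u))
      ((2 : ℝ) ^ a • (x v - x v i • b v))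
    have h6 := norm_sub_le_norm_sub_add_norm_sub
      (((2 : ℝ) ^ R)⁻¹ • (cz (fl (a + R) (x u)) - (fl (a + R) (x u) i : ℝ) • b u))
      (((2 : ℝ) ^ R)⁻¹ • (cz (fl (a + R) (x v)) - (fl (a + R) (x v) i : ℝ) • b v))
      ((2 : ℝ) ^ a • (x v - x v i • b v))
    linarith
  rw [← smul_sub, norm_smul, Real.norm_eq_abs, abs_of_pos (by positivity),
    ← le_div_iff₀' (by positivity)] at h4
  refine h4.trans (le_of_eq ?_)
  rw [pow_add]
  push_cast
  field_simp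

theorem info {Ω α β γ δ ε ζ : Type} {P : FP Ω} (κ : Ω → α) (f : Ω → β) (l : Ω → γ) (W : Ω → δ)
    (ρ : Ω → ε) (Θ : Ω → ζ) (h1 : Fn P Θ fun v => (f v, W v)) (h2 : Fn P (fun v => (l v, W v)) ρ) :
    mi P (fun v => (κ v, f v)) l W ≤ ch P f W + mi P κ ρ Θ := by
  have a1 : ch P (fun v => (κ v, f v)) W ≤ ch P (fun v => (f v, κ v)) W :=
    ch_mono (((Fn.snd f κ).pair (Fn.fst f κ)).left W)
  have a2 := ch_chain (P := P) f κ W
  have a3 : ch P κ (fun v => (f v, W v)) ≤ ch P κ Θ := ch_anti h1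
  have a4 : ch P κ (fun v => (ρ v, Θ v)) ≤ ch P (fun v => (κ v, f v)) fun v => (l v, W v) :=
    ch_le ((Fn.fst κ f).left _) (h2.left Θ)
  unfold mi
  linarith

end TransR

open TransR in
theorem rowTrans : STrans := by
  intro N s ε₀ S hC hB hNG SK t M a R L st Ω' K Q ρ κ β lam i b E hlaw hw hmi hfn hpos
  have hx : Sys s S SK (fun n => (t n).fst.pull (Q n) (ρ n)) M :=
    hC.pull S SK (fun n => (t n).fst) M Ω' Q ρ (hB.fst S SK t M a st.two) hlaw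
  have hR : ∀ n, R n ≤ M n := st.frac.1
  have hpx := (hC.exb S _ M hx.toBas).px fun n => a n + β n
  have h := hNG SK (fun n => (t n).fst.pull (Q n) (ρ n)) M (fun n => a n + β n)
    (fun n => a n + lam n) (fun n => K n × Z N)
    (fun n v => (κ n v, fl (a n) ((t n).toSy.π (ρ n v)))) i b E hx
    (fun n => ⟨Nat.add_le_add_left (hw n).1 _,
      (Nat.add_le_add_left (hw n).2 _).trans (st.le n).2⟩)
    ((Sm.add hpx (Le.up hmi hR)).mono (Eventually.of_forall fun n => by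
      refine (info (κ n) _ _ _ (ρ n) (fun v => (t n).Θ (a n) (ρ n v)) (fun u _ v _ e => ?_)
        (fun u _ v _ e => ?_)).trans (add_le_add (ch_mono fun u _ v _ e => ?_) le_rfl)
      · exact Prod.ext (congrArg (·.2.2.2) e) (Prod.ext (congrArg (·.2.2.1) e) (congrArg (·.1) e))
      · exact congrArg (fun ω => ((t n).fst.toCfg.ln ω, (t n).fst.toCfg.X (a n + β n) ω,
          (t n).fst.g ω)) e
      · exact fl_eq_of_le (Nat.le_add_right _ _) (congrArg Prod.fst e)))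
    (hfn.mono fun n k => by
      have k1 : Fn (Q n) (fun v => (κ n v, (t n).Θ (a n) (ρ n v))) fun v =>
          ((κ n v, fl (a n) ((t n).toSy.π (ρ n v))), (t n).fst.g (ρ n v)) := fun u _ v _ e =>
        Prod.ext (congrArg (·.1.1) e) (Prod.ext (congrArg (·.2.2) e)
          (Prod.ext (congrArg (·.2.1) e) (congrArg (·.1.2) e)))
      exact ⟨k.1.trans k1, k.2.1.trans k1, k.2.2⟩) hpos
  refine Le.frac ((h.add (hx.big.sm (5 * N))).of_sub (hfn.mono fun n k => ?_)) st.frac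
  have h1 := ch_cq (P := cE (Q n) (E n)) (a n) (hw n).2 i (fun v => (t n).toSy.π (ρ n v)) (b n)
    (fun v hv => (k.2.2 v (cE_sub hv)).2)
    fun v => (fl (a n + β n) ((t n).toSy.π (ρ n v)), κ n v, (t n).Θ (a n) (ρ n v))
  have h2 := ch_drop (P := cE (Q n) (E n)) (fun v => fl (a n + lam n) ((t n).toSy.π (ρ n v)))
    (fun v => fl (a n + lam n) ((t n).toSy.π (ρ n v) - (t n).toSy.π (ρ n v) i • b n v))
    fun v => (cq (R n) (lam n) i (b n v) (fl (a n + R n) ((t n).toSy.π (ρ n v))),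
      fl (a n + β n) ((t n).toSy.π (ρ n v)), κ n v, (t n).Θ (a n) (ρ n v))
  have h3 : ch (cE (Q n) (E n)) (fun v => fl (a n + lam n) ((t n).toSy.π (ρ n v))) (fun v =>
      (fl (a n + lam n) ((t n).toSy.π (ρ n v) - (t n).toSy.π (ρ n v) i • b n v),
        cq (R n) (lam n) i (b n v) (fl (a n + R n) ((t n).toSy.π (ρ n v))),
        fl (a n + β n) ((t n).toSy.π (ρ n v)), κ n v, (t n).Θ (a n) (ρ n v))) ≤
      ch (cE (Q n) (E n)) (fun v => fl (a n + lam n) ((t n).toSy.π (ρ n v))) fun v =>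
        (fl (a n + lam n) ((t n).toSy.π (ρ n v) - (t n).toSy.π (ρ n v) i • b n v),
          fl (a n + β n) ((t n).toSy.π (ρ n v)), (κ n v, fl (a n) ((t n).toSy.π (ρ n v))),
          (t n).fst.g (ρ n v)) :=
    ch_anti fun u _ v _ e => Prod.ext (congrArg (·.1) e) (Prod.ext (congrArg (·.2.2.1) e)
      (Prod.ext (Prod.ext (congrArg (·.2.2.2.1) e) (congrArg (·.2.2.2.2.2.2) e))
        (Prod.ext (congrArg (·.2.2.2.2.2.1) e) (congrArg (·.2.2.2.2.1) e))))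
  simp only [co_fl (a n) (hw n).2, co_fl (a n) ((hw n).1.trans (hw n).2)]
  change _ ≤ ch (cE (Q n) (E n)) (fun v => fl (a n + lam n) ((t n).toSy.π (ρ n v))) (fun v =>
        (fl (a n + lam n) ((t n).toSy.π (ρ n v) - (t n).toSy.π (ρ n v) i • b n v),
          fl (a n + β n) ((t n).toSy.π (ρ n v)), (κ n v, fl (a n) ((t n).toSy.π (ρ n v))),
          (t n).fst.g (ρ n v))) + 5 * N - _
  push_cast
  linarith

end Pool.Agent.MP_5168f5_an.H17F
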