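import Pool.Agent.MP_5168f5_an.H17F.SqApi

/-! Sticky Kakeya sets have full dimension: a second height on the same line. -/

namespace Pool.Agent.MP_5168f5_an.H17F

open H19 H17S Filter

namespace RTwo

section Abs

variable {Ω α β γ δ ζ : Type} {P : FP Ω}

theorem fn_ext {F : Ω → α} {G G' : Ω → β} (h : Fn P F G) (e : ∀ ω ∈ P.S, G' ω = G ω) :
    Fn P F G' := fun a ha b hb k => h a ha b hb (by rw [← e a ha, ← e b hb]; exact k)

theorem mi_ext {F : Ω → α} {G G' : Ω → β} {K K' : Ω → γ} (e : ∀ ω ∈ P.S, G ω = G' ω)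
    (e' : ∀ ω ∈ P.S, K ω = K' ω) : mi P F G K = mi P F G' K' := by
  unfold mi
  rw [ch_ext (fun _ _ => rfl) e',
    ch_ext (G := fun ω => (G ω, K ω)) (G' := fun ω => (G' ω, K' ω)) (fun _ _ => rfl)
      fun ω hω => by rw [e ω hω, e' ω hω]]

theorem mem (kg : KG) {φ : Ω → β} {v : Ω × Ω} (hv : v ∈ (glue P P φ φ).S) :
    v.1 ∈ P.S ∧ v.2 ∈ P.S ∧ φ v.2 = φ v.1 := (kg.mem P P φ φ v (Law.rfl φ)).1 hv

/-- The two pieces of side information carry at most twice the information. -/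
theorem info (kg : KG) {ξ : Ω → α} {L : Ω → β} {θ : Ω → γ} {h : Ω → δ} (hθ : Fn P θ L)
    (hh : Fn P h fun ω => (ξ ω, θ ω)) :
    mi (glue P P (fun ω => (L ω, h ω)) fun ω => (L ω, h ω)) (fun v => (ξ v.1, ξ v.2))
      (fun v => L v.1) (fun v => θ v.1) ≤ 2 * mi P ξ L θ := by
  set φ : Ω → β × δ := fun ω => (L ω, h ω) with hφ
  have l1 := kg.fst P P φ φ
  have l2 := kg.snd P P φ φ (Law.rfl φ)
  have e1 := l1.mi_id ξ L θ
  have e2 : ch (glue P P φ φ) (fun v => ξ v.2) (fun v => (ξ v.1, θ v.1)) ≤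
      ch (glue P P φ φ) (fun v => ξ v.2) fun v => (h v.2, θ v.2) := by
    refine ch_anti fun a ha b hb e => ?_
    obtain ⟨a1, a2, a3⟩ := mem kg ha
    obtain ⟨b1, b2, b3⟩ := mem kg hb
    have k1 : h a.2 = h a.1 := congrArg Prod.snd a3
    have k2 : h b.2 = h b.1 := congrArg Prod.snd b3
    have k3 := hθ _ a2 _ a1 (congrArg Prod.fst a3)
    have k4 := hθ _ b2 _ b1 (congrArg Prod.fst b3)
    have k5 : θ a.1 = θ b.1 := congrArg Prod.snd e
    exact Prod.ext (k1.trans ((hh _ a1 _ b1 e).trans k2.symm)) (k3.trans (k5.trans k4.symm))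
  have e3 := l2.ch_id ξ fun ω => (h ω, θ ω)
  have e4 := kg.mk1 P P φ φ ξ (fun ω => (ξ ω, L ω, θ ω)) (Law.rfl φ) (by
    intro a ha b hb e
    simp only [Prod.mk.injEq] at e
    exact Prod.ext e.2.1 (hh a ha b hb (Prod.ext e.1 e.2.2)))
  have e5 : mi P L ξ (fun ω => (h ω, θ ω)) ≤ mi P L ξ θ :=
    mi_cond (Fn.snd h θ) (hh.pair (Fn.snd ξ θ))
  rw [mi_symm L ξ, mi_symm L ξ] at e5
  have e6 : ch P ξ (fun ω => (L ω, h ω, θ ω)) ≤ ch P ξ φ :=
    ch_anti ((Fn.fst L _).pair ((Fn.fst h θ).right L))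
  have e7 : ch P ξ φ ≤ ch P ξ fun ω => (L ω, h ω, θ ω) :=
    ch_anti ((Fn.fst L h).pair ((Fn.snd L h).pair (hθ.left h)))
  unfold mi at *
  rw [ch_chain, ch_chain]
  linarith

/-- The second height keeps its entropy below the common scale. -/
theorem full (kg : KG) {ξ : Ω → α} {L : Ω → β} {h : Ω → δ} {f : Ω → ζ}
    (hh : Fn P h fun ω => (L ω, ξ ω)) :
    ch P f L - ch P h L ≤ ch (glue P P (fun ω => (L ω, h ω)) fun ω => (L ω, h ω))
      (fun v => f v.2) fun v => (L v.1, ξ v.1) := by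
  rw [kg.mk1 P P _ _ f (fun ω => (L ω, ξ ω)) (Law.rfl _) ((Fn.fst L ξ).pair hh)]
  have h1 := ch_tri (P := P) f h L
  have h2 : ch P f (fun ω => (h ω, L ω)) ≤ ch P f fun ω => (L ω, h ω) :=
    ch_anti ((Fn.snd h L).pair (Fn.fst h L))
  linarith

end Abs

variable {N : ℕ}

/-- Replace the line and the context. -/
def chg (y : Sy N) (a e : y.Ω → V N) (θ : y.Ω → y.T) : Sy N := { y with a := a, e := e, θ := θ }

section Chg

variable {y : Sy N} {a e : y.Ω → V N} {θ : y.Ω → y.T}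
  (H : ∀ ω ∈ y.P.S, a ω = y.a ω ∧ e ω = y.e ω ∧ θ ω = y.θ ω)

include H

theorem chg_g : ∀ ω ∈ y.P.S, (chg y a e θ).g ω = y.g ω := fun ω hω =>
  Prod.ext rfl (H ω hω).2.2

theorem chg_ln : ∀ ω ∈ y.P.S, (chg y a e θ).toCfg.ln ω = y.toCfg.ln ω := fun ω hω =>
  Prod.ext (H ω hω).1 (Prod.ext (H ω hω).2.1 (H ω hω).2.2)

theorem chg_X (j : ℕ) : ∀ ω ∈ y.P.S, (chg y a e θ).toCfg.X j ω = y.toCfg.X j ω := fun ω hω =>
  Prod.ext (congrArg (fl j) (H ω hω).1) (congrArg (fl j) (H ω hω).2.1)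

theorem chg_π : ∀ ω ∈ y.P.S, (chg y a e θ).π ω = y.π ω := fun ω hω => by
  change (y.Pm ω).mulVec (a ω + y.z ω • e ω) = (y.Pm ω).mulVec (y.a ω + y.z ω • y.e ω)
  rw [(H ω hω).1, (H ω hω).2.1]

theorem chg_ψ : ∀ ω ∈ y.P.S, (chg y a e θ).ψ ω = y.ψ ω := fun ω hω => by
  change (y.Km ω).mulVec (Sum.elim (a ω) (e ω)) = (y.Km ω).mulVec (Sum.elim (y.a ω) (y.e ω))
  rw [(H ω hω).1, (H ω hω).2.1]

theorem chg_alg {S : Finset (Fin N)} {L : ℝ} (h : y.Alg S L) : (chg y a e θ).Alg S L := by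
  refine ⟨fun ω hω => ?_, fn_ext h.fz (chg_g H), fn_ext h.fP (chg_g H), h.pP⟩
  obtain ⟨h1, h2, h3⟩ := h.box ω hω
  refine ⟨?_, ?_, h3⟩
  · change ∀ i, 0 ≤ a ω i ∧ a ω i < 1
    rw [(H ω hω).1]; exact h1
  · change ∀ i, 0 ≤ e ω i ∧ e ω i < 1
    rw [(H ω hω).2.1]; exact h2

theorem chg_algK {SK : Finset (I2 N)} {L : ℝ} (h : y.AlgK SK L) : (chg y a e θ).AlgK SK L :=
  ⟨fn_ext h.fK (chg_g H), h.pK⟩

end Chg

theorem sys_chg {s : ℝ} {S : Finset (Fin N)} {SK : Finset (I2 N)} {y : ℕ → Sy N} {M : ℕ → ℕ}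
    (h : Sys s S SK y M) {a e : ∀ n, (y n).Ω → V N} {θ : ∀ n, (y n).Ω → (y n).T}
    (H : ∀ n, ∀ ω ∈ (y n).P.S, a n ω = (y n).a ω ∧ e n ω = (y n).e ω ∧ θ n ω = (y n).θ ω) :
    Sys s S SK (fun n => chg (y n) (a n) (e n) (θ n)) M := by
  have hθ : ∀ n, ∀ ω ∈ (y n).P.S, θ n ω = (y n).θ ω := fun n ω hω => (H n ω hω).2.2
  have hl := fun n => chg_ln (H n)
  have hg := fun n => chg_g (H n)
  refine ⟨⟨h.big, ?_, ?_, fun j hj => ?_, ?_, ?_⟩, ?_, ?_, ?_⟩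
  · obtain ⟨L, h1, h2⟩ := h.alg
    exact ⟨L, h1, h2.mono fun n k => chg_alg (H n) k⟩
  · exact h.dir.trans (Le.of_le fun n => (ch_ext (P := (y n).P)
      (fun ω hω => congrArg (fl (M n)) (H n ω hω).2.1) (hθ n)).ge)
  · exact (Le.of_le fun n => (ch_ext (P := (y n).P) (chg_X (H n) (j n)) (hθ n)).le).trans
      (h.stk j hj)
  · exact h.inf.mono (Eventually.of_forall fun n =>
      (mi_ext (P := (y n).P) (F := (y n).ξ) (hl n) (hθ n)).le)
  · exact h.hgt.trans (Le.of_le fun n => (ch_ext (P := (y n).P) (fun _ _ => rfl) (hθ n)).ge)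
  · obtain ⟨L, h1, h2⟩ := h.algK
    exact ⟨L, h1, h2.mono fun n k => chg_algK (H n) k⟩
  · exact (Le.of_le fun n => (ch_ext (P := (y n).P)
      (fun ω hω => congrArg (fl (M n)) (chg_π (H n) ω hω)) (hg n)).le).trans h.grn
  · exact h.ker.mono (Eventually.of_forall fun n => (ch_ext (P := (y n).P)
      (fun ω hω => congrArg (flv (M n)) (chg_ψ (H n) ω hω)) fun ω hω =>
        Prod.ext (congrArg (fl (M n)) (chg_π (H n) ω hω)) (chg_g (H n) ω hω)).le)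

/-- The shared data. -/
noncomputable def sh (x : Sy N) (a : ℕ) (ω : x.Ω) : (V N × V N × x.T) × ℤ :=
  (x.toCfg.ln ω, fl1 a (x.z ω))

/-- The space of the two heights. -/
noncomputable def sp (x : Sy N) (a : ℕ) : FP (x.Ω × x.Ω) := glue x.P x.P (sh x a) (sh x a)

theorem mem_sp (kg : KG) {x : Sy N} {a : ℕ} {v : x.Ω × x.Ω} (hv : v ∈ (sp x a).S) :
    v.1 ∈ x.P.S ∧ v.2 ∈ x.P.S ∧ x.toCfg.ln v.2 = x.toCfg.ln v.1 ∧ x.θ v.2 = x.θ v.1 ∧
      fl1 a (x.z v.2) = fl1 a (x.z v.1) := by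
  obtain ⟨h1, h2, h3⟩ := mem kg hv
  exact ⟨h1, h2, congrArg Prod.fst h3, congrArg (·.1.2.2) h3, congrArg Prod.snd h3⟩

theorem fn1 (kg : KG) {x : Sy N} {a : ℕ} {β : Type} {F : x.Ω → β} (h : Fn x.P F x.g) :
    Fn (sp x a) (fun v => F v.1) fun v => ((x.ξ v.1, x.ξ v.2), x.θ v.1) := fun _ hu _ hv e =>
  h _ (mem_sp kg hu).1 _ (mem_sp kg hv).1
    (Prod.ext (congrArg (·.1.1) e) (congrArg Prod.snd e :))

theorem fn2 (kg : KG) {x : Sy N} {a : ℕ} {β : Type} {F : x.Ω → β} (h : Fn x.P F x.g) :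
    Fn (sp x a) (fun v => F v.2) fun v => ((x.ξ v.1, x.ξ v.2), x.θ v.2) := fun _ hu _ hv e =>
  h _ (mem_sp kg hu).2.1 _ (mem_sp kg hv).2.1
    (Prod.ext (congrArg (·.1.2) e) (congrArg Prod.snd e :))

theorem fn0 (kg : KG) {x : Sy N} {a : ℕ} {β : Type} {F : x.Ω → β} (h : Fn x.P F x.g) :
    Fn (sp x a) (fun v => F v.1) fun v => (x.ξ v.1, x.θ v.1) := fun _ hu _ hv e =>
  h _ (mem_sp kg hu).1 _ (mem_sp kg hv).1 e

end RTwo

open RTwo

theorem rowTwo : STwo := by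
  intro N s c S SK x M a h ha
  have kg := c.kg
  obtain ⟨L, -, hL⟩ := h.alg
  obtain ⟨L', -, hK⟩ := h.algK
  have i1 : Sm M fun n => mi (sp (x n) (a n)) (fun v => ((x n).ξ v.1, (x n).ξ v.2))
      (fun v => (x n).toCfg.ln v.1) fun v => (x n).θ v.1 :=
    (h.inf.smul zero_le_two).mono (hL.mono fun n k =>
      info kg (x n).toCfg.fn_θ_ln ((Fn.comp (fl1 (a n)) (x n).z).trans k.fz))
  have i2 : Sm M fun n => mi (sp (x n) (a n)) (fun v => ((x n).ξ v.1, (x n).ξ v.2))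
      (fun v => (x n).toCfg.ln v.2) fun v => (x n).θ v.2 :=
    i1.mono (Eventually.of_forall fun n => (mi_ext (fun v hv => (mem_sp kg hv).2.2.1)
      fun v hv => (mem_sp kg hv).2.2.2.1).le)
  refine ⟨?_, ?_, ?_, fun j hj => ?_⟩
  · refine c.side S SK (fun n => (x n).pull (sp (x n) (a n)) Prod.fst) M _
      (fun n v => ((x n).ξ v.1, (x n).ξ v.2))
      (c.pull S SK x M _ _ _ h fun n => kg.fst _ _ _ _) ?_ i1
    filter_upwards [hL, hK] with n k k'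
    exact ⟨fn1 kg k.fz, fn1 kg k.fP, fn1 kg k'.fK⟩
  · have h2 := c.side S SK (fun n => (x n).pull (sp (x n) (a n)) Prod.snd) M _
      (fun n v => ((x n).ξ v.1, (x n).ξ v.2))
      (c.pull S SK x M _ _ _ h fun n => kg.snd _ _ _ _ (Law.rfl _)) (by
        filter_upwards [hL, hK] with n k k'
        exact ⟨fn2 kg k.fz, fn2 kg k.fP, fn2 kg k'.fK⟩) i2
    refine sys_chg h2 (a := fun n v => (x n).a v.1) (e := fun n v => (x n).e v.1)
      (θ := fun n v => (x n).θ v.1) fun n v hv => ?_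
    have k := (mem_sp kg hv).2.2.1.symm
    exact ⟨congrArg (·.1) k, congrArg (·.2.1) k, congrArg (·.2.2) k⟩
  · filter_upwards [hL, hK] with n k k'
    exact ⟨fun _ _ _ _ e => congrArg (·.1.1) e, fn0 kg k.fz, fn0 kg k.fP, fn0 kg k'.fK,
      fun v hv => (abs_sub_lt_of_fl1_eq (mem_sp kg hv).2.2.2.2).le⟩
  · refine ((c.exb S x M h.toBas).hgt j fun n => (hj n).2).of_sub ?_
    filter_upwards [hL] with n k
    have f1 : Fn (x n).P (fun ω => fl1 (a n) ((x n).z ω)) fun ω =>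
        ((x n).toCfg.ln ω, (x n).ξ ω) := fun u hu v hv e => congrArg (fl1 (a n))
      (k.fz u hu v hv (Prod.ext (congrArg Prod.snd e) (congrArg (·.1.2.2) e)))
    have h1 := full kg (f := fun ω => fl1 (j n) ((x n).z ω)) f1
    have h2 := ch_fl1_refine (P := (x n).P) (x := (x n).z) (G := (x n).toCfg.ln)
      (j := fun _ => 0) (i := fun _ => a n) (fun _ _ _ _ _ => rfl) (fun _ _ _ _ _ => rfl)
      fun u hu v hv _ => (fl1_zero_of_box (k.box u hu).2.2.1 (k.box u hu).2.2.2).trans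
        (fl1_zero_of_box (k.box v hv).2.2.1 (k.box v hv).2.2.2).symm
    simp only [zero_add, FP.E_const] at h2
    have h3 : ch ((x n).two (a n)).P (fun ω => fl1 (j n) (((x n).two (a n)).z' ω))
        (fun ω => (((x n).two (a n)).toCfg.ln ω, ((x n).two (a n)).ξ₀ ω)) =
        ch (glue (x n).P (x n).P (fun ω => ((x n).toCfg.ln ω, fl1 (a n) ((x n).z ω)))
          fun ω => ((x n).toCfg.ln ω, fl1 (a n) ((x n).z ω)))
          (fun v => fl1 (j n) ((x n).z v.2)) fun v => ((x n).toCfg.ln v.1, (x n).ξ v.1) := rfl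
    rw [h3]
    linarith

end Pool.Agent.MP_5168f5_an.H17F
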