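import Pool.Agent.MP_5168f5_an.H17F.SqApi

/-! Two heights: conditioning, the first height alone, separation of the heights. -/

namespace Pool.Agent.MP_5168f5_an.H17F

open H19 H17S Filter

namespace TwoBA

variable {N : ℕ} {t : Th N} {a j : ℕ}

theorem zeq (h : t.Alg a) {x y : t.Ω} (hx : x ∈ t.P.S) (hy : y ∈ t.P.S)
    (e : (t.toCfg.ln x, t.ξ₀ x) = (t.toCfg.ln y, t.ξ₀ y)) : t.z x = t.z y :=
  h.fz x hx y hy (Prod.ext (congrArg Prod.snd e) (congrArg (fun w => w.1.2.2) e))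

theorem two_div (haj : a ≤ j) : (2 : ℝ) ^ (j - a) / 2 ^ j = ((2 : ℝ) ^ a)⁻¹ := by
  rw [pow_sub₀ _ two_ne_zero haj]
  field_simp

theorem det (h : t.Alg a) (haj : a ≤ j) : Det t.P (fun ω => fl1 j (t.z' ω))
    (fun ω => (t.toCfg.ln ω, t.ξ₀ ω)) (7 * 2 ^ (j - a)) := fun x hx => by
  obtain ⟨T, h1, h2⟩ := det_near1 (P := t.P) (x := t.z') (j := j) (L := 2 * 2 ^ (j - a))
    (G := fun ω => (t.toCfg.ln ω, t.ξ₀ ω)) (by positivity) (fun x hx y hy e => by
      have h1 := abs_le.1 (h.near x hx)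
      have h2 := abs_le.1 (h.near y hy)
      rw [mul_div_assoc, two_div haj, abs_le]
      constructor <;> linarith [zeq h hx hy e]) x hx
  exact ⟨T, by linarith [one_le_pow₀ (n := j - a) (one_le_two (α := ℝ))], h2⟩

theorem log_two (haj : a ≤ j) : Real.log (2 ^ (j - a)) = (j - a : ℝ) * lg := by
  rw [log_two_pow, Nat.cast_sub haj]

theorem thin {M : ℕ} {c : ℝ} (h : t.Alg a) (haM : 2 * a ≤ M) {x : t.Ω} (hx : x ∈ t.P.S) :
    ∃ T : Finset ℤ, (T.card : ℝ) ≤ 7 * 2 ^ (M - a) * Real.exp (-(min c (1 / 4) * M)) ∧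
      ∀ y ∈ t.P.S, (t.toCfg.ln y, t.ξ₀ y) = (t.toCfg.ln x, t.ξ₀ x) →
        ¬1 ≤ Real.exp (c * M) * 2 ^ a * |t.z' y - t.z y| → fl1 M (t.z' y) ∈ T := by
  have ha : a ≤ M := by omega
  have h0 : (0 : ℝ) ≤ M := M.cast_nonneg
  set L := 2 ^ (M - a) * Real.exp (-(min c (1 / 4) * M)) with hL
  have h1 : 1 ≤ L := by
    refine le_trans ?_ (mul_le_mul_of_nonneg_right (exp_le_two_pow _) (Real.exp_pos _).le)
    rw [← Real.exp_add, Nat.cast_sub ha]
    have h2 : (2 * a : ℝ) ≤ M := by exact_mod_cast haM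
    exact Real.one_le_exp (by nlinarith [min_le_right c (1 / 4)])
  refine ⟨Finset.Icc (fl1 M (t.z x) - ⌈L⌉₊) (fl1 M (t.z x) + ⌈L⌉₊), ?_, fun y hy e h2 => ?_⟩
  · have e : (fl1 M (t.z x) + ⌈L⌉₊ + 1 - (fl1 M (t.z x) - ⌈L⌉₊)).toNat = 2 * ⌈L⌉₊ + 1 := by omega
    rw [Int.card_Icc, e, mul_assoc, ← hL]
    push_cast
    linarith [Nat.ceil_lt_add_one (zero_le_one.trans h1)]
  · refine fl1_mem_Icc (le_trans ?_ (mul_le_mul_of_nonneg_right (Nat.le_ceil L) (by positivity)))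
    rw [← zeq h hy hx e, hL, mul_right_comm, ← div_eq_mul_inv, two_div ha, Real.exp_neg, ← mul_inv,
      ← one_div, le_div_iff₀' (by positivity), mul_comm (2 ^ a : ℝ)]
    refine le_trans ?_ (not_le.1 h2).le
    gcongr
    exact min_le_left _ _

end TwoBA

open TwoBA in
theorem rowTwoB : STwoB := fun N s C => by
  refine ⟨fun S SK t M a E h hE hp => ⟨C.cond S SK _ M E h.one hE hp,
    C.cond S SK (fun n => (t n).snd) M E h.two hE hp,
    h.alg.mono fun n k => ⟨fn_cE k.f0 _, fn_cE k.fz _, fn_cE k.fP _, fn_cE k.fK _,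
      fun ω hω => k.near ω (cE_sub hω)⟩, fun j hj => ?_⟩, fun S SK t M a h => ?_,
    fun S SK t M a h ha => ?_⟩
  · refine C.ks.full (fun n => (t n).P) E _ _ M _ h.one.big hp (h.ful j hj)
      ((h.one.big.sm (Real.log 7)).of_sub (h.alg.mono fun n k => ?_))
    have := ch_det (det_cE (det k (hj n).1) fun ω => ¬E n ω)
    rw [Real.log_mul (by norm_num) (by positivity), log_two (hj n).1] at this
    rw [sub_zero]
    exact sub_le_iff_le_add.2 this
  · exact C.side S SK _ M _ (fun n => (t n).ξ₀) h.one (h.alg.mono fun n k => ⟨k.fz, k.fP, k.fK⟩)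
      (h.one.inf.mono (h.alg.mono fun n k => mi_mono' k.f0))
  · have hM : ∀ n, a n ≤ M n := fun n => by have := ha n; omega
    refine C.ks.wsub (fun n => (t n).P)
      (fun n ω y => 1 ≤ y * 2 ^ a n * |(t n).z' ω - (t n).z ω|) M fun c c0 _ => ?_
    refine (C.ks.spw (fun n => (t n).P) _ (fun n ω => fl1 (M n) ((t n).z' ω))
      (fun n ω => ((t n).toCfg.ln ω, (t n).ξ₀ ω)) M (fun n => 2 ^ (M n - a n)) (fun _ => 7)
      (min c (1 / 4)) h.one.big (h.one.big.sub (by norm_num)) (lt_min c0 (by norm_num)) ?_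
      (h.alg.mono fun n k => ⟨by positivity, det k (hM n), fun x hx => thin k (ha n) hx⟩)).mono
      (Eventually.of_forall fun n ω _ => not_not.1)
    simpa only [log_two (hM _)] using h.ful M fun n => ⟨hM n, le_rfl⟩

end Pool.Agent.MP_5168f5_an.H17F
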