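import Pool.Agent.MP_5168f5_an.H17F.Sq2

/-! Rescaling a sticky system. -/

namespace Pool.Agent.MP_5168f5_an.H17F

open H19 H17S Filter

namespace ZoomBA

variable {N : ℕ}

theorem fr_iff {j k : ℕ} {u v : V N} (h : fl j u = fl j v) :
    fl k (fr j u) = fl k (fr j v) ↔ fl (j + k) u = fl (j + k) v := by
  rw [fl_fr, fl_fr, h]
  exact ⟨fun e => funext fun t => sub_left_injective (congrFun e t), fun e => by rw [e]⟩

variable (x : Sy N) (j k : ℕ)

theorem fn_g : Fn x.P x.g (x.zm j).g := fun _ _ _ _ e =>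
  Prod.ext (congrArg (·.1) e) (congrArg (·.2.1) e)

theorem fn_θ : Fn x.P (x.zm j).θ x.toCfg.ln :=
  x.toCfg.fn_θ_ln.pair (x.toCfg.fn_X_ln j)

theorem fn_ln : Fn x.P (x.zm j).toCfg.ln x.toCfg.ln := fun a ha b hb e =>
  Prod.ext (congrArg (fr j) (congrArg (·.1) e))
    (Prod.ext (congrArg (fr j) (congrArg (·.2.1) e)) (fn_θ x j a ha b hb e))

theorem dir : ch x.P (fun ω => fl (j + k) (x.e ω)) x.g ≤
    ch x.P (x.toCfg.X j) x.θ + ch (x.zm j).P (fun ω => fl k ((x.zm j).e ω)) (x.zm j).θ := by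
  refine (ch_anti (Fn.snd x.ξ x.θ)).trans ((ch_tri _ (x.toCfg.X j) _).trans (add_le_add le_rfl
    (ch_le (fun a _ b _ e => ?_) ((Fn.snd _ _).pair (Fn.fst _ _)))))
  exact (fr_iff (congrArg (·.2.1.2) e)).1 (congrArg (·.1) e)

theorem stk : ch x.P (fun ω => fl j (x.e ω)) x.g +
    ch (x.zm j).P ((x.zm j).toCfg.X k) (x.zm j).θ ≤ ch x.P (x.toCfg.X (j + k)) x.θ := by
  have h1 : ch x.P (fun ω => (x.toCfg.X j ω, x.toCfg.X (j + k) ω)) x.θ ≤
      ch x.P (x.toCfg.X (j + k)) x.θ := ch_mono fun a _ b _ e =>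
    Prod.ext (x.toCfg.X_eq_of_le (Nat.le_add_right j k) (congrArg (·.1) e)) (congrArg (·.1) e)
  rw [ch_chain] at h1
  refine le_trans (add_le_add (ch_le (fun a _ b _ e => congrArg (·.1.2) e) (Fn.snd x.ξ x.θ))
    (ch_le (fun a _ b _ e => ?_) fun a _ b _ e =>
      Prod.ext (congrArg (·.2) e) (congrArg (·.1) e))) h1
  exact Prod.ext ((fr_iff (congrArg (·.2.2.1) e)).2 (congrArg (·.1.1) e))
    ((fr_iff (congrArg (·.2.2.2) e)).2 (congrArg (·.1.2) e))

end ZoomBA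

open ZoomBA in
theorem rowZoomB : SZoomB := by
  intro N exb S x M j i h hji fr
  have ex := exb S x M h
  have jM : ∀ n, j n ≤ M n := fun n => (Nat.le_add_right _ _).trans (hji n)
  obtain ⟨L, sub, al⟩ := h.alg
  refine ⟨h.big.frac fr, ⟨L, sub.frac fr, al.mono fun n a => ⟨(x n).toCfg.zoom_box a.box _,
    a.fz.trans (fn_g _ _), a.fP.trans (fn_g _ _), a.pP⟩⟩, Le.frac ?_ fr,
    fun k hk => Le.frac ?_ fr, Le.frac ?_ fr, Le.frac ?_ fr⟩
  · refine (ex.dir _ hji).of2 (h.stk j jM) (Eventually.of_forall fun n => ?_)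
    have := dir (x n) (j n) (i n)
    push_cast
    linarith
  · refine (ex.dir j jM).of2 (h.stk (fun n => j n + k n) fun n =>
      (Nat.add_le_add_left (hk n) _).trans (hji n)) (Eventually.of_forall fun n => ?_)
    have := stk (x n) (j n) (k n)
    push_cast
    linarith
  · exact h.inf.mono (Eventually.of_forall fun n => mi_right (Fn.fst _ _)
      ((fn_θ (x n) (j n)).left _) ((fn_ln (x n) (j n)).left _))
  · exact (ex.hgt i fr.1).trans (Le.of_le fun n => ch_anti (fn_θ (x n) (j n)))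

end Pool.Agent.MP_5168f5_an.H17F
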