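import Pool.Agent.MP_5168f5_an.H17F.Sq2

/-! The rescaled system is sticky. -/

namespace Pool.Agent.MP_5168f5_an.H17F

open H19 H17S Filter

namespace ZscA

variable {N : ℕ}

theorem info (x : Sy N) (j : ℕ) {K : Type} (κ : x.Ω → K) :
    mi x.P (fun ω => (κ ω, x.ξ ω)) (x.zm j).toCfg.ln (x.zm j).θ ≤
      mi x.P x.ξ (x.zm j).toCfg.ln (x.zm j).θ +
        mi x.P κ x.toCfg.ln fun ω => (x.toCfg.X j ω, x.g ω) := by
  have h1 : mi x.P (fun ω => (κ ω, x.ξ ω)) (x.zm j).toCfg.ln (x.zm j).θ ≤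
      mi x.P (fun ω => (x.ξ ω, κ ω)) (x.zm j).toCfg.ln (x.zm j).θ :=
    mi_mono' fun a _ b _ e => by
      simp only [Prod.mk.injEq] at e ⊢
      exact ⟨e.1.2, e.1.1⟩
  rw [mi_symm fun ω => (x.ξ ω, κ ω), mi_chain, mi_symm _ x.ξ, mi_symm _ κ] at h1
  refine h1.trans (add_le_add le_rfl (mi_right (fun a _ b _ e => ?_) (fun a _ b _ e => ?_)
    fun a _ b _ e => ?_))
  · have e1 : x.ξ a = x.ξ b := congrArg Prod.fst e
    have e2 : (x.θ a, x.toCfg.X j a) = (x.θ b, x.toCfg.X j b) := congrArg Prod.snd e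
    simp only [Prod.mk.injEq] at e2
    simp only [Sy.g, e1, e2.1, e2.2]
  · simp only [Prod.mk.injEq, Sy.g] at e
    change (x.ξ a, x.θ a, x.toCfg.X j a) = (x.ξ b, x.θ b, x.toCfg.X j b)
    rw [e.2.1, e.2.2.1, e.2.2.2]
  · simp only [Prod.mk.injEq, Sy.g, Cfg.ln] at e
    change (fr j (x.a a), fr j (x.e a), x.θ a, x.toCfg.X j a) =
      (fr j (x.a b), fr j (x.e b), x.θ b, x.toCfg.X j b)
    rw [e.1.1, e.1.2.1, e.2.1, e.2.2.2]

theorem fn_g (x : Sy N) (j : ℕ) {K : Type} (κ : x.Ω → K) :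
    Fn x.P (fun ω => (κ ω, x.g ω)) ((x.zm j).side fun ω => (κ ω, x.ξ ω)).g := fun a _ b _ e => by
  have e1 : ((κ a, x.ξ a), x.θ a, x.toCfg.X j a) = ((κ b, x.ξ b), x.θ b, x.toCfg.X j b) := e
  simp only [Prod.mk.injEq] at e1
  simp only [Sy.g, e1.1.1, e1.1.2, e1.2.1]

theorem fn_g' (x : Sy N) (j : ℕ) {K : Type} (κ : x.Ω → K) :
    Fn x.P (x.zm j).g ((x.zm j).side fun ω => (κ ω, x.ξ ω)).g := fun a _ b _ e => by
  have e1 : ((κ a, x.ξ a), x.θ a, x.toCfg.X j a) = ((κ b, x.ξ b), x.θ b, x.toCfg.X j b) := e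
  simp only [Prod.mk.injEq] at e1
  change (x.ξ a, x.θ a, x.toCfg.X j a) = (x.ξ b, x.θ b, x.toCfg.X j b)
  rw [e1.1.2, e1.2.1, e1.2.2]

end ZscA

open ZscA

theorem rowZsc : SZsc := by
  intro N hS hC hZ S S' x M β i K κ Φ E L hB hβ hi hκ hL hΦ hE
  have y := hZ S x M β i hB hβ hi
  obtain ⟨L₀, -, hA⟩ := y.alg
  have y1 := hS S (fun n => (x n).zm (β n)) i (fun n => K n × (x n).Ξ)
    (fun n ω => (κ n ω, (x n).ξ ω)) y
    (hA.mono fun n hn => ⟨Fn.trans hn.fz (fn_g' (x n) (β n) (κ n)),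
      Fn.trans hn.fP (fn_g' (x n) (β n) (κ n))⟩)
    ((Sm.add y.inf (Le.frac hκ hi)).mono
      (Eventually.of_forall fun n => info (x n) (β n) (κ n)))
  obtain ⟨L₁, -, hA1⟩ := y1.alg
  have y2 : Bas S' (fun n => (((x n).zm (β n)).side fun ω => (κ n ω, (x n).ξ ω)).setP (Φ n)) i :=
    ⟨y1.big, ⟨L, hL.frac hi, by
      filter_upwards [hA1, hΦ] with n h1 h2
      exact ⟨h1.box, h1.fz, Fn.trans h2.1 (fn_g (x n) (β n) (κ n)), h2.2.2⟩⟩,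
      y1.dir, y1.stk, y1.inf, y1.hgt⟩
  exact hC S' (fun n => (((x n).zm (β n)).side fun ω => (κ n ω, (x n).ξ ω)).setP (Φ n)) i E y2
    (hΦ.mono fun n h => Fn.trans h.2.1 (fn_g (x n) (β n) (κ n))) hE

end Pool.Agent.MP_5168f5_an.H17F
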