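import Pool.Agent.MP_5168f5_an.H17F.Top
import Pool.Agent.MP_5168f5_an.H17F.Base
import Pool.Agent.MP_5168f5_an.H17F.Coarse
import Pool.Agent.MP_5168f5_an.H17F.Cond
import Pool.Agent.MP_5168f5_an.H17F.CondB
import Pool.Agent.MP_5168f5_an.H17F.Det0
import Pool.Agent.MP_5168f5_an.H17F.Det1
import Pool.Agent.MP_5168f5_an.H17F.Det2
import Pool.Agent.MP_5168f5_an.H17F.Det3
import Pool.Agent.MP_5168f5_an.H17F.Det4
import Pool.Agent.MP_5168f5_an.H17F.Diag
import Pool.Agent.MP_5168f5_an.H17F.End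
import Pool.Agent.MP_5168f5_an.H17F.Ex0
import Pool.Agent.MP_5168f5_an.H17F.Exa
import Pool.Agent.MP_5168f5_an.H17F.Exa1
import Pool.Agent.MP_5168f5_an.H17F.Exb
import Pool.Agent.MP_5168f5_an.H17F.G1
import Pool.Agent.MP_5168f5_an.H17F.G2
import Pool.Agent.MP_5168f5_an.H17F.G3
import Pool.Agent.MP_5168f5_an.H17F.Ind
import Pool.Agent.MP_5168f5_an.H17F.KE
import Pool.Agent.MP_5168f5_an.H17F.KG
import Pool.Agent.MP_5168f5_an.H17F.KS
import Pool.Agent.MP_5168f5_an.H17F.Kcl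
import Pool.Agent.MP_5168f5_an.H17F.Key
import Pool.Agent.MP_5168f5_an.H17F.Lb
import Pool.Agent.MP_5168f5_an.H17F.Lb0
import Pool.Agent.MP_5168f5_an.H17F.Lip
import Pool.Agent.MP_5168f5_an.H17F.Lip1
import Pool.Agent.MP_5168f5_an.H17F.Loc1
import Pool.Agent.MP_5168f5_an.H17F.Loc2
import Pool.Agent.MP_5168f5_an.H17F.Low
import Pool.Agent.MP_5168f5_an.H17F.MN
import Pool.Agent.MP_5168f5_an.H17F.NG
import Pool.Agent.MP_5168f5_an.H17F.PullB
import Pool.Agent.MP_5168f5_an.H17F.Side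
import Pool.Agent.MP_5168f5_an.H17F.St1
import Pool.Agent.MP_5168f5_an.H17F.Step
import Pool.Agent.MP_5168f5_an.H17F.Tay
import Pool.Agent.MP_5168f5_an.H17F.Trans
import Pool.Agent.MP_5168f5_an.H17F.Two
import Pool.Agent.MP_5168f5_an.H17F.TwoB
import Pool.Agent.MP_5168f5_an.H17F.ZoomB
import Pool.Agent.MP_5168f5_an.H17F.Zsc
import Pool.Agent.MP_5168f5_an.H29N.NC
import Pool.Agent.MP_5168f5_an.H39F.Main
import Pool.Agent.MP_5168f5_an.H95F.Main
import Pool.Agent.MP_5168f5_an.H17F.Robust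

/-! All steps. -/

namespace Pool.Agent.MP_5168f5_an.H17F

theorem rows_of (h : H39F.CoreP) : Rows :=
  ⟨rowKE, rowKG, rowKS, rowSide, rowPull, rowExb, rowCondB, rowZoomB, rowZsc, rowLow, rowLb0,
    rowLb, rowExa1, rowExa, rowCond, rowCoarse, rowNG, rowMN, rowTwo, rowTwoB, rowLip1, rowLip,
    H29N.nc rowKE h, rowLoc1, rowLoc2, rowKey, rowG1, rowG2, rowG3, rowTrans, rowSt1, rowInd,
    rowKcl, det0, det1, det2, det3, det4, rowBase, tay, step, rowEnd, rowEx0, rowDiag⟩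

theorem good (N : ℕ) : H17S.Good N 0 := (rows_of (H39F.sCoreP H95F.setT H95F.line2)).good N

end Pool.Agent.MP_5168f5_an.H17F
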