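import Pool.Agent.MP_5168f5_an.H17S.FlApi

/-! Sticky Kakeya sets have full dimension: definitions. -/

namespace Pool.Agent.MP_5168f5_an.H17F

open H19 H17S Filter

section Kit

variable {Ω Ω' α β γ : Type}

open Classical in
/-- Probability of an event. -/
noncomputable def pb (P : FP Ω) (E : Ω → Prop) : ℝ := P.E fun ω => if E ω then 1 else 0

open Classical in
theorem pb_eq (P : FP Ω) (E : Ω → Prop) : pb P E = ∑ ω ∈ P.S.filter E, P.p ω := by
  unfold pb FP.E
  rw [Finset.sum_filter]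
  exact Finset.sum_congr rfl fun a _ => by by_cases h : E a <;> simp [h]

open Classical in
theorem pb_pos (P : FP Ω) {E : Ω → Prop} (h : ∃ ω ∈ P.S, E ω) : 0 < pb P E := by
  obtain ⟨ω, h1, h2⟩ := h
  rw [pb_eq]
  exact Finset.sum_pos (fun a ha => P.pos a (Finset.mem_filter.1 ha).1)
    ⟨ω, Finset.mem_filter.2 ⟨h1, h2⟩⟩

open Classical in
/-- The law conditioned on an event (unchanged if the event is empty). -/
noncomputable def cE (P : FP Ω) (E : Ω → Prop) : FP Ω :=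
  if h : ∃ ω ∈ P.S, E ω then
    { S := P.S.filter E
      p := fun a => P.p a / pb P E
      pos := fun a ha => div_pos (P.pos a (Finset.mem_filter.1 ha).1) (pb_pos P h)
      sum_one := by rw [← Finset.sum_div, ← pb_eq, div_self (pb_pos P h).ne'] }
  else P

/-- The law conditioned on the value `s` of `φ`. -/
noncomputable def cv (P : FP Ω) (φ : Ω → β) (s : β) : FP Ω := cE P fun ω => φ ω = s

/-- A point of `P` followed by a point of `k x`. -/
noncomputable def bind (P : FP Ω) (k : Ω → FP Ω') : FP (Ω × Ω') where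
  S := (P.S.sigma fun x => (k x).S).map (Equiv.sigmaEquivProd Ω Ω').toEmbedding
  p := fun v => P.p v.1 * (k v.1).p v.2
  pos := by
    intro v hv
    simp only [Finset.mem_map, Finset.mem_sigma] at hv
    obtain ⟨y, hy, rfl⟩ := hv
    exact mul_pos (P.pos _ hy.1) ((k y.1).pos _ hy.2)
  sum_one := by
    rw [Finset.sum_map, Finset.sum_sigma, ← P.sum_one]
    refine Finset.sum_congr rfl fun ω _ => ?_
    simp only [Equiv.coe_toEmbedding, Equiv.sigmaEquivProd_apply]
    rw [← Finset.mul_sum, FP.sum_one, mul_one]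

theorem mem_bind (P : FP Ω) (k : Ω → FP Ω') (v : Ω × Ω') :
    v ∈ (bind P k).S ↔ v.1 ∈ P.S ∧ v.2 ∈ (k v.1).S := by
  simp only [bind, Finset.mem_map, Finset.mem_sigma]
  constructor
  · rintro ⟨y, hy, rfl⟩; exact hy
  · intro h; exact ⟨⟨v.1, v.2⟩, h, rfl⟩

theorem E_bind (P : FP Ω) (k : Ω → FP Ω') (F : Ω × Ω' → ℝ) :
    (bind P k).E F = P.E fun x => (k x).E fun y => F (x, y) := by
  simp only [FP.E, bind]
  rw [Finset.sum_map, Finset.sum_sigma]
  refine Finset.sum_congr rfl fun ω _ => ?_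
  simp only [Equiv.coe_toEmbedding, Equiv.sigmaEquivProd_apply]
  rw [Finset.mul_sum]
  exact Finset.sum_congr rfl fun _ _ => by ring

/-- Independent product. -/
noncomputable def prod (P : FP Ω) (Q : FP Ω') : FP (Ω × Ω') := bind P fun _ => Q

/-- Two points that are conditionally independent given `φ x = ψ y`. -/
noncomputable def glue (P : FP Ω) (Q : FP Ω') (φ : Ω → β) (ψ : Ω' → β) : FP (Ω × Ω') :=
  bind P fun x => cv Q ψ (φ x)

/-- `f` under `P` and `g` under `Q` have the same law. -/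
def Law (P : FP Ω) (f : Ω → α) (Q : FP Ω') (g : Ω' → α) : Prop :=
  ∀ F : α → ℝ, P.E (fun x => F (f x)) = Q.E fun y => F (g y)

/-- Mutual information of `F` and `G` given `K`. -/
noncomputable def mi (P : FP Ω) (F : Ω → α) (G : Ω → β) (K : Ω → γ) : ℝ :=
  ch P F K - ch P F fun ω => (G ω, K ω)

end Kit

/-- The dyadic cell of side `2^{-j}`, for any index type. -/
noncomputable def flv {ι : Type} (j : ℕ) (x : ι → ℝ) : ι → ℤ := fun i => fl1 j (x i)

/-- An integer vector as a real vector. -/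
def cz {ι : Type} (u : ι → ℤ) : ι → ℝ := fun i => u i

/-! ### Sequences -/

/-- The ultrafilter along which limits are taken. -/
noncomputable def UF : Filter ℕ := (hyperfilter ℕ : Ultrafilter ℕ)

/-- `f ≤ g + o(M)`. -/
def Le (M : ℕ → ℕ) (f g : ℕ → ℝ) : Prop := ∀ ε : ℝ, 0 < ε → ∀ᶠ n in UF, f n ≤ g n + ε * M n

/-- `f ≤ o(M)`. -/
def Sm (M : ℕ → ℕ) (f : ℕ → ℝ) : Prop := Le M f fun _ => 0

/-- `M` tends to infinity. -/
def Big (M : ℕ → ℕ) : Prop := Tendsto M UF atTop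

/-- `1 ≤ L ≤ exp (o(M))`. -/
def Sub (M : ℕ → ℕ) (L : ℕ → ℝ) : Prop :=
  (∀ n, 1 ≤ L n) ∧ ∀ ε : ℝ, 0 < ε → ∀ᶠ n in UF, L n ≤ Real.exp (ε * M n)

/-- `M'` is at most `M` and at least a fixed fraction of it. -/
def Frac (M' M : ℕ → ℕ) : Prop :=
  (∀ n, M' n ≤ M n) ∧ ∃ c : ℝ, 0 < c ∧ ∀ᶠ n in UF, c * M n ≤ M' n

/-- The probability of `E` tends to one. -/
def Whp {Ω : ℕ → Type} (P : ∀ n, FP (Ω n)) (E : ∀ n, Ω n → Prop) : Prop :=
  ∀ ε : ℝ, 0 < ε → ∀ᶠ n in UF, pb (P n) (fun ω => ¬E n ω) ≤ ε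

/-- The probability of `E` stays bounded below. -/
def Pos {Ω : ℕ → Type} (P : ∀ n, FP (Ω n)) (E : ∀ n, Ω n → Prop) : Prop :=
  ∃ κ : ℝ, 0 < κ ∧ ∀ᶠ n in UF, κ ≤ pb (P n) (E n)

/-! ### Systems -/

/-- `A` is the projection to the coordinates outside `S` along a graph over the coordinates
in `S`; its entries are bounded by `L`. -/
def Prj {ι : Type} [DecidableEq ι] (S : Finset ι) (L : ℝ) (A : Matrix ι ι ℝ) : Prop :=
  (∀ i ∈ S, ∀ j, A i j = 0) ∧ (∀ j ∉ S, ∀ i, A i j = if i = j then 1 else 0) ∧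
    ∀ i j, |A i j| ≤ L

/-- Coordinates of the space of lines. -/
abbrev I2 (N : ℕ) : Type := Fin N ⊕ Fin N

variable {N : ℕ}

/-- A configuration with side information `ξ`, a grain projection `Pm` and a projection `Km`
on the space of lines. -/
structure Sy (N : ℕ) extends Cfg N where
  Ξ : Type
  ξ : Ω → Ξ
  Pm : Ω → Matrix (Fin N) (Fin N) ℝ
  Km : Ω → Matrix (I2 N) (I2 N) ℝ

namespace Sy

variable (x : Sy N)

/-- The line as a vector. -/
def l (ω : x.Ω) : I2 N → ℝ := Sum.elim (x.a ω) (x.e ω)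

/-- All the side information. -/
def g (ω : x.Ω) : x.Ξ × x.T := (x.ξ ω, x.θ ω)

/-- The point modulo the grain. -/
noncomputable def π (ω : x.Ω) : V N := (x.Pm ω).mulVec (x.toCfg.pt ω)

/-- The line modulo the kernel of `Km`. -/
noncomputable def ψ (ω : x.Ω) : I2 N → ℝ := (x.Km ω).mulVec (x.l ω)

/-- The coordinates in `S` of the point, at resolution `2^{-j}`. -/
noncomputable def r (S : Finset (Fin N)) (j : ℕ) (ω : x.Ω) : Z N := fun i =>
  if i ∈ S then fl1 j (x.toCfg.pt ω i) else 0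

/-- Condition on an event. -/
noncomputable def cond (E : x.Ω → Prop) : Sy N := { x with P := cE x.P E }

/-- Change the side information. -/
def side {K : Type} (κ : x.Ω → K) : Sy N := { x with Ξ := K, ξ := κ }

/-- Change the grain projection. -/
def setP (Φ : x.Ω → Matrix (Fin N) (Fin N) ℝ) : Sy N := { x with Pm := Φ }

/-- Change the projection on lines. -/
def setK (Φ : x.Ω → Matrix (I2 N) (I2 N) ℝ) : Sy N := { x with Km := Φ }

/-- Rescale the tube of width `2^{-j}`. -/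
noncomputable def zm (j : ℕ) : Sy N :=
  { toCfg := x.toCfg.zoom j, Ξ := x.Ξ, ξ := x.ξ, Pm := x.Pm, Km := x.Km }

/-- Pull back to a larger space. -/
def pull {Ω' : Type} (Q : FP Ω') (f : Ω' → x.Ω) : Sy N where
  Ω := Ω'
  T := x.T
  P := Q
  a := fun v => x.a (f v)
  e := fun v => x.e (f v)
  z := fun v => x.z (f v)
  θ := fun v => x.θ (f v)
  Ξ := x.Ξ
  ξ := fun v => x.ξ (f v)
  Pm := fun v => x.Pm (f v)
  Km := fun v => x.Km (f v)

/-- Rescale, add side information, change the projection and condition on an event. -/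
noncomputable def zsc (j : ℕ) {K : Type} (κ : x.Ω → K) (Φ : x.Ω → Matrix (Fin N) (Fin N) ℝ)
    (E : x.Ω → Prop) : Sy N where
  Ω := x.Ω
  T := x.T × Z N × Z N
  P := cE x.P E
  a := fun ω => fr j (x.a ω)
  e := fun ω => fr j (x.e ω)
  z := x.z
  θ := fun ω => (x.θ ω, x.toCfg.X j ω)
  Ξ := K × x.Ξ
  ξ := fun ω => (κ ω, x.ξ ω)
  Pm := Φ
  Km := x.Km

/-- The exact conditions on the grain projection. -/
structure Alg (S : Finset (Fin N)) (L : ℝ) : Prop where
  box : x.toCfg.Box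
  fz : Fn x.P x.z x.g
  fP : Fn x.P x.Pm x.g
  pP : ∀ ω ∈ x.P.S, Prj S L (x.Pm ω)

/-- The exact conditions on the projection on lines. -/
structure AlgK (SK : Finset (I2 N)) (L : ℝ) : Prop where
  fK : Fn x.P x.Km x.g
  pK : ∀ ω ∈ x.P.S, Prj SK L (x.Km ω)

end Sy

/-- A sticky system. -/
structure Bas (S : Finset (Fin N)) (x : ℕ → Sy N) (M : ℕ → ℕ) : Prop where
  big : Big M
  alg : ∃ L, Sub M L ∧ ∀ᶠ n in UF, (x n).Alg S (L n)
  dir : Le M (fun n => N * M n * lg) fun n =>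
    ch (x n).P (fun ω => fl (M n) ((x n).e ω)) (x n).θ
  stk : ∀ j : ℕ → ℕ, (∀ n, j n ≤ M n) →
    Le M (fun n => ch (x n).P ((x n).toCfg.X (j n)) (x n).θ) fun n => N * j n * lg
  inf : Sm M fun n => mi (x n).P (x n).ξ (x n).toCfg.ln (x n).θ
  hgt : Le M (fun n => M n * lg) fun n =>
    ch (x n).P (fun ω => fl1 (M n) ((x n).z ω)) (x n).θ

/-- An extremal system with a grain over the coordinates `S`, whose lines are determined by
the point modulo the grain up to a graph over the coordinates `SK`. -/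
structure Sys (s : ℝ) (S : Finset (Fin N)) (SK : Finset (I2 N)) (x : ℕ → Sy N) (M : ℕ → ℕ) :
    Prop extends Bas S x M where
  algK : ∃ L, Sub M L ∧ ∀ᶠ n in UF, (x n).AlgK SK (L n)
  grn : Le M (fun n => ch (x n).P (fun ω => fl (M n) ((x n).π ω)) (x n).g) fun n =>
    (N - s - S.card) * M n * lg
  ker : Sm M fun n => ch (x n).P (fun ω => flv (M n) ((x n).ψ ω)) fun ω =>
    (fl (M n) ((x n).π ω), (x n).g ω)

/-- There is such a system. -/
def Ex (s : ℝ) (S : Finset (Fin N)) (SK : Finset (I2 N)) : Prop := ∃ x M, Sys s S SK x M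

/-- Two heights on one line; `ξ₀` is the side information of the first height alone. -/
structure Th (N : ℕ) extends Sy N where
  Ξ₀ : Type
  ξ₀ : Ω → Ξ₀
  z' : Ω → ℝ
  Pm' : Ω → Matrix (Fin N) (Fin N) ℝ
  Km' : Ω → Matrix (I2 N) (I2 N) ℝ

namespace Th

variable (t : Th N)

/-- The first height with its own side information. -/
def fst : Sy N := t.toSy.side t.ξ₀

/-- The second height. -/
def snd : Sy N := { t.toSy with z := t.z', Pm := t.Pm', Km := t.Km' }

/-- Condition on an event. -/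
noncomputable def cond (E : t.Ω → Prop) : Th N := { t with P := cE t.P E }

/-- The exact conditions. -/
structure Alg (a : ℕ) : Prop where
  f0 : Fn t.P t.ξ₀ t.toSy.g
  fz : Fn t.P t.z t.fst.g
  fP : Fn t.P t.Pm t.fst.g
  fK : Fn t.P t.Km t.fst.g
  near : ∀ ω ∈ t.P.S, |t.z' ω - t.z ω| ≤ ((2 : ℝ) ^ a)⁻¹

/-- The two grain projections differ by at most `ε`. -/
def Lip (ε : ℝ) (ω : t.Ω) : Prop := ∀ i j, |t.Pm' ω i j - t.Pm ω i j| ≤ ε

/-- The context of the first height. -/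
noncomputable def Θ (a : ℕ) (ω : t.Ω) : t.T × t.Ξ₀ × Z N := (t.θ ω, t.ξ₀ ω, fl a (t.toSy.π ω))

/-- The data shared by a line and its copy. -/
noncomputable def φ (S : Finset (Fin N)) (a R : ℕ) (j : Fin N) (ω : t.Ω) :
    Z N × (Z N × t.Ξ × t.T × t.Ξ₀ × Z N) :=
  (t.toSy.r (S.erase j) R ω, fl (a + R) (t.snd.π ω), t.ξ ω, t.Θ a ω)

/-- A line and its copy. -/
noncomputable def Q (S : Finset (Fin N)) (a R : ℕ) (j : Fin N) : FP (t.Ω × t.Ω) :=
  glue t.P t.P (t.φ S a R j) (t.φ S a R j)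

/-- Rescaled differences of the heights and of one column of the projections. -/
noncomputable def dd (a R : ℕ) (j : Fin N) (v : t.Ω × t.Ω) : ℤ × Z N :=
  (fl1 R (2 ^ a * (t.z' v.1 - t.z v.1)), fl R fun i => 2 ^ a * (t.Pm' v.1 i j - t.Pm v.1 i j))

/-- Difference of a line and its copy. -/
noncomputable def ww (R : ℕ) (j : Fin N) (v : t.Ω × t.Ω) : ℤ × Z N :=
  (fl1 R (t.toCfg.pt v.2 j) - fl1 R (t.toCfg.pt v.1 j),
    fl R ((t.Pm v.2).mulVec (t.e v.2)) - fl R ((t.Pm v.1).mulVec (t.e v.1)))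

end Th

/-- A second height in the same interval of length `2^{-a}`. -/
noncomputable def Sy.two (x : Sy N) (a : ℕ) : Th N where
  toSy := (x.pull (glue x.P x.P (fun ω => (x.toCfg.ln ω, fl1 a (x.z ω)))
    fun ω => (x.toCfg.ln ω, fl1 a (x.z ω))) Prod.fst).side fun v => (x.ξ v.1, x.ξ v.2)
  Ξ₀ := x.Ξ
  ξ₀ := fun v => x.ξ v.1
  z' := fun v => x.z v.2
  Pm' := fun v => x.Pm v.2
  Km' := fun v => x.Km v.2

/-- Two systems on the same lines whose heights differ by a generic amount of size `2^{-a}`. -/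
structure Two (s : ℝ) (S : Finset (Fin N)) (SK : Finset (I2 N)) (t : ℕ → Th N) (M a : ℕ → ℕ) :
    Prop where
  one : Sys s S SK (fun n => (t n).toSy) M
  two : Sys s S SK (fun n => (t n).snd) M
  alg : ∀ᶠ n in UF, (t n).Alg (a n)
  ful : ∀ j : ℕ → ℕ, (∀ n, a n ≤ j n ∧ j n ≤ M n) → Le M (fun n => (j n - a n : ℝ) * lg) fun n =>
    ch (t n).P (fun ω => fl1 (j n) ((t n).z' ω)) fun ω => ((t n).toCfg.ln ω, (t n).ξ₀ ω)

/-! ### The bilinear map and coarse graining of integer vectors -/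

/-- `(ζ p + r g) / 2^R` for `d = (ζ, g)` and `w = (r, p)`. -/
noncomputable def bil (R : ℕ) (d w : ℤ × Z N) : V N :=
  ((2 : ℝ) ^ R)⁻¹ • ((d.1 : ℝ) • cz w.2 + (w.1 : ℝ) • cz d.2)

/-- An integer vector in units `2^{-R}`, at resolution `2^{-j}`. -/
noncomputable def co (R j : ℕ) (u : Z N) : Z N := fl j (((2 : ℝ) ^ R)⁻¹ • cz u)

/-- The same modulo the direction `b`, normalised by `b i = 1`. -/
noncomputable def cq (R j : ℕ) (i : Fin N) (b : V N) (u : Z N) : Z N :=
  fl j (((2 : ℝ) ^ R)⁻¹ • (cz u - (u i : ℝ) • b))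

/-! ### Minors -/

/-- The coefficient of `X ^ j` in `det (Y + X B)`. -/
noncomputable def dm {k : ℕ} (Y B : Matrix (Fin k) (Fin k) ℝ) (j : ℕ) : ℝ :=
  (Y.map Polynomial.C + (Polynomial.X : Polynomial ℝ) • B.map Polynomial.C).det.coeff j

/-- Directions of the lines in the kernel of `K`. -/
def mB (K : Matrix (I2 N) (I2 N) ℝ) : Matrix (Fin N) (I2 N) ℝ :=
  fun i m => (1 - K) (Sum.inr i) m

/-- Positions at height `z` of the lines in the kernel of `K`. -/
def mY (K : Matrix (I2 N) (I2 N) ℝ) (z : ℝ) : Matrix (Fin N) (I2 N) ℝ :=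
  fun i m => (1 - K) (Sum.inl i) m + z * (1 - K) (Sum.inr i) m

/-- The Taylor coefficients of order `j` at `z` of all minors of size `k` are at most `ε`. -/
def Dm (k j : ℕ) (ε : ℝ) (K : Matrix (I2 N) (I2 N) ℝ) (z : ℝ) : Prop :=
  ∀ (ρ : Fin k → Fin N) (γ : Fin k → I2 N),
    |dm ((mY K z).submatrix ρ γ) ((mB K).submatrix ρ γ) j| ≤ ε

/-- There is a system whose Taylor coefficients of order `j` vanish. -/
def ExD (s : ℝ) (S : Finset (Fin N)) (SK : Finset (I2 N)) (j : ℕ) : Prop :=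
  ∃ x M L, Sys s S SK x M ∧ Sub M L ∧ ∀ᶠ n in UF, ∀ ω ∈ (x n).P.S,
    Dm (S.card + 1) j (L n / 2 ^ M n) ((x n).Km ω) ((x n).z ω)

end Pool.Agent.MP_5168f5_an.H17F
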