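import Pool.Agent.MP_5168f5_an.H17F.SqApi

/-! Directions of the kernel span at most the dimension of the grain, so there is no loss. -/

namespace Pool.Agent.MP_5168f5_an.H17F

open H19 H17S Filter

namespace EndA

variable {N : ℕ}

theorem lin (K : Matrix (I2 N) (I2 N) ℝ) (c : Matrix (Fin N) (Fin N) ℝ) (T : Finset (Fin N))
    (d : I2 N → ℝ) {η τ : ℝ} (hη : 0 ≤ η) (hτ : 0 ≤ τ) (hd : ‖d‖ ≤ 2) (hK : ‖K.mulVec d‖ ≤ η)
    (hT : ∀ j ∈ T, |d (Sum.inr j)| ≤ η) (hc : ∀ i j, |c i j| ≤ 1 ∧ (j ∉ T → c i j = 0))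
    (hB : ∀ i m, |mB K i m - (c * mB K) i m| ≤ τ) :
    ‖fun i => d (Sum.inr i)‖ ≤ (2 * N + 1) * η + 4 * N * τ := by
  set u : V N := fun i => d (Sum.inr i) with hu
  set v : V N := fun i => K.mulVec d (Sum.inr i) with hv
  set u' : V N := fun j => if j ∈ T then u j else 0 with hu'
  have e1 : (mB K).mulVec d = u - v := by
    funext i
    have : (mB K).mulVec d i = (1 - K).mulVec d (Sum.inr i) := rfl
    rw [this, Matrix.sub_mulVec, Matrix.one_mulVec]
    rfl
  have e2 : c.mulVec u = c.mulVec u' := by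
    funext i
    change ∑ j, c i j * u j = ∑ j, c i j * u' j
    refine Finset.sum_congr rfl fun j _ => ?_
    by_cases h : j ∈ T
    · simp only [hu', h, if_true]
    · simp only [(hc i j).2 h, zero_mul]
  have e3 : u = v + c.mulVec u' - c.mulVec v + (mB K - c * mB K).mulVec d := by
    rw [Matrix.sub_mulVec, ← Matrix.mulVec_mulVec, e1, Matrix.mulVec_sub, e2]
    abel
  have n1 : ‖v‖ ≤ η := (pi_norm_le_iff_of_nonneg hη).2 fun i =>
    (norm_le_pi_norm (K.mulVec d) (Sum.inr i)).trans hK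
  have n2 : ‖u'‖ ≤ η := (pi_norm_le_iff_of_nonneg hη).2 fun j => by
    by_cases h : j ∈ T
    · simp only [hu', h, if_true]; exact hT j h
    · simp only [hu', h, if_false, norm_zero]; exact hη
  have n3 := norm_mulVec_le zero_le_one (fun i j => (hc i j).1) u'
  have n4 := norm_mulVec_le zero_le_one (fun i j => (hc i j).1) v
  have n5 := norm_mulVec_le (A := mB K - c * mB K) hτ hB d
  simp only [Fintype.card_fin, Fintype.card_sum, Nat.cast_add, mul_one] at n3 n4 n5
  have hN : (0 : ℝ) ≤ N := Nat.cast_nonneg N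
  have m3 := mul_le_mul_of_nonneg_left n2 hN
  have m4 := mul_le_mul_of_nonneg_left n1 hN
  have m5 := mul_le_mul_of_nonneg_left hd (show 0 ≤ ((N : ℝ) + N) * τ by positivity)
  rw [e3]
  have t1 := norm_add_le (v + c.mulVec u' - c.mulVec v) ((mB K - c * mB K).mulVec d)
  have t2 := norm_sub_le (v + c.mulVec u') (c.mulVec v)
  have t3 := norm_add_le v (c.mulVec u')
  linarith

/-- The coordinates in `T` of a vector, at resolution `2^{-j}`. -/
noncomputable def sel (T : Finset (Fin N)) (j : ℕ) (e : V N) : Z N := fun i =>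
  if i ∈ T then fl1 j (e i) else 0

theorem ch_sel {Ω β : Type} {P : FP Ω} {G : Ω → β} {T : Ω → Finset (Fin N)} {e : Ω → V N}
    {j w : ℕ} (hT : Fn P T G) (hw : ∀ ω ∈ P.S, (T ω).card ≤ w)
    (he : ∀ ω ∈ P.S, ∀ i, 0 ≤ e ω i ∧ e ω i < 1) :
    ch P (fun ω => sel (T ω) j (e ω)) G ≤ w * j * lg := by
  have h1 : Det P (fun ω => sel (T ω) j (e ω)) G (((2 : ℝ) ^ j) ^ w) := by
    intro a ha
    refine ⟨Fintype.piFinset fun i => if i ∈ T a then Finset.Ico (0 : ℤ) (2 ^ j) else {0}, ?_,
      fun b hb k => ?_⟩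
    · rw [Fintype.card_piFinset]
      have e1 : ∀ i, (if i ∈ T a then Finset.Ico (0 : ℤ) (2 ^ j) else {0}).card =
          if i ∈ T a then 2 ^ j else 1 := by
        intro i
        split_ifs
        · rw [Int.card_Ico, sub_zero]
          exact_mod_cast Int.toNat_natCast (2 ^ j)
        · rfl
      simp only [e1]
      rw [Finset.prod_ite_mem, Finset.univ_inter, Finset.prod_const]
      push_cast
      exact pow_le_pow_right₀ (one_le_pow₀ one_le_two) (hw a ha)
    · rw [Fintype.mem_piFinset]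
      intro i
      simp only [sel, hT b hb a ha k]
      split_ifs
      · have h2 := fl1_mem_Ico (j := 0) (i := j) (x := e b i) (y := 0)
          (by rw [fl1_zero_of_box (he b hb i).1 (he b hb i).2, fl1_zero_of_box le_rfl one_pos])
        rw [fl1_zero_of_box le_rfl one_pos] at h2
        simpa using h2
      · exact Finset.mem_singleton_self _
  refine (ch_det h1).trans (le_of_eq ?_)
  rw [Real.log_pow, log_two_pow]; ring

theorem tau {L : ℝ} (hL : 1 ≤ L) (M w : ℕ) : L / 2 ^ M ≤ (L / 2 ^ (M / (w + 1))) ^ (w + 1) := by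
  rw [div_pow, ← pow_mul]
  exact div_le_div₀ (by positivity) (le_self_pow₀ hL (by omega)) (by positivity)
    (pow_le_pow_right₀ one_le_two (Nat.div_mul_le_self _ _))

end EndA

open EndA

theorem rowEnd : SEnd := by
  intro N s S SK clo d0 d4 hx
  obtain ⟨x, M, L, hS, hL, hD⟩ := hx
  have hM : Big M := hS.big
  obtain ⟨_, _, u1⟩ := hS.alg
  obtain ⟨_, _, u2⟩ := hS.algK
  have hF : Frac (fun n => M n / (S.card + 1)) M := hM.frac_div (Nat.succ_pos _)
  generalize hm : (fun n => M n / (S.card + 1)) = m at hF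
  have hc : ∀ (n : ℕ) (K : Matrix (I2 N) (I2 N) ℝ), ∃ (T : Finset (Fin N))
      (c : Matrix (Fin N) (Fin N) ℝ), ∀ z, Dm (S.card + 1) (S.card + 1) (L n / 2 ^ M n) K z →
      T.card ≤ S.card ∧ (∀ i j, |c i j| ≤ 1 ∧ (j ∉ T → c i j = 0)) ∧
        ∀ i k, |mB K i k - (c * mB K) i k| ≤ L n / 2 ^ m n := by
    intro n K
    by_cases h : ∃ z, Dm (S.card + 1) (S.card + 1) (L n / 2 ^ M n) K z
    · obtain ⟨z, hz⟩ := h
      obtain ⟨T, c, h⟩ := d4 N S.card (mB K) (L n / 2 ^ m n)
        (div_pos (hL.pos n) (by positivity)) fun ρ γ => by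
          have := hz ρ γ
          rw [(d0 _ _ _).2] at this
          rw [← hm]
          exact this.trans (tau (hL.1 n) _ _)
      exact ⟨T, c, fun _ _ => h⟩
    · exact ⟨∅, 0, fun z hz => absurd ⟨z, hz⟩ h⟩
  choose T c hc using hc
  have b := clo.exb S x M hS.toBas
  have a := clo.exa S SK x M hS
  have h1 := b.dir m hF.1
  have h2 := a.e0 m hF.1
  have h3 := a.ek m hF.1
  have hN : (0 : ℝ) ≤ N := Nat.cast_nonneg N
  have h4 := Sm.near (P := fun n => (x n).P) (x := fun n => (x n).e) (j := m)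
    (G := fun n ω => (sel (T n ((x n).Km ω)) (m n) ((x n).e ω), flv (m n) ((x n).ψ ω),
      fl (m n) ((x n).π ω), (x n).g ω)) hM
    (hL.const_mul hM (show (1 : ℝ) ≤ 6 * N + 1 by linarith)) (by
    filter_upwards [hD, u1, u2] with n d v1 v2 a ha b hb e
    simp only [Prod.mk.injEq] at e
    obtain ⟨e1, e2, -, e4⟩ := e
    have k := v2.fK a ha b hb e4
    obtain ⟨-, c2, c3⟩ := hc n _ _ (d a ha)
    have p2 : (0 : ℝ) < 2 ^ m n := by positivity
    have := lin ((x n).Km a) (c n ((x n).Km a)) (T n ((x n).Km a)) ((x n).l a - (x n).l b)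
      (η := ((2 : ℝ) ^ m n)⁻¹) (by positivity) (div_pos (hL.pos n) p2).le
      ((norm_sub_le _ _).trans (by linarith [Sy.norm_l v1.box ha, Sy.norm_l v1.box hb]))
      (by
        rw [Matrix.mulVec_sub]
        have := (norm_sub_lt_of_flv_eq e2).le
        unfold Sy.ψ at this
        rwa [← k] at this)
      (fun j hj => by
        have := congrFun e1 j
        rw [← k] at this
        simp only [sel, hj, if_true] at this
        exact (abs_sub_lt_of_fl1_eq this).le) c2 c3
    refine le_trans this ?_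
    have q : ((2 : ℝ) ^ m n)⁻¹ ≤ L n / 2 ^ m n := by
      rw [← one_div]; exact div_le_div_of_nonneg_right (hL.1 n) p2.le
    have q2 := mul_le_mul_of_nonneg_left q (show (0 : ℝ) ≤ 2 * N + 1 by positivity)
    rw [mul_div_assoc]
    linarith)
  have h5 : Sm M fun n => s * m n * lg := by
    refine Le.of_sub (((h1.add h2).add h3).add h4) ?_
    filter_upwards [hD, u1, u2] with n d v1 v2
    have t1 := ch_drop (P := (x n).P) (fun ω => fl (m n) ((x n).e ω))
      (fun ω => fl (m n) ((x n).π ω)) (x n).g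
    have t2 := ch_drop (P := (x n).P) (fun ω => fl (m n) ((x n).e ω))
      (fun ω => flv (m n) ((x n).ψ ω)) fun ω => (fl (m n) ((x n).π ω), (x n).g ω)
    have t3 := ch_drop (P := (x n).P) (fun ω => fl (m n) ((x n).e ω))
      (fun ω => sel (T n ((x n).Km ω)) (m n) ((x n).e ω))
      fun ω => (flv (m n) ((x n).ψ ω), fl (m n) ((x n).π ω), (x n).g ω)
    have t4 := ch_sel (P := (x n).P) (T := fun ω => T n ((x n).Km ω)) (e := (x n).e) (j := m n)
      (G := fun ω => (flv (m n) ((x n).ψ ω), fl (m n) ((x n).π ω), (x n).g ω)) (w := S.card)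
      (fun a ha b hb e => congrArg (T n) (v2.fK a ha b hb (congrArg (·.2.2) e)))
      (fun ω hω => (hc n _ _ (d ω hω)).1) fun ω hω => (v1.box ω hω).2.1
    simp only [← fl_eq_flv] at t1 t2 t3 t4 ⊢
    linarith
  by_contra hs
  push Not at hs
  obtain ⟨-, κ, hκ, hF⟩ := hF
  refine Le.false h5 hM (c := s * κ * lg) (by have := lg_pos; positivity) ?_
  filter_upwards [hF] with n h
  have := mul_le_mul_of_nonneg_left h (show 0 ≤ s * lg by have := lg_pos; positivity)
  linarith

end Pool.Agent.MP_5168f5_an.H17F
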