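import Pool.Agent.MP_5168f5_an.H17F.Spec

/-! Elementary facts on events and subexponential sequences. -/

namespace Pool.Agent.MP_5168f5_an.H17F.Ev

open H19 H17S Filter

variable {Ω : Type}

theorem pb_mono (P : FP Ω) {E F : Ω → Prop} (h : ∀ ω ∈ P.S, E ω → F ω) : pb P E ≤ pb P F := by
  classical
  refine P.E_mono fun ω hω => ?_
  by_cases h1 : E ω
  · simp [h1, h ω hω h1]
  · simp only [h1, if_false]; split_ifs <;> norm_num

theorem pb_not (P : FP Ω) (E : Ω → Prop) : pb P (fun ω => ¬E ω) = 1 - pb P E := by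
  classical
  unfold pb
  rw [← P.E_const 1, ← P.E_sub]
  refine P.E_congr fun ω _ => ?_
  by_cases h : E ω <;> simp [h, P.E_const]

theorem pb_or (P : FP Ω) (E F : Ω → Prop) : pb P (fun ω => E ω ∨ F ω) ≤ pb P E + pb P F := by
  classical
  unfold pb
  rw [← P.E_add]
  refine P.E_mono fun ω _ => ?_
  by_cases h : E ω <;> by_cases h' : F ω <;> simp [h, h']

theorem pb_all (P : FP Ω) {E : Ω → Prop} (h : ∀ ω ∈ P.S, E ω) : pb P (fun ω => ¬E ω) = 0 := by
  classical
  unfold pb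
  rw [← P.E_const 0]
  refine P.E_congr fun ω hω => ?_
  simp [h ω hω, P.E_const]

theorem ex_of_pos (P : FP Ω) {E : Ω → Prop} (h : 0 < pb P E) : ∃ ω ∈ P.S, E ω := by
  by_contra hn
  push Not at hn
  have h1 := pb_all P hn
  have h2 := pb_mono P (E := E) (F := fun ω => ¬¬E ω) fun ω _ h => not_not.2 h
  linarith

theorem mem_cE (P : FP Ω) (E : Ω → Prop) {ω : Ω} (h : ω ∈ (cE P E).S) : ω ∈ P.S := by
  classical
  unfold cE at h
  split_ifs at h with h1
  · exact (Finset.mem_filter.1 h).1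
  · exact h

theorem of_mem_cE (P : FP Ω) {E : Ω → Prop} (hp : 0 < pb P E) {ω : Ω} (h : ω ∈ (cE P E).S) :
    E ω := by
  classical
  unfold cE at h
  rw [dif_pos (ex_of_pos P hp)] at h
  exact (Finset.mem_filter.1 h).2

section Seq

variable {Ω : ℕ → Type} {P : ∀ n, FP (Ω n)} {E F : ∀ n, Ω n → Prop}

instance : UF.NeBot := by unfold UF; infer_instance

theorem whp_mono (h : Whp P E) (h' : ∀ᶠ n in UF, ∀ ω ∈ (P n).S, E n ω → F n ω) : Whp P F := by
  intro ε hε
  filter_upwards [h ε hε, h'] with n h1 h2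
  exact (pb_mono _ fun ω hω hn he => hn (h2 ω hω he)).trans h1

theorem whp_and (h : Whp P E) (h' : Whp P F) : Whp P fun n ω => E n ω ∧ F n ω := by
  intro ε hε
  filter_upwards [h (ε / 2) (by positivity), h' (ε / 2) (by positivity)] with n h1 h2
  have h3 := pb_mono (P n) (E := fun ω => ¬(E n ω ∧ F n ω)) (F := fun ω => ¬E n ω ∨ ¬F n ω)
    fun ω _ hn => not_and_or.1 hn
  have h4 := pb_or (P n) (fun ω => ¬E n ω) fun ω => ¬F n ω
  linarith

theorem whp_pos (h : Whp P E) : Pos P E := by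
  refine ⟨1 / 2, by norm_num, ?_⟩
  filter_upwards [h (1 / 2) (by norm_num)] with n h1
  rw [pb_not] at h1
  linarith

theorem whp_all (h : ∀ᶠ n in UF, ∀ ω ∈ (P n).S, E n ω) : Whp P E := by
  intro ε hε
  filter_upwards [h] with n h1
  rw [pb_all _ h1]
  exact hε.le

theorem pos_mem (h : Pos P E) : ∀ᶠ n in UF, ∀ ω ∈ (cE (P n) (E n)).S, ω ∈ (P n).S ∧ E n ω := by
  obtain ⟨κ, hκ, h⟩ := h
  filter_upwards [h] with n h1 ω hω
  exact ⟨mem_cE _ _ hω, of_mem_cE _ (hκ.trans_le h1) hω⟩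

variable {M M' : ℕ → ℕ} {L L' : ℕ → ℝ}

theorem big_ge (h : Big M) (C : ℝ) : ∀ᶠ n in UF, C ≤ M n :=
  (tendsto_natCast_atTop_atTop.comp h).eventually_ge_atTop C

theorem sub_mul (h : Sub M L) (h' : Sub M L') : Sub M fun n => L n * L' n := by
  refine ⟨fun n => one_le_mul_of_one_le_of_one_le (h.1 n) (h'.1 n), fun ε hε => ?_⟩
  filter_upwards [h.2 (ε / 2) (by positivity), h'.2 (ε / 2) (by positivity)] with n h1 h2
  have h3 : Real.exp (ε * M n) = Real.exp (ε / 2 * M n) * Real.exp (ε / 2 * M n) := by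
    rw [← Real.exp_add]; ring_nf
  rw [h3]
  exact mul_le_mul h1 h2 (zero_le_one.trans (h'.1 n)) (Real.exp_pos _).le

theorem sub_one : Sub M fun _ => 1 :=
  ⟨fun _ => le_rfl, fun ε hε => Eventually.of_forall fun n => Real.one_le_exp (by positivity)⟩

theorem sub_pow (h : Sub M L) (k : ℕ) : Sub M fun n => L n ^ k := by
  induction k with
  | zero => simpa using sub_one
  | succ k ih => simpa [pow_succ] using sub_mul ih h

theorem sub_const (hM : Big M) {C : ℝ} (hC : 1 ≤ C) : Sub M fun _ => C := by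
  refine ⟨fun _ => hC, fun ε hε => ?_⟩
  filter_upwards [big_ge hM (C / ε)] with n h1
  rw [div_le_iff₀ hε] at h1
  have := Real.add_one_le_exp (ε * M n)
  linarith

theorem sub_frac (h : Sub M L) (h' : Frac M' M) : Sub M' L := by
  obtain ⟨c, hc, h2⟩ := h'.2
  refine ⟨h.1, fun ε hε => ?_⟩
  filter_upwards [h.2 (ε * c) (by positivity), h2] with n h3 h4
  refine h3.trans (Real.exp_le_exp.2 ?_)
  rw [mul_assoc]
  exact mul_le_mul_of_nonneg_left h4 hε.le

theorem frac_half (hM : Big M) : Frac (fun n => M n / 2) M := by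
  refine ⟨fun n => Nat.div_le_self _ _, 1 / 4, by norm_num, ?_⟩
  filter_upwards [big_ge hM 2] with n h1
  have h2 : M n ≤ 2 * (M n / 2) + 1 := by omega
  have h3 : (M n : ℝ) ≤ 2 * ((M n / 2 : ℕ) : ℝ) + 1 := by exact_mod_cast h2
  linarith

theorem floor_le {c : ℝ} (hc : c ≤ 1) (R : ℕ) : ⌊c * R⌋₊ ≤ R := by
  refine Nat.floor_le_of_le ?_
  have : (0 : ℝ) ≤ R := Nat.cast_nonneg R
  nlinarith

theorem frac_floor (hM : Big M) (h : Frac M' M) {c : ℝ} (hc : 0 < c) (hc1 : c ≤ 1) :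
    Frac (fun n => ⌊c * M' n⌋₊) M := by
  obtain ⟨h1, d, hd, h2⟩ := h
  refine ⟨fun n => (floor_le hc1 _).trans (h1 n), c * d / 2, by positivity, ?_⟩
  filter_upwards [h2, big_ge hM (2 / (c * d))] with n h3 h4
  rw [div_le_iff₀ (by positivity)] at h4
  have h5 := Nat.lt_floor_add_one (c * M' n)
  have h6 := mul_le_mul_of_nonneg_left h3 hc.le
  nlinarith

end Seq

end Pool.Agent.MP_5168f5_an.H17F.Ev
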