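import Pool.Agent.MP_5168f5_an.H17F.SqApi

/-! The kernels at two close heights are close. -/

namespace Pool.Agent.MP_5168f5_an.H17F

open H19 H17S Filter

namespace KclA

theorem ch_pt {N : ℕ} {β : Type} {x : Sy N} (h : x.toCfg.Box) (R : ℕ) (i : Fin N) (G : x.Ω → β) :
    ch x.P (fun ω => fl1 R (x.toCfg.pt ω i)) G ≤ R * lg + 5 := by
  have h1 : ch x.P (fun ω => fl1 0 (x.toCfg.pt ω i)) G ≤ 5 :=
    ch_fl1_near (j := fun _ => 0) (n := 2) (by norm_num) (fun _ _ _ _ _ => rfl) fun a ha b hb _ => by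
      have u := Sy.pt_box h ha i
      have v := Sy.pt_box h hb i
      rw [abs_le]; constructor <;> norm_num <;> linarith [u.1, u.2, v.1, v.2]
  have h2 := ch_fl1_refine (P := x.P) (x := fun ω => x.toCfg.pt ω i) (j := fun _ => 0)
    (i := fun _ => R) (G := fun ω => (fl1 0 (x.toCfg.pt ω i), G ω)) (fun _ _ _ _ _ => rfl)
    (fun _ _ _ _ _ => rfl) (Fn.fst _ _)
  simp only [zero_add, FP.E_const] at h2
  have h3 := ch_tri (P := x.P) (fun ω => fl1 R (x.toCfg.pt ω i))
    (fun ω => fl1 0 (x.toCfg.pt ω i)) G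
  linarith

end KclA

open KclA in
theorem rowKcl : SKcl := by
  intro N s c S SK clo ind loc N0 c0 c1 st1 mn t M a R L st
  have l1 := loc S SK t M a R L st
  have big := st.two.one.big
  obtain ⟨L1, -, al1⟩ := st.two.one.alg
  obtain ⟨L2, sub2, al2⟩ := st.two.one.algK
  obtain ⟨L3, -, al3⟩ := st.two.two.algK
  have kM : ∀ n, a n + ⌊c * R n⌋₊ ≤ M n := fun n =>
    (Nat.add_le_add_left (Nat.floor_le_of_le
      (by nlinarith [Nat.cast_nonneg (α := ℝ) (R n)])) _).trans (st.le n).2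
  have s1 : Sm M fun n => ch (t n).P (fun ω => fl (a n + ⌊c * R n⌋₊) ((t n).toSy.π ω)) fun ω =>
      (fl (a n + R n) ((t n).snd.π ω), (t n).ξ ω, (t n).Θ (a n) ω) := by
    obtain ⟨C, C0, hC⟩ := ind N
    intro ε hε
    have e0 : 0 < ε / (2 * (C + 1)) := by positivity
    filter_upwards [eventually_all.2 fun j => st1 SK t M a R L j st _ e0, l1.f3 _ e0,
      big.sm (S.card * 5) _ e0, al1] with n u1 u2 u3 u4
    have p0 : 0 ≤ ε / (2 * (C + 1)) * M n := by positivity
    have := hC (t n).P _ _ (fun ω i => fl1 (R n) ((t n).toCfg.pt ω i)) S (R n * lg + 5)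
      (2 * (ε / (2 * (C + 1)) * M n)) N0 (by positivity)
      (fun j => (u1 j).trans (by linarith)) (fun i _ => ch_pt (x := (t n).toSy) u4.box _ i _)
      (le_trans (by linarith) (sub_le_iff_le_add.2 u2))
    refine this.trans ?_
    have e : C * (2 * (ε / (2 * (C + 1)) * M n)) = C / (C + 1) * (ε * M n) := by field_simp
    rw [e, zero_add]
    exact mul_le_of_le_one_left (by positivity) ((div_le_one (by positivity)).2 (by linarith))
  have s3 : Sm M fun n => ch (t n).P (fun ω => flv (a n + ⌊c * R n⌋₊) ((t n).toSy.ψ ω)) fun ω =>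
      (fl (M n) ((t n).snd.π ω), (t n).toSy.g ω) := by
    refine ((s1.add l1.f4).add ((clo.exa S SK _ M st.two.one).ek _ kM)).mono ?_
    filter_upwards [st.two.alg] with n al
    have aM : a n ≤ M n := (Nat.le_add_right _ _).trans (st.le n).2
    refine (ch_tri' _ _ fun ω => (fl (a n + ⌊c * R n⌋₊) ((t n).toSy.π ω), (t n).toSy.g ω)).trans
      ((add_comm _ _).trans_le (add_le_add ?_ le_rfl))
    refine (ch_mono (F' := fun ω => fl (a n + ⌊c * R n⌋₊) ((t n).toSy.π ω))
      ((Fn.fst _ _).pair (((Fn.snd _ _).right _)))).trans ((ch_tri' _ _ _).trans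
        (add_le_add le_rfl (ch_le (fun u hu v hv e => ?_) fun u _ v _ e => ?_)))
    · simp only [Prod.mk.injEq] at e
      obtain ⟨e1, e2, e3⟩ := e
      have e4 : (t n).ξ u = (t n).ξ v := congrArg Prod.fst e3
      have e5 : (t n).θ u = (t n).θ v := congrArg Prod.snd e3
      exact Prod.ext (fl_eq_of_le (st.le n).2 e2) (Prod.ext e4
        (Prod.ext e5 (Prod.ext (al.f0 u hu v hv e3) e1)))
    · simp only [Prod.mk.injEq] at e
      exact Prod.ext (fl_eq_of_le aM e.1) e.2
  obtain ⟨L', sub', w⟩ := mn (fun n => (t n).snd) M _ (I2 N) (fun n => (t n).Km) L2 st.two.two kM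
    sub2 (al2.mono fun n h => ⟨h.fK, fun ω hω => (h.pK ω hω).2.2⟩) s3
  refine ⟨L', sub', w.mono ?_⟩
  filter_upwards [al2, al3] with n h2 h3 ω hω h i j
  have := h i j
  rwa [Matrix.mul_sub, Matrix.mul_one, (h2.pK ω hω).mul (h3.pK ω hω)] at this

end Pool.Agent.MP_5168f5_an.H17F
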