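import Pool.Agent.MP_5168f5_an.H17F.Sq2

/-! Changing the side information of a system. -/

namespace Pool.Agent.MP_5168f5_an.H17F

open H19 H17S Filter

namespace Side

theorem key {Ω α β γ δ ε ζ η : Type} {P : FP Ω} {ξ : Ω → α} {κ : Ω → η} {L : Ω → β} {G : Ω → γ}
    {h : Ω → δ} {W : Ω → ε} {f : Ω → ζ} (hG : Fn P G L) (h1 : Fn P h fun ω => (ξ ω, G ω))
    (h2 : Fn P h fun ω => (κ ω, G ω)) (h3 : Fn P W fun ω => (L ω, h ω))
    (h4 : Fn P f fun ω => (L ω, h ω)) :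
    ch P f (fun ω => (W ω, κ ω, G ω)) ≤ ch P f (fun ω => (W ω, ξ ω, G ω)) + mi P ξ L G := by
  have e1 := ch_info (G' := fun ω => (W ω, h ω, G ω)) hG h1 (Fn.snd _ _)
    (h3.pair ((Fn.snd L h).pair (hG.left h))) h4
  have e2 : ch P f (fun ω => (W ω, κ ω, G ω)) ≤ ch P f fun ω => (W ω, h ω, G ω) :=
    ch_anti ((Fn.fst _ _).pair ((h2.pair (Fn.snd κ G)).right W))
  have e3 : ch P f (fun ω => (ξ ω, W ω, h ω, G ω)) ≤ ch P f fun ω => (W ω, ξ ω, G ω) :=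
    ch_anti fun a _ b _ e => by simp only [Prod.mk.injEq] at e ⊢; tauto
  have e4 : ch P ξ (fun ω => (L ω, G ω)) ≤ ch P ξ L := ch_anti (Fn.fst L G)
  unfold mi
  linarith

variable {N : ℕ} (x : Sy N)

theorem fθ : Fn x.P x.θ x.toCfg.ln := fun _ _ _ _ e => congrArg (·.2.2) e

theorem fπ (j : ℕ) :
    Fn x.P (fun ω => fl j (x.π ω)) fun ω => (x.toCfg.ln ω, x.z ω, x.Pm ω, x.Km ω) :=
  fun a _ b _ e => by
    simp only [Cfg.ln, Prod.mk.injEq] at e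
    simp only [Sy.π, Cfg.pt, e]

theorem fψ (j : ℕ) :
    Fn x.P (fun ω => flv j (x.ψ ω)) fun ω => (x.toCfg.ln ω, x.z ω, x.Pm ω, x.Km ω) :=
  fun a _ b _ e => by
    simp only [Cfg.ln, Prod.mk.injEq] at e
    simp only [Sy.ψ, Sy.l, e]

theorem sideB : SideB N := fun _ _ _ _ _ h hf hi =>
  ⟨h.big, h.alg.imp fun _ hL => ⟨hL.1, (hL.2.and hf).mono fun _ a =>
    ⟨a.1.box, a.2.1, a.2.2, a.1.pP⟩⟩, h.dir, h.stk, hi, h.hgt⟩

end Side

open Side in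
theorem rowSide : SSide := fun N s => ⟨sideB, fun S SK x M K κ h hf hi => by
  obtain ⟨_, -, h1⟩ := h.alg
  obtain ⟨L, hL, h2⟩ := h.algK
  refine ⟨sideB S x M K κ h.toBas (hf.mono fun _ a => ⟨a.1, a.2.1⟩) hi,
    ⟨L, hL, (h2.and hf).mono fun _ a => ⟨a.2.2.2, a.1.pK⟩⟩, h.grn.of2 h.inf ?_,
    h.ker.of2 h.inf ?_⟩ <;> filter_upwards [h1, h2, hf] with n a b c
  · have e1 := key (W := fun _ => ()) (fθ (x n)) (a.fz.pair (a.fP.pair b.fK))
      (c.1.pair (c.2.1.pair c.2.2)) (fun _ _ _ _ _ => rfl) (fπ (x n) (M n))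
    have e2 : ch (x n).P (fun ω => fl (M n) ((x n).π ω)) ((x n).side (κ n)).g ≤
        ch (x n).P _ fun ω => ((), κ n ω, (x n).θ ω) := ch_anti fun _ _ _ _ e => Prod.ext rfl e
    have e3 : ch (x n).P (fun ω => fl (M n) ((x n).π ω)) (fun ω => ((), (x n).ξ ω, (x n).θ ω)) ≤
        ch (x n).P _ (x n).g := ch_anti (Fn.snd _ _)
    exact (sub_le_sub_right (e2.trans e1) _).trans (by linarith)
  · exact (sub_le_sub_right (key (fθ (x n)) (a.fz.pair (a.fP.pair b.fK))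
      (c.1.pair (c.2.1.pair c.2.2)) (fπ (x n) (M n)) (fψ (x n) (M n))) _).trans
      (by simp only [sub_zero]; rfl)⟩

end Pool.Agent.MP_5168f5_an.H17F
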