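import Pool.Agent.MP_5168f5_an.H17F.Defs

/-! Sticky Kakeya sets have full dimension: the statements of the steps. -/

namespace Pool.Agent.MP_5168f5_an.H17F

open H19 H17S Filter

/-! ### Kit -/

/-- Entropy and events. -/
structure KE : Prop where
  le : ∀ {Ω α β : Type} (P : FP Ω) (E : Ω → Prop) (F : Ω → α) (G : Ω → β),
    ch P F G ≤ lg + pb P E * ch (cE P E) F G + (1 - pb P E) * ch (cE P fun ω => ¬E ω) F G
  ge : ∀ {Ω α β : Type} (P : FP Ω) (E : Ω → Prop) (F : Ω → α) (G : Ω → β),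
    pb P E * ch (cE P E) F G + (1 - pb P E) * ch (cE P fun ω => ¬E ω) F G ≤ ch P F G
  eq : ∀ {Ω α β : Type} (P : FP Ω) (E : Ω → Prop) (F : Ω → α) (G : Ω → β), Fn P E G →
    ch P F G = pb P E * ch (cE P E) F G + (1 - pb P E) * ch (cE P fun ω => ¬E ω) F G
  inf : ∀ {Ω α β γ : Type} (P : FP Ω) (E : Ω → Prop) (F : Ω → α) (G : Ω → β) (K : Ω → γ),
    Fn P E (fun ω => (F ω, K ω)) → pb P E * mi (cE P E) F G K ≤ mi P F G K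
  exp : ∀ {Ω β : Type} (P : FP Ω) (φ : Ω → β) (F : β → Ω → ℝ),
    P.E (fun ω => F (φ ω) ω) = P.E fun ω => (cv P φ (φ ω)).E (F (φ ω))
  ent : ∀ {Ω α β γ : Type} (P : FP Ω) (φ : Ω → β) (F : β → Ω → α) (G : β → Ω → γ),
    ch P (fun ω => F (φ ω) ω) (fun ω => (G (φ ω) ω, φ ω)) =
      P.E fun ω => ch (cv P φ (φ ω)) (F (φ ω)) (G (φ ω))
  ent1 : ∀ {Ω α β : Type} (P : FP Ω) (φ : Ω → β) (F : β → Ω → α),
    ch P (fun ω => F (φ ω) ω) φ = P.E fun ω => hh (cv P φ (φ ω)) (F (φ ω))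
  law : ∀ {Ω Ω' α : Type} (P : FP Ω) (Q : FP Ω') (f : Ω → α) (g : Ω' → α) (E : α → Prop),
    Law P f Q g → Law (cE P fun ω => E (f ω)) f (cE Q fun ω => E (g ω)) g
  sparse : ∀ {Ω α β : Type} (P : FP Ω) (E : Ω → Prop) (F : Ω → α) (G : Ω → β) (B B' : ℝ),
    Det P F G B → (∀ a ∈ P.S, ∃ T : Finset α, (T.card : ℝ) ≤ B' ∧
      ∀ b ∈ P.S, G b = G a → E b → F b ∈ T) →
    ch P F G ≤ lg + pb P E * Real.log B' + (1 - pb P E) * Real.log B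

/-- Conditionally independent couplings. -/
structure KG : Prop where
  mem : ∀ {Ω Ω' β : Type} (P : FP Ω) (Q : FP Ω') (φ : Ω → β) (ψ : Ω' → β) (v : Ω × Ω'),
    Law P φ Q ψ → (v ∈ (glue P Q φ ψ).S ↔ v.1 ∈ P.S ∧ v.2 ∈ Q.S ∧ ψ v.2 = φ v.1)
  fst : ∀ {Ω Ω' β : Type} (P : FP Ω) (Q : FP Ω') (φ : Ω → β) (ψ : Ω' → β),
    Law (glue P Q φ ψ) Prod.fst P id
  snd : ∀ {Ω Ω' β : Type} (P : FP Ω) (Q : FP Ω') (φ : Ω → β) (ψ : Ω' → β), Law P φ Q ψ →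
    Law (glue P Q φ ψ) Prod.snd Q id
  swap : ∀ {Ω Ω' β : Type} (P : FP Ω) (Q : FP Ω') (φ : Ω → β) (ψ : Ω' → β), Law P φ Q ψ →
    Law (glue P Q φ ψ) id (glue Q P ψ φ) Prod.swap
  mkv : ∀ {Ω Ω' β α γ δ : Type} (P : FP Ω) (Q : FP Ω') (φ : Ω → β) (ψ : Ω' → β) (f : Ω' → α)
    (g : Ω' → γ) (G : Ω → δ), Law P φ Q ψ → Fn P φ G →
    ch (glue P Q φ ψ) (fun v => f v.2) (fun v => (G v.1, g v.2)) = ch Q f fun y => (ψ y, g y)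
  mkv' : ∀ {Ω Ω' β α γ δ : Type} (P : FP Ω) (Q : FP Ω') (φ : Ω → β) (ψ : Ω' → β) (f : Ω → α)
    (g : Ω → γ) (G : Ω' → δ), Law P φ Q ψ → Fn Q ψ G →
    ch (glue P Q φ ψ) (fun v => f v.1) (fun v => (G v.2, g v.1)) = ch P f fun x => (φ x, g x)
  mk1 : ∀ {Ω Ω' β α δ : Type} (P : FP Ω) (Q : FP Ω') (φ : Ω → β) (ψ : Ω' → β) (f : Ω' → α)
    (G : Ω → δ), Law P φ Q ψ → Fn P φ G →
    ch (glue P Q φ ψ) (fun v => f v.2) (fun v => G v.1) = ch Q f ψ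
  cnd : ∀ {Ω Ω' β α : Type} (P : FP Ω) (Q : FP Ω') (φ : Ω → β) (ψ : Ω' → β) (F : Ω × Ω' → α),
    Law P φ Q ψ → ch (glue P Q φ ψ) F (fun v => φ v.1) =
      P.E fun x => hh (prod (cv P φ (φ x)) (cv Q ψ (φ x))) F

def SKG : Prop := KE → KG

/-- Sequences of probability spaces. -/
structure KS : Prop where
  spill : ∀ p : ℕ → ℕ → Prop, (∀ k, ∀ᶠ n in UF, p k n) →
    ∃ k : ℕ → ℕ, Big k ∧ ∀ᶠ n in UF, ∀ j ≤ k n, p j n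
  pig : ∀ {Ω : ℕ → Type} (P : ∀ n, FP (Ω n)) (E : ∀ n, Ω n → Prop) {J : Type} [Finite J]
    (ι : ∀ n, Ω n → J), Pos P E → ∃ j, Pos P fun n ω => E n ω ∧ ι n ω = j
  wsub : ∀ {Ω : ℕ → Type} (P : ∀ n, FP (Ω n)) (G : ∀ n, Ω n → ℝ → Prop) (M : ℕ → ℕ),
    (∀ c : ℝ, 0 < c → c ≤ 1 → Whp P fun n ω => G n ω (Real.exp (c * M n))) →
    ∃ L, Sub M L ∧ Whp P fun n ω => G n ω (L n)
  event : ∀ (M : ℕ → ℕ) (p f u v D : ℕ → ℝ) (C κ : ℝ), 0 < κ →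
    (∀ᶠ n in UF, κ ≤ p n ∧ p n ≤ 1 ∧ 0 ≤ v n ∧ |D n| ≤ C * M n ∧
      p n * u n + (1 - p n) * v n ≤ f n) → Le M f D →
    ((∃ κ' : ℝ, 0 < κ' ∧ ∀ᶠ n in UF, κ' ≤ 1 - p n) → Le M D v) → Le M u D
  spw : ∀ {Ω α β : ℕ → Type} (P : ∀ n, FP (Ω n)) (E : ∀ n, Ω n → Prop) (F : ∀ n, Ω n → α n)
    (G : ∀ n, Ω n → β n) (M : ℕ → ℕ) (B L : ℕ → ℝ) (ε : ℝ), Big M → Sub M L → 0 < ε →
    Le M (fun n => Real.log (B n)) (fun n => ch (P n) (F n) (G n)) →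
    (∀ᶠ n in UF, 0 < B n ∧ Det (P n) (F n) (G n) (L n * B n) ∧ ∀ a ∈ (P n).S,
      ∃ T : Finset (α n), (T.card : ℝ) ≤ L n * B n * Real.exp (-(ε * M n)) ∧
        ∀ b ∈ (P n).S, G n b = G n a → E n b → F n b ∈ T) → Whp P fun n ω => ¬E n ω
  fano : ∀ {Ω α β : ℕ → Type} (P : ∀ n, FP (Ω n)) (E : ∀ n, Ω n → Prop) (F : ∀ n, Ω n → α n)
    (G : ∀ n, Ω n → β n) (M : ℕ → ℕ) (L : ℕ → ℝ) (C : ℝ), Big M → Sub M L → Whp P E →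
    (∀ᶠ n in UF, Det (P n) (F n) (G n) (Real.exp (C * M n)) ∧ ∀ a ∈ (P n).S,
      ∃ T : Finset (α n), (T.card : ℝ) ≤ L n ∧
        ∀ b ∈ (P n).S, G n b = G n a → E n b → F n b ∈ T) →
    Sm M fun n => ch (P n) (F n) (G n)
  full : ∀ {Ω α β : ℕ → Type} (P : ∀ n, FP (Ω n)) (E : ∀ n, Ω n → Prop) (F : ∀ n, Ω n → α n)
    (G : ∀ n, Ω n → β n) (M : ℕ → ℕ) (D : ℕ → ℝ), Big M → Pos P E →
    Le M D (fun n => ch (P n) (F n) (G n)) →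
    Le M (fun n => ch (cE (P n) fun ω => ¬E n ω) (F n) (G n)) D →
    Le M D fun n => ch (cE (P n) (E n)) (F n) (G n)
  mark : ∀ {Ω : ℕ → Type} (P : ∀ n, FP (Ω n)) (e : ∀ n, Ω n → ℝ) (M : ℕ → ℕ) (ε : ℝ),
    Big M → 0 < ε → (∀ᶠ n in UF, ∀ ω ∈ (P n).S, 0 ≤ e n ω) → Sm M (fun n => (P n).E (e n)) →
    Whp P fun n ω => e n ω ≤ ε * M n

def SKS : Prop := KE → KS

/-! ### Closure properties of systems -/

section Frame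

variable (N : ℕ) (s : ℝ)

def SideB : Prop := ∀ (S : Finset (Fin N)) (x : ℕ → Sy N) (M : ℕ → ℕ) (K : ℕ → Type)
  (κ : ∀ n, (x n).Ω → K n), Bas S x M →
  (∀ᶠ n in UF, Fn (x n).P (x n).z ((x n).side (κ n)).g ∧
    Fn (x n).P (x n).Pm ((x n).side (κ n)).g) →
  Sm M (fun n => mi (x n).P (κ n) (x n).toCfg.ln (x n).θ) → Bas S (fun n => (x n).side (κ n)) M

def Side : Prop := ∀ (S : Finset (Fin N)) (SK : Finset (I2 N)) (x : ℕ → Sy N) (M : ℕ → ℕ)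
  (K : ℕ → Type) (κ : ∀ n, (x n).Ω → K n), Sys s S SK x M →
  (∀ᶠ n in UF, Fn (x n).P (x n).z ((x n).side (κ n)).g ∧
    Fn (x n).P (x n).Pm ((x n).side (κ n)).g ∧ Fn (x n).P (x n).Km ((x n).side (κ n)).g) →
  Sm M (fun n => mi (x n).P (κ n) (x n).toCfg.ln (x n).θ) →
  Sys s S SK (fun n => (x n).side (κ n)) M

def Pull : Prop := ∀ (S : Finset (Fin N)) (SK : Finset (I2 N)) (x : ℕ → Sy N) (M : ℕ → ℕ)
  (Ω' : ℕ → Type) (Q : ∀ n, FP (Ω' n)) (f : ∀ n, Ω' n → (x n).Ω), Sys s S SK x M →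
  (∀ n, Law (Q n) (f n) (x n).P id) → Sys s S SK (fun n => (x n).pull (Q n) (f n)) M

def CondB : Prop := ∀ (S : Finset (Fin N)) (x : ℕ → Sy N) (M : ℕ → ℕ)
  (E : ∀ n, (x n).Ω → Prop), Bas S x M → (∀ᶠ n in UF, Fn (x n).P (E n) (x n).g) →
  Pos (fun n => (x n).P) E → Bas S (fun n => (x n).cond (E n)) M

def Cond : Prop := ∀ (S : Finset (Fin N)) (SK : Finset (I2 N)) (x : ℕ → Sy N) (M : ℕ → ℕ)
  (E : ∀ n, (x n).Ω → Prop), Sys s S SK x M → (∀ᶠ n in UF, Fn (x n).P (E n) (x n).g) →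
  Pos (fun n => (x n).P) E → Sys s S SK (fun n => (x n).cond (E n)) M

def ZoomB : Prop := ∀ (S : Finset (Fin N)) (x : ℕ → Sy N) (M j i : ℕ → ℕ), Bas S x M →
  (∀ n, j n + i n ≤ M n) → Frac i M → Bas S (fun n => (x n).zm (j n)) i

def Coarse : Prop := ∀ (S : Finset (Fin N)) (SK : Finset (I2 N)) (x : ℕ → Sy N) (M M' : ℕ → ℕ),
  Sys s S SK x M → Frac M' M → Sys s S SK x M'

/-- Lower bound for the entropy of the point. -/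
def Low : Prop := ∀ (S : Finset (Fin N)) (x : ℕ → Sy N) (M : ℕ → ℕ), Bas S x M →
  Le M (fun n => (N - s) * M n * lg) fun n =>
    ch (x n).P (fun ω => fl (M n) ((x n).toCfg.pt ω)) (x n).g

/-- Lower bound for the entropy of the point modulo a grain over `S`. -/
def Lb0 (S : Finset (Fin N)) : Prop := ∀ (x : ℕ → Sy N) (M : ℕ → ℕ), Bas S x M →
  Le M (fun n => (N - s - S.card) * M n * lg) fun n =>
    ch (x n).P (fun ω => fl (M n) ((x n).π ω)) (x n).g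

/-- The same in a window, with side information, on an event. -/
def Lb (S' : Finset (Fin N)) : Prop := ∀ (S : Finset (Fin N)) (x : ℕ → Sy N) (M β lam : ℕ → ℕ)
  (K : ℕ → Type) (κ : ∀ n, (x n).Ω → K n) (Φ : ∀ n, (x n).Ω → Matrix (Fin N) (Fin N) ℝ)
  (E : ∀ n, (x n).Ω → Prop) (L : ℕ → ℝ), Bas S x M → (∀ n, β n ≤ lam n ∧ lam n ≤ M n) →
  Sm M (fun n => mi (x n).P (κ n) (x n).toCfg.ln fun ω => ((x n).toCfg.X (β n) ω, (x n).g ω)) →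
  Sub M L → (∀ᶠ n in UF, Fn (x n).P (Φ n) (fun ω => (κ n ω, (x n).g ω)) ∧
    Fn (x n).P (E n) (fun ω => (κ n ω, (x n).g ω)) ∧ ∀ ω ∈ (x n).P.S, Prj S' (L n) (Φ n ω)) →
  Pos (fun n => (x n).P) E →
  Le M (fun n => (N - s - S'.card) * (lam n - β n) * lg) fun n =>
    ch (cE (x n).P (E n)) (fun ω => fl (lam n) ((Φ n ω).mulVec ((x n).toCfg.pt ω))) fun ω =>
      ((x n).toCfg.X (β n) ω, κ n ω, (x n).g ω)

/-- The rescaled system. -/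
def Zsc : Prop := ∀ (S S' : Finset (Fin N)) (x : ℕ → Sy N) (M β i : ℕ → ℕ)
  (K : ℕ → Type) (κ : ∀ n, (x n).Ω → K n) (Φ : ∀ n, (x n).Ω → Matrix (Fin N) (Fin N) ℝ)
  (E : ∀ n, (x n).Ω → Prop) (L : ℕ → ℝ), Bas S x M → (∀ n, β n + i n ≤ M n) → Frac i M →
  Sm M (fun n => mi (x n).P (κ n) (x n).toCfg.ln fun ω => ((x n).toCfg.X (β n) ω, (x n).g ω)) →
  Sub M L → (∀ᶠ n in UF, Fn (x n).P (Φ n) (fun ω => (κ n ω, (x n).g ω)) ∧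
    Fn (x n).P (E n) (fun ω => (κ n ω, (x n).g ω)) ∧ ∀ ω ∈ (x n).P.S, Prj S' (L n) (Φ n ω)) →
  Pos (fun n => (x n).P) E → Bas S' (fun n => (x n).zsc (β n) (κ n) (Φ n) (E n)) i

variable {N}

/-- Coarse variables are determined by the coarse line. -/
structure Exb (S : Finset (Fin N)) (x : ℕ → Sy N) (M : ℕ → ℕ) : Prop where
  px : ∀ a : ℕ → ℕ, Sm M fun n => ch (x n).P (fun ω => fl (a n) ((x n).π ω)) fun ω =>
    ((x n).toCfg.X (a n) ω, (x n).g ω)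
  rx : ∀ (a : ℕ → ℕ) (T : Finset (Fin N)), Sm M fun n => ch (x n).P ((x n).r T (a n)) fun ω =>
    ((x n).toCfg.X (a n) ω, (x n).g ω)
  p0 : Sm M fun n => ch (x n).P (fun ω => fl 0 ((x n).π ω)) (x n).g
  yp : ∀ a : ℕ → ℕ, Sm M fun n => ch (x n).P (fun ω => fl (a n) ((x n).toCfg.pt ω)) fun ω =>
    ((fl (a n) ((x n).π ω), (x n).r S (a n) ω), (x n).g ω)
  dir : ∀ a : ℕ → ℕ, (∀ n, a n ≤ M n) → Le M (fun n => N * a n * lg) fun n =>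
    ch (x n).P (fun ω => fl (a n) ((x n).e ω)) (x n).g
  hgt : ∀ a : ℕ → ℕ, (∀ n, a n ≤ M n) → Le M (fun n => a n * lg) fun n =>
    ch (x n).P (fun ω => fl1 (a n) ((x n).z ω)) (x n).toCfg.ln

/-- Exact values of the entropies in an extremal system. -/
structure Exa1 (S : Finset (Fin N)) (x : ℕ → Sy N) (M : ℕ → ℕ) : Prop where
  e0 : ∀ a : ℕ → ℕ, (∀ n, a n ≤ M n) →
    Le M (fun n => ch (x n).P (fun ω => fl (a n) ((x n).π ω)) (x n).g) fun n =>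
      (N - s - S.card) * a n * lg
  e1 : ∀ a b : ℕ → ℕ, (∀ n, a n ≤ b n ∧ b n ≤ M n) →
    Le M (fun n => ch (x n).P (fun ω => fl (b n) ((x n).π ω)) fun ω =>
      (fl (a n) ((x n).π ω), (x n).g ω)) fun n => (N - s - S.card) * (b n - a n) * lg
  e2 : ∀ a b : ℕ → ℕ, (∀ n, a n ≤ b n ∧ b n ≤ M n) →
    Le M (fun n => (N - s - S.card) * (b n - a n) * lg) fun n =>
      ch (x n).P (fun ω => fl (b n) ((x n).π ω)) fun ω => ((x n).toCfg.X (a n) ω, (x n).g ω)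

/-- The same, with the consequences for other variables. -/
structure Exa (S : Finset (Fin N)) (x : ℕ → Sy N) (M : ℕ → ℕ) : Prop extends Exa1 s S x M where
  e5 : ∀ (a b : ℕ → ℕ) (α : ℕ → Type) (F : ∀ n, (x n).Ω → α n), (∀ n, a n ≤ b n ∧ b n ≤ M n) →
    Sm M (fun n => ch (x n).P (F n) fun ω => ((x n).toCfg.X (a n) ω, (x n).g ω)) →
    Le M (fun n => ch (x n).P (F n) fun ω => (fl (a n) ((x n).π ω), (x n).g ω)) fun n =>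
      ch (x n).P (F n) fun ω => (fl (b n) ((x n).π ω), (x n).g ω)
  e3 : ∀ a b : ℕ → ℕ, (∀ n, a n ≤ b n ∧ b n ≤ M n) →
    Le M (fun n => S.card * a n * lg) fun n =>
      ch (x n).P ((x n).r S (a n)) fun ω => (fl (b n) ((x n).π ω), (x n).g ω)
  ek : ∀ a : ℕ → ℕ, (∀ n, a n ≤ M n) →
    Sm M fun n => ch (x n).P (fun ω => flv (a n) ((x n).ψ ω)) fun ω =>
      (fl (a n) ((x n).π ω), (x n).g ω)

variable (N)

def ExbA : Prop := ∀ (S : Finset (Fin N)) (x : ℕ → Sy N) (M : ℕ → ℕ), Bas S x M → Exb S x M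

def Exa1A : Prop := ∀ (S : Finset (Fin N)) (SK : Finset (I2 N)) (x : ℕ → Sy N) (M : ℕ → ℕ),
  Sys s S SK x M → Exa1 s S x M

def ExaA : Prop := ∀ (S : Finset (Fin N)) (SK : Finset (I2 N)) (x : ℕ → Sy N) (M : ℕ → ℕ),
  Sys s S SK x M → Exa s S x M

/-- All closure properties for the loss `s`. -/
structure Clo : Prop where
  ke : KE
  kg : KG
  ks : KS
  side : Side N s
  pull : Pull N s
  cond : Cond N s
  coarse : Coarse N s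
  exb : ExbA N
  exa : ExaA N s
  lb : ∀ S, Lb N s S

end Frame

def SSide : Prop := ∀ (N : ℕ) (s : ℝ), SideB N ∧ Side N s
def SPull : Prop := ∀ (N : ℕ) (s : ℝ), Pull N s
def SExb : Prop := ∀ N : ℕ, ExbA N
def SCondB : Prop := KE → KS → ∀ N : ℕ, ExbA N → CondB N
def SZoomB : Prop := ∀ N : ℕ, ExbA N → ZoomB N
def SZsc : Prop := ∀ N : ℕ, SideB N → CondB N → ZoomB N → Zsc N
def SLow : Prop := ∀ (N : ℕ) (s : ℝ), Good N s → Low N s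
def SLb0 : Prop := ∀ (N : ℕ) (s : ℝ) (S : Finset (Fin N)),
  (ExbA N → Low N s → Lb0 N s S) ∧ (¬Ex s S Finset.univ → Lb0 N s S)
def SLb : Prop := ∀ (N : ℕ) (s : ℝ) (S : Finset (Fin N)), Zsc N → Lb0 N s S → Lb N s S
def SExa1 : Prop := ∀ (N : ℕ) (s : ℝ), ExbA N → (∀ S, Lb N s S) → Exa1A N s
def SExa : Prop := ∀ (N : ℕ) (s : ℝ), ExbA N → (∀ S, Lb N s S) → Exa1A N s → ExaA N s
def SCond : Prop := KE → KS → ∀ (N : ℕ) (s : ℝ), CondB N → (∀ S, Lb0 N s S) → Cond N s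
def SCoarse : Prop := ∀ (N : ℕ) (s : ℝ), ExbA N → ExaA N s → Coarse N s

/-! ### No further grain, minimal kernel -/

/-- No direction `b` is a grain direction in any window. -/
def NG (N : ℕ) (s : ℝ) (S : Finset (Fin N)) (ε₀ : ℝ) : Prop := ∀ (SK : Finset (I2 N))
  (x : ℕ → Sy N) (M β lam : ℕ → ℕ) (K : ℕ → Type) (κ : ∀ n, (x n).Ω → K n) (i : Fin N)
  (b : ∀ n, (x n).Ω → V N) (E : ∀ n, (x n).Ω → Prop), Sys s S SK x M →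
  (∀ n, β n ≤ lam n ∧ lam n ≤ M n) →
  Sm M (fun n => mi (x n).P (κ n) (x n).toCfg.ln fun ω => ((x n).toCfg.X (β n) ω, (x n).g ω)) →
  (∀ᶠ n in UF, Fn (x n).P (b n) (fun ω => (κ n ω, (x n).g ω)) ∧
    Fn (x n).P (E n) (fun ω => (κ n ω, (x n).g ω)) ∧
    ∀ ω ∈ (x n).P.S, b n ω i = 1 ∧ ‖b n ω‖ ≤ 1) →
  Pos (fun n => (x n).P) E →
  Le M (fun n => ch (cE (x n).P (E n)) (fun ω => fl (lam n) ((x n).π ω)) fun ω =>
      (fl (lam n) ((x n).π ω - (x n).π ω i • b n ω), fl (β n) ((x n).π ω), κ n ω, (x n).g ω))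
    fun n => (1 - ε₀) * (lam n - β n) * lg

def SNG : Prop := ∀ (N : ℕ) (s ε₀ : ℝ) (S : Finset (Fin N)), Clo N s → ε₀ ≤ 1 →
  (∀ i ∉ S, Lb N (s - ε₀) (insert i S)) → NG N s S ε₀

/-- A linear map that is determined by the point modulo the grain vanishes on the kernel. -/
def MN (N : ℕ) (s : ℝ) (S : Finset (Fin N)) (SK : Finset (I2 N)) : Prop :=
  ∀ (x : ℕ → Sy N) (M σ : ℕ → ℕ) (ι : Type) [Fintype ι]
    (Φ : ∀ n, (x n).Ω → Matrix ι (I2 N) ℝ) (L : ℕ → ℝ), Sys s S SK x M → (∀ n, σ n ≤ M n) →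
    Sub M L → (∀ᶠ n in UF, Fn (x n).P (Φ n) (x n).g ∧ ∀ ω ∈ (x n).P.S, ∀ i j, |Φ n ω i j| ≤ L n) →
    Sm M (fun n => ch (x n).P (fun ω => flv (σ n) ((Φ n ω).mulVec ((x n).l ω))) fun ω =>
      (fl (M n) ((x n).π ω), (x n).g ω)) →
    ∃ L', Sub M L' ∧ Whp (fun n => (x n).P) fun n ω =>
      ∀ i j, |(Φ n ω * (1 - (x n).Km ω) : Matrix ι (I2 N) ℝ) i j| ≤ L' n / 2 ^ σ n

def SMN : Prop := ∀ (N : ℕ) (s : ℝ) (S : Finset (Fin N)) (SK : Finset (I2 N)), Clo N s →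
  (∀ j ∈ SK, ¬Ex s S (SK.erase j)) → MN N s S SK

/-! ### Two heights -/

def TwoA (N : ℕ) (s : ℝ) : Prop := ∀ (S : Finset (Fin N)) (SK : Finset (I2 N)) (x : ℕ → Sy N)
  (M a : ℕ → ℕ), Sys s S SK x M → (∀ n, a n ≤ M n) → Two s S SK (fun n => (x n).two (a n)) M a

def STwo : Prop := ∀ (N : ℕ) (s : ℝ), Clo N s → TwoA N s

/-- Conditioning, the first height alone, and separation of the heights. -/
structure TwoB (N : ℕ) (s : ℝ) : Prop where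
  cond : ∀ (S : Finset (Fin N)) (SK : Finset (I2 N)) (t : ℕ → Th N) (M a : ℕ → ℕ)
    (E : ∀ n, (t n).Ω → Prop), Two s S SK t M a → (∀ᶠ n in UF, Fn (t n).P (E n) (t n).toSy.g) →
    Pos (fun n => (t n).P) E → Two s S SK (fun n => (t n).cond (E n)) M a
  fst : ∀ (S : Finset (Fin N)) (SK : Finset (I2 N)) (t : ℕ → Th N) (M a : ℕ → ℕ),
    Two s S SK t M a → Sys s S SK (fun n => (t n).fst) M
  sep : ∀ (S : Finset (Fin N)) (SK : Finset (I2 N)) (t : ℕ → Th N) (M a : ℕ → ℕ),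
    Two s S SK t M a → (∀ n, 2 * a n ≤ M n) → ∃ L, Sub M L ∧
      Whp (fun n => (t n).P) fun n ω => 1 ≤ L n * 2 ^ a n * |(t n).z' ω - (t n).z ω|

def STwoB : Prop := ∀ (N : ℕ) (s : ℝ), Clo N s → TwoB N s

def LipA (N : ℕ) (s : ℝ) (S : Finset (Fin N)) : Prop := ∀ (SK : Finset (I2 N)) (t : ℕ → Th N)
  (M a : ℕ → ℕ), Two s S SK t M a → (∀ n, a n ≤ M n) →
  ∃ L, Sub M L ∧ Whp (fun n => (t n).P) fun n ω => (t n).Lip (L n / 2 ^ a n) ω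

/-- The entropy of the second point along the direction in which the grains differ. -/
def Lip1 (N : ℕ) (s : ℝ) : Prop := ∀ (S : Finset (Fin N)) (SK : Finset (I2 N)) (t : ℕ → Th N)
  (M a β β' : ℕ → ℕ) (i j : Fin N), Two s S SK t M a →
  (∀ n, β' n ≤ β n ∧ β n ≤ a n ∧ a n ≤ M n) → j ∈ S →
  (∀ᶠ n in UF, ∀ ω ∈ (t n).P.S, ((2 : ℝ) ^ β n)⁻¹ ≤ |(t n).Pm' ω i j - (t n).Pm ω i j| ∧
    (∀ k, |(t n).Pm' ω k j - (t n).Pm ω k j| ≤ |(t n).Pm' ω i j - (t n).Pm ω i j|) ∧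
    (β' n = 0 ∨ |(t n).Pm' ω i j - (t n).Pm ω i j| ≤ ((2 : ℝ) ^ β' n)⁻¹)) →
  Le M (fun n => (a n - β n : ℝ) * lg) fun n =>
    ch (t n).P (fun ω => fl (a n) ((t n).snd.π ω)) fun ω =>
      (fl (a n) ((t n).snd.π ω - (t n).snd.π ω i • fun k =>
        ((t n).Pm' ω k j - (t n).Pm ω k j) / ((t n).Pm' ω i j - (t n).Pm ω i j)),
        fl (β' n) ((t n).snd.π ω), (t n).toSy.g ω)

def SLip1 : Prop := ∀ (N : ℕ) (s : ℝ), Clo N s → Lip1 N s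

def SLip : Prop := ∀ (N : ℕ) (s ε₀ : ℝ) (S : Finset (Fin N)), Clo N s → TwoB N s → Lip1 N s →
  0 < ε₀ → ε₀ ≤ 1 → NG N s S ε₀ → LipA N s S

/-! ### The sum-product step -/

/-- No grain for the integer vector `A` given `Θ`, on any extension of the space. -/
def NGA {N : ℕ} {Ω T : ℕ → Type} (P : ∀ n, FP (Ω n)) (Θ : ∀ n, Ω n → T n)
    (A : ∀ n, Ω n → Z N) (R : ℕ → ℕ) (ε₀ : ℝ) : Prop :=
  ∀ (Ω' K : ℕ → Type) (Q : ∀ n, FP (Ω' n)) (ρ : ∀ n, Ω' n → Ω n) (κ : ∀ n, Ω' n → K n)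
    (β lam : ℕ → ℕ) (i : Fin N) (b : ∀ n, Ω' n → V N) (E : ∀ n, Ω' n → Prop),
    (∀ n, Law (Q n) (ρ n) (P n) id) → (∀ n, β n ≤ lam n ∧ lam n ≤ R n) →
    Sm R (fun n => mi (Q n) (κ n) (ρ n) fun v => Θ n (ρ n v)) →
    (∀ᶠ n in UF, Fn (Q n) (b n) (fun v => (κ n v, Θ n (ρ n v))) ∧
      Fn (Q n) (E n) (fun v => (κ n v, Θ n (ρ n v))) ∧ ∀ v ∈ (Q n).S, b n v i = 1 ∧ ‖b n v‖ ≤ 1) →
    Pos Q E →
    Le R (fun n => ch (cE (Q n) (E n)) (fun v => co (R n) (lam n) (A n (ρ n v))) fun v =>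
        (cq (R n) (lam n) i (b n v) (A n (ρ n v)), co (R n) (β n) (A n (ρ n v)), κ n v,
          Θ n (ρ n v))) fun n => (1 - ε₀) * (lam n - β n) * lg

/-- A bilinear noise that does not increase the entropy of a vector without grains is small. -/
def NC : Prop := ∀ (N : ℕ) (ε₀ : ℝ), 0 < ε₀ → ε₀ ≤ 1 → ∃ c : ℝ, 0 < c ∧
  ∀ (Ω₀ Ω T : ℕ → Type) (P₀ : ∀ n, FP (Ω₀ n)) (Θ₀ : ∀ n, Ω₀ n → T n) (A₀ : ∀ n, Ω₀ n → Z N)
    (P : ∀ n, FP (Ω n)) (Θ : ∀ n, Ω n → T n) (A A' : ∀ n, Ω n → Z N)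
    (d w : ∀ n, Ω n → ℤ × Z N) (R : ℕ → ℕ) (L : ℕ → ℝ), Big R → Sub R L → NGA P₀ Θ₀ A₀ R ε₀ →
    (∀ n, Law (P n) (fun ω => (Θ n ω, A n ω)) (P₀ n) (fun ω => (Θ₀ n ω, A₀ n ω)) ∧
      Law (P n) (fun ω => (Θ n ω, A' n ω)) (P₀ n) fun ω => (Θ₀ n ω, A₀ n ω)) →
    (∀ᶠ n in UF, (∀ ω ∈ (P₀ n).S, ∀ ω' ∈ (P₀ n).S, Θ₀ n ω = Θ₀ n ω' →
        ‖cz (A₀ n ω - A₀ n ω')‖ ≤ 2 ^ R n) ∧
      ∀ ω ∈ (P n).S, |((d n ω).1 : ℝ)| ≤ 2 ^ R n ∧ |((w n ω).1 : ℝ)| ≤ 2 * 2 ^ R n ∧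
        ‖cz (d n ω).2‖ ≤ L n * 2 ^ R n ∧ ‖cz (w n ω).2‖ ≤ L n * 2 ^ R n ∧
        ‖bil (R n) (d n ω) (w n ω) - cz (A n ω - A' n ω)‖ ≤ L n) →
    Sm R (fun n => mi (P n) (A n) (fun ω => A' n ω - A n ω) (Θ n)) →
    Sm R (fun n => mi (P n) (d n) (w n) fun ω => (A n ω, Θ n ω)) →
    Le R (fun n => R n * lg) (fun n => ch (P n) (fun ω => (d n ω).1) fun ω => (A n ω, Θ n ω)) →
    (Le R (fun n => R n * lg) (fun n => ch (P n) (fun ω => (w n ω).1) fun ω => (A n ω, Θ n ω)) ∨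
      ∀ᶠ n in UF, ∀ ω ∈ (P n).S, (d n ω).2 = 0) →
    Whp P fun n ω => ‖cz (A' n ω - A n ω)‖ ≤ 2 ^ R n * Real.exp (-(c * R n))

/-- Two heights with close grain projections, and a window `[a, a + R]`. -/
structure St {N : ℕ} (s : ℝ) (S : Finset (Fin N)) (SK : Finset (I2 N)) (t : ℕ → Th N)
    (M a R : ℕ → ℕ) (L : ℕ → ℝ) : Prop where
  two : Two s S SK t M a
  le : ∀ n, R n ≤ a n ∧ a n + R n ≤ M n
  frac : Frac R M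
  sub : Sub M L
  lip : ∀ᶠ n in UF, ∀ ω ∈ (t n).P.S, (t n).Lip (L n / 2 ^ a n) ω

/-- Independence in the context of the first height. -/
structure Loc1 {N : ℕ} (S : Finset (Fin N)) (t : ℕ → Th N) (M a R : ℕ → ℕ) : Prop where
  f1 : Sm M fun n => mi (t n).P ((t n).toCfg.X (a n))
    (fun ω => (fl (a n + R n) ((t n).snd.π ω), (t n).ξ ω)) ((t n).Θ (a n))
  f2 : Sm M fun n => mi (t n).P (fun ω => fl (a n + R n) ((t n).toSy.π ω))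
    (fun ω => ((t n).toCfg.X (a n) ω, (t n).ξ ω)) ((t n).Θ (a n))
  f3 : Le M (fun n => S.card * R n * lg) fun n => ch (t n).P ((t n).toSy.r S (R n)) fun ω =>
    (fl (a n + R n) ((t n).snd.π ω), (t n).ξ ω, (t n).Θ (a n) ω)
  f4 : Sm M fun n => ch (t n).P (fun ω => fl (a n) ((t n).toSy.π ω)) fun ω =>
    (fl (a n) ((t n).snd.π ω), (t n).toSy.g ω)
  f5 : Sm M fun n => mi (t n).P (t n).ξ ((t n).toCfg.X (a n)) fun ω =>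
    (fl (a n + R n) ((t n).toSy.π ω), (t n).Θ (a n) ω)
  f6 : Le M (fun n => R n * lg) fun n =>
    ch (t n).P (fun ω => fl1 (R n) (2 ^ a n * ((t n).z' ω - (t n).z ω))) fun ω =>
      (fl (a n + R n) ((t n).toSy.π ω), (t n).Θ (a n) ω)

def Loc1A (N : ℕ) (s : ℝ) : Prop := ∀ (S : Finset (Fin N)) (SK : Finset (I2 N)) (t : ℕ → Th N)
  (M a R : ℕ → ℕ) (L : ℕ → ℝ), St s S SK t M a R L → Loc1 S t M a R

def SLoc1 : Prop := ∀ (N : ℕ) (s : ℝ), Clo N s → TwoB N s → Loc1A N s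

/-- The difference of a line and its copy is bilinear. -/
def Loc2 : Prop := ∀ N : ℕ, ∃ C : ℝ, 1 ≤ C ∧ ∀ (S : Finset (Fin N)) (t : Th N) (a R : ℕ)
  (j : Fin N) (L L₁ : ℝ) (v : t.Ω × t.Ω), 1 ≤ L → 1 ≤ L₁ → R ≤ a → t.toSy.Alg S L₁ →
  t.snd.Alg S L₁ → t.Alg a → (∀ ω ∈ t.P.S, t.Lip (L / 2 ^ a) ω) → v.1 ∈ t.P.S → v.2 ∈ t.P.S →
  t.φ S a R j v.2 = t.φ S a R j v.1 →
  (|((t.dd a R j v).1 : ℝ)| ≤ 2 ^ R ∧ |((t.ww R j v).1 : ℝ)| ≤ 2 * 2 ^ R ∧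
    ‖cz (t.dd a R j v).2‖ ≤ C * L * L₁ * 2 ^ R ∧ ‖cz (t.ww R j v).2‖ ≤ C * L * L₁ * 2 ^ R ∧
    ‖bil R (t.dd a R j v) (t.ww R j v) -
      cz (fl (a + R) (t.toSy.π v.1) - fl (a + R) (t.toSy.π v.2))‖ ≤ C * L * L₁) ∧
  (j ∉ S → (t.dd a R j v).2 = 0)

/-- The coarse copy is independent of the line given the coarse line. -/
def Key (N : ℕ) (s : ℝ) : Prop := ∀ (S : Finset (Fin N)) (SK : Finset (I2 N)) (t : ℕ → Th N)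
  (M a R : ℕ → ℕ) (L : ℕ → ℝ) (j : Fin N), St s S SK t M a R L →
  Le M (fun n => ch ((t n).Q S (a n) (R n) j) (fun v => (t n).toCfg.X (a n) v.2) fun v =>
      ((t n).toCfg.X (a n) v.1, (t n).Θ (a n) v.1))
    fun n => ch ((t n).Q S (a n) (R n) j) (fun v => (t n).toCfg.X (a n) v.2) Prod.fst

def SKey : Prop := ∀ (N : ℕ) (s : ℝ), Clo N s → TwoB N s → Loc1A N s → Key N s

def G1 (N : ℕ) (s : ℝ) : Prop := ∀ (S : Finset (Fin N)) (SK : Finset (I2 N)) (t : ℕ → Th N)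
  (M a R : ℕ → ℕ) (L : ℕ → ℝ) (j : Fin N), St s S SK t M a R L →
  Sm M fun n => mi ((t n).Q S (a n) (R n) j) (fun v => fl (a n + R n) ((t n).toSy.π v.1))
    (fun v => fl (a n + R n) ((t n).toSy.π v.2) - fl (a n + R n) ((t n).toSy.π v.1))
    fun v => (t n).Θ (a n) v.1

def SG1 : Prop := ∀ (N : ℕ) (s : ℝ), Clo N s → Loc1A N s → Loc2 → Key N s → G1 N s

def G2 (N : ℕ) (s : ℝ) : Prop := ∀ (S : Finset (Fin N)) (SK : Finset (I2 N)) (t : ℕ → Th N)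
  (M a R : ℕ → ℕ) (L : ℕ → ℝ) (j : Fin N), St s S SK t M a R L →
  Sm M fun n => mi ((t n).Q S (a n) (R n) j) ((t n).dd (a n) (R n) j) ((t n).ww (R n) j)
    fun v => (fl (a n + R n) ((t n).toSy.π v.1), (t n).Θ (a n) v.1)

def SG2 : Prop := ∀ (N : ℕ) (s : ℝ), Clo N s → Loc1A N s → Key N s → G2 N s

def G3 (N : ℕ) (s : ℝ) : Prop := ∀ (S : Finset (Fin N)) (SK : Finset (I2 N)) (t : ℕ → Th N)
  (M a R : ℕ → ℕ) (L : ℕ → ℝ) (j : Fin N), St s S SK t M a R L → j ∈ S →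
  Le M (fun n => R n * lg) fun n => ch ((t n).Q S (a n) (R n) j)
    (fun v => ((t n).ww (R n) j v).1)
    fun v => (fl (a n + R n) ((t n).toSy.π v.1), (t n).Θ (a n) v.1)

def SG3 : Prop := ∀ (N : ℕ) (s : ℝ), Clo N s → Loc1A N s → G3 N s

def Trans (N : ℕ) (s : ℝ) (S : Finset (Fin N)) (ε₀ : ℝ) : Prop := ∀ (SK : Finset (I2 N))
  (t : ℕ → Th N) (M a R : ℕ → ℕ) (L : ℕ → ℝ), St s S SK t M a R L →
  NGA (fun n => (t n).P) (fun n => (t n).Θ (a n))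
    (fun n ω => fl (a n + R n) ((t n).toSy.π ω)) R ε₀

def STrans : Prop := ∀ (N : ℕ) (s ε₀ : ℝ) (S : Finset (Fin N)), Clo N s → TwoB N s →
  NG N s S ε₀ → Trans N s S ε₀

/-- The first point is determined beyond the scale `a` by the data shared with a copy. -/
def St1 (N : ℕ) (s : ℝ) (S : Finset (Fin N)) (c : ℝ) : Prop := ∀ (SK : Finset (I2 N))
  (t : ℕ → Th N) (M a R : ℕ → ℕ) (L : ℕ → ℝ) (j : Fin N), St s S SK t M a R L →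
  Sm M fun n => ch (t n).P (fun ω => fl (a n + ⌊c * R n⌋₊) ((t n).toSy.π ω))
    ((t n).φ S (a n) (R n) j)

def SSt1 : Prop := ∀ (N : ℕ) (s ε₀ : ℝ) (S : Finset (Fin N)), Clo N s → NC → Loc1A N s → Loc2 →
  G1 N s → G2 N s → G3 N s → 0 < ε₀ → ε₀ ≤ 1 → Trans N s S ε₀ → ∃ c : ℝ, 0 < c ∧ c ≤ 1 ∧ St1 N s S c

/-- A variable that is determined when any one of several independent variables is omitted. -/
def Ind : Prop := ∀ N : ℕ, ∃ C : ℝ, 0 ≤ C ∧ ∀ {Ω α β : Type} (P : FP Ω) (F : Ω → α) (G : Ω → β)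
  (r : Ω → Z N) (S : Finset (Fin N)) (h Λ : ℝ), 0 < N → 0 ≤ Λ →
  (∀ j, ch P F (fun ω => ((fun i => if i ∈ S.erase j then r ω i else 0 : Z N), G ω)) ≤ Λ) →
  (∀ i ∈ S, ch P (fun ω => r ω i) G ≤ h) →
  S.card * h - Λ ≤ ch P (fun ω => (fun i => if i ∈ S then r ω i else 0 : Z N)) G →
  ch P F G ≤ C * Λ

/-- The kernels at the two heights are close. -/
def Kcl (N : ℕ) (s : ℝ) (S : Finset (Fin N)) (SK : Finset (I2 N)) (c : ℝ) : Prop :=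
  ∀ (t : ℕ → Th N) (M a R : ℕ → ℕ) (L : ℕ → ℝ), St s S SK t M a R L →
  ∃ L', Sub M L' ∧ Whp (fun n => (t n).P) fun n ω =>
    ∀ i j, |(t n).Km ω i j - (t n).Km' ω i j| ≤ L' n / 2 ^ (a n + ⌊c * R n⌋₊)

def SKcl : Prop := ∀ (N : ℕ) (s c : ℝ) (S : Finset (Fin N)) (SK : Finset (I2 N)), Clo N s →
  Ind → Loc1A N s → 0 < N → 0 < c → c ≤ 1 → St1 N s S c → MN N s S SK → Kcl N s S SK c

/-! ### Determinants -/

def Det0 : Prop := ∀ (k : ℕ) (Y B : Matrix (Fin k) (Fin k) ℝ), dm Y B 0 = Y.det ∧ dm Y B k = B.det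

def Det1 : Prop := ∀ k j : ℕ, ∃ C : ℝ, 1 ≤ C ∧ ∀ (Y B Y' B' : Matrix (Fin k) (Fin k) ℝ)
  (L ε : ℝ), 1 ≤ L → 0 ≤ ε →
  (∀ p q, |Y p q| ≤ L ∧ |B p q| ≤ L ∧ |Y' p q| ≤ L ∧ |B' p q| ≤ L ∧ |Y p q - Y' p q| ≤ ε ∧
    |B p q - B' p q| ≤ ε) → |dm Y B j - dm Y' B' j| ≤ C * L ^ k * ε

def Det2 : Prop := ∀ k j : ℕ, ∃ C : ℝ, 1 ≤ C ∧ ∀ (Y B : Matrix (Fin k) (Fin k) ℝ) (L t : ℝ),
  1 ≤ L → |t| ≤ 1 → (∀ p q, |Y p q| ≤ L ∧ |B p q| ≤ L) →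
  |dm (Y + t • B) B j - dm Y B j - (j + 1) * t * dm Y B (j + 1)| ≤ C * L ^ k * t ^ 2

def Det3 : Prop := ∀ N : ℕ, ∃ C : ℝ, 1 ≤ C ∧ ∀ (S : Finset (Fin N))
  (A : Matrix (Fin N) (Fin N) ℝ) (Y : Matrix (Fin N) (I2 N) ℝ) (L L₁ ε : ℝ)
  (ρ : Fin (S.card + 1) → Fin N) (γ : Fin (S.card + 1) → I2 N), 1 ≤ L → 0 ≤ ε → ε ≤ 1 →
  Prj S L₁ A → (∀ i m, |Y i m| ≤ L ∧ |(A * Y) i m| ≤ ε) →
  |(Y.submatrix ρ γ).det| ≤ C * L ^ (N + 1) * ε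

def SDet3 : Prop := Det0 → Det1 → Det3

def Det4 : Prop := ∀ (N w : ℕ) (B : Matrix (Fin N) (I2 N) ℝ) (τ : ℝ), 0 < τ →
  (∀ (ρ : Fin (w + 1) → Fin N) (γ : Fin (w + 1) → I2 N), |(B.submatrix ρ γ).det| ≤ τ ^ (w + 1)) →
  ∃ (T : Finset (Fin N)) (c : Matrix (Fin N) (Fin N) ℝ), T.card ≤ w ∧
    (∀ i j, |c i j| ≤ 1 ∧ (j ∉ T → c i j = 0)) ∧ ∀ i m, |B i m - (c * B) i m| ≤ τ

/-! ### The end -/

def SBase : Prop := ∀ (N : ℕ) (s : ℝ) (S : Finset (Fin N)) (SK : Finset (I2 N)), Clo N s →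
  Det0 → Det3 → MN N s S SK → Ex s S SK → ExD s S SK 0

/-- One Taylor step for a single pair of kernels. -/
def Tay : Prop := ∀ N k j : ℕ, ∃ C : ℝ, 1 ≤ C ∧ ∀ (K K' : Matrix (I2 N) (I2 N) ℝ)
  (z z' L ε δ : ℝ), 1 ≤ L → 0 ≤ δ → 0 ≤ z → z ≤ 1 → 0 ≤ z' → z' ≤ 1 →
  (∀ p q, |K p q| ≤ L ∧ |K' p q| ≤ L ∧ |K p q - K' p q| ≤ δ) → z' ≠ z →
  Dm k j ε K z → Dm k j ε K' z' →
  Dm k (j + 1) ((2 * ε + C * L ^ k * (δ + (z' - z) ^ 2)) / |z' - z|) K z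

def STay : Prop := Det1 → Det2 → Tay

def SStep : Prop := ∀ (N : ℕ) (s c : ℝ) (S : Finset (Fin N)) (SK : Finset (I2 N)) (j : ℕ),
  Clo N s → TwoA N s → TwoB N s → Tay → 0 < c → c ≤ 1 → LipA N s S → Kcl N s S SK c →
  ExD s S SK j → ExD s S SK (j + 1)

def SEnd : Prop := ∀ (N : ℕ) (s : ℝ) (S : Finset (Fin N)) (SK : Finset (I2 N)), Clo N s →
  Det0 → Det4 → ExD s S SK (S.card + 1) → s ≤ 0

def Ex0 : Prop := ∀ (N : ℕ) (s : ℝ), ¬Good N s → Ex s (∅ : Finset (Fin N)) Finset.univ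

def Diag : Prop := ∀ (N : ℕ) (s : ℝ) (S : Finset (Fin N)) (SK : Finset (I2 N)),
  (∀ γ : ℝ, 0 < γ → Ex (s - γ) S SK) → Ex s S SK

end Pool.Agent.MP_5168f5_an.H17F
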