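import Pool.Agent.MP_5168f5_an.H17F.SqApi
import Pool.Agent.MP_5168f5_an.H17S.GOODA

/-! Sticky Kakeya sets have full dimension: the steps put together. -/

namespace Pool.Agent.MP_5168f5_an.H17F

open H19 H17S Filter

/-- All the steps. -/
structure Rows : Prop where
  ke : KE
  kg : SKG
  ks : SKS
  side : SSide
  pull : SPull
  exb : SExb
  condB : SCondB
  zoomB : SZoomB
  zsc : SZsc
  low : SLow
  lb0 : SLb0
  lb : SLb
  exa1 : SExa1
  exa : SExa
  cond : SCond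
  coarse : SCoarse
  ng : SNG
  mn : SMN
  two : STwo
  twoB : STwoB
  lip1 : SLip1
  lip : SLip
  nc : NC
  loc1 : SLoc1
  loc2 : Loc2
  key : SKey
  g1 : SG1
  g2 : SG2
  g3 : SG3
  trans : STrans
  st1 : SSt1
  ind : Ind
  kcl : SKcl
  det0 : Det0
  det1 : Det1
  det2 : Det2
  det3 : SDet3
  det4 : Det4
  base : SBase
  tay : STay
  step : SStep
  fin : SEnd
  ex0 : Ex0
  diag : Diag

theorem Rows.zs (h : Rows) (N : ℕ) : Zsc N :=
  h.zsc N (h.side N 0).1 (h.condB h.ke (h.ks h.ke) N (h.exb N)) (h.zoomB N (h.exb N))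

theorem Rows.clo (h : Rows) {N : ℕ} {s : ℝ} (hG : Good N s) : Clo N s := by
  have l0 : ∀ S, Lb0 N s S := fun S => (h.lb0 N s S).1 (h.exb N) (h.low N s hG)
  have l1 : ∀ S, Lb N s S := fun S => h.lb N s S (h.zs N) (l0 S)
  have ea := h.exa N s (h.exb N) l1 (h.exa1 N s (h.exb N) l1)
  exact ⟨h.ke, h.kg h.ke, h.ks h.ke, (h.side N s).2, h.pull N s,
    h.cond h.ke (h.ks h.ke) N s (h.condB h.ke (h.ks h.ke) N (h.exb N)) l0,
    h.coarse N s (h.exb N) ea, h.exb N, ea, l1⟩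

theorem Rows.nonpos (h : Rows) {N : ℕ} {s : ℝ} (hG : Good N s) (hN : 0 < N)
    (h0 : Ex s (∅ : Finset (Fin N)) Finset.univ) : s ≤ 0 := by
  classical
  have cl := h.clo hG
  obtain ⟨S, hS, hmax⟩ := Finset.exists_max_image
    (Finset.univ.filter fun S : Finset (Fin N) => Ex s S Finset.univ) Finset.card
    ⟨∅, Finset.mem_filter.2 ⟨Finset.mem_univ _, h0⟩⟩
  obtain ⟨SK, hK, hmin⟩ := Finset.exists_min_image
    (Finset.univ.filter fun SK : Finset (I2 N) => Ex s S SK) Finset.card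
    ⟨Finset.univ, Finset.mem_filter.2 ⟨Finset.mem_univ _, (Finset.mem_filter.1 hS).2⟩⟩
  have hK := (Finset.mem_filter.1 hK).2
  have e1 : ∀ i : Fin N, ∃ γ : ℝ, 0 < γ ∧ (i ∉ S → ¬Ex (s - γ) (insert i S) Finset.univ) := by
    intro i
    by_contra k
    push Not at k
    have k1 := (k 1 one_pos).1
    have := hmax _ (Finset.mem_filter.2 ⟨Finset.mem_univ _,
      h.diag N s (insert i S) Finset.univ fun γ hγ => (k γ hγ).2⟩)
    rw [Finset.card_insert_of_notMem k1] at this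
    omega
  choose γ γ0 hγ using e1
  obtain ⟨i0, -, hi⟩ := Finset.exists_min_image Finset.univ γ ⟨⟨0, hN⟩, Finset.mem_univ _⟩
  have a0 : 0 < min (γ i0) 1 := lt_min (γ0 i0) one_pos
  have a1 := min_le_right (γ i0) 1
  have ng : NG N s S (min (γ i0) 1) := h.ng N s _ S cl a1 fun i hi' =>
    h.lb N _ _ (h.zs N) ((h.lb0 N _ _).2 fun k => hγ i hi' (k.mono (by
      have := hi i (Finset.mem_univ i)
      have := min_le_left (γ i0) 1
      linarith)))
  have mn : MN N s S SK := h.mn N s S SK cl fun j hj k => by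
    have := hmin _ (Finset.mem_filter.2 ⟨Finset.mem_univ _, k⟩)
    rw [Finset.card_erase_of_mem hj] at this
    have := Finset.card_pos.2 ⟨j, hj⟩
    omega
  have tb := h.twoB N s cl
  have l1 := h.loc1 N s cl tb
  have ky := h.key N s cl tb l1
  obtain ⟨c, c0, c1, st⟩ := h.st1 N s _ S cl h.nc l1 h.loc2 (h.g1 N s cl l1 h.loc2 ky)
    (h.g2 N s cl l1 ky) (h.g3 N s cl l1) a0 a1 (h.trans N s _ S cl tb ng)
  have all : ∀ j, ExD s S SK j := by
    intro j
    induction j with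
    | zero => exact h.base N s S SK cl h.det0 (h.det3 h.det0 h.det1) mn hK
    | succ j ih =>
      exact h.step N s c S SK j cl (h.two N s cl) tb (h.tay h.det1 h.det2) c0 c1
        (h.lip N s _ S cl tb (h.lip1 N s cl) a0 a1 ng)
        (h.kcl N s c S SK cl h.ind l1 hN c0 c1 st mn) ih
  exact h.fin N s S SK cl h.det0 h.det4 (all _)

theorem Rows.good (h : Rows) (N : ℕ) : Good N 0 := by
  have hN : (N : ℝ) ∈ {s : ℝ | 0 ≤ s ∧ Good N s} := ⟨Nat.cast_nonneg N, GOODA.top N⟩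
  have hb : BddBelow {s : ℝ | 0 ≤ s ∧ Good N s} := ⟨0, fun _ h => h.1⟩
  have a := le_csInf ⟨_, hN⟩ fun s (h : s ∈ {s : ℝ | 0 ≤ s ∧ Good N s}) => h.1
  have b := csInf_le hb hN
  have hG : Good N (sInf {s : ℝ | 0 ≤ s ∧ Good N s}) := GOODA.lim fun ε hε => by
    obtain ⟨s, h3, h4⟩ := exists_lt_of_csInf_lt ⟨_, hN⟩ (lt_add_of_pos_right _ hε)
    exact ⟨s, h4.le, h3.2⟩
  have low : ∀ s, 0 ≤ s → s < sInf {s : ℝ | 0 ≤ s ∧ Good N s} → ¬Good N s := fun s u v w =>
    absurd (csInf_le hb ⟨u, w⟩) (not_le.2 v)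
  set σ := sInf {s : ℝ | 0 ≤ s ∧ Good N s}
  rcases a.eq_or_lt with e | e
  · rwa [e]
  · have n0 : 0 < N := by exact_mod_cast e.trans_le b
    refine absurd (h.nonpos hG n0 (h.diag N σ _ _ fun γ hγ => ?_)) (not_le.2 e)
    refine (h.ex0 N (σ - min γ σ) (low _ ?_ ?_)).mono ?_
    · linarith [min_le_right γ σ]
    · linarith [lt_min hγ e]
    · linarith [min_le_left γ σ]

end Pool.Agent.MP_5168f5_an.H17F
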